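import Mathlib
import Pool.Agent.Helper559.Sieve

set_option autoImplicit false

open Finset

namespace Pool.Agent.H316R2

theorem sum_powerset_union {A B : Finset ℕ} (hd : Disjoint A B) (f : Finset ℕ → ℝ) :
    ∑ S ∈ (A ∪ B).powerset, f S = ∑ S ∈ A.powerset, ∑ T ∈ B.powerset, f (S ∪ T) := by
  rw [← sum_product']
  apply sum_nbij' (fun S => (S ∩ A, S ∩ B)) (fun p => p.1 ∪ p.2)
  · intro S _
    simp only [mem_product, mem_powerset]
    exact ⟨inter_subset_right, inter_subset_right⟩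
  · rintro ⟨S, T⟩ h
    simp only [mem_product, mem_powerset] at h ⊢
    exact union_subset_union h.1 h.2
  · intro S hS
    rw [mem_powerset] at hS
    simp only
    rw [← inter_union_distrib_left, inter_eq_left.mpr hS]
  · rintro ⟨S, T⟩ h
    simp only [mem_product, mem_powerset] at h
    have h1 : T ∩ A = ∅ := disjoint_iff_inter_eq_empty.mp ((hd.mono_right h.2).symm)
    have h2 : S ∩ B = ∅ := disjoint_iff_inter_eq_empty.mp (hd.mono_left h.1)
    simp only [union_inter_distrib_right, h1, h2, inter_eq_left.mpr h.1, inter_eq_left.mpr h.2,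
      union_empty, empty_union]
  · intro S hS
    rw [mem_powerset] at hS
    simp only
    rw [← inter_union_distrib_left, inter_eq_left.mpr hS]

/-- block factor -/
noncomputable def Fb (c : ℕ → ℕ → ℝ) (P : ℕ → Finset ℕ) (i : ℕ) (u : ℕ → ℝ) : ℝ :=
  ∑ S ∈ (P i).powerset, c i S.card * ∏ p ∈ S, u p

/-- union of the blocks -/
def QQ (P : ℕ → Finset ℕ) (m : ℕ) : Finset ℕ := (range m).biUnion P

theorem QQ_succ (P : ℕ → Finset ℕ) (m : ℕ) : QQ P (m + 1) = QQ P m ∪ P m := by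
  unfold QQ
  rw [range_add_one, biUnion_insert, union_comm]

theorem QQ_disj {P : ℕ → Finset ℕ} {m : ℕ} (hd : ∀ i < m + 1, ∀ j < m + 1, i ≠ j → Disjoint (P i) (P j)) :
    Disjoint (QQ P m) (P m) := by
  unfold QQ
  rw [disjoint_biUnion_left]
  intro i hi
  rw [mem_range] at hi
  exact hd i (by omega) m (by omega) (by omega)

theorem expand (c : ℕ → ℕ → ℝ) (P : ℕ → Finset ℕ) (u : ℕ → ℝ) (m : ℕ)
    (hd : ∀ i < m, ∀ j < m, i ≠ j → Disjoint (P i) (P j)) :
    ∏ i ∈ range m, Fb c P i u =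
      ∑ S ∈ (QQ P m).powerset, (∏ i ∈ range m, c i (S ∩ P i).card) * ∏ p ∈ S, u p := by
  induction m with
  | zero => simp [QQ]
  | succ m ih =>
    rw [prod_range_succ, ih (fun i hi j hj => hd i (by omega) j (by omega)), QQ_succ,
      sum_powerset_union (QQ_disj hd), Fb, sum_mul_sum]
    apply sum_congr rfl
    intro S hS
    rw [mem_powerset] at hS
    apply sum_congr rfl
    intro T hT
    rw [mem_powerset] at hT
    have hST : Disjoint S T := (QQ_disj hd).mono hS hT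
    rw [prod_union hST, prod_range_succ]
    have e1 : ∏ i ∈ range m, c i ((S ∪ T) ∩ P i).card = ∏ i ∈ range m, c i (S ∩ P i).card := by
      apply prod_congr rfl
      intro i hi
      rw [mem_range] at hi
      have h1 : T ∩ P i = ∅ := disjoint_iff_inter_eq_empty.mp
        ((hd m (by omega) i (by omega) (by omega)).mono_left hT)
      rw [union_inter_distrib_right, h1, union_empty]
    have e2 : (S ∪ T) ∩ P m = T := by
      have h1 : S ∩ P m = ∅ := disjoint_iff_inter_eq_empty.mp ((QQ_disj hd).mono_left hS)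
      rw [union_inter_distrib_right, h1, empty_union, inter_eq_left.mpr hT]
    rw [e1, e2]
    ring

/-- supports -/
def DD (P : ℕ → Finset ℕ) (b : ℕ → ℕ) (m : ℕ) : Finset (Finset ℕ) :=
  (QQ P m).powerset.filter (fun S => ∀ i ∈ range m, (S ∩ P i).card ≤ b i + 1)

theorem functional {ι : Type*} (Ω : Finset ι) (h : ι → ℝ) (u : ι → ℕ → ℝ) (g : ℕ → ℝ) (X : ℝ)
    (R : Finset ℕ → ℝ) (P : ℕ → Finset ℕ) (b : ℕ → ℕ) (m : ℕ)
    (hd : ∀ i < m, ∀ j < m, i ≠ j → Disjoint (P i) (P j))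
    (hR : ∀ S ⊆ QQ P m, ∑ n ∈ Ω, h n * ∏ p ∈ S, u n p = X * ∏ p ∈ S, g p + R S)
    (c : ℕ → ℕ → ℝ) (hc1 : ∀ i k, |c i k| ≤ 1) (hc2 : ∀ i k, b i + 1 < k → c i k = 0) :
    |∑ n ∈ Ω, h n * ∏ i ∈ range m, Fb c P i (u n) - X * ∏ i ∈ range m, Fb c P i g| ≤
      ∑ S ∈ DD P b m, |R S| := by
  have e1 : ∑ n ∈ Ω, h n * ∏ i ∈ range m, Fb c P i (u n) =
      ∑ S ∈ (QQ P m).powerset, (∏ i ∈ range m, c i (S ∩ P i).card) *
        ∑ n ∈ Ω, h n * ∏ p ∈ S, u n p := by
    simp_rw [mul_sum]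
    rw [sum_comm]
    apply sum_congr rfl
    intro n _
    rw [expand c P (u n) m hd, mul_sum]
    apply sum_congr rfl
    intro S _
    ring
  have e2 : ∑ n ∈ Ω, h n * ∏ i ∈ range m, Fb c P i (u n) - X * ∏ i ∈ range m, Fb c P i g =
      ∑ S ∈ (QQ P m).powerset, (∏ i ∈ range m, c i (S ∩ P i).card) * R S := by
    rw [e1, expand c P g m hd, mul_sum, ← sum_sub_distrib]
    apply sum_congr rfl
    intro S hS
    rw [hR S (mem_powerset.mp hS)]
    ring
  rw [e2]
  refine (abs_sum_le_sum_abs _ _).trans ?_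
  unfold DD
  rw [sum_filter]
  apply sum_le_sum
  intro S _
  rw [abs_mul, abs_prod]
  split_ifs with h1
  · have : ∏ i ∈ range m, |c i (S ∩ P i).card| ≤ 1 := prod_le_one (fun _ _ => abs_nonneg _)
      (fun i _ => hc1 i _)
    calc _ ≤ 1 * |R S| := mul_le_mul_of_nonneg_right this (abs_nonneg _)
      _ = _ := one_mul _
  · push Not at h1
    obtain ⟨i, hi, hlt⟩ := h1
    rw [prod_eq_zero hi (by rw [hc2 i _ hlt, abs_zero]), zero_mul]

/-- even truncation coefficients -/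
noncomputable def cE (b : ℕ → ℕ) (i k : ℕ) : ℝ := if k ≤ b i then (-1) ^ k else 0

/-- mixed coefficients -/
noncomputable def cM (b : ℕ → ℕ) (l : ℕ) (i k : ℕ) : ℝ :=
  if i = l then (if k = b i + 1 then 1 else 0) else (if k ≤ b i then (-1) ^ k else 0)

/-- elementary symmetric sum -/
noncomputable def es (b : ℕ) (A : Finset ℕ) (u : ℕ → ℝ) : ℝ :=
  ∑ S ∈ A.powerset, if S.card = b + 1 then ∏ p ∈ S, u p else 0

theorem cE_trunc (b : ℕ → ℕ) (P : ℕ → Finset ℕ) (i : ℕ) (u : ℕ → ℝ) :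
    Fb (cE b) P i u = Helper559.trunc u (b i) (P i) := by
  unfold Fb Helper559.trunc cE
  apply sum_congr rfl
  intro S _
  split_ifs <;> simp

theorem trunc_succ (u : ℕ → ℝ) (b : ℕ) (hb : Even b) (A : Finset ℕ) :
    Helper559.trunc u (b + 1) A = Helper559.trunc u b A - es b A u := by
  unfold Helper559.trunc es
  rw [← sum_sub_distrib]
  apply sum_congr rfl
  intro S _
  rcases lt_trichotomy S.card (b + 1) with h | h | h
  · rw [if_pos (by omega), if_pos (by omega), if_neg (by omega)]; ring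
  · rw [if_pos (by omega), if_neg (by omega), if_pos h, h, pow_succ, hb.neg_one_pow]; ring
  · rw [if_neg (by omega), if_neg (by omega), if_neg (by omega)]; ring

theorem cE_ge (b : ℕ → ℕ) (hb : ∀ i, Even (b i)) (P : ℕ → Finset ℕ) (i : ℕ) (u : ℕ → ℝ)
    (h0 : ∀ p, 0 ≤ u p) (h1 : ∀ p, u p ≤ 1) :
    ∏ p ∈ P i, (1 - u p) ≤ Fb (cE b) P i u := by
  rw [cE_trunc]
  have := Helper559.bonferroni u (P i) (fun p _ => h0 p) (fun p _ => h1 p) (b i)
  rw [(hb i).neg_one_pow, one_mul] at this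
  linarith

theorem cE_le (b : ℕ → ℕ) (hb : ∀ i, Even (b i)) (P : ℕ → Finset ℕ) (i : ℕ) (u : ℕ → ℝ)
    (h0 : ∀ p, 0 ≤ u p) (h1 : ∀ p, u p ≤ 1) :
    Fb (cE b) P i u ≤ ∏ p ∈ P i, (1 - u p) + es (b i) (P i) u := by
  rw [cE_trunc]
  have := Helper559.bonferroni u (P i) (fun p _ => h0 p) (fun p _ => h1 p) (b i + 1)
  rw [trunc_succ u (b i) (hb i), pow_succ, (hb i).neg_one_pow] at this
  linarith

theorem es_nonneg (b : ℕ) (A : Finset ℕ) (u : ℕ → ℝ) (h0 : ∀ p, 0 ≤ u p) : 0 ≤ es b A u := by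
  unfold es
  apply sum_nonneg
  intro S _
  split_ifs
  · exact prod_nonneg fun p _ => h0 p
  · exact le_rfl

theorem prod_one_sub_nonneg (A : Finset ℕ) (u : ℕ → ℝ) (h1 : ∀ p, u p ≤ 1) :
    0 ≤ ∏ p ∈ A, (1 - u p) := prod_nonneg fun p _ => by linarith [h1 p]

theorem prod_QQ (P : ℕ → Finset ℕ) (m : ℕ)
    (hd : ∀ i < m, ∀ j < m, i ≠ j → Disjoint (P i) (P j)) (f : ℕ → ℝ) :
    ∏ p ∈ QQ P m, f p = ∏ i ∈ range m, ∏ p ∈ P i, f p := by
  unfold QQ
  rw [prod_biUnion]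
  intro i hi j hj hij
  have hi' : i < m := by simpa using hi
  have hj' : j < m := by simpa using hj
  exact hd i hi' j hj' hij

theorem tele (x y : ℕ → ℝ) (hx : ∀ i, 0 ≤ x i) (hxy : ∀ i, x i ≤ y i) (m : ℕ) :
    ∏ i ∈ range m, y i - ∏ i ∈ range m, x i ≤
      ∑ l ∈ range m, ∏ i ∈ range m, (if i = l then y i - x i else y i) := by
  induction m with
  | zero => simp
  | succ m ih =>
    rw [prod_range_succ, prod_range_succ, sum_range_succ]
    have hX : 0 ≤ ∏ i ∈ range m, x i := prod_nonneg fun i _ => hx i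
    have hXY : ∏ i ∈ range m, x i ≤ ∏ i ∈ range m, y i :=
      prod_le_prod (fun i _ => hx i) (fun i _ => hxy i)
    have e1 : ∑ l ∈ range m, ∏ i ∈ range (m + 1), (if i = l then y i - x i else y i) =
        (∑ l ∈ range m, ∏ i ∈ range m, (if i = l then y i - x i else y i)) * y m := by
      rw [sum_mul]
      apply sum_congr rfl
      intro l hl
      rw [mem_range] at hl
      rw [prod_range_succ, if_neg (by omega)]
    have e2 : ∏ i ∈ range (m + 1), (if i = m then y i - x i else y i) =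
        (∏ i ∈ range m, y i) * (y m - x m) := by
      rw [prod_range_succ, if_pos rfl]
      congr 1
      apply prod_congr rfl
      intro i hi
      rw [mem_range] at hi
      rw [if_neg (by omega)]
    rw [e1, e2]
    have hy : 0 ≤ y m := (hx m).trans (hxy m)
    have h1 := mul_le_mul_of_nonneg_right ih hy
    have h2 : (∏ i ∈ range m, x i) * (y m - x m) ≤ (∏ i ∈ range m, y i) * (y m - x m) :=
      mul_le_mul_of_nonneg_right hXY (by linarith [hxy m])
    nlinarith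

theorem bh_upper {ι : Type*} (Ω : Finset ι) (h : ι → ℝ) (hh : ∀ n, 0 ≤ h n) (u : ι → ℕ → ℝ)
    (hu0 : ∀ n p, 0 ≤ u n p) (hu1 : ∀ n p, u n p ≤ 1) (g : ℕ → ℝ) (hg0 : ∀ p, 0 ≤ g p)
    (hg1 : ∀ p, g p ≤ 1) (X : ℝ) (hX : 0 ≤ X)
    (R : Finset ℕ → ℝ) (P : ℕ → Finset ℕ) (b : ℕ → ℕ) (hb : ∀ i, Even (b i)) (m : ℕ)
    (hd : ∀ i < m, ∀ j < m, i ≠ j → Disjoint (P i) (P j))
    (hR : ∀ S ⊆ QQ P m, ∑ n ∈ Ω, h n * ∏ p ∈ S, u n p = X * ∏ p ∈ S, g p + R S) :
    ∑ n ∈ Ω, h n * ∏ p ∈ QQ P m, (1 - u n p) ≤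
      X * ∏ i ∈ range m, (∏ p ∈ P i, (1 - g p) + es (b i) (P i) g) + ∑ S ∈ DD P b m, |R S| := by
  have h1 := functional Ω h u g X R P b m hd hR (cE b)
    (fun i k => by
      unfold cE; split_ifs
      · rw [abs_pow, abs_neg, abs_one, one_pow]
      · simp)
    (fun i k hk => by unfold cE; rw [if_neg (by omega)])
  have h2 : ∑ n ∈ Ω, h n * ∏ p ∈ QQ P m, (1 - u n p) ≤
      ∑ n ∈ Ω, h n * ∏ i ∈ range m, Fb (cE b) P i (u n) := by
    apply sum_le_sum
    intro n _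
    apply mul_le_mul_of_nonneg_left _ (hh n)
    rw [prod_QQ P m hd]
    exact prod_le_prod (fun i _ => prod_one_sub_nonneg _ _ (hu1 n))
      (fun i _ => cE_ge b hb P i (u n) (hu0 n) (hu1 n))
  have h3 : ∏ i ∈ range m, Fb (cE b) P i g ≤
      ∏ i ∈ range m, (∏ p ∈ P i, (1 - g p) + es (b i) (P i) g) :=
    prod_le_prod (fun i _ => (prod_one_sub_nonneg _ _ hg1).trans (cE_ge b hb P i g hg0 hg1))
      (fun i _ => cE_le b hb P i g hg0 hg1)
  have h4 := mul_le_mul_of_nonneg_left h3 hX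
  have h5 := (abs_le.mp h1).2
  linarith

theorem bh_lower {ι : Type*} (Ω : Finset ι) (h : ι → ℝ) (hh : ∀ n, 0 ≤ h n) (u : ι → ℕ → ℝ)
    (hu0 : ∀ n p, 0 ≤ u n p) (hu1 : ∀ n p, u n p ≤ 1) (g : ℕ → ℝ) (hg0 : ∀ p, 0 ≤ g p)
    (hg1 : ∀ p, g p < 1) (X : ℝ) (hX : 0 ≤ X)
    (R : Finset ℕ → ℝ) (P : ℕ → Finset ℕ) (b : ℕ → ℕ) (hb : ∀ i, Even (b i)) (m : ℕ)
    (hd : ∀ i < m, ∀ j < m, i ≠ j → Disjoint (P i) (P j))
    (hR : ∀ S ⊆ QQ P m, ∑ n ∈ Ω, h n * ∏ p ∈ S, u n p = X * ∏ p ∈ S, g p + R S)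
    (hs : ∑ i ∈ range m, es (b i) (P i) g / ∏ p ∈ P i, (1 - g p) ≤ 1) :
    X * (∏ p ∈ QQ P m, (1 - g p)) *
      (1 - ∑ i ∈ range m, es (b i) (P i) g / ∏ p ∈ P i, (1 - g p)) -
      (1 + m) * ∑ S ∈ DD P b m, |R S| ≤ ∑ n ∈ Ω, h n * ∏ p ∈ QQ P m, (1 - u n p) := by
  have hg1' : ∀ p, g p ≤ 1 := fun p => (hg1 p).le
  have h1 := functional Ω h u g X R P b m hd hR (cE b)
    (fun i k => by
      unfold cE; split_ifs
      · rw [abs_pow, abs_neg, abs_one, one_pow]
      · simp)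
    (fun i k hk => by unfold cE; rw [if_neg (by omega)])
  have h1' : ∀ l, _ := fun l => functional Ω h u g X R P b m hd hR (cM b l)
    (fun i k => by
      unfold cM; split_ifs
      · simp
      · simp
      · rw [abs_pow, abs_neg, abs_one, one_pow]
      · simp)
    (fun i k hk => by unfold cM; split_ifs <;> first | rfl | omega)
  -- the mixed factors
  have hM : ∀ l i : ℕ, ∀ v : ℕ → ℝ, Fb (cM b l) P i v =
      if i = l then es (b i) (P i) v else Fb (cE b) P i v := by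
    intro l i v
    by_cases hil : i = l
    · rw [if_pos hil]
      unfold Fb cM es
      apply sum_congr rfl
      intro S _
      rw [if_pos hil]
      split_ifs <;> simp
    · rw [if_neg hil]
      unfold Fb cM cE
      apply sum_congr rfl
      intro S _
      rw [if_neg hil]
  -- pointwise
  have h2 : ∀ n, ∏ i ∈ range m, Fb (cE b) P i (u n) -
      ∑ l ∈ range m, ∏ i ∈ range m, Fb (cM b l) P i (u n) ≤ ∏ p ∈ QQ P m, (1 - u n p) := by
    intro n
    rw [prod_QQ P m hd]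
    have ht := tele (fun i => ∏ p ∈ P i, (1 - u n p)) (fun i => Fb (cE b) P i (u n))
      (fun i => prod_one_sub_nonneg _ _ (hu1 n)) (fun i => cE_ge b hb P i (u n) (hu0 n) (hu1 n)) m
    have h3 : ∑ l ∈ range m, ∏ i ∈ range m, (if i = l then Fb (cE b) P i (u n) -
        ∏ p ∈ P i, (1 - u n p) else Fb (cE b) P i (u n)) ≤
        ∑ l ∈ range m, ∏ i ∈ range m, Fb (cM b l) P i (u n) := by
      apply sum_le_sum
      intro l _
      apply prod_le_prod
      · intro i _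
        have := cE_ge b hb P i (u n) (hu0 n) (hu1 n)
        have h0 := prod_one_sub_nonneg (P i) (u n) (hu1 n)
        split_ifs <;> linarith
      · intro i _
        rw [hM]
        split_ifs
        · have := cE_le b hb P i (u n) (hu0 n) (hu1 n)
          linarith
        · exact le_rfl
    linarith
  have h3 : ∑ n ∈ Ω, h n * ∏ i ∈ range m, Fb (cE b) P i (u n) -
      ∑ l ∈ range m, ∑ n ∈ Ω, h n * ∏ i ∈ range m, Fb (cM b l) P i (u n) ≤
      ∑ n ∈ Ω, h n * ∏ p ∈ QQ P m, (1 - u n p) := by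
    rw [sum_comm, ← sum_sub_distrib]
    apply sum_le_sum
    intro n _
    rw [← mul_sum, ← mul_sub]
    exact mul_le_mul_of_nonneg_left (h2 n) (hh n)
  set E := ∑ S ∈ DD P b m, |R S| with hE
  have h4 : ∑ l ∈ range m, ∑ n ∈ Ω, h n * ∏ i ∈ range m, Fb (cM b l) P i (u n) ≤
      ∑ l ∈ range m, X * ∏ i ∈ range m, Fb (cM b l) P i g + m * E := by
    calc _ ≤ ∑ l ∈ range m, (X * ∏ i ∈ range m, Fb (cM b l) P i g + E) := by
          apply sum_le_sum
          intro l _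
          have := (abs_le.mp (h1' l)).2
          linarith
      _ = _ := by rw [sum_add_distrib, sum_const, card_range, nsmul_eq_mul]
  have h5 := (abs_le.mp h1).1
  -- algebra
  have hV : ∀ i, 0 < ∏ p ∈ P i, (1 - g p) := fun i => prod_pos fun p _ => by linarith [hg1 p]
  have hτ : ∀ i, ∏ p ∈ P i, (1 - g p) ≤ Fb (cE b) P i g := fun i => cE_ge b hb P i g hg0 hg1'
  have hτ0 : ∀ i, 0 < Fb (cE b) P i g := fun i => (hV i).trans_le (hτ i)
  have h6 : ∑ l ∈ range m, X * ∏ i ∈ range m, Fb (cM b l) P i g =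
      X * ((∏ i ∈ range m, Fb (cE b) P i g) *
        ∑ l ∈ range m, es (b l) (P l) g / Fb (cE b) P l g) := by
    rw [← mul_sum]
    congr 1
    rw [mul_sum]
    apply sum_congr rfl
    intro l hl
    rw [← mul_prod_erase _ _ hl, ← mul_prod_erase (range m) (fun i => Fb (cE b) P i g) hl, hM,
      if_pos rfl]
    have : ∏ x ∈ (range m).erase l, Fb (cM b l) P x g = ∏ x ∈ (range m).erase l, Fb (cE b) P x g := by
      apply prod_congr rfl
      intro x hx
      rw [hM, if_neg (ne_of_mem_erase hx)]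
    rw [this]
    have := (hτ0 l).ne'
    field_simp
  have h7 : ∑ l ∈ range m, es (b l) (P l) g / Fb (cE b) P l g ≤
      ∑ i ∈ range m, es (b i) (P i) g / ∏ p ∈ P i, (1 - g p) := by
    apply sum_le_sum
    intro i _
    exact div_le_div_of_nonneg_left (es_nonneg _ _ _ hg0) (hV i) (hτ i)
  have h8 : (∏ p ∈ QQ P m, (1 - g p)) *
      (1 - ∑ i ∈ range m, es (b i) (P i) g / ∏ p ∈ P i, (1 - g p)) ≤
      (∏ i ∈ range m, Fb (cE b) P i g) * (1 - ∑ l ∈ range m, es (b l) (P l) g / Fb (cE b) P l g) := by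
    rw [prod_QQ P m hd]
    apply mul_le_mul
    · exact prod_le_prod (fun i _ => (hV i).le) (fun i _ => hτ i)
    · linarith
    · linarith
    · exact prod_nonneg fun i _ => (hτ0 i).le
  have h9 := mul_le_mul_of_nonneg_left h8 hX
  rw [h6] at h4
  nlinarith

end Pool.Agent.H316R2
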