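import Mathlib
import Pool.Agent.H316R2.BH

set_option autoImplicit false

open Finset

namespace Pool.Agent.H316R2

/-- blocks -/
def Pb (K : ℕ) (Q : Finset ℕ) : ℕ → Finset ℕ
  | 0 => Q.filter (fun p => p ≤ K)
  | (i + 1) => Q.filter (fun p => K ^ 2 ^ i < p ∧ p ≤ K ^ 2 ^ (i + 1))

/-- truncation levels -/
def bb (K m0 : ℕ) (i : ℕ) : ℕ := if i = 0 then 2 * K else 2 + 2 * (m0 - i)

theorem bb_even (K m0 i : ℕ) : Even (bb K m0 i) := by
  unfold bb; split_ifs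
  · exact even_two_mul K
  · exact (even_two).add (even_two_mul _)

theorem Pb_sub (K : ℕ) (Q : Finset ℕ) (i : ℕ) : Pb K Q i ⊆ Q := by
  cases i <;> exact filter_subset _ _

theorem Pb_le {K : ℕ} {Q : Finset ℕ} {i p : ℕ} (h : p ∈ Pb K Q i) : p ≤ K ^ 2 ^ i := by
  cases i with
  | zero => simpa using (mem_filter.mp h).2
  | succ i => exact (mem_filter.mp h).2.2

theorem Kpow_mono {K : ℕ} (hK : 2 ≤ K) {i j : ℕ} (h : i ≤ j) : K ^ 2 ^ i ≤ K ^ 2 ^ j :=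
  Nat.pow_le_pow_right (by omega) (Nat.pow_le_pow_right (by omega) h)

theorem Pb_disj_lt {K : ℕ} (hK : 2 ≤ K) (Q : Finset ℕ) {i j : ℕ} (h : i < j) :
    Disjoint (Pb K Q i) (Pb K Q j) := by
  rw [disjoint_left]
  intro p hp hp'
  have h1 := Pb_le hp
  obtain ⟨k, rfl⟩ : ∃ k, j = k + 1 := ⟨j - 1, by omega⟩
  have h2 := (mem_filter.mp hp').2.1
  have h3 := Kpow_mono hK (show i ≤ k by omega)
  omega

theorem Pb_disj {K : ℕ} (hK : 2 ≤ K) (Q : Finset ℕ) {i j : ℕ} (h : i ≠ j) :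
    Disjoint (Pb K Q i) (Pb K Q j) := by
  rcases Nat.lt_or_gt_of_ne h with h | h
  · exact Pb_disj_lt hK Q h
  · exact (Pb_disj_lt hK Q h).symm

theorem QQ_Pb {K : ℕ} (Q : Finset ℕ) (m0 : ℕ) (hQ : ∀ p ∈ Q, p ≤ K ^ 2 ^ m0) :
    QQ (Pb K Q) (m0 + 1) = Q := by
  apply subset_antisymm
  · unfold QQ
    rw [biUnion_subset]
    intro i _
    exact Pb_sub K Q i
  · intro p hp
    have hex : ∃ i, p ≤ K ^ 2 ^ i := ⟨m0, hQ p hp⟩
    have h1 := Nat.find_spec hex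
    have h2 : Nat.find hex ≤ m0 := Nat.find_min' hex (hQ p hp)
    unfold QQ
    rw [mem_biUnion]
    refine ⟨Nat.find hex, by rw [mem_range]; omega, ?_⟩
    rcases Nat.eq_zero_or_pos (Nat.find hex) with h | h
    · rw [h] at h1 ⊢
      exact mem_filter.mpr ⟨hp, by simpa using h1⟩
    · obtain ⟨k, hk⟩ : ∃ k, Nat.find hex = k + 1 := ⟨Nat.find hex - 1, by omega⟩
      have h3 := Nat.find_min hex (m := k) (by omega)
      rw [hk] at h1 ⊢
      exact mem_filter.mpr ⟨hp, not_le.mp h3, h1⟩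

theorem bern {s r : ℝ} (hs : 0 ≤ s) (hr : 0 ≤ r) (n : ℕ) :
    s ^ (n + 1) + (n + 1) * (r * s ^ n) ≤ (s + r) ^ (n + 1) := by
  induction n with
  | zero => simp
  | succ n ih =>
    have h1 : 0 ≤ s ^ n := by positivity
    calc s ^ (n + 1 + 1) + ((n + 1 : ℕ) + 1 : ℝ) * (r * s ^ (n + 1))
        ≤ (s + r) * (s ^ (n + 1) + (n + 1) * (r * s ^ n)) := by
          push_cast
          have h2 : 0 ≤ ((n : ℝ) + 1) * (r * (r * s ^ n)) := by positivity
          have e : (s + r) * (s ^ (n + 1) + (n + 1) * (r * s ^ n))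
            = s ^ (n + 1 + 1) + (n + 1 + 1) * (r * s ^ (n + 1)) + (n + 1) * (r * (r * s ^ n)) := by
            ring
          rw [e]; linarith
      _ ≤ (s + r) * (s + r) ^ (n + 1) := by gcongr
      _ = (s + r) ^ (n + 1 + 1) := by ring

theorem esk_le (g : ℕ → ℝ) (hg : ∀ p, 0 ≤ g p) (A : Finset ℕ) : ∀ k : ℕ,
    ∑ S ∈ A.powerset, (if S.card = k then ∏ p ∈ S, g p else 0) ≤
      (∑ p ∈ A, g p) ^ k / (k.factorial : ℝ) := by
  induction A using Finset.induction_on with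
  | empty =>
    intro k
    rw [powerset_empty, sum_singleton, card_empty, prod_empty, sum_empty]
    cases k with
    | zero => simp
    | succ k => simp
  | insert a A ha ih =>
    intro k
    have hs : 0 ≤ ∑ p ∈ A, g p := sum_nonneg fun p _ => hg p
    rw [sum_powerset_insert ha, sum_insert ha]
    have e : ∀ S ∈ A.powerset, (if (insert a S).card = k then ∏ p ∈ insert a S, g p else 0) =
        if S.card + 1 = k then g a * ∏ p ∈ S, g p else 0 := by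
      intro S hS
      have haS : a ∉ S := fun h => ha (mem_powerset.mp hS h)
      rw [card_insert_of_notMem haS, prod_insert haS]
    rw [sum_congr rfl e]
    cases k with
    | zero =>
      have h1 := ih 0
      have h2 : ∑ S ∈ A.powerset, (if S.card + 1 = 0 then g a * ∏ p ∈ S, g p else 0) = 0 :=
        sum_eq_zero fun S _ => by rw [if_neg (by omega)]
      rw [h2]
      simp
    | succ k =>
      have h1 := ih (k + 1)
      have h2 : ∑ S ∈ A.powerset, (if S.card + 1 = k + 1 then g a * ∏ p ∈ S, g p else 0) =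
          g a * ∑ S ∈ A.powerset, (if S.card = k then ∏ p ∈ S, g p else 0) := by
        rw [mul_sum]
        apply sum_congr rfl
        intro S _
        by_cases h : S.card = k
        · rw [if_pos (by omega), if_pos h]
        · rw [if_neg (by omega), if_neg h, mul_zero]
      rw [h2]
      have h3 := mul_le_mul_of_nonneg_left (ih k) (hg a)
      have h4 := bern hs (hg a) k
      have hf : (0:ℝ) < k.factorial := by exact_mod_cast k.factorial_pos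
      have e2 : ((k + 1).factorial : ℝ) = (k + 1) * k.factorial := by
        rw [Nat.factorial_succ]; push_cast; ring
      calc _ ≤ (∑ p ∈ A, g p) ^ (k + 1) / ((k + 1).factorial : ℝ) +
            g a * ((∑ p ∈ A, g p) ^ k / (k.factorial : ℝ)) := add_le_add h1 h3
        _ = ((∑ p ∈ A, g p) ^ (k + 1) + (k + 1) * (g a * (∑ p ∈ A, g p) ^ k)) /
            ((k + 1).factorial : ℝ) := by
            rw [e2]; field_simp
        _ ≤ _ := by
            rw [add_comm (g a)]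
            gcongr

theorem es_le (b : ℕ) (A : Finset ℕ) (g : ℕ → ℝ) (hg : ∀ p, 0 ≤ g p) (G : ℝ)
    (hG : ∑ p ∈ A, g p ≤ G) : es b A g ≤ G ^ (b + 1) / ((b + 1).factorial : ℝ) := by
  refine (esk_le g hg A (b + 1)).trans ?_
  have : 0 ≤ ∑ p ∈ A, g p := sum_nonneg fun p _ => hg p
  gcongr

theorem es_zero (b : ℕ) (A : Finset ℕ) (g : ℕ → ℝ) (h : A.card ≤ b) : es b A g = 0 := by
  unfold es
  apply sum_eq_zero
  intro S hS
  have := card_le_card (mem_powerset.mp hS)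
  rw [if_neg (by omega)]

theorem fact_ge (k : ℕ) : (6:ℝ) * 20 ^ k ≤ ((3 + 2 * k).factorial : ℝ) := by
  induction k with
  | zero => simp [Nat.factorial]
  | succ k ih =>
    have e : 3 + 2 * (k + 1) = (3 + 2 * k) + 1 + 1 := by ring
    rw [e, Nat.factorial_succ, Nat.factorial_succ]
    push_cast
    have h1 : (20:ℝ) ≤ (3 + 2 * k + 1 + 1) * (3 + 2 * k + 1) := by
      have : (0:ℝ) ≤ k := Nat.cast_nonneg k
      nlinarith
    have h2 : (0:ℝ) < ((3 + 2 * k).factorial : ℝ) := by exact_mod_cast Nat.factorial_pos _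
    calc (6:ℝ) * 20 ^ (k + 1) = 20 * (6 * 20 ^ k) := by ring
      _ ≤ ((3 + 2 * k + 1 + 1) * (3 + 2 * k + 1)) * ((3 + 2 * k).factorial : ℝ) := by gcongr
      _ = _ := by ring

theorem zeta_sum (K m0 : ℕ) (Q : Finset ℕ) (hQ : ∀ p ∈ Q, 1 ≤ p) (g : ℕ → ℝ) (hg : ∀ p, 0 ≤ g p)
    (G G' : ℝ) (hG0 : 0 ≤ G) (hG2 : G ^ 2 < 20)
    (hG : ∀ i, ∑ p ∈ Pb K Q (i + 1), g p ≤ G)
    (hG' : ∀ i, Real.exp (-G') ≤ ∏ p ∈ Pb K Q (i + 1), (1 - g p)) :
    ∑ i ∈ range (m0 + 1), es (bb K m0 i) (Pb K Q i) g / ∏ p ∈ Pb K Q i, (1 - g p) ≤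
      Real.exp G' * (G ^ 3 / 6) / (1 - G ^ 2 / 20) := by
  rw [sum_range_succ']
  have h0 : es (bb K m0 0) (Pb K Q 0) g = 0 := by
    apply es_zero
    have : Pb K Q 0 ⊆ Icc 1 K := by
      intro p hp
      have h := mem_filter.mp hp
      exact mem_Icc.mpr ⟨hQ p h.1, h.2⟩
    have h2 := card_le_card this
    rw [Nat.card_Icc] at h2
    unfold bb
    rw [if_pos rfl]; omega
  rw [h0, zero_div, add_zero]
  have h1 : ∀ i ∈ range m0, es (bb K m0 (i + 1)) (Pb K Q (i + 1)) g /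
      ∏ p ∈ Pb K Q (i + 1), (1 - g p) ≤ Real.exp G' * (G ^ 3 / 6) * (G ^ 2 / 20) ^ (m0 - 1 - i) := by
    intro i hi
    rw [mem_range] at hi
    have hb : bb K m0 (i + 1) + 1 = 3 + 2 * (m0 - 1 - i) := by
      unfold bb; rw [if_neg (by omega)]; omega
    have h2 := es_le (bb K m0 (i + 1)) (Pb K Q (i + 1)) g hg G (hG i)
    have hV : 0 < ∏ p ∈ Pb K Q (i + 1), (1 - g p) := (Real.exp_pos _).trans_le (hG' i)
    rw [div_le_iff₀ hV]
    rw [hb] at h2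
    have h3 : G ^ (3 + 2 * (m0 - 1 - i)) / ((3 + 2 * (m0 - 1 - i)).factorial : ℝ) ≤
        (G ^ 3 / 6) * (G ^ 2 / 20) ^ (m0 - 1 - i) := by
      have h4 := fact_ge (m0 - 1 - i)
      rw [div_pow, div_mul_div_comm, ← pow_mul, ← pow_add]
      exact div_le_div_of_nonneg_left (by positivity) (by positivity) h4
    have h5 : 1 ≤ Real.exp G' * ∏ p ∈ Pb K Q (i + 1), (1 - g p) := by
      calc (1:ℝ) = Real.exp G' * Real.exp (-G') := by rw [← Real.exp_add]; simp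
        _ ≤ _ := by have := hG' i; gcongr
    calc _ ≤ (G ^ 3 / 6) * (G ^ 2 / 20) ^ (m0 - 1 - i) * 1 := by rw [mul_one]; exact h2.trans h3
      _ ≤ (G ^ 3 / 6) * (G ^ 2 / 20) ^ (m0 - 1 - i) *
          (Real.exp G' * ∏ p ∈ Pb K Q (i + 1), (1 - g p)) := by gcongr
      _ = _ := by ring
  refine (sum_le_sum h1).trans ?_
  rw [← mul_sum]
  have e : ∑ i ∈ range m0, (G ^ 2 / 20) ^ (m0 - 1 - i) = ∑ i ∈ range m0, (G ^ 2 / 20) ^ i := by
    rw [sum_range_reflect (fun i => (G ^ 2 / 20) ^ i) m0]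
  rw [e]
  have hx : G ^ 2 / 20 < 1 := by rw [div_lt_one (by norm_num)]; exact hG2
  have h6 : ∑ i ∈ range m0, (G ^ 2 / 20) ^ i ≤ 1 / (1 - G ^ 2 / 20) := by
    rw [one_div]
    calc _ ≤ ∑' i : ℕ, (G ^ 2 / 20) ^ i :=
          (summable_geometric_of_lt_one (by positivity) hx).sum_le_tsum _ (fun i _ => by positivity)
      _ = _ := tsum_geometric_of_lt_one (by positivity) hx
  calc _ ≤ Real.exp G' * (G ^ 3 / 6) * (1 / (1 - G ^ 2 / 20)) := by gcongr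
    _ = _ := by ring

theorem lev_sum (n : ℕ) : ∑ k ∈ range n, ((3:ℝ) + 2 * k) * (2 * (1 / 2) ^ k) =
    20 - (2 * n + 5) * (4 * (1 / 2) ^ n) := by
  induction n with
  | zero => norm_num
  | succ n ih =>
    rw [sum_range_succ, ih]
    push_cast
    rw [pow_succ]
    ring

theorem level {K : ℕ} (hK : 2 ≤ K) (m0 : ℕ) (Q : Finset ℕ) (hQ1 : ∀ p ∈ Q, 1 ≤ p)
    (hQ : ∀ p ∈ Q, p ≤ K ^ 2 ^ m0) (w : ℕ) (hw : 1 ≤ w)
    (hm : m0 ≠ 0 → K ^ 2 ^ (m0 - 1) < w) (S : Finset ℕ)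
    (hS : S ∈ DD (Pb K Q) (bb K m0) (m0 + 1)) :
    S ⊆ Q ∧ ∏ p ∈ S, p ≤ K ^ (2 * K + 1) * w ^ 20 := by
  unfold DD at hS
  rw [mem_filter, mem_powerset, QQ_Pb Q m0 hQ] at hS
  obtain ⟨hSQ, hc⟩ := hS
  refine ⟨hSQ, ?_⟩
  have hSe : S = (range (m0 + 1)).biUnion (fun i => S ∩ Pb K Q i) := by
    rw [← inter_biUnion]
    have := QQ_Pb Q m0 hQ
    unfold QQ at this
    rw [this]
    exact (inter_eq_left.mpr hSQ).symm
  have hlK : 0 < Real.log K := Real.log_pos (by exact_mod_cast (by omega : 1 < K))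
  have hlw : 0 ≤ Real.log w := Real.log_natCast_nonneg w
  have hpos : (0:ℝ) < ((∏ p ∈ S, p : ℕ) : ℝ) := by
    have : 0 < ∏ p ∈ S, p := prod_pos fun p hp => hQ1 p (hSQ hp)
    exact_mod_cast this
  have hlog : Real.log ((∏ p ∈ S, p : ℕ) : ℝ) = ∑ i ∈ range (m0 + 1), ∑ p ∈ S ∩ Pb K Q i, Real.log p := by
    push_cast
    rw [Real.log_prod (fun p hp => by
      have := hQ1 p (hSQ hp)
      have h0 : (0:ℝ) < p := by exact_mod_cast this
      exact h0.ne')]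
    conv_lhs => rw [hSe]
    rw [sum_biUnion]
    intro i hi j hj hij
    exact (Pb_disj hK Q hij).mono inter_subset_right inter_subset_right
  have h0 : ∑ p ∈ S ∩ Pb K Q 0, Real.log p ≤ (2 * K + 1) * Real.log K := by
    calc _ ≤ ∑ p ∈ S ∩ Pb K Q 0, Real.log K := by
          apply sum_le_sum
          intro p hp
          rw [mem_inter] at hp
          have h1 := hQ1 p (hSQ hp.1)
          have h2 := Pb_le hp.2
          rw [pow_zero, pow_one] at h2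
          exact Real.log_le_log (by exact_mod_cast h1) (by exact_mod_cast h2)
      _ = ((S ∩ Pb K Q 0).card : ℝ) * Real.log K := by rw [sum_const, nsmul_eq_mul]
      _ ≤ _ := by
          have h1 := hc 0 (by rw [mem_range]; omega)
          unfold bb at h1
          rw [if_pos rfl] at h1
          have : ((S ∩ Pb K Q 0).card : ℝ) ≤ 2 * K + 1 := by exact_mod_cast h1
          gcongr
  have hi : ∀ i ∈ range m0, ∑ p ∈ S ∩ Pb K Q (i + 1), Real.log p ≤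
      ((3:ℝ) + 2 * (m0 - 1 - i : ℕ)) * (2 * (1 / 2) ^ (m0 - 1 - i)) * Real.log w := by
    intro i hi
    rw [mem_range] at hi
    have h1 := hm (by omega)
    have h2 : (2:ℝ) ^ (m0 - 1) * Real.log K ≤ Real.log w := by
      have := Real.log_le_log (x := ((K ^ 2 ^ (m0 - 1) : ℕ) : ℝ)) (y := (w:ℝ))
        (by have : 0 < K ^ 2 ^ (m0 - 1) := by positivity
            exact_mod_cast this) (by exact_mod_cast h1.le)
      push_cast at this
      rw [Real.log_pow] at this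
      push_cast at this
      exact this
    have h3 : ∀ p ∈ S ∩ Pb K Q (i + 1), Real.log p ≤ 2 * (1 / 2) ^ (m0 - 1 - i) * Real.log w := by
      intro p hp
      rw [mem_inter] at hp
      have h4 := hQ1 p (hSQ hp.1)
      have h5 := Pb_le hp.2
      have h6 := Real.log_le_log (x := (p:ℝ)) (y := ((K ^ 2 ^ (i + 1) : ℕ) : ℝ))
        (by exact_mod_cast h4) (by exact_mod_cast h5)
      push_cast at h6
      rw [Real.log_pow] at h6
      push_cast at h6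
      have e : (2:ℝ) ^ (i + 1) = 2 * (1 / 2) ^ (m0 - 1 - i) * 2 ^ (m0 - 1) := by
        have : m0 - 1 = (m0 - 1 - i) + i := by omega
        conv_rhs => rw [this]
        rw [show m0 - 1 - i + i - i = m0 - 1 - i by omega, pow_add, pow_succ, one_div, inv_pow]
        field_simp
        rw [pow_add]; ring
      rw [e] at h6
      calc _ ≤ _ := h6
        _ = 2 * (1 / 2) ^ (m0 - 1 - i) * (2 ^ (m0 - 1) * Real.log K) := by ring
        _ ≤ _ := by gcongr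
    calc _ ≤ ∑ p ∈ S ∩ Pb K Q (i + 1), (2 * (1 / 2) ^ (m0 - 1 - i) * Real.log w) := sum_le_sum h3
      _ = ((S ∩ Pb K Q (i + 1)).card : ℝ) * (2 * (1 / 2) ^ (m0 - 1 - i) * Real.log w) := by
          rw [sum_const, nsmul_eq_mul]
      _ ≤ ((3:ℝ) + 2 * (m0 - 1 - i : ℕ)) * (2 * (1 / 2) ^ (m0 - 1 - i) * Real.log w) := by
          have h5 := hc (i + 1) (by rw [mem_range]; omega)
          have hb : bb K m0 (i + 1) + 1 = 3 + 2 * (m0 - 1 - i) := by
            unfold bb; rw [if_neg (by omega)]; omega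
          rw [hb] at h5
          have : ((S ∩ Pb K Q (i + 1)).card : ℝ) ≤ 3 + 2 * (m0 - 1 - i : ℕ) := by exact_mod_cast h5
          gcongr
      _ = _ := by ring
  have htot : Real.log ((∏ p ∈ S, p : ℕ) : ℝ) ≤ (2 * K + 1) * Real.log K + 20 * Real.log w := by
    rw [hlog, sum_range_succ']
    have h1 := sum_le_sum hi
    have e : ∑ i ∈ range m0, ((3:ℝ) + 2 * (m0 - 1 - i : ℕ)) * (2 * (1 / 2) ^ (m0 - 1 - i)) * Real.log w =
        (20 - (2 * m0 + 5) * (4 * (1 / 2) ^ m0)) * Real.log w := by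
      rw [← sum_mul, sum_range_reflect (fun k => ((3:ℝ) + 2 * (k : ℕ)) * (2 * (1 / 2) ^ k)) m0, lev_sum]
    rw [e] at h1
    have h2 : 0 ≤ (2 * (m0:ℝ) + 5) * (4 * (1 / 2) ^ m0) * Real.log w := by positivity
    linarith
  have hfin : ((∏ p ∈ S, p : ℕ) : ℝ) ≤ ((K ^ (2 * K + 1) * w ^ 20 : ℕ) : ℝ) := by
    have hK0 : (0:ℝ) < K := by exact_mod_cast (by omega : 0 < K)
    have hw0 : (0:ℝ) < w := by exact_mod_cast hw
    rw [← Real.log_le_log_iff hpos (by push_cast; positivity)]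
    push_cast
    rw [Real.log_mul (by positivity) (by positivity), Real.log_pow, Real.log_pow]
    push_cast at htot ⊢
    exact htot
  exact_mod_cast hfin

theorem exists_m0 {K : ℕ} (hK : 2 ≤ K) (w : ℕ) : ∃ m0 : ℕ, w ≤ K ^ 2 ^ m0 ∧
    (m0 ≠ 0 → K ^ 2 ^ (m0 - 1) < w) ∧ (m0 : ℝ) ≤ 2 + 2 * Real.log w := by
  have hex : ∃ i, w ≤ K ^ 2 ^ i := by
    refine ⟨w, ?_⟩
    have h1 : w < 2 ^ w := Nat.lt_two_pow_self
    have h2 : 2 ^ w ≤ 2 ^ 2 ^ w := Nat.pow_le_pow_right (by omega) h1.le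
    have h3 : 2 ^ 2 ^ w ≤ K ^ 2 ^ w := Nat.pow_le_pow_left hK _
    omega
  have hlt : Nat.find hex ≠ 0 → K ^ 2 ^ (Nat.find hex - 1) < w := by
    intro h
    exact not_le.mp (Nat.find_min hex (m := Nat.find hex - 1) (by omega))
  refine ⟨Nat.find hex, Nat.find_spec hex, hlt, ?_⟩
  have hl0 := Real.log_natCast_nonneg w
  rcases Nat.eq_zero_or_pos (Nat.find hex) with h | h
  · rw [h]; push_cast; linarith
  · have h1 := hlt (by omega)
    have h2 : 2 ^ 2 ^ (Nat.find hex - 1) ≤ w :=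
      (Nat.pow_le_pow_left hK _).trans h1.le
    have h3 : Nat.find hex - 1 < 2 ^ (Nat.find hex - 1) := Nat.lt_two_pow_self
    have h4 : 2 ^ (Nat.find hex - 1) ≤ w :=
      (Nat.pow_le_pow_right (by omega) h3.le).trans h2
    have h5 := Real.log_le_log (x := ((2 ^ (Nat.find hex - 1) : ℕ) : ℝ)) (y := (w:ℝ))
      (by have : 0 < 2 ^ (Nat.find hex - 1) := by positivity
          exact_mod_cast this) (by exact_mod_cast h4)
    push_cast at h5
    rw [Real.log_pow] at h5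
    have h6 := Real.log_two_gt_d9
    have h7 : ((Nat.find hex - 1 : ℕ) : ℝ) = (Nat.find hex : ℝ) - 1 := by
      rw [Nat.cast_sub h]; simp
    rw [h7] at h5
    have h8 : (0:ℝ) ≤ (Nat.find hex : ℝ) - 1 := by
      have : (1:ℝ) ≤ (Nat.find hex : ℝ) := by exact_mod_cast h
      linarith
    nlinarith

theorem sieve_low {K : ℕ} (hK : 2 ≤ K) (Q : Finset ℕ) (hQ1 : ∀ p ∈ Q, 1 ≤ p) (w : ℕ) (hw : 1 ≤ w)
    (hQw : ∀ p ∈ Q, p ≤ w) (g : ℕ → ℝ) (hg0 : ∀ p, 0 ≤ g p) (hg1 : ∀ p, g p < 1) (G G' : ℝ)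
    (hG0 : 0 ≤ G) (hG2 : G ^ 2 < 20) (hGG : Real.exp G' * (G ^ 3 / 6) / (1 - G ^ 2 / 20) ≤ 3 / 4)
    (hG : ∀ i, ∑ p ∈ Pb K Q (i + 1), g p ≤ G)
    (hG' : ∀ i, Real.exp (-G') ≤ ∏ p ∈ Pb K Q (i + 1), (1 - g p))
    {ι : Type*} (Ω : Finset ι) (h : ι → ℝ) (hh : ∀ n, 0 ≤ h n) (u : ι → ℕ → ℝ)
    (hu0 : ∀ n p, 0 ≤ u n p) (hu1 : ∀ n p, u n p ≤ 1) (X : ℝ) (hX : 0 ≤ X) (R : Finset ℕ → ℝ)
    (hR : ∀ S ⊆ Q, ∑ n ∈ Ω, h n * ∏ p ∈ S, u n p = X * ∏ p ∈ S, g p + R S) :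
    1 / 4 * (X * ∏ p ∈ Q, (1 - g p)) - (4 + 2 * Real.log w) *
      ∑ S ∈ Q.powerset.filter (fun S => ∏ p ∈ S, p ≤ K ^ (2 * K + 1) * w ^ 20), |R S| ≤
      ∑ n ∈ Ω, h n * ∏ p ∈ Q, (1 - u n p) := by
  obtain ⟨m0, hm1, hm2, hm3⟩ := exists_m0 hK w
  have hQ : ∀ p ∈ Q, p ≤ K ^ 2 ^ m0 := fun p hp => (hQw p hp).trans hm1
  have hz := zeta_sum K m0 Q hQ1 g hg0 G G' hG0 hG2 hG hG'
  have hbh := bh_lower Ω h hh u hu0 hu1 g hg0 hg1 X hX R (Pb K Q) (bb K m0) (bb_even K m0) (m0 + 1)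
    (fun i _ j _ hij => Pb_disj hK Q hij) (by rw [QQ_Pb Q m0 hQ]; exact hR) (by linarith)
  rw [QQ_Pb Q m0 hQ] at hbh
  have hE : ∑ S ∈ DD (Pb K Q) (bb K m0) (m0 + 1), |R S| ≤
      ∑ S ∈ Q.powerset.filter (fun S => ∏ p ∈ S, p ≤ K ^ (2 * K + 1) * w ^ 20), |R S| := by
    apply sum_le_sum_of_subset_of_nonneg
    · intro S hS
      have := level hK m0 Q hQ1 hQ w hw hm2 S hS
      rw [mem_filter, mem_powerset]
      exact this
    · intro _ _ _; exact abs_nonneg _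
  have hE0 : 0 ≤ ∑ S ∈ DD (Pb K Q) (bb K m0) (m0 + 1), |R S| := sum_nonneg fun _ _ => abs_nonneg _
  have hm4 : (1 : ℝ) + (m0 + 1 : ℕ) ≤ 4 + 2 * Real.log w := by push_cast; linarith
  have hEE := mul_le_mul hm4 hE hE0 (by have := Real.log_natCast_nonneg w; linarith)
  have hXV : 0 ≤ X * ∏ p ∈ Q, (1 - g p) := mul_nonneg hX (prod_nonneg fun p _ => by linarith [hg1 p])
  have h1 : X * (∏ p ∈ Q, (1 - g p)) * (1 / 4) ≤ X * (∏ p ∈ Q, (1 - g p)) *
      (1 - ∑ i ∈ range (m0 + 1), es (bb K m0 i) (Pb K Q i) g / ∏ p ∈ Pb K Q i, (1 - g p)) := by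
    apply mul_le_mul_of_nonneg_left _ hXV
    linarith
  linarith

theorem sieve_up {K : ℕ} (hK : 2 ≤ K) (Q : Finset ℕ) (hQ1 : ∀ p ∈ Q, 1 ≤ p) (w : ℕ) (hw : 1 ≤ w)
    (hQw : ∀ p ∈ Q, p ≤ w) (g : ℕ → ℝ) (hg0 : ∀ p, 0 ≤ g p) (hg1 : ∀ p, g p < 1) (G G' : ℝ)
    (hG0 : 0 ≤ G) (hG2 : G ^ 2 < 20)
    (hG : ∀ i, ∑ p ∈ Pb K Q (i + 1), g p ≤ G)
    (hG' : ∀ i, Real.exp (-G') ≤ ∏ p ∈ Pb K Q (i + 1), (1 - g p))
    {ι : Type*} (Ω : Finset ι) (h : ι → ℝ) (hh : ∀ n, 0 ≤ h n) (u : ι → ℕ → ℝ)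
    (hu0 : ∀ n p, 0 ≤ u n p) (hu1 : ∀ n p, u n p ≤ 1) (X : ℝ) (hX : 0 ≤ X) (R : Finset ℕ → ℝ)
    (hR : ∀ S ⊆ Q, ∑ n ∈ Ω, h n * ∏ p ∈ S, u n p = X * ∏ p ∈ S, g p + R S) :
    ∑ n ∈ Ω, h n * ∏ p ∈ Q, (1 - u n p) ≤
      Real.exp (Real.exp G' * (G ^ 3 / 6) / (1 - G ^ 2 / 20)) * (X * ∏ p ∈ Q, (1 - g p)) +
      ∑ S ∈ Q.powerset.filter (fun S => ∏ p ∈ S, p ≤ K ^ (2 * K + 1) * w ^ 20), |R S| := by
  obtain ⟨m0, hm1, hm2, hm3⟩ := exists_m0 hK w
  have hQ : ∀ p ∈ Q, p ≤ K ^ 2 ^ m0 := fun p hp => (hQw p hp).trans hm1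
  have hz := zeta_sum K m0 Q hQ1 g hg0 G G' hG0 hG2 hG hG'
  have hbh := bh_upper Ω h hh u hu0 hu1 g hg0 (fun p => (hg1 p).le) X hX R (Pb K Q) (bb K m0)
    (bb_even K m0) (m0 + 1)
    (fun i _ j _ hij => Pb_disj hK Q hij) (by rw [QQ_Pb Q m0 hQ]; exact hR)
  have hVp : ∀ i, 0 < ∏ p ∈ Pb K Q i, (1 - g p) := fun i => prod_pos fun p _ => by linarith [hg1 p]
  rw [QQ_Pb Q m0 hQ] at hbh
  have hE : ∑ S ∈ DD (Pb K Q) (bb K m0) (m0 + 1), |R S| ≤
      ∑ S ∈ Q.powerset.filter (fun S => ∏ p ∈ S, p ≤ K ^ (2 * K + 1) * w ^ 20), |R S| := by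
    apply sum_le_sum_of_subset_of_nonneg
    · intro S hS
      have := level hK m0 Q hQ1 hQ w hw hm2 S hS
      rw [mem_filter, mem_powerset]
      exact this
    · intro _ _ _; exact abs_nonneg _
  have h1 : ∏ i ∈ range (m0 + 1), (∏ p ∈ Pb K Q i, (1 - g p) + es (bb K m0 i) (Pb K Q i) g) ≤
      Real.exp (Real.exp G' * (G ^ 3 / 6) / (1 - G ^ 2 / 20)) * ∏ p ∈ Q, (1 - g p) := by
    have e1 : ∏ p ∈ Q, (1 - g p) = ∏ i ∈ range (m0 + 1), ∏ p ∈ Pb K Q i, (1 - g p) := by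
      rw [← prod_QQ (Pb K Q) (m0 + 1) (fun i _ j _ hij => Pb_disj hK Q hij), QQ_Pb Q m0 hQ]
    calc _ ≤ ∏ i ∈ range (m0 + 1), (Real.exp (es (bb K m0 i) (Pb K Q i) g / ∏ p ∈ Pb K Q i, (1 - g p)) *
          ∏ p ∈ Pb K Q i, (1 - g p)) := by
          apply prod_le_prod
          · intro i _
            have := es_nonneg (bb K m0 i) (Pb K Q i) g hg0
            have := hVp i
            positivity
          · intro i _
            have h2 := Real.add_one_le_exp (es (bb K m0 i) (Pb K Q i) g / ∏ p ∈ Pb K Q i, (1 - g p))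
            have h3 := mul_le_mul_of_nonneg_right h2 (hVp i).le
            have h4 : (es (bb K m0 i) (Pb K Q i) g / ∏ p ∈ Pb K Q i, (1 - g p) + 1) *
                ∏ p ∈ Pb K Q i, (1 - g p) = ∏ p ∈ Pb K Q i, (1 - g p) +
                es (bb K m0 i) (Pb K Q i) g := by
              have := (hVp i).ne'
              field_simp
              ring
            linarith
      _ = Real.exp (∑ i ∈ range (m0 + 1), es (bb K m0 i) (Pb K Q i) g / ∏ p ∈ Pb K Q i, (1 - g p)) *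
          ∏ p ∈ Q, (1 - g p) := by
          rw [prod_mul_distrib, Real.exp_sum, e1]
      _ ≤ _ := by
          have : 0 ≤ ∏ p ∈ Q, (1 - g p) := prod_nonneg fun p _ => by linarith [hg1 p]
          gcongr
  have h2 := mul_le_mul_of_nonneg_left h1 hX
  calc _ ≤ _ := hbh
    _ ≤ X * (Real.exp (Real.exp G' * (G ^ 3 / 6) / (1 - G ^ 2 / 20)) * ∏ p ∈ Q, (1 - g p)) + _ :=
        add_le_add h2 hE
    _ = _ := by ring

end Pool.Agent.H316R2
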