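import Mathlib

set_option autoImplicit false

open Finset MeasureTheory

namespace Pool.Agent.H316R2

/-- truncated power -/
noncomputable def pp (k : ℕ) (x : ℝ) : ℝ := if 0 ≤ x then x ^ k else 0

theorem pp_nonneg (k : ℕ) (x : ℝ) : 0 ≤ pp k x := by
  unfold pp; split_ifs with h
  · positivity
  · exact le_rfl

theorem pp_of_nonneg {k : ℕ} {x : ℝ} (h : 0 ≤ x) : pp k x = x ^ k := by
  unfold pp; rw [if_pos h]

theorem pp_of_neg {k : ℕ} {x : ℝ} (h : x < 0) : pp k x = 0 := by
  unfold pp; rw [if_neg (not_le.mpr h)]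

theorem pp_mono (k : ℕ) : Monotone (pp k) := by
  intro x y hxy
  unfold pp
  split_ifs with h1 h2 h2
  · exact pow_le_pow_left₀ h1 hxy k
  · exact absurd (h1.trans hxy) h2
  · positivity
  · exact le_rfl

theorem pp_int (k : ℕ) (a b : ℝ) : IntervalIntegrable (pp k) volume a b :=
  (pp_mono k).intervalIntegrable

theorem pp_integral_zero (k : ℕ) (b : ℝ) : ∫ x in (0:ℝ)..b, pp k x = pp (k + 1) b / (k + 1) := by
  rcases le_or_gt 0 b with hb | hb
  · have : ∫ x in (0:ℝ)..b, pp k x = ∫ x in (0:ℝ)..b, x ^ k := by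
      apply intervalIntegral.integral_congr
      intro x hx
      rw [Set.uIcc_of_le hb] at hx
      exact pp_of_nonneg hx.1
    rw [this, integral_pow, pp_of_nonneg hb]
    simp
  · rw [pp_of_neg hb, zero_div]
    rw [intervalIntegral.integral_symm]
    have : ∫ x in b..(0:ℝ), pp k x = ∫ x in b..(0:ℝ), (0:ℝ) := by
      apply intervalIntegral.integral_congr_ae
      have h0 : ∀ᵐ x : ℝ ∂volume, x ≠ 0 := by
        rw [ae_iff]; simp
      filter_upwards [h0] with x hx hx2
      rw [Set.uIoc_of_le hb.le] at hx2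
      exact pp_of_neg (lt_of_le_of_ne hx2.2 hx)
    rw [this]; simp

theorem pp_integral (k : ℕ) (a b : ℝ) :
    ∫ x in a..b, pp k x = (pp (k + 1) b - pp (k + 1) a) / (k + 1) := by
  have h := intervalIntegral.integral_interval_sub_left (pp_int k 0 b) (pp_int k 0 a)
  rw [← h, pp_integral_zero, pp_integral_zero]
  ring

/-- normalized spline -/
noncomputable def psi (k : ℕ) (τ x : ℝ) : ℝ :=
  (∑ j ∈ range (k + 2), (-1 : ℝ) ^ j * ((k + 1).choose j : ℝ) * pp k (x - j * τ)) /
    ((k.factorial : ℝ) * τ ^ k)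

theorem psi_int (k : ℕ) (τ a b : ℝ) : IntervalIntegrable (psi k τ) volume a b := by
  unfold psi
  apply IntervalIntegrable.div_const
  have : ∀ j ∈ range (k + 2), IntervalIntegrable
      (fun x => (-1 : ℝ) ^ j * ((k + 1).choose j : ℝ) * pp k (x - j * τ)) volume a b := by
    intro j _
    apply IntervalIntegrable.const_mul
    have hm : Monotone (fun x : ℝ => pp k (x - j * τ)) := fun x y h => pp_mono k (by linarith)
    exact hm.intervalIntegrable
  have h2 := IntervalIntegrable.sum (range (k + 2)) this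
  have e : (fun x => ∑ j ∈ range (k + 2), (-1 : ℝ) ^ j * ((k + 1).choose j : ℝ) * pp k (x - j * τ)) =
      ∑ j ∈ range (k + 2), fun x => (-1 : ℝ) ^ j * ((k + 1).choose j : ℝ) * pp k (x - j * τ) := by
    ext x; rw [Finset.sum_apply]
  rw [e]
  exact h2

theorem pp_shift_integral (k : ℕ) (c τ x : ℝ) :
    ∫ s in (x - τ)..x, pp k (s - c) = (pp (k + 1) (x - c) - pp (k + 1) (x - c - τ)) / (k + 1) := by
  rw [intervalIntegral.integral_comp_sub_right (fun s => pp k s) c, pp_integral]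
  congr 2
  congr 1
  ring_nf

theorem choose_aux (m : ℕ) (f : ℕ → ℝ) :
    ∑ j ∈ range (m + 1), (-1 : ℝ) ^ j * (m.choose j : ℝ) * (f j - f (j + 1)) =
      ∑ j ∈ range (m + 2), (-1 : ℝ) ^ j * ((m + 1).choose j : ℝ) * f j := by
  have h1 : ∑ j ∈ range (m + 1), (-1 : ℝ) ^ j * (m.choose j : ℝ) * (f j - f (j + 1)) =
      ∑ j ∈ range (m + 1), (-1 : ℝ) ^ j * (m.choose j : ℝ) * f j -
        ∑ j ∈ range (m + 1), (-1 : ℝ) ^ j * (m.choose j : ℝ) * f (j + 1) := by
    rw [← sum_sub_distrib]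
    apply sum_congr rfl
    intro j _
    ring
  have h2 : ∑ j ∈ range (m + 2), (-1 : ℝ) ^ j * ((m + 1).choose j : ℝ) * f j =
      f 0 + ∑ j ∈ range (m + 1), (-1 : ℝ) ^ (j + 1) * ((m + 1).choose (j + 1) : ℝ) * f (j + 1) := by
    rw [sum_range_succ']
    simp
    ring
  have h3 : ∑ j ∈ range (m + 1), (-1 : ℝ) ^ (j + 1) * ((m + 1).choose (j + 1) : ℝ) * f (j + 1) =
      ∑ j ∈ range (m + 1), (-1 : ℝ) ^ (j + 1) * (m.choose (j + 1) : ℝ) * f (j + 1) -
      ∑ j ∈ range (m + 1), (-1 : ℝ) ^ j * (m.choose j : ℝ) * f (j + 1) := by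
    rw [← sum_sub_distrib]
    apply sum_congr rfl
    intro j _
    rw [Nat.choose_succ_succ]
    push_cast
    ring
  have h4 : ∑ j ∈ range (m + 1), (-1 : ℝ) ^ j * (m.choose j : ℝ) * f j =
      f 0 + ∑ j ∈ range (m + 1), (-1 : ℝ) ^ (j + 1) * (m.choose (j + 1) : ℝ) * f (j + 1) := by
    have e := sum_range_succ' (fun j => (-1 : ℝ) ^ j * (m.choose j : ℝ) * f j) (m + 1)
    have e2 := sum_range_succ (fun j => (-1 : ℝ) ^ j * (m.choose j : ℝ) * f j) (m + 1)
    rw [e2] at e
    simp at e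
    linarith
  rw [h1, h2, h3, h4]
  ring

theorem psi_succ (k : ℕ) {τ : ℝ} (hτ : 0 < τ) (x : ℝ) :
    psi (k + 1) τ x = (1 / τ) * ∫ s in (x - τ)..x, psi k τ s := by
  have h1 : ∫ s in (x - τ)..x, psi k τ s =
      (∑ j ∈ range (k + 2), (-1 : ℝ) ^ j * ((k + 1).choose j : ℝ) *
        ∫ s in (x - τ)..x, pp k (s - j * τ)) / ((k.factorial : ℝ) * τ ^ k) := by
    unfold psi
    rw [intervalIntegral.integral_div, intervalIntegral.integral_finsetSum]
    · congr 1
      apply sum_congr rfl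
      intro j _
      rw [intervalIntegral.integral_const_mul]
    · intro j _
      apply IntervalIntegrable.const_mul
      have hm : Monotone (fun x : ℝ => pp k (x - j * τ)) := fun x y h => pp_mono k (by linarith)
      exact hm.intervalIntegrable
  rw [h1]
  have h2 : ∑ j ∈ range (k + 2), (-1 : ℝ) ^ j * ((k + 1).choose j : ℝ) *
        ∫ s in (x - τ)..x, pp k (s - j * τ) =
      (∑ j ∈ range (k + 2), (-1 : ℝ) ^ j * ((k + 1).choose j : ℝ) *
        ((fun j : ℕ => pp (k + 1) (x - j * τ)) j - (fun j : ℕ => pp (k + 1) (x - j * τ)) (j + 1))) / (k + 1) := by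
    rw [sum_div]
    apply sum_congr rfl
    intro j _
    rw [pp_shift_integral]
    have : x - (j : ℝ) * τ - τ = x - ((j + 1 : ℕ) : ℝ) * τ := by push_cast; ring
    rw [this]
    ring
  rw [h2, choose_aux]
  unfold psi
  rw [Nat.factorial_succ]
  push_cast
  have hk : ((k.factorial : ℝ)) ≠ 0 := by positivity
  have hk1 : ((k : ℝ) + 1) ≠ 0 := by positivity
  have hτ' : τ ≠ 0 := hτ.ne'
  rw [pow_succ]
  rw [div_div, one_div, div_eq_mul_inv, div_eq_mul_inv, mul_inv, mul_inv, mul_inv, mul_inv, mul_inv]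
  ring

theorem psi_zero (τ x : ℝ) : psi 0 τ x = pp 0 x - pp 0 (x - τ) := by
  unfold psi
  simp [sum_range_succ]
  ring

theorem psi_bounds (k : ℕ) {τ : ℝ} (hτ : 0 < τ) :
    ∀ x, 0 ≤ psi k τ x ∧ psi k τ x ≤ 1 ∧ (x < 0 → psi k τ x = 0) ∧
      ((k + 1 : ℝ) * τ ≤ x → psi k τ x = 0) := by
  induction k with
  | zero =>
    intro x
    rw [psi_zero]
    refine ⟨?_, ?_, ?_, ?_⟩
    · have := pp_mono 0 (show x - τ ≤ x by linarith)
      linarith
    · have h1 := pp_nonneg 0 (x - τ)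
      have h2 : pp 0 x ≤ 1 := by unfold pp; split_ifs <;> simp
      linarith
    · intro hx
      rw [pp_of_neg hx, pp_of_neg (by linarith)]
      simp
    · intro hx
      simp only [Nat.cast_zero, zero_add, one_mul] at hx
      rw [pp_of_nonneg (by linarith), pp_of_nonneg (by linarith)]
      simp
  | succ k ih =>
    intro x
    rw [psi_succ k hτ]
    have hle : x - τ ≤ x := by linarith
    refine ⟨?_, ?_, ?_, ?_⟩
    · apply mul_nonneg (by positivity)
      exact intervalIntegral.integral_nonneg hle fun s _ => (ih s).1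
    · have h1 : ∫ s in (x - τ)..x, psi k τ s ≤ ∫ s in (x - τ)..x, (1:ℝ) :=
        intervalIntegral.integral_mono_on hle (psi_int k τ _ _) (by simp) fun s _ => (ih s).2.1
      rw [intervalIntegral.integral_const] at h1
      simp at h1
      rw [one_div, inv_mul_le_iff₀ hτ]
      linarith
    · intro hx
      have : ∫ s in (x - τ)..x, psi k τ s = ∫ s in (x - τ)..x, (0:ℝ) := by
        apply intervalIntegral.integral_congr
        intro s hs
        rw [Set.uIcc_of_le hle] at hs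
        exact (ih s).2.2.1 (by linarith [hs.2])
      rw [this]; simp
    · intro hx
      push_cast at hx
      have : ∫ s in (x - τ)..x, psi k τ s = ∫ s in (x - τ)..x, (0:ℝ) := by
        apply intervalIntegral.integral_congr
        intro s hs
        rw [Set.uIcc_of_le hle] at hs
        exact (ih s).2.2.2 (by nlinarith [hs.1])
      rw [this]; simp

theorem psi_nonneg (k : ℕ) {τ : ℝ} (hτ : 0 < τ) (x : ℝ) : 0 ≤ psi k τ x := (psi_bounds k hτ x).1
theorem psi_le_one (k : ℕ) {τ : ℝ} (hτ : 0 < τ) (x : ℝ) : psi k τ x ≤ 1 := (psi_bounds k hτ x).2.1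
theorem psi_left (k : ℕ) {τ : ℝ} (hτ : 0 < τ) {x : ℝ} (hx : x < 0) : psi k τ x = 0 :=
  (psi_bounds k hτ x).2.2.1 hx
theorem psi_right (k : ℕ) {τ : ℝ} (hτ : 0 < τ) {x : ℝ} (hx : (k + 1 : ℝ) * τ ≤ x) :
    psi k τ x = 0 := (psi_bounds k hτ x).2.2.2 hx

theorem psi_lip (k : ℕ) {τ : ℝ} (hτ : 0 < τ) (x y : ℝ) :
    |psi (k + 1) τ x - psi (k + 1) τ y| ≤ |x - y| / τ := by
  wlog hxy : y ≤ x generalizing x y
  · have := this y x (by linarith [not_le.mp hxy])
    rwa [abs_sub_comm, abs_sub_comm x y]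
  rw [psi_succ k hτ, psi_succ k hτ, ← mul_sub, abs_mul, abs_of_pos (show 0 < 1 / τ by positivity),
    one_div, inv_mul_eq_div]
  apply div_le_div_of_nonneg_right _ hτ.le
  have i := fun a b => psi_int k τ a b
  have h1 : (∫ s in (x - τ)..x, psi k τ s) - ∫ s in (y - τ)..y, psi k τ s =
      (∫ s in y..x, psi k τ s) - ∫ s in (y - τ)..(x - τ), psi k τ s := by
    have e1 := intervalIntegral.integral_add_adjacent_intervals (i (y - τ) (x - τ)) (i (x - τ) x)
    have e2 := intervalIntegral.integral_add_adjacent_intervals (i (y - τ) y) (i y x)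
    linarith
  rw [h1]
  have b1 : ∀ a b : ℝ, a ≤ b → 0 ≤ (∫ s in a..b, psi k τ s) ∧ (∫ s in a..b, psi k τ s) ≤ b - a := by
    intro a b hab
    constructor
    · exact intervalIntegral.integral_nonneg hab fun s _ => psi_nonneg k hτ s
    · have h1 : ∫ s in a..b, psi k τ s ≤ ∫ s in a..b, (1:ℝ) :=
        intervalIntegral.integral_mono_on hab (i _ _) (by simp) fun s _ => psi_le_one k hτ s
      rw [intervalIntegral.integral_const] at h1
      simpa using h1
  have b2 := b1 y x hxy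
  have b3 := b1 (y - τ) (x - τ) (by linarith)
  rw [abs_of_nonneg (show 0 ≤ x - y by linarith), abs_le]
  constructor <;> linarith [b2.1, b2.2, b3.1, b3.2]

end Pool.Agent.H316R2
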