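import Mathlib
import Pool.Agent.H316R2.Spl
import Pool.Agent.H316R2.Blk
import Pool.Agent.Helper923.HMertens

set_option autoImplicit false

open Finset MeasureTheory

namespace Pool.Agent.H316R2

/-- averaging principle for the splines -/
theorem psi_avg (w : ℕ → ℝ) (N : ℕ) (τ v0 v1 A B : ℝ) (hτ : 0 < τ)
    (h : ∀ v, v0 + τ ≤ v → v ≤ v1 → A ≤ ∑ n ∈ Icc 1 N, w n * psi 0 τ (v - Real.log n) ∧
      ∑ n ∈ Icc 1 N, w n * psi 0 τ (v - Real.log n) ≤ B) (k : ℕ) :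
    ∀ v, v0 + (k + 1) * τ ≤ v → v ≤ v1 → A ≤ ∑ n ∈ Icc 1 N, w n * psi k τ (v - Real.log n) ∧
      ∑ n ∈ Icc 1 N, w n * psi k τ (v - Real.log n) ≤ B := by
  induction k with
  | zero =>
    intro v h1 h2
    exact h v (by push_cast at h1; linarith) h2
  | succ k ih =>
    intro v h1 h2
    have hint : ∀ n, IntervalIntegrable (fun s => w n * psi k τ (s - Real.log n)) volume (v - τ) v := by
      intro n
      apply IntervalIntegrable.const_mul
      have := (psi_int k τ (v - τ - Real.log n) (v - Real.log n)).comp_sub_right (Real.log n)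
      simpa using this
    have e : ∑ n ∈ Icc 1 N, w n * psi (k + 1) τ (v - Real.log n) =
        (1 / τ) * ∫ s in (v - τ)..v, ∑ n ∈ Icc 1 N, w n * psi k τ (s - Real.log n) := by
      rw [intervalIntegral.integral_finsetSum (fun n _ => hint n), mul_sum]
      apply sum_congr rfl
      intro n _
      rw [psi_succ k hτ, intervalIntegral.integral_const_mul,
        intervalIntegral.integral_comp_sub_right (fun s => psi k τ s) (Real.log n)]
      rw [show v - τ - Real.log n = v - Real.log n - τ by ring]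
      ring
    have hI : IntervalIntegrable (fun s => ∑ n ∈ Icc 1 N, w n * psi k τ (s - Real.log n))
        volume (v - τ) v := by
      have := IntervalIntegrable.sum (μ := volume) (a := v - τ) (b := v) (Icc 1 N)
        (f := fun n s => w n * psi k τ (s - Real.log n)) (fun n _ => hint n)
      have e0 : (fun s => ∑ n ∈ Icc 1 N, w n * psi k τ (s - Real.log n)) =
          ∑ n ∈ Icc 1 N, (fun s => w n * psi k τ (s - Real.log n)) := by
        funext s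
        rw [Finset.sum_apply]
      rw [e0]
      exact this
    push_cast at h1
    have hb : ∀ s ∈ Set.Icc (v - τ) v, A ≤ ∑ n ∈ Icc 1 N, w n * psi k τ (s - Real.log n) ∧
      ∑ n ∈ Icc 1 N, w n * psi k τ (s - Real.log n) ≤ B := by
      intro s hs
      exact ih s (by nlinarith [hs.1]) (by linarith [hs.2])
    have l1 : τ * A ≤ ∫ s in (v - τ)..v, ∑ n ∈ Icc 1 N, w n * psi k τ (s - Real.log n) := by
      have := intervalIntegral.integral_mono_on (by linarith) (by simp) hI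
        (f := fun _ => A) fun s hs => (hb s hs).1
      rw [intervalIntegral.integral_const] at this
      simpa using this
    have l2 : ∫ s in (v - τ)..v, ∑ n ∈ Icc 1 N, w n * psi k τ (s - Real.log n) ≤ τ * B := by
      have := intervalIntegral.integral_mono_on (by linarith) hI (by simp)
        (g := fun _ => B) fun s hs => (hb s hs).2
      rw [intervalIntegral.integral_const] at this
      simpa using this
    rw [e]
    constructor
    · rw [one_div, inv_mul_eq_div, le_div_iff₀ hτ]; linarith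
    · rw [one_div, inv_mul_eq_div, div_le_iff₀ hτ]; linarith

theorem pp0_eq (v : ℝ) (n : ℕ) (hn : 1 ≤ n) :
    pp 0 (v - Real.log n) = if (n:ℝ) ≤ Real.exp v then 1 else 0 := by
  have hn0 : (0:ℝ) < n := by exact_mod_cast hn
  unfold pp
  have : 0 ≤ v - Real.log n ↔ (n:ℝ) ≤ Real.exp v := by
    rw [sub_nonneg, Real.log_le_iff_le_exp hn0]
  by_cases h : (n:ℝ) ≤ Real.exp v
  · rw [if_pos (this.mpr h), if_pos h, pow_zero]
  · rw [if_neg (fun h' => h (this.mp h')), if_neg h]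

theorem sum_pp0 (w : ℕ → ℝ) (N : ℕ) (v : ℝ) (hN : Real.exp v ≤ N) :
    ∑ n ∈ Icc 1 N, w n * pp 0 (v - Real.log n) = ∑ n ∈ Icc 1 ⌊Real.exp v⌋₊, w n := by
  have h1 : ⌊Real.exp v⌋₊ ≤ N := by
    have := Nat.floor_le_floor hN
    rwa [Nat.floor_natCast] at this
  have h2 : Icc 1 ⌊Real.exp v⌋₊ ⊆ Icc 1 N := Icc_subset_Icc_right h1
  rw [← sum_subset h2 (f := fun n => w n * pp 0 (v - Real.log n))]
  · apply sum_congr rfl
    intro n hn
    rw [mem_Icc] at hn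
    rw [pp0_eq v n hn.1, if_pos ((Nat.le_floor_iff (Real.exp_pos v).le).mp hn.2), mul_one]
  · intro n hn hn'
    rw [mem_Icc] at hn hn'
    rw [pp0_eq v n hn.1, if_neg, mul_zero]
    intro h
    exact hn' ⟨hn.1, (Nat.le_floor_iff (Real.exp_pos v).le).mpr h⟩

theorem sum_psi0 (w : ℕ → ℝ) (N : ℕ) (τ v : ℝ) (hτ : 0 ≤ τ) (hN : Real.exp v ≤ N) :
    ∑ n ∈ Icc 1 N, w n * psi 0 τ (v - Real.log n) =
      ∑ n ∈ Icc 1 ⌊Real.exp v⌋₊, w n - ∑ n ∈ Icc 1 ⌊Real.exp (v - τ)⌋₊, w n := by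
  rw [← sum_pp0 w N v hN, ← sum_pp0 w N (v - τ) ((Real.exp_le_exp.mpr (by linarith)).trans hN),
    ← sum_sub_distrib]
  apply sum_congr rfl
  intro n _
  rw [psi_zero, show v - Real.log n - τ = v - τ - Real.log n by ring]
  ring

/-- prime weights log p / p -/
noncomputable def lw (n : ℕ) : ℝ := if n.Prime then Real.log n / n else 0

theorem lw_nonneg (n : ℕ) : 0 ≤ lw n := by
  unfold lw; split_ifs
  · have := Real.log_natCast_nonneg n; positivity
  · exact le_rfl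

theorem window : ∃ C : ℝ, 1 ≤ C ∧ ∀ v τ : ℝ, 0 ≤ τ → τ ≤ v → ∀ N : ℕ, Real.exp v ≤ N →
    |∑ n ∈ Icc 1 N, lw n * psi 0 τ (v - Real.log n) - τ| ≤ C := by
  obtain ⟨C, hC⟩ := Helper923.HMertens.mertens_log
  have hC0 : 0 ≤ C := (abs_nonneg _).trans (hC 1 le_rfl)
  have hw : ∀ M : ℕ, ∑ n ∈ Icc 1 M, lw n = ∑ p ∈ (Icc 1 M).filter Nat.Prime, Real.log p / p := by
    intro M; rw [sum_filter]; rfl
  have key : ∀ v : ℝ, 0 ≤ v → |∑ n ∈ Icc 1 ⌊Real.exp v⌋₊, lw n - v| ≤ C + 1 := by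
    intro v hv
    have h1 : 1 ≤ ⌊Real.exp v⌋₊ := by
      rw [Nat.one_le_floor_iff]; exact Real.one_le_exp hv
    have h2 := hC _ h1
    rw [← hw] at h2
    have h3 : (0:ℝ) < ⌊Real.exp v⌋₊ := by exact_mod_cast h1
    have h4 : Real.log ⌊Real.exp v⌋₊ ≤ v := by
      rw [Real.log_le_iff_le_exp h3]
      exact Nat.floor_le (Real.exp_pos v).le
    have h5 : v - 1 ≤ Real.log ⌊Real.exp v⌋₊ := by
      rw [Real.le_log_iff_exp_le h3]
      have h6 := Nat.lt_floor_add_one (Real.exp v)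
      have h7 : (1:ℝ) ≤ ⌊Real.exp v⌋₊ := by exact_mod_cast h1
      have h8 : Real.exp v = Real.exp 1 * Real.exp (v - 1) := by
        rw [← Real.exp_add]; congr 1; ring
      have h9 := Real.exp_one_gt_d9
      have h10 := Real.exp_pos (v - 1)
      nlinarith
    rw [abs_le] at h2 ⊢
    constructor <;> linarith [h2.1, h2.2]
  refine ⟨2 * C + 2, by linarith, ?_⟩
  intro v τ hτ hτv N hN
  rw [sum_psi0 lw N τ v hτ hN]
  have h1 := abs_le.mp (key v (by linarith))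
  have h2 := abs_le.mp (key (v - τ) (by linarith))
  rw [abs_le]
  constructor <;> linarith [h1.1, h1.2, h2.1, h2.2]

theorem one_sub_ge {x : ℝ} (h0 : 0 ≤ x) (h1 : x ≤ 1 / 2) : Real.exp (-(x + 2 * x ^ 2)) ≤ 1 - x := by
  have h2 : 0 < 1 - x := by linarith
  have h3 := Real.add_one_le_exp (x / (1 - x))
  have h4 : x / (1 - x) + 1 = 1 / (1 - x) := by field_simp; ring
  rw [h4] at h3
  have h5 : x / (1 - x) ≤ x + 2 * x ^ 2 := by
    rw [div_le_iff₀ h2]
    nlinarith [sq_nonneg x, mul_nonneg h0 (sq_nonneg x)]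
  have h6 := Real.exp_le_exp.mpr h5
  rw [Real.exp_neg, inv_eq_one_div, div_le_iff₀ (Real.exp_pos _)]
  rw [div_le_iff₀ h2] at h3
  nlinarith

theorem prod_ge (A : Finset ℕ) (g : ℕ → ℝ) (h0 : ∀ p ∈ A, 0 ≤ g p) (h1 : ∀ p ∈ A, g p ≤ 1 / 2) :
    Real.exp (-(∑ p ∈ A, g p + 2 * ∑ p ∈ A, g p ^ 2)) ≤ ∏ p ∈ A, (1 - g p) := by
  rw [mul_sum, ← sum_add_distrib, ← sum_neg_distrib, Real.exp_sum]
  exact prod_le_prod (fun _ _ => (Real.exp_pos _).le) fun p hp => one_sub_ge (h0 p hp) (h1 p hp)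

theorem inv_sq_sum (K : ℕ) (hK : 1 ≤ K) (A : Finset ℕ) (hA : ∀ p ∈ A, K < p) :
    ∑ p ∈ A, (1:ℝ) / (p * (p - 1)) ≤ 1 / K := by
  obtain ⟨M, hM⟩ : ∃ M, A ⊆ Ioc K M := by
    refine ⟨A.sup id, ?_⟩
    intro p hp
    rw [mem_Ioc]
    exact ⟨hA p hp, le_sup (f := id) hp⟩
  have h1 : ∑ p ∈ A, (1:ℝ) / (p * (p - 1)) ≤ ∑ p ∈ Ioc K M, (1:ℝ) / (p * (p - 1)) := by
    apply sum_le_sum_of_subset_of_nonneg hM
    intro p hp _
    rw [mem_Ioc] at hp
    have : (1:ℝ) < p := by exact_mod_cast (by omega : 1 < p)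
    apply div_nonneg zero_le_one
    apply mul_nonneg <;> linarith
  refine h1.trans ?_
  rcases le_or_gt K M with h | h
  · have h2 : ∀ M, K ≤ M → ∑ p ∈ Ioc K M, (1:ℝ) / (p * (p - 1)) = 1 / K - 1 / M := by
      intro M hM
      induction M, hM using Nat.le_induction with
      | base => simp
      | succ n hn ih =>
        rw [sum_Ioc_succ_top (by omega), ih]
        have hn0 : (0:ℝ) < n := by exact_mod_cast (by omega : 0 < n)
        have hK0 : (0:ℝ) < K := by exact_mod_cast (by omega : 0 < K)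
        push_cast
        rw [show ((n:ℝ) + 1 - 1) = n by ring]
        field_simp
        ring
    rw [h2 M h]
    have : (0:ℝ) ≤ 1 / M := by positivity
    linarith
  · rw [Ioc_eq_empty (by omega), sum_empty]
    positivity

theorem block_sum : ∃ K0 : ℕ, 100 ≤ K0 ∧ ∀ K : ℕ, K0 ≤ K → ∀ Q : Finset ℕ, (∀ p ∈ Q, p.Prime) →
    ∀ i : ℕ, ∑ p ∈ Pb K Q (i + 1), (1:ℝ) / p ≤ 7 / 10 := by
  obtain ⟨C, hC0, hC⟩ := Helper923.HMertens.mertens_ratio
  have hlim : Filter.Tendsto (fun n : ℕ => Real.log n) Filter.atTop Filter.atTop :=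
    Real.tendsto_log_atTop.comp tendsto_natCast_atTop_atTop
  obtain ⟨K1, hK1⟩ := Filter.eventually_atTop.mp (hlim.eventually_ge_atTop (C * 1000 + 1))
  refine ⟨max 100 K1, le_max_left _ _, ?_⟩
  intro K hK Q hQ i
  have hK2 : 100 ≤ K := (le_max_left _ _).trans hK
  have hlK := hK1 K ((le_max_right _ _).trans hK)
  have hlK0 : 0 < Real.log K := by nlinarith
  have hKi : 2 ≤ K ^ 2 ^ i := by
    calc 2 ≤ K := by omega
      _ = K ^ 1 := (pow_one K).symm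
      _ ≤ K ^ 2 ^ i := Nat.pow_le_pow_right (by omega) Nat.one_le_two_pow
  have h1 := hC (K ^ 2 ^ i) (K ^ 2 ^ (i + 1)) hKi (Kpow_mono (by omega) (by omega))
  have h2 : Real.log (Real.log ((K ^ 2 ^ (i + 1) : ℕ) : ℝ) / Real.log ((K ^ 2 ^ i : ℕ) : ℝ)) = Real.log 2 := by
    congr 1
    push_cast
    rw [Real.log_pow, Real.log_pow]
    push_cast
    rw [pow_succ]
    field_simp
  have h3 : C / Real.log ((K ^ 2 ^ i : ℕ) : ℝ) ≤ 1 / 1000 := by
    have h4 : Real.log K ≤ Real.log ((K ^ 2 ^ i : ℕ) : ℝ) := by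
      apply Real.log_le_log (by exact_mod_cast (by omega : 0 < K))
      have : K ^ 1 ≤ K ^ 2 ^ i := Nat.pow_le_pow_right (by omega) Nat.one_le_two_pow
      rw [pow_one] at this
      exact_mod_cast this
    rw [div_le_iff₀ (by linarith)]
    linarith
  rw [h2] at h1
  have h4 := (abs_le.mp h1).2
  have h5 : ∑ p ∈ Pb K Q (i + 1), (1:ℝ) / p ≤
      ∑ p ∈ (Ioc (K ^ 2 ^ i) (K ^ 2 ^ (i + 1))).filter Nat.Prime, (1:ℝ) / p := by
    apply sum_le_sum_of_subset_of_nonneg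
    · intro p hp
      have hp' := mem_filter.mp hp
      rw [mem_filter, mem_Ioc]
      exact ⟨hp'.2, hQ p hp'.1⟩
    · intro _ _ _; positivity
  have h6 := Real.log_two_lt_d9
  linarith

theorem Kle_pow {K i : ℕ} (hK : 1 ≤ K) : K ≤ K ^ 2 ^ i := by
  have : K ^ 1 ≤ K ^ 2 ^ i := Nat.pow_le_pow_right hK Nat.one_le_two_pow
  rwa [pow_one] at this

/-- one-dimensional lower bound sieve -/
theorem sieve1_low : ∃ K : ℕ, 2 ≤ K ∧ ∀ (Q : Finset ℕ) (w : ℕ), 1 ≤ w →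
    (∀ p ∈ Q, p.Prime ∧ 3 ≤ p ∧ p ≤ w) → ∀ (Ω : Finset ℕ) (h : ℕ → ℝ), (∀ n, 0 ≤ h n) →
    ∀ u : ℕ → ℕ → ℝ, (∀ n p, 0 ≤ u n p) → (∀ n p, u n p ≤ 1) → ∀ X : ℝ, 0 ≤ X →
    ∀ R : Finset ℕ → ℝ, (∀ S ⊆ Q, ∑ n ∈ Ω, h n * ∏ p ∈ S, u n p =
      X * ∏ p ∈ S, (1 / ((p:ℝ) - 1)) + R S) →
    1 / 4 * (X * ∏ p ∈ Q, (1 - 1 / ((p:ℝ) - 1))) - (4 + 2 * Real.log w) *
      ∑ S ∈ Q.powerset.filter (fun S => ∏ p ∈ S, p ≤ K ^ (2 * K + 1) * w ^ 20), |R S| ≤
      ∑ n ∈ Ω, h n * ∏ p ∈ Q, (1 - u n p) := by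
  obtain ⟨K, hK, hbs⟩ := block_sum
  refine ⟨K, by omega, ?_⟩
  intro Q w hw hQ Ω h hh u hu0 hu1 X hX R hR
  set g : ℕ → ℝ := fun p => if 3 ≤ p then 1 / ((p:ℝ) - 1) else 0 with hg
  have hg3 : ∀ p, 3 ≤ p → g p = 1 / ((p:ℝ) - 1) := fun p hp => by rw [hg]; simp only [if_pos hp]
  have hg0 : ∀ p, 0 ≤ g p := by
    intro p
    by_cases hp : 3 ≤ p
    · rw [hg3 p hp]
      have : (3:ℝ) ≤ p := by exact_mod_cast hp
      apply div_nonneg zero_le_one; linarith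
    · rw [hg]; simp only [if_neg hp]; exact le_rfl
  have hg1 : ∀ p, g p ≤ 1 / 2 := by
    intro p
    by_cases hp : 3 ≤ p
    · rw [hg3 p hp]
      have : (3:ℝ) ≤ p := by exact_mod_cast hp
      exact div_le_div_of_nonneg_left zero_le_one (by norm_num) (by linarith)
    · rw [hg]; simp only [if_neg hp]; norm_num
  have hblk : ∀ i, ∀ p ∈ Pb K Q (i + 1), K < p ∧ p ∈ Q := by
    intro i p hp
    have := mem_filter.mp hp
    exact ⟨(Kle_pow (by omega)).trans_lt this.2.1, this.1⟩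
  have hK100 : (100:ℝ) ≤ K := by exact_mod_cast hK
  have hinv : ∀ i, ∑ p ∈ Pb K Q (i + 1), (1:ℝ) / (p * (p - 1)) ≤ 1 / 100 := by
    intro i
    refine (inv_sq_sum K (by omega) _ fun p hp => (hblk i p hp).1).trans ?_
    exact div_le_div_of_nonneg_left zero_le_one (by norm_num) hK100
  have hG : ∀ i, ∑ p ∈ Pb K Q (i + 1), g p ≤ 71 / 100 := by
    intro i
    have h1 : ∑ p ∈ Pb K Q (i + 1), g p = ∑ p ∈ Pb K Q (i + 1), (1:ℝ) / p +
        ∑ p ∈ Pb K Q (i + 1), (1:ℝ) / (p * (p - 1)) := by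
      rw [← sum_add_distrib]
      apply sum_congr rfl
      intro p hp
      have h2 := (hblk i p hp).1
      rw [hg3 p (by omega)]
      have h3 : (1:ℝ) < p := by exact_mod_cast (by omega : 1 < p)
      have h4 : (p:ℝ) ≠ 0 := by linarith
      have h5 : (p:ℝ) - 1 ≠ 0 := by linarith
      field_simp
      ring
    have h2 := hbs K le_rfl Q (fun p hp => (hQ p hp).1) i
    have h3 := hinv i
    rw [h1]; linarith
  have hG2 : ∀ i, ∑ p ∈ Pb K Q (i + 1), g p ^ 2 ≤ 2 / 100 := by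
    intro i
    calc _ ≤ ∑ p ∈ Pb K Q (i + 1), 2 * ((1:ℝ) / (p * (p - 1))) := by
          apply sum_le_sum
          intro p hp
          have h2 := (hblk i p hp).1
          rw [hg3 p (by omega)]
          have h3 : (2:ℝ) ≤ p := by exact_mod_cast (by omega : 2 ≤ p)
          rw [div_pow, one_pow, mul_one_div, div_le_div_iff₀ (by nlinarith) (by nlinarith)]
          nlinarith
      _ ≤ _ := by rw [← mul_sum]; linarith [hinv i]
  have hG' : ∀ i, Real.exp (-(3/4)) ≤ ∏ p ∈ Pb K Q (i + 1), (1 - g p) := by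
    intro i
    refine le_trans ?_ (prod_ge _ g (fun p _ => hg0 p) (fun p _ => hg1 p))
    apply Real.exp_le_exp.mpr
    linarith [hG i, hG2 i]
  have hnum : Real.exp (3/4) * ((71/100) ^ 3 / 6) / (1 - (71/100) ^ 2 / 20) ≤ 3 / 4 := by
    have h1 : Real.exp (3/4) ≤ Real.exp 1 := Real.exp_le_exp.mpr (by norm_num)
    have h2 := Real.exp_one_lt_d9
    rw [div_le_iff₀ (by norm_num)]
    nlinarith
  have hgQ : ∀ S ⊆ Q, ∏ p ∈ S, g p = ∏ p ∈ S, (1 / ((p:ℝ) - 1)) := by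
    intro S hS
    apply prod_congr rfl
    intro p hp
    exact hg3 p (hQ p (hS hp)).2.1
  have main := sieve_low (by omega : 2 ≤ K) Q (fun p hp => (hQ p hp).1.one_lt.le) w hw
    (fun p hp => (hQ p hp).2.2) g hg0 (fun p => by linarith [hg1 p]) (71/100) (3/4) (by norm_num)
    (by norm_num) hnum hG hG' Ω h hh u hu0 hu1 X hX R
    (fun S hS => by rw [hgQ S hS]; exact hR S hS)
  have e : ∏ p ∈ Q, (1 - g p) = ∏ p ∈ Q, (1 - 1 / ((p:ℝ) - 1)) :=
    prod_congr rfl fun p hp => by rw [hg3 p (hQ p hp).2.1]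
  rw [e] at main
  exact main

/-- two-dimensional upper bound sieve -/
theorem sieve2_up : ∃ K : ℕ, 2 ≤ K ∧ ∃ C : ℝ, 1 ≤ C ∧ ∀ (Q : Finset ℕ) (w : ℕ), 1 ≤ w →
    (∀ p ∈ Q, p.Prime ∧ p ≤ w) → ∀ g : ℕ → ℝ, (∀ p, 0 ≤ g p) → (∀ p, g p < 1) →
    (∀ p ∈ Q, g p ≤ 2 / p) → ∀ (Ω : Finset ℕ) (h : ℕ → ℝ), (∀ n, 0 ≤ h n) →
    ∀ u : ℕ → ℕ → ℝ, (∀ n p, 0 ≤ u n p) → (∀ n p, u n p ≤ 1) → ∀ X : ℝ, 0 ≤ X →
    ∀ R : Finset ℕ → ℝ, (∀ S ⊆ Q, ∑ n ∈ Ω, h n * ∏ p ∈ S, u n p = X * ∏ p ∈ S, g p + R S) →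
    ∑ n ∈ Ω, h n * ∏ p ∈ Q, (1 - u n p) ≤ C * (X * ∏ p ∈ Q, (1 - g p)) +
      ∑ S ∈ Q.powerset.filter (fun S => ∏ p ∈ S, p ≤ K ^ (2 * K + 1) * w ^ 20), |R S| := by
  obtain ⟨K, hK, hbs⟩ := block_sum
  refine ⟨K, by omega, Real.exp (Real.exp 2 * (2 ^ 3 / 6) / (1 - 2 ^ 2 / 20)), ?_, ?_⟩
  · apply Real.one_le_exp
    apply div_nonneg (by positivity) (by norm_num)
  intro Q w hw hQ g hg0 hg1 hg2 Ω h hh u hu0 hu1 X hX R hR
  have hblk : ∀ i, ∀ p ∈ Pb K Q (i + 1), K < p ∧ p ∈ Q := by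
    intro i p hp
    have := mem_filter.mp hp
    exact ⟨(Kle_pow (by omega)).trans_lt this.2.1, this.1⟩
  have hK100 : (100:ℝ) ≤ K := by exact_mod_cast hK
  have hinv : ∀ i, ∑ p ∈ Pb K Q (i + 1), (1:ℝ) / (p * (p - 1)) ≤ 1 / 100 := by
    intro i
    refine (inv_sq_sum K (by omega) _ fun p hp => (hblk i p hp).1).trans ?_
    exact div_le_div_of_nonneg_left zero_le_one (by norm_num) hK100
  have hG : ∀ i, ∑ p ∈ Pb K Q (i + 1), g p ≤ 14 / 10 := by
    intro i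
    calc _ ≤ ∑ p ∈ Pb K Q (i + 1), 2 * ((1:ℝ) / p) := by
          apply sum_le_sum
          intro p hp
          refine (hg2 p (hblk i p hp).2).trans (le_of_eq (by ring))
      _ ≤ _ := by
          rw [← mul_sum]
          linarith [hbs K le_rfl Q (fun p hp => (hQ p hp).1) i]
  have hG2 : ∀ i, ∑ p ∈ Pb K Q (i + 1), g p ^ 2 ≤ 4 / 100 := by
    intro i
    calc _ ≤ ∑ p ∈ Pb K Q (i + 1), 4 * ((1:ℝ) / (p * (p - 1))) := by
          apply sum_le_sum
          intro p hp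
          have h2 := (hblk i p hp).1
          have h3 : (2:ℝ) ≤ p := by exact_mod_cast (by omega : 2 ≤ p)
          have h4 := hg2 p (hblk i p hp).2
          calc g p ^ 2 ≤ (2 / (p:ℝ)) ^ 2 := pow_le_pow_left₀ (hg0 p) h4 2
            _ ≤ _ := by
              rw [div_pow, mul_one_div, div_le_div_iff₀ (by nlinarith) (by nlinarith)]
              nlinarith
      _ ≤ _ := by rw [← mul_sum]; linarith [hinv i]
  have hG' : ∀ i, Real.exp (-2) ≤ ∏ p ∈ Pb K Q (i + 1), (1 - g p) := by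
    intro i
    refine le_trans ?_ (prod_ge _ g (fun p _ => hg0 p) (fun p hp => ?_))
    · apply Real.exp_le_exp.mpr
      linarith [hG i, hG2 i]
    · have h2 := (hblk i p hp).1
      have h3 : (100:ℝ) ≤ p := by exact_mod_cast (by omega : 100 ≤ p)
      refine (hg2 p (hblk i p hp).2).trans ?_
      rw [div_le_iff₀ (by linarith)]; linarith
  exact sieve_up (by omega : 2 ≤ K) Q (fun p hp => (hQ p hp).1.one_lt.le) w hw
    (fun p hp => (hQ p hp).2) g hg0 hg1 2 2 (by norm_num)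
    (by norm_num) (fun i => (hG i).trans (by norm_num)) hG' Ω h hh u hu0 hu1 X hX R hR

end Pool.Agent.H316R2
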