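import Mathlib
import Pool.Agent.H316R2.LS

set_option autoImplicit false

open Finset

namespace Pool.Agent.H316R2

open Pool.Agent.Helper112 Pool.Agent.Helper112.TI Pool.Agent.Helper112.TII Pool.Agent.Erdos456

/-- smooth weights on `[X, Y]` -/
structure Wt (Φ : ℕ → ℝ) (X Y : ℕ) : Prop where
  nonneg : ∀ n, 0 ≤ Φ n
  le_one : ∀ n, Φ n ≤ 1
  hi : ∀ n, Y < n → Φ n = 0
  lo : ∀ n, n < X → Φ n = 0
  lip : ∀ M j, 1 ≤ M → 1 ≤ j → |Φ (M * j) - Φ ((M + 1) * j)| ≤ 1 / (M : ℝ)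

theorem abelN {q : ℕ} [NeZero q] (χ : DirichletCharacter ℂ q) (hχ : χ ≠ 1) (g : ℕ → ℝ) (N : ℕ) :
    ‖∑ b ∈ Icc 1 N, χ (b : ZMod q) * (g b : ℂ)‖ ≤
      2 * q * (|g (N + 1)| + ∑ b ∈ Icc 1 N, |g b - g (b + 1)|) := by
  have hS : ∀ b : ℕ, ‖∑ i ∈ Icc 1 b, χ (i : ZMod q)‖ ≤ 2 * q := by
    intro b
    have h := norm_interval_le χ hχ 1 b
    have e : ∑ i ∈ Icc 1 b, χ (i : ZMod q) = ∑ i ∈ range b, χ ((1 + i : ℕ) : ZMod q) := by
      rw [show Icc 1 b = Ico 1 (1 + b) by ext x; simp only [mem_Icc, mem_Ico]; omega,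
        sum_Ico_eq_sum_range]
      simp
    rw [e]; exact h
  have key : ∑ b ∈ Icc 1 N, χ (b : ZMod q) * (g b : ℂ) =
      (∑ i ∈ Icc 1 N, χ (i : ZMod q)) * (g (N + 1) : ℂ) +
      ∑ b ∈ Icc 1 N, (∑ i ∈ Icc 1 b, χ (i : ZMod q)) * ((g b - g (b + 1) : ℝ) : ℂ) := by
    induction N with
    | zero => simp
    | succ N ih =>
      have h1 := sum_Icc_succ_top (show 1 ≤ N + 1 by omega) (fun b => χ (b : ZMod q) * (g b : ℂ))
      have h2 := sum_Icc_succ_top (show 1 ≤ N + 1 by omega) (fun i => χ (i : ZMod q))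
      have h3 := sum_Icc_succ_top (show 1 ≤ N + 1 by omega)
        (fun b => (∑ i ∈ Icc 1 b, χ (i : ZMod q)) * ((g b - g (b + 1) : ℝ) : ℂ))
      rw [h1, h3, ih, h2]
      push_cast
      ring
  rw [key]
  refine (norm_add_le _ _).trans ?_
  rw [mul_add]
  apply add_le_add
  · rw [norm_mul, Complex.norm_real, Real.norm_eq_abs]
    have := hS N
    gcongr
  · rw [mul_sum]
    refine (norm_sum_le _ _).trans (sum_le_sum ?_)
    intro b _
    rw [norm_mul, Complex.norm_real, Real.norm_eq_abs]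
    have := hS b
    gcongr

theorem inv_sq_tail (m N : ℕ) (hm : 1 ≤ m) : ∑ b ∈ Icc m N, (1:ℝ) / (b:ℝ) ^ 2 ≤ 2 / m := by
  have hm' : (1:ℝ) ≤ m := by exact_mod_cast hm
  have key : ∀ N, m ≤ N + 1 → ∑ b ∈ Icc m N, (1:ℝ) / (b:ℝ) ^ 2 ≤ 2 / m - 2 / (N + 1 : ℕ) := by
    intro N hN
    induction N with
    | zero =>
      have : m = 1 := by omega
      subst this
      simp
    | succ N ih =>
      rcases Nat.lt_or_ge (N + 1) m with h | h
      · have : m = N + 2 := by omega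
        subst this
        rw [Icc_eq_empty (by omega), sum_empty]
        apply le_of_eq
        push_cast
        ring
      · rw [sum_Icc_succ_top h]
        have h1 := ih (by omega)
        have hN' : (0:ℝ) < (N + 1 : ℕ) := by positivity
        have h2 : (1:ℝ) / ((N + 1 : ℕ) : ℝ) ^ 2 ≤ 2 / (N + 1 : ℕ) - 2 / (N + 1 + 1 : ℕ) := by
          have h0 : (1:ℝ) ≤ (N + 1 : ℕ) := by exact_mod_cast (show 1 ≤ N + 1 by omega)
          set x : ℝ := ((N + 1 : ℕ) : ℝ)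
          have e : ((N + 1 + 1 : ℕ) : ℝ) = x + 1 := by simp only [x]; push_cast; ring
          rw [e]
          rw [div_sub_div _ _ (by positivity) (by positivity), div_le_div_iff₀ (by positivity) (by positivity)]
          nlinarith
        linarith
  rcases Nat.lt_or_ge N m with h | h
  · rw [Icc_eq_empty (by omega)]
    simp only [sum_empty]
    positivity
  · have := key N (by omega)
    have h2 : (0:ℝ) ≤ 2 / (N + 1 : ℕ) := by positivity
    linarith

theorem typeI_inner {q : ℕ} [NeZero q] (χ : DirichletCharacter ℂ q) (hχ : χ ≠ 1) {Φ : ℕ → ℝ}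
    {X Y : ℕ} (hΦ : Wt Φ X Y) (h : ℕ → ℝ) (L : ℝ) (hL : 0 ≤ L)
    (h1 : ∀ b, 1 ≤ b → b ≤ Y → |h b| ≤ L / b) (h2 : ∀ b, 1 ≤ b → b ≤ Y → |h b - h (b + 1)| ≤ L / b ^ 2)
    (c : ℕ) (hc : 1 ≤ c) (hcX : 2 * c ≤ X) :
    ‖∑ b ∈ Icc 1 Y, χ (b : ZMod q) * ((h b * Φ (b * c) : ℝ) : ℂ)‖ ≤ 16 * q * L * c / X := by
  have hX0 : (0:ℝ) < X := by exact_mod_cast (show 0 < X by omega)
  have hc0 : (0:ℝ) < c := by exact_mod_cast hc
  refine (abelN χ hχ (fun b => h b * Φ (b * c)) Y).trans ?_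
  have e0 : Φ ((Y + 1) * c) = 0 := hΦ.hi _ (by nlinarith)
  rw [e0, mul_zero, abs_zero, zero_add]
  obtain ⟨m, hm⟩ : ∃ m : ℕ, m = (X + 2 * c - 1) / (2 * c) := ⟨_, rfl⟩
  have hm1 : 1 ≤ m := by
    rw [hm, Nat.one_le_div_iff (by omega)]; omega
  have hmX : X ≤ m * (2 * c) := by
    rw [hm]
    have := Nat.lt_div_mul_add (a := X + 2 * c - 1) (b := 2 * c) (by omega)
    omega
  have hb : ∀ b ∈ Icc 1 Y, |h b * Φ (b * c) - h (b + 1) * Φ ((b + 1) * c)| ≤
      if m ≤ b then 2 * L * (1 / (b:ℝ) ^ 2) else 0 := by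
    intro b hb
    rw [mem_Icc] at hb
    have hb0 : (0:ℝ) < b := by exact_mod_cast hb.1
    split_ifs with hmb
    · have e : h b * Φ (b * c) - h (b + 1) * Φ ((b + 1) * c) =
          h b * (Φ (b * c) - Φ ((b + 1) * c)) + (h b - h (b + 1)) * Φ ((b + 1) * c) := by ring
      rw [e]
      refine (abs_add_le _ _).trans ?_
      rw [abs_mul, abs_mul]
      have g1 := h1 b hb.1 hb.2
      have g2 := h2 b hb.1 hb.2
      have g3 := hΦ.lip b c hb.1 hc
      have g4 : |Φ ((b + 1) * c)| ≤ 1 := by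
        rw [abs_of_nonneg (hΦ.nonneg _)]; exact hΦ.le_one _
      calc |h b| * |Φ (b * c) - Φ ((b + 1) * c)| + |h b - h (b + 1)| * |Φ ((b + 1) * c)|
          ≤ (L / b) * (1 / b) + (L / b ^ 2) * 1 := by gcongr
        _ = 2 * L * (1 / (b:ℝ) ^ 2) := by ring
    · have hlt : (b + 1) * c < X := by
        by_contra hcon
        push Not at hcon
        apply hmb
        rw [hm]
        rw [Nat.div_le_iff_le_mul_add_pred (by omega)]
        have h5 : (b + 1) * c ≤ 2 * c * b := by nlinarith [hb.1]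
        omega
      have hlt2 : b * c < X := by nlinarith
      rw [hΦ.lo _ hlt, hΦ.lo _ hlt2]
      simp
  calc 2 * (q:ℝ) * ∑ b ∈ Icc 1 Y, |h b * Φ (b * c) - h (b + 1) * Φ ((b + 1) * c)|
      ≤ 2 * q * ∑ b ∈ Icc 1 Y, (if m ≤ b then 2 * L * (1 / (b:ℝ) ^ 2) else 0) := by
        gcongr with b hb'
        exact hb b hb'
    _ = 2 * q * (2 * L * ∑ b ∈ Icc m Y, 1 / (b:ℝ) ^ 2) := by
        have : (Icc 1 Y).filter (fun b => m ≤ b) = Icc m Y := by
          ext x; simp only [mem_filter, mem_Icc]; omega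
        rw [← sum_filter, this, ← mul_sum]
    _ ≤ 2 * q * (2 * L * (2 / m)) := by
        have := inv_sq_tail m Y hm1
        gcongr
    _ ≤ 2 * q * (2 * L * (4 * c / X)) := by
        have : (2:ℝ) / m ≤ 4 * c / X := by
          have hm0 : (0:ℝ) < m := by exact_mod_cast hm1
          rw [div_le_div_iff₀ hm0 hX0]
          have : (X:ℝ) ≤ m * (2 * c) := by exact_mod_cast hmX
          nlinarith
        gcongr
    _ = _ := by ring

theorem one_div_facts (L : ℝ) (hL : 1 ≤ L) (b : ℕ) (hb : 1 ≤ b) :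
    |(1:ℝ) / b| ≤ L / b ∧ |(1:ℝ) / b - 1 / (b + 1 : ℕ)| ≤ L / (b:ℝ) ^ 2 := by
  have hb0 : (1:ℝ) ≤ b := by exact_mod_cast hb
  constructor
  · rw [abs_of_nonneg (by positivity)]; gcongr
  · have e : (1:ℝ) / b - 1 / (b + 1 : ℕ) = 1 / (b * (b + 1)) := by
      push_cast; field_simp; ring
    rw [e, abs_of_nonneg (by positivity)]
    apply div_le_div₀ (by linarith) hL (by positivity)
    nlinarith

theorem log_div_facts (L : ℝ) (b : ℕ) (hb : 1 ≤ b) (hL : 1 + Real.log (b + 1 : ℕ) ≤ L) :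
    |Real.log b / b| ≤ L / b ∧ |Real.log b / b - Real.log (b + 1 : ℕ) / (b + 1 : ℕ)| ≤ L / (b:ℝ) ^ 2 := by
  have hb0 : (1:ℝ) ≤ b := by exact_mod_cast hb
  have hl0 := Real.log_natCast_nonneg b
  have hl1 : Real.log b ≤ Real.log (b + 1 : ℕ) := Real.log_le_log (by linarith) (by push_cast; linarith)
  constructor
  · rw [abs_of_nonneg (by positivity)]
    gcongr
    linarith
  · have hd : Real.log (b + 1 : ℕ) - Real.log b ≤ 1 / b := by
      rw [← Real.log_div (by positivity) (by positivity)]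
      have h3 := Real.log_le_sub_one_of_pos (show (0:ℝ) < (b + 1 : ℕ) / b by positivity)
      refine h3.trans (le_of_eq ?_)
      push_cast; field_simp; ring
    have e : Real.log b / b - Real.log (b + 1 : ℕ) / (b + 1 : ℕ) =
        Real.log (b + 1 : ℕ) * (1 / (b * (b + 1))) - (Real.log (b + 1 : ℕ) - Real.log b) / b := by
      push_cast; field_simp; ring
    rw [e, abs_le]
    have g1 : 0 ≤ Real.log (b + 1 : ℕ) * (1 / (b * (b + 1))) := by
      have : 0 ≤ Real.log ((b + 1 : ℕ) : ℝ) := by linarith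
      positivity
    have g2 : 0 ≤ (Real.log (b + 1 : ℕ) - Real.log b) / b := div_nonneg (by linarith) (by linarith)
    have g3 : (Real.log (b + 1 : ℕ) - Real.log b) / b ≤ (1 / b) / b := by gcongr
    have g4 : Real.log (b + 1 : ℕ) * (1 / (b * (b + 1))) ≤ Real.log (b + 1 : ℕ) / (b:ℝ) ^ 2 := by
      rw [mul_one_div]
      apply div_le_div_of_nonneg_left (by linarith) (by positivity)
      nlinarith
    have g5 : (1 / (b:ℝ)) / b ≤ L / (b:ℝ) ^ 2 := by
      rw [div_div, ← sq]; gcongr; linarith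
    have g6 : Real.log (b + 1 : ℕ) / (b:ℝ) ^ 2 ≤ L / (b:ℝ) ^ 2 := by gcongr; linarith
    constructor <;> linarith

end Pool.Agent.H316R2
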