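import Mathlib
import Pool.Agent.H316R2.V1

set_option autoImplicit false

open Finset

namespace Pool.Agent.H316R2

open Pool.Agent.Helper112 Pool.Agent.Helper112.TI Pool.Agent.Helper112.TII Pool.Agent.Erdos456

open Classical

theorem PC_card_le (f : ℕ) (hf : 1 ≤ f) : ((PC f).card : ℝ) ≤ Nat.totient f := by
  have : NeZero f := ⟨by omega⟩
  rw [PC_eq]
  have h1 := card_filter_le (univ : Finset (DirichletCharacter ℂ f)) (fun χ => χ.IsPrimitive)
  have h2 : (univ : Finset (DirichletCharacter ℂ f)).card = Nat.totient f := by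
    have := DirichletCharacter.card_eq_totient_of_hasEnoughRootsOfUnity ℂ f
    rw [Nat.card_eq_fintype_card] at this
    rw [card_univ]; exact this
  rw [h2] at h1
  exact_mod_cast h1

theorem PC_ne_one {f : ℕ} (hf : 2 ≤ f) {χ : DirichletCharacter ℂ f} (hχ : χ ∈ PC f) : χ ≠ 1 := by
  have : NeZero f := ⟨by omega⟩
  rw [PC_eq, mem_filter] at hχ
  intro h
  have h2 := hχ.2
  rw [DirichletCharacter.isPrimitive_def, h, DirichletCharacter.conductor_one] at h2
  omega

theorem conv_sum {q : ℕ} (χ : DirichletCharacter ℂ q) {Φ : ℕ → ℝ} {X Y : ℕ} (hΦ : Wt Φ X Y)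
    (G H : ℕ → ℝ) :
    ∑ n ∈ Icc 1 Y, χ (n : ZMod q) * (((∑ i ∈ n.divisorsAntidiagonal, G i.1 * H i.2) / n * Φ n : ℝ) : ℂ) =
    ∑ c ∈ Icc 1 Y, (((H c / c : ℝ) : ℂ) * χ (c : ZMod q)) *
      ∑ b ∈ Icc 1 Y, χ (b : ZMod q) * ((G b / b * Φ (b * c) : ℝ) : ℂ) := by
  have h1 : ∑ n ∈ Icc 1 Y, χ (n : ZMod q) * (((∑ i ∈ n.divisorsAntidiagonal, G i.1 * H i.2) / n * Φ n : ℝ) : ℂ) =
      ∑ n ∈ Icc 1 Y, ∑ i ∈ n.divisorsAntidiagonal, (χ (i.1 : ZMod q) * χ (i.2 : ZMod q)) *
        ((G i.1 * H i.2 / (i.1 * i.2) * Φ (i.1 * i.2) : ℝ) : ℂ) := by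
    apply sum_congr rfl
    intro n hn
    rw [sum_div, sum_mul, Complex.ofReal_sum, mul_sum]
    apply sum_congr rfl
    intro i hi
    rw [Nat.mem_divisorsAntidiagonal] at hi
    rw [← hi.1, Nat.cast_mul, map_mul, Nat.cast_mul]
  rw [h1, hyperC Y (fun b c => (χ (b : ZMod q) * χ (c : ZMod q)) *
        ((G b * H c / (b * c) * Φ (b * c) : ℝ) : ℂ))]
  apply sum_congr rfl
  intro c hc
  rw [mem_Icc] at hc
  rw [sum_subset (Icc_subset_Icc_right (Nat.div_le_self Y c)), mul_sum]
  · apply sum_congr rfl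
    intro b _
    push_cast
    ring
  · intro b hb hb2
    rw [mem_Icc] at hb
    have : Y < b * c := by
      by_contra hcon
      push Not at hcon
      apply hb2
      rw [mem_Icc]
      exact ⟨hb.1, (Nat.le_div_iff_mul_le hc.1).mpr hcon⟩
    rw [hΦ.hi _ this]
    simp

theorem mu1_abs (V n : ℕ) : |mu1 V n| ≤ if n ≤ V then 1 else 0 := by
  rw [mu1_apply]
  split_ifs
  · exact_mod_cast ArithmeticFunction.abs_moebius_le_one
  · simp

theorem l1_nonneg (U n : ℕ) : 0 ≤ l1 U n := by
  rw [l1_apply]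
  split_ifs
  · exact ArithmeticFunction.vonMangoldt_nonneg
  · exact le_rfl

theorem l1_le (U n : ℕ) : l1 U n ≤ if n ≤ U then Real.log n else 0 := by
  rw [l1_apply]
  split_ifs
  · exact ArithmeticFunction.vonMangoldt_le_log
  · exact le_rfl

theorem typeI_total {q : ℕ} [NeZero q] (χ : DirichletCharacter ℂ q) (hχ : χ ≠ 1) {Φ : ℕ → ℝ}
    {X Y : ℕ} (hΦ : Wt Φ X Y) (U : ℕ) (hU : 1 ≤ U) (hUX : 2 * (U * U) ≤ X) :
    ‖∑ n ∈ Icc 1 Y, χ (n : ZMod q) *
      (((ArithmeticFunction.vonMangoldt n - LamII U U n) / n * Φ n : ℝ) : ℂ)‖ ≤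
      32 * q * (1 + Real.log (Y + 1 : ℕ)) ^ 2 * U ^ 2 / X := by
  set L := 1 + Real.log (Y + 1 : ℕ) with hL
  have hL1 : 1 ≤ L := by
    have := Real.log_natCast_nonneg (Y + 1)
    linarith
  have hX0 : (0:ℝ) < X := by
    have : 1 ≤ U * U := Nat.mul_pos hU hU
    exact_mod_cast (show 0 < X by omega)
  have hU1 : (1:ℝ) ≤ U := by exact_mod_cast hU
  have hUU : U ≤ U * U := Nat.le_mul_of_pos_left U hU
  have hlog : ∀ b : ℕ, 1 ≤ b → b ≤ Y → 1 + Real.log (b + 1 : ℕ) ≤ L := by
    intro b _ hb2
    rw [hL]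
    have : Real.log (b + 1 : ℕ) ≤ Real.log (Y + 1 : ℕ) :=
      Real.log_le_log (by positivity) (by push_cast; have : (b:ℝ) ≤ Y := by exact_mod_cast hb2
                                          linarith)
    linarith
  -- decomposition
  have hdec : ∀ n ∈ Icc 1 Y, χ (n : ZMod q) *
      (((ArithmeticFunction.vonMangoldt n - LamII U U n) / n * Φ n : ℝ) : ℂ) =
      χ (n : ZMod q) * (((∑ i ∈ n.divisorsAntidiagonal, Real.log i.1 * mu1 U i.2) / n * Φ n : ℝ) : ℂ) -
      χ (n : ZMod q) * (((∑ i ∈ n.divisorsAntidiagonal, (fun _ : ℕ => (1:ℝ)) i.1 *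
        (mu1 U * l1 U) i.2) / n * Φ n : ℝ) : ℂ) := by
    intro n hn
    rw [mem_Icc] at hn
    rcases Nat.lt_or_ge n X with hlt | hge
    · rw [hΦ.lo n hlt]; simp
    · have hl : l1 U n = 0 := by
        rw [l1_apply, if_neg (by omega)]
      rw [vaughan, hl, zero_add, ArithmeticFunction.mul_apply, ArithmeticFunction.mul_apply]
      have e1 : ∑ i ∈ n.divisorsAntidiagonal, ArithmeticFunction.log i.1 * mu1 U i.2 =
          ∑ i ∈ n.divisorsAntidiagonal, Real.log i.1 * mu1 U i.2 := by
        apply sum_congr rfl; intro i _; rw [ArithmeticFunction.log_apply]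
      have e2 : ∑ i ∈ n.divisorsAntidiagonal,
          ((ArithmeticFunction.zeta : ArithmeticFunction ℕ) : ArithmeticFunction ℝ) i.1 * (mu1 U * l1 U) i.2 =
          ∑ i ∈ n.divisorsAntidiagonal, (fun _ : ℕ => (1:ℝ)) i.1 * (mu1 U * l1 U) i.2 := by
        apply sum_congr rfl
        intro i hi
        rw [Nat.mem_divisorsAntidiagonal] at hi
        have hi1 : i.1 ≠ 0 := by intro h; rw [h, zero_mul] at hi; omega
        rw [ArithmeticFunction.natCoe_apply, ArithmeticFunction.zeta_apply, if_neg hi1]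
        simp
      rw [e1, e2, ← mul_sub, ← Complex.ofReal_sub]
      congr 2
      ring
  rw [sum_congr rfl hdec, sum_sub_distrib]
  refine (norm_sub_le _ _).trans ?_
  rw [conv_sum χ hΦ (fun b => Real.log b) (fun c => mu1 U c),
    conv_sum χ hΦ (fun _ => 1) (fun c => (mu1 U * l1 U) c)]
  -- first sum
  have b1 : ‖∑ c ∈ Icc 1 Y, (((mu1 U c / c : ℝ) : ℂ) * χ (c : ZMod q)) *
      ∑ b ∈ Icc 1 Y, χ (b : ZMod q) * ((Real.log b / b * Φ (b * c) : ℝ) : ℂ)‖ ≤ 16 * q * L * U / X := by
    calc _ ≤ ∑ c ∈ Icc 1 Y, (if c ≤ U then 16 * q * L / X else 0) := by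
          refine (norm_sum_le _ _).trans (sum_le_sum ?_)
          intro c hc
          rw [mem_Icc] at hc
          have hc0 : (0:ℝ) < c := by exact_mod_cast hc.1
          rw [norm_mul, norm_mul, Complex.norm_real, Real.norm_eq_abs, abs_div, abs_of_pos hc0]
          have hmu := mu1_abs U c
          have hχ1 : ‖χ (c : ZMod q)‖ ≤ 1 := χ.norm_le_one _
          split_ifs with hcU
          · rw [if_pos hcU] at hmu
            have hin := typeI_inner χ hχ hΦ (fun b => Real.log b / b) L (by linarith)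
              (fun b h1 h2 => (log_div_facts L b h1 (hlog b h1 h2)).1)
              (fun b h1 h2 => (log_div_facts L b h1 (hlog b h1 h2)).2) c hc.1 (by nlinarith)
            calc |mu1 U c| / c * ‖χ (c : ZMod q)‖ * _ ≤ 1 / c * 1 * (16 * q * L * c / X) := by gcongr
              _ = _ := by field_simp
          · rw [if_neg hcU] at hmu
            have : |mu1 U c| = 0 := le_antisymm hmu (abs_nonneg _)
            rw [this]; simp
      _ = ((Icc 1 Y).filter (fun c => c ≤ U)).card * (16 * q * L / X) := by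
          rw [← sum_filter, sum_const, nsmul_eq_mul]
      _ ≤ U * (16 * q * L / X) := by
          gcongr
          calc ((Icc 1 Y).filter (fun c => c ≤ U)).card ≤ (Icc 1 U).card := by
                apply card_le_card
                intro x hx
                rw [mem_filter, mem_Icc] at hx
                rw [mem_Icc]; omega
            _ = U := by simp
      _ = _ := by ring
  have b2 : ‖∑ c ∈ Icc 1 Y, ((((mu1 U * l1 U) c / c : ℝ) : ℂ) * χ (c : ZMod q)) *
      ∑ b ∈ Icc 1 Y, χ (b : ZMod q) * (((1:ℝ) / b * Φ (b * c) : ℝ) : ℂ)‖ ≤ 16 * q * L ^ 2 * U ^ 2 / X := by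
    have hH : ∑ c ∈ Icc 1 Y, |(mu1 U * l1 U) c| ≤ U ^ 2 * L := by
      calc _ ≤ ∑ c ∈ Icc 1 Y, ∑ i ∈ c.divisorsAntidiagonal, |mu1 U i.1| * l1 U i.2 := by
            apply sum_le_sum
            intro c _
            rw [ArithmeticFunction.mul_apply]
            refine (abs_sum_le_sum_abs _ _).trans (sum_le_sum ?_)
            intro i _
            rw [abs_mul, abs_of_nonneg (l1_nonneg U i.2)]
        _ = ∑ c ∈ Icc 1 Y, ∑ b ∈ Icc 1 (Y / c), |mu1 U b| * l1 U c :=
            hyperC Y (fun b c => |mu1 U b| * l1 U c)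
        _ ≤ ∑ c ∈ Icc 1 Y, ∑ b ∈ Icc 1 Y, (if b ≤ U then (1:ℝ) else 0) * (if c ≤ U then L else 0) := by
            apply sum_le_sum
            intro c hc
            refine le_trans (sum_le_sum_of_subset_of_nonneg (t := Icc 1 Y)
              (Icc_subset_Icc_right (Nat.div_le_self _ _)) (fun b _ _ =>
                mul_nonneg (abs_nonneg _) (l1_nonneg _ _))) ?_
            apply sum_le_sum
            intro b _
            rw [mem_Icc] at hc
            have h1 := l1_le U c
            have h2 : (if c ≤ U then Real.log c else 0) ≤ if c ≤ U then L else 0 := by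
              split_ifs
              · have h3 := hlog c hc.1 hc.2
                have h4 : Real.log (c:ℝ) ≤ Real.log (c + 1 : ℕ) :=
                  Real.log_le_log (by exact_mod_cast hc.1) (by push_cast; linarith)
                linarith
              · exact le_rfl
            apply mul_le_mul (mu1_abs U b) (h1.trans h2) (l1_nonneg _ _)
            split_ifs <;> norm_num
        _ = (∑ b ∈ Icc 1 Y, (if b ≤ U then (1:ℝ) else 0)) * ∑ c ∈ Icc 1 Y, (if c ≤ U then L else 0) := by
            rw [sum_mul_sum, sum_comm]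
        _ ≤ U * (U * L) := by
            have hcard : (((Icc 1 Y).filter (fun c => c ≤ U)).card : ℝ) ≤ U := by
              have : ((Icc 1 Y).filter (fun c => c ≤ U)).card ≤ (Icc 1 U).card := by
                apply card_le_card
                intro x hx
                rw [mem_filter, mem_Icc] at hx
                rw [mem_Icc]; omega
              rw [Nat.card_Icc] at this
              exact_mod_cast this
            rw [← sum_filter, ← sum_filter, sum_const, sum_const, nsmul_eq_mul, nsmul_eq_mul, mul_one]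
            gcongr
        _ = _ := by ring
    calc _ ≤ ∑ c ∈ Icc 1 Y, |(mu1 U * l1 U) c| * (16 * q * L / X) := by
          refine (norm_sum_le _ _).trans (sum_le_sum ?_)
          intro c hc
          rw [mem_Icc] at hc
          have hc0 : (0:ℝ) < c := by exact_mod_cast hc.1
          rw [norm_mul, norm_mul, Complex.norm_real, Real.norm_eq_abs, abs_div, abs_of_pos hc0]
          have hχ1 : ‖χ (c : ZMod q)‖ ≤ 1 := χ.norm_le_one _
          by_cases hcU : c ≤ U * U
          · have hin := typeI_inner χ hχ hΦ (fun b => (1:ℝ) / b) L (by linarith)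
              (fun b h1 h2 => (one_div_facts L hL1 b h1).1)
              (fun b h1 h2 => (one_div_facts L hL1 b h1).2) c hc.1 (by omega)
            calc |(mu1 U * l1 U) c| / c * ‖χ (c : ZMod q)‖ * _ ≤
                |(mu1 U * l1 U) c| / c * 1 * (16 * q * L * c / X) := by gcongr
              _ = _ := by field_simp
          · have hz : (mu1 U * l1 U) c = 0 := by
              rw [ArithmeticFunction.mul_apply]
              apply sum_eq_zero
              intro i hi
              rw [Nat.mem_divisorsAntidiagonal] at hi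
              rw [mu1_apply, l1_apply]
              by_cases h1 : i.1 ≤ U
              · rw [if_neg (show ¬ i.2 ≤ U by
                  intro h2
                  have := Nat.mul_le_mul h1 h2
                  rw [hi.1] at this
                  exact hcU this), mul_zero]
              · rw [if_neg h1, zero_mul]
            rw [hz]; simp
      _ = (∑ c ∈ Icc 1 Y, |(mu1 U * l1 U) c|) * (16 * q * L / X) := by rw [sum_mul]
      _ ≤ (U ^ 2 * L) * (16 * q * L / X) := by gcongr
      _ = _ := by ring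
  have b3 : 16 * (q:ℝ) * L * U / X ≤ 16 * q * L ^ 2 * U ^ 2 / X := by
    have h1 : (U:ℝ) ≤ U ^ 2 := by nlinarith
    have h2 : L ≤ L ^ 2 := by nlinarith
    gcongr
  calc _ ≤ 16 * q * L * U / X + 16 * q * L ^ 2 * U ^ 2 / X := add_le_add b1 b2
    _ ≤ 16 * q * L ^ 2 * U ^ 2 / X + 16 * q * L ^ 2 * U ^ 2 / X := by linarith
    _ = _ := by ring

end Pool.Agent.H316R2
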