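import Mathlib
import Pool.Agent.H316R2.V2

set_option autoImplicit false

open Finset

namespace Pool.Agent.H316R2

open Pool.Agent.Helper112 Pool.Agent.Helper112.TI Pool.Agent.Helper112.TII Pool.Agent.Erdos456

open Classical

theorem II_form {q : ℕ} (χ : DirichletCharacter ℂ q) {Φ : ℕ → ℝ} {X Y : ℕ} (hΦ : Wt Φ X Y) (U : ℕ) :
    ∑ n ∈ Icc 1 Y, χ (n : ZMod q) * ((LamII U U n / n * Φ n : ℝ) : ℂ) =
    ∑ M ∈ Icc 1 Y, (∑ c ∈ Icc 1 M, ((L2 U c / c : ℝ) : ℂ) * χ (c : ZMod q)) *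
      (∑ b ∈ Icc 1 Y, ((betaV U b / b * (Φ (M * b) - Φ ((M + 1) * b)) : ℝ) : ℂ) * χ (b : ZMod q)) := by
  have h1 : ∑ n ∈ Icc 1 Y, χ (n : ZMod q) * ((LamII U U n / n * Φ n : ℝ) : ℂ) =
      ∑ c ∈ Icc 1 Y, (((L2 U c / c : ℝ) : ℂ) * χ (c : ZMod q)) *
      ∑ b ∈ Icc 1 Y, χ (b : ZMod q) * ((betaV U b / b * Φ (b * c) : ℝ) : ℂ) :=
    conv_sum χ hΦ (fun b => betaV U b) (fun c => L2 U c)
  rw [h1]
  have htel : ∀ c ∈ Icc 1 Y, ∀ b ∈ Icc 1 Y, Φ (b * c) = ∑ M ∈ Icc c Y, (Φ (M * b) - Φ ((M + 1) * b)) := by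
    intro c hc b hb
    rw [mem_Icc] at hc hb
    have key : ∀ K : ℕ, c ≤ K + 1 → ∑ M ∈ Icc c K, (Φ (M * b) - Φ ((M + 1) * b)) = Φ (c * b) - Φ ((K + 1) * b) := by
      intro K hK
      induction K with
      | zero =>
        have : c = 1 := by omega
        subst this
        simp
      | succ K ih =>
        rcases Nat.lt_or_ge (K + 1) c with h | h
        · have : c = K + 2 := by omega
          subst this
          rw [Icc_eq_empty (by omega), sum_empty]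
          simp
        · rw [sum_Icc_succ_top h, ih (by omega)]
          ring
    rw [key Y (by omega), hΦ.hi ((Y + 1) * b) (by nlinarith), sub_zero, mul_comm]
  have h2 : ∀ c ∈ Icc 1 Y, (((L2 U c / c : ℝ) : ℂ) * χ (c : ZMod q)) *
      ∑ b ∈ Icc 1 Y, χ (b : ZMod q) * ((betaV U b / b * Φ (b * c) : ℝ) : ℂ) =
      ∑ M ∈ Icc 1 Y, (if c ≤ M then (((L2 U c / c : ℝ) : ℂ) * χ (c : ZMod q)) else 0) *
      (∑ b ∈ Icc 1 Y, ((betaV U b / b * (Φ (M * b) - Φ ((M + 1) * b)) : ℝ) : ℂ) * χ (b : ZMod q)) := by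
    intro c hc
    have e1 : ∑ b ∈ Icc 1 Y, χ (b : ZMod q) * ((betaV U b / b * Φ (b * c) : ℝ) : ℂ) =
        ∑ M ∈ Icc c Y, ∑ b ∈ Icc 1 Y, ((betaV U b / b * (Φ (M * b) - Φ ((M + 1) * b)) : ℝ) : ℂ) * χ (b : ZMod q) := by
      rw [sum_comm]
      apply sum_congr rfl
      intro b hb
      rw [htel c hc b hb, ← sum_mul, ← Complex.ofReal_sum, ← mul_sum, mul_comm]
    rw [e1, mul_sum]
    rw [mem_Icc] at hc
    have e2 : Icc c Y = (Icc 1 Y).filter (fun M => c ≤ M) := by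
      ext x; simp only [mem_filter, mem_Icc]; omega
    rw [e2, sum_filter]
    apply sum_congr rfl
    intro M _
    split_ifs <;> simp
  rw [sum_congr rfl h2, sum_comm]
  apply sum_congr rfl
  intro M hM
  rw [mem_Icc] at hM
  rw [← sum_mul]
  congr 1
  rw [← sum_filter]
  apply sum_congr _ fun _ _ => rfl
  ext x; simp only [mem_filter, mem_Icc]; omega

theorem lam_sq_sum (Y U : ℕ) : ∑ n ∈ Icc 1 Y, (n:ℝ) * ‖((L2 U n / n : ℝ) : ℂ)‖ ^ 2 ≤
    (1 + Real.log (Y + 1 : ℕ)) ^ 3 := by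
  have hY0 := Real.log_natCast_nonneg (Y + 1)
  calc _ ≤ ∑ n ∈ Icc 1 Y, (1 + Real.log (Y + 1 : ℕ)) ^ 2 * (1 / (n:ℝ)) := by
        apply sum_le_sum
        intro n hn
        rw [mem_Icc] at hn
        have hn0 : (0:ℝ) < n := by exact_mod_cast hn.1
        rw [Complex.norm_real, Real.norm_eq_abs, sq_abs, div_pow]
        have h1 : L2 U n ≤ 1 + Real.log (Y + 1 : ℕ) := by
          refine (L2_le U n).trans (ArithmeticFunction.vonMangoldt_le_log.trans ?_)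
          have : Real.log (n:ℝ) ≤ Real.log (Y + 1 : ℕ) :=
            Real.log_le_log hn0 (by exact_mod_cast (by omega : n ≤ Y + 1))
          linarith
        have h2 : L2 U n ^ 2 ≤ (1 + Real.log (Y + 1 : ℕ)) ^ 2 := pow_le_pow_left₀ (L2_nonneg U n) h1 2
        have e : (n:ℝ) * (L2 U n ^ 2 / (n:ℝ) ^ 2) = L2 U n ^ 2 * (1 / n) := by field_simp
        rw [e]
        gcongr
    _ = (1 + Real.log (Y + 1 : ℕ)) ^ 2 * ∑ n ∈ Icc 1 Y, (1 / (n:ℝ)) := by rw [mul_sum]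
    _ ≤ (1 + Real.log (Y + 1 : ℕ)) ^ 2 * (1 + Real.log (Y + 1 : ℕ)) := by
        gcongr
        refine (harm_sum_le Y).trans ?_
        rcases Nat.eq_zero_or_pos Y with h | h
        · subst h; simp
        · have : Real.log (Y:ℝ) ≤ Real.log (Y + 1 : ℕ) :=
            Real.log_le_log (by exact_mod_cast h) (by push_cast; linarith)
          linarith
    _ = _ := by ring

theorem beta_sq_sum (Y U : ℕ) : ∑ n ∈ Icc 1 Y, (n:ℝ) * (betaV U n / n) ^ 2 ≤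
    (1 + Real.log (Y + 1 : ℕ)) ^ 4 := by
  have hY0 := Real.log_natCast_nonneg (Y + 1)
  calc _ ≤ ∑ n ∈ Icc 1 Y, (n.divisors.card : ℝ) ^ 2 / n := by
        apply sum_le_sum
        intro n hn
        rw [mem_Icc] at hn
        have hn0 : (0:ℝ) < n := by exact_mod_cast hn.1
        rw [div_pow]
        have h2 : betaV U n ^ 2 ≤ (n.divisors.card : ℝ) ^ 2 := by
          rw [← sq_abs]
          exact pow_le_pow_left₀ (abs_nonneg _) (betaV_abs U n) 2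
        have e : (n:ℝ) * (betaV U n ^ 2 / (n:ℝ) ^ 2) = betaV U n ^ 2 / n := by field_simp
        rw [e]
        gcongr
    _ ≤ (1 + Real.log Y) ^ 4 := tau_sq_sum_le Y
    _ ≤ _ := by
        have h0 := Real.log_natCast_nonneg Y
        apply pow_le_pow_left₀ (by linarith)
        rcases Nat.eq_zero_or_pos Y with h | h
        · subst h; simp
        · have : Real.log (Y:ℝ) ≤ Real.log (Y + 1 : ℕ) :=
            Real.log_le_log (by exact_mod_cast h) (by push_cast; linarith)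
          linarith

theorem log2_le (N Y : ℕ) (h : N ≤ Y) : ((Nat.log 2 N : ℝ) + 1) ≤ 2 * (1 + Real.log (Y + 1 : ℕ)) := by
  have h2 := Real.log_two_gt_d9
  have hY0 := Real.log_natCast_nonneg (Y + 1)
  rcases Nat.eq_zero_or_pos N with h0 | hpos
  · have h3 : (Nat.log 2 N : ℝ) = 0 := by subst h0; simp
    rw [h3]; linarith
  · have h3 := Nat.pow_log_le_self 2 (show N ≠ 0 by omega)
    have h4 : (2:ℝ) ^ (Nat.log 2 N) ≤ (Y + 1 : ℕ) := by
      have : 2 ^ Nat.log 2 N ≤ Y + 1 := by omega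
      exact_mod_cast this
    have h5 := Real.log_le_log (by positivity) h4
    rw [Real.log_pow] at h5
    nlinarith

theorem typeII_total (X Y U F : ℕ) (Φ : ℕ → ℝ) (hΦ : Wt Φ X Y) (hF : F ^ 2 ≤ U) :
    ∑ f ∈ Icc 1 F, ((f : ℝ) / (Nat.totient f : ℝ)) * ∑ χ ∈ PC f,
      ‖∑ n ∈ Icc 1 Y, χ (n : ZMod f) * ((LamII U U n / n * Φ n : ℝ) : ℂ)‖ ≤
      72 * (1 + Real.log (Y + 1 : ℕ)) ^ 6 := by
  set L := 1 + Real.log (Y + 1 : ℕ) with hL
  have hL1 : 1 ≤ L := by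
    have := Real.log_natCast_nonneg (Y + 1)
    linarith
  set a : (M f : ℕ) → DirichletCharacter ℂ f → ℂ := fun M f χ =>
    ∑ c ∈ Icc 1 M, ((L2 U c / c : ℝ) : ℂ) * χ (c : ZMod f) with ha
  set b : (M f : ℕ) → DirichletCharacter ℂ f → ℂ := fun M f χ =>
    ∑ b ∈ Icc 1 Y, ((betaV U b / b * (Φ (M * b) - Φ ((M + 1) * b)) : ℝ) : ℂ) * χ (b : ZMod f) with hb
  have hGA : ∀ M ∈ Icc 1 Y, ∑ f ∈ Icc 1 F, ((f : ℝ) / (Nat.totient f : ℝ)) * ∑ χ ∈ PC f, ‖a M f χ‖ ^ 2 ≤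
      36 * L ^ 4 := by
    intro M hM
    rw [mem_Icc] at hM
    refine (ls_dyadic M F (fun c => ((L2 U c / c : ℝ) : ℂ))).trans ?_
    have h1 : ∑ n ∈ Icc 1 M, (2 * (n:ℝ) + (F : ℝ) ^ 2) * ‖((L2 U n / n : ℝ) : ℂ)‖ ^ 2 ≤ 3 * L ^ 3 := by
      calc _ ≤ ∑ n ∈ Icc 1 Y, 3 * ((n:ℝ) * ‖((L2 U n / n : ℝ) : ℂ)‖ ^ 2) := by
            refine le_trans (sum_le_sum_of_subset_of_nonneg (t := Icc 1 Y)
              (Icc_subset_Icc_right hM.2) (fun n _ _ => by positivity)) ?_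
            apply sum_le_sum
            intro n hn
            rcases Nat.lt_or_ge U n with h | h
            · have : ((F:ℝ)) ^ 2 ≤ n := by exact_mod_cast (hF.trans h.le)
              have h0 : 0 ≤ ‖((L2 U n / n : ℝ) : ℂ)‖ ^ 2 := by positivity
              nlinarith
            · have : L2 U n = 0 := by unfold L2; rw [if_neg (by omega)]
              rw [this]; simp
        _ = 3 * ∑ n ∈ Icc 1 Y, ((n:ℝ) * ‖((L2 U n / n : ℝ) : ℂ)‖ ^ 2) := by rw [mul_sum]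
        _ ≤ 3 * L ^ 3 := by
            have := lam_sq_sum Y U
            gcongr
    have h2 := log2_le M Y hM.2
    calc 6 * ((Nat.log 2 M : ℝ) + 1) * ∑ n ∈ Icc 1 M, (2 * (n:ℝ) + (F : ℝ) ^ 2) * ‖((L2 U n / n : ℝ) : ℂ)‖ ^ 2
        ≤ 6 * (2 * L) * (3 * L ^ 3) := by gcongr
      _ = _ := by ring
  have hGB : ∀ M ∈ Icc 1 Y, ∑ f ∈ Icc 1 F, ((f : ℝ) / (Nat.totient f : ℝ)) * ∑ χ ∈ PC f, ‖b M f χ‖ ^ 2 ≤
      36 * L ^ 5 / (M:ℝ) ^ 2 := by
    intro M hM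
    rw [mem_Icc] at hM
    have hM0 : (0:ℝ) < M := by exact_mod_cast hM.1
    refine (ls_dyadic Y F (fun b => ((betaV U b / b * (Φ (M * b) - Φ ((M + 1) * b)) : ℝ) : ℂ))).trans ?_
    have h1 : ∑ n ∈ Icc 1 Y, (2 * (n:ℝ) + (F : ℝ) ^ 2) *
        ‖((betaV U n / n * (Φ (M * n) - Φ ((M + 1) * n)) : ℝ) : ℂ)‖ ^ 2 ≤ 3 * L ^ 4 / (M:ℝ) ^ 2 := by
      calc _ ≤ ∑ n ∈ Icc 1 Y, 3 / (M:ℝ) ^ 2 * ((n:ℝ) * (betaV U n / n) ^ 2) := by
            apply sum_le_sum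
            intro n hn
            rw [mem_Icc] at hn
            rw [Complex.norm_real, Real.norm_eq_abs, sq_abs, mul_pow]
            have h5 : (Φ (M * n) - Φ ((M + 1) * n)) ^ 2 ≤ (1 / (M:ℝ)) ^ 2 := by
              rw [← sq_abs]
              exact pow_le_pow_left₀ (abs_nonneg _) (hΦ.lip M n hM.1 hn.1) 2
            rcases Nat.lt_or_ge U n with h | h
            · have h4 : ((F:ℝ)) ^ 2 ≤ n := by exact_mod_cast (hF.trans h.le)
              calc (2 * (n:ℝ) + (F : ℝ) ^ 2) * ((betaV U n / n) ^ 2 * (Φ (M * n) - Φ ((M + 1) * n)) ^ 2)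
                  ≤ (2 * (n:ℝ) + n) * ((betaV U n / n) ^ 2 * (1 / (M:ℝ)) ^ 2) := by gcongr
                _ = _ := by ring
            · rw [betaV_zero U n h]; simp
        _ = 3 / (M:ℝ) ^ 2 * ∑ n ∈ Icc 1 Y, ((n:ℝ) * (betaV U n / n) ^ 2) := by rw [mul_sum]
        _ ≤ 3 / (M:ℝ) ^ 2 * L ^ 4 := by
            have := beta_sq_sum Y U
            gcongr
        _ = _ := by ring
    have h2 := log2_le Y Y le_rfl
    calc 6 * ((Nat.log 2 Y : ℝ) + 1) * ∑ n ∈ Icc 1 Y, (2 * (n:ℝ) + (F : ℝ) ^ 2) *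
        ‖((betaV U n / n * (Φ (M * n) - Φ ((M + 1) * n)) : ℝ) : ℂ)‖ ^ 2
        ≤ 6 * (2 * L) * (3 * L ^ 4 / (M:ℝ) ^ 2) := by gcongr
      _ = _ := by ring
  have hpt : ∀ f : ℕ, ∀ χ : DirichletCharacter ℂ f,
      ‖∑ n ∈ Icc 1 Y, χ (n : ZMod f) * ((LamII U U n / n * Φ n : ℝ) : ℂ)‖ ≤
      ∑ M ∈ Icc 1 Y, ((1 / (M:ℝ)) * ‖a M f χ‖ ^ 2 + M * ‖b M f χ‖ ^ 2) := by
    intro f χ
    rw [II_form χ hΦ U]
    refine (norm_sum_le _ _).trans (sum_le_sum ?_)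
    intro M hM
    rw [mem_Icc] at hM
    have hM0 : (0:ℝ) < M := by exact_mod_cast hM.1
    rw [norm_mul]
    show ‖a M f χ‖ * ‖b M f χ‖ ≤ _
    set x := ‖a M f χ‖
    set y := ‖b M f χ‖
    have hx : 0 ≤ x := norm_nonneg _
    have hy : 0 ≤ y := norm_nonneg _
    have h3 : 0 ≤ (1 / (M:ℝ)) * (x - M * y) ^ 2 := by positivity
    have h4 : (1 / (M:ℝ)) * (x - M * y) ^ 2 = (1 / (M:ℝ)) * x ^ 2 + M * y ^ 2 - 2 * (x * y) := by
      field_simp
      ring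
    have h5 : 0 ≤ x * y := by positivity
    linarith
  calc _ ≤ ∑ f ∈ Icc 1 F, ((f : ℝ) / (Nat.totient f : ℝ)) * ∑ χ ∈ PC f,
        ∑ M ∈ Icc 1 Y, ((1 / (M:ℝ)) * ‖a M f χ‖ ^ 2 + M * ‖b M f χ‖ ^ 2) := by
        gcongr with f hf χ hχ
        exact hpt f χ
    _ = ∑ M ∈ Icc 1 Y, ((1 / (M:ℝ)) * (∑ f ∈ Icc 1 F, ((f : ℝ) / (Nat.totient f : ℝ)) * ∑ χ ∈ PC f, ‖a M f χ‖ ^ 2) +
        M * (∑ f ∈ Icc 1 F, ((f : ℝ) / (Nat.totient f : ℝ)) * ∑ χ ∈ PC f, ‖b M f χ‖ ^ 2)) := by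
        have h6 : ∀ f ∈ Icc 1 F, ((f : ℝ) / (Nat.totient f : ℝ)) * ∑ χ ∈ PC f,
            ∑ M ∈ Icc 1 Y, ((1 / (M:ℝ)) * ‖a M f χ‖ ^ 2 + M * ‖b M f χ‖ ^ 2) =
            ∑ M ∈ Icc 1 Y, ((1 / (M:ℝ)) * (((f : ℝ) / (Nat.totient f : ℝ)) * ∑ χ ∈ PC f, ‖a M f χ‖ ^ 2) +
              M * (((f : ℝ) / (Nat.totient f : ℝ)) * ∑ χ ∈ PC f, ‖b M f χ‖ ^ 2)) := by
          intro f _
          rw [sum_comm, mul_sum]
          apply sum_congr rfl
          intro M _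
          rw [sum_add_distrib, ← mul_sum, ← mul_sum]
          ring
        rw [sum_congr rfl h6, sum_comm]
        apply sum_congr rfl
        intro M _
        rw [sum_add_distrib, ← mul_sum, ← mul_sum]
    _ ≤ ∑ M ∈ Icc 1 Y, ((1 / (M:ℝ)) * (36 * L ^ 4) + M * (36 * L ^ 5 / (M:ℝ) ^ 2)) := by
        apply sum_le_sum
        intro M hM
        have h7 := hGA M hM
        have h8 := hGB M hM
        gcongr
    _ ≤ ∑ M ∈ Icc 1 Y, (72 * L ^ 5) * (1 / (M:ℝ)) := by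
        apply sum_le_sum
        intro M hM
        rw [mem_Icc] at hM
        have hM0 : (0:ℝ) < M := by exact_mod_cast hM.1
        have e : (M:ℝ) * (36 * L ^ 5 / (M:ℝ) ^ 2) = 36 * L ^ 5 * (1 / M) := by field_simp
        rw [e]
        have h9 : L ^ 4 ≤ L ^ 5 := pow_le_pow_right₀ hL1 (by norm_num)
        have h10 : (0:ℝ) ≤ 1 / M := by positivity
        nlinarith
    _ = (72 * L ^ 5) * ∑ M ∈ Icc 1 Y, (1 / (M:ℝ)) := by rw [mul_sum]
    _ ≤ (72 * L ^ 5) * L := by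
        gcongr
        refine (harm_sum_le Y).trans ?_
        rcases Nat.eq_zero_or_pos Y with h | h
        · subst h; simp; linarith
        · have : Real.log (Y:ℝ) ≤ Real.log (Y + 1 : ℕ) :=
            Real.log_le_log (by exact_mod_cast h) (by push_cast; linarith)
          linarith
    _ = _ := by ring

/-- the mean value theorem for weighted prime sums over primitive characters -/
theorem SW_large (X Y U F : ℕ) (Φ : ℕ → ℝ) (hΦ : Wt Φ X Y) (hU : 1 ≤ U) (hF : F ^ 2 ≤ U)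
    (hUX : 2 * (U * U) ≤ X) :
    ∑ f ∈ Icc 2 F, ((f : ℝ) / (Nat.totient f : ℝ)) * ∑ χ ∈ PC f,
      ‖∑ n ∈ Icc 1 Y, χ (n : ZMod f) * ((ArithmeticFunction.vonMangoldt n / n * Φ n : ℝ) : ℂ)‖ ≤
      72 * (1 + Real.log (Y + 1 : ℕ)) ^ 6 + 32 * F ^ 3 * (1 + Real.log (Y + 1 : ℕ)) ^ 2 * U ^ 2 / X := by
  set L := 1 + Real.log (Y + 1 : ℕ) with hL
  have hL1 : 1 ≤ L := by
    have := Real.log_natCast_nonneg (Y + 1)
    linarith
  have h1 : ∀ f ∈ Icc 2 F, ∀ χ ∈ PC f,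
      ‖∑ n ∈ Icc 1 Y, χ (n : ZMod f) * ((ArithmeticFunction.vonMangoldt n / n * Φ n : ℝ) : ℂ)‖ ≤
      ‖∑ n ∈ Icc 1 Y, χ (n : ZMod f) * ((LamII U U n / n * Φ n : ℝ) : ℂ)‖ +
        32 * f * L ^ 2 * U ^ 2 / X := by
    intro f hf χ hχ
    rw [mem_Icc] at hf
    have : NeZero f := ⟨by omega⟩
    have h2 := typeI_total χ (PC_ne_one hf.1 hχ) hΦ U hU hUX
    have e : ∑ n ∈ Icc 1 Y, χ (n : ZMod f) * ((ArithmeticFunction.vonMangoldt n / n * Φ n : ℝ) : ℂ) =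
        ∑ n ∈ Icc 1 Y, χ (n : ZMod f) * ((LamII U U n / n * Φ n : ℝ) : ℂ) +
        ∑ n ∈ Icc 1 Y, χ (n : ZMod f) *
          (((ArithmeticFunction.vonMangoldt n - LamII U U n) / n * Φ n : ℝ) : ℂ) := by
      rw [← sum_add_distrib]
      apply sum_congr rfl
      intro n _
      push_cast
      ring
    rw [e]
    refine (norm_add_le _ _).trans ?_
    linarith
  calc _ ≤ ∑ f ∈ Icc 2 F, ((f : ℝ) / (Nat.totient f : ℝ)) * ∑ χ ∈ PC f,
      (‖∑ n ∈ Icc 1 Y, χ (n : ZMod f) * ((LamII U U n / n * Φ n : ℝ) : ℂ)‖ +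
        32 * f * L ^ 2 * U ^ 2 / X) := by
        gcongr with f hf χ hχ
        exact h1 f hf χ hχ
    _ = ∑ f ∈ Icc 2 F, ((f : ℝ) / (Nat.totient f : ℝ)) * ∑ χ ∈ PC f,
      ‖∑ n ∈ Icc 1 Y, χ (n : ZMod f) * ((LamII U U n / n * Φ n : ℝ) : ℂ)‖ +
      ∑ f ∈ Icc 2 F, ((f : ℝ) / (Nat.totient f : ℝ)) * ((PC f).card * (32 * f * L ^ 2 * U ^ 2 / X)) := by
        rw [← sum_add_distrib]
        apply sum_congr rfl
        intro f _
        rw [sum_add_distrib, sum_const, nsmul_eq_mul, mul_add]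
    _ ≤ 72 * L ^ 6 + ∑ f ∈ Icc 2 F, 32 * (F:ℝ) ^ 2 * L ^ 2 * U ^ 2 / X := by
        apply add_le_add
        · refine le_trans ?_ (typeII_total X Y U F Φ hΦ hF)
          apply sum_le_sum_of_subset_of_nonneg
          · intro x hx; rw [mem_Icc] at hx ⊢; omega
          · intro f _ _
            apply mul_nonneg (by positivity)
            exact sum_nonneg fun _ _ => norm_nonneg _
        · apply sum_le_sum
          intro f hf
          rw [mem_Icc] at hf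
          have hc := PC_card_le f (by omega)
          have ht : (0:ℝ) < Nat.totient f := by exact_mod_cast Nat.totient_pos.mpr (by omega)
          have hfF : (f:ℝ) ≤ F := by exact_mod_cast hf.2
          calc (f : ℝ) / (Nat.totient f : ℝ) * ((PC f).card * (32 * f * L ^ 2 * U ^ 2 / X))
              ≤ (f : ℝ) / (Nat.totient f : ℝ) * (Nat.totient f * (32 * f * L ^ 2 * U ^ 2 / X)) := by
                gcongr
            _ = 32 * (f:ℝ) ^ 2 * L ^ 2 * U ^ 2 / X := by field_simp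
            _ ≤ _ := by gcongr
    _ ≤ 72 * L ^ 6 + F * (32 * (F:ℝ) ^ 2 * L ^ 2 * U ^ 2 / X) := by
        rw [sum_const, nsmul_eq_mul]
        have : ((Icc 2 F).card : ℝ) ≤ F := by
          rw [Nat.card_Icc]; exact_mod_cast (by omega : F + 1 - 2 ≤ F)
        gcongr
    _ = _ := by ring

end Pool.Agent.H316R2
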