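import Mathlib
import Pool.Agent.H316R2.V3
import Pool.Agent.H316R2.Mt

set_option autoImplicit false

open Finset

namespace Pool.Agent.H316R2

open Pool.Agent.Helper112 Classical

/-- prime powers of exponent at least two are negligible -/
theorem eta_bound : ∃ C : ℝ, 1 ≤ C ∧ ∀ X Y : ℕ, 2 ≤ X →
    ∑ n ∈ (Icc X Y).filter (fun n => ¬ n.Prime), ArithmeticFunction.vonMangoldt n / (n:ℝ) ≤
      C / Real.sqrt X := by
  obtain ⟨C0, hC0⟩ := Chebyshev.psi_sub_theta_le_mul_sqrt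
  set C := max C0 1 with hC
  have hC1 : 1 ≤ C := le_max_right _ _
  set b : ℕ → ℝ := fun n => if n.Prime then 0 else ArithmeticFunction.vonMangoldt n with hb
  have hb0 : ∀ n, 0 ≤ b n := by
    intro n; rw [hb]; simp only; split_ifs
    · exact le_rfl
    · exact ArithmeticFunction.vonMangoldt_nonneg
  have hB : ∀ M : ℕ, ∑ n ∈ Ioc 0 M, b n ≤ C * Real.sqrt M := by
    intro M
    have h1 := hC0 (M:ℝ)
    rw [Chebyshev.psi_sub_theta_eq_sum_not_prime, Nat.floor_natCast, sum_filter] at h1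
    have h2 : ∑ n ∈ Ioc 0 M, b n = ∑ a ∈ Ioc 0 M, if ¬ Nat.Prime a then ArithmeticFunction.vonMangoldt a else 0 := by
      apply sum_congr rfl
      intro n _
      rw [hb]; simp only
      split_ifs <;> rfl
    rw [h2]
    refine h1.trans ?_
    have := Real.sqrt_nonneg (M:ℝ)
    have h3 : C0 ≤ C := le_max_left _ _
    nlinarith
  have claim : ∀ z : ℕ, 1 ≤ z → ∀ Y, z ≤ Y → ∑ n ∈ Ioc z Y, b n / n ≤
      (∑ n ∈ Ioc 0 Y, b n) / Y + 2 * C * (1 / Real.sqrt z - 1 / Real.sqrt Y) := by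
    intro z hz Y hY
    induction Y, hY using Nat.le_induction with
    | base =>
      rw [Ioc_self, sum_empty, sub_self, mul_zero, add_zero]
      exact div_nonneg (sum_nonneg fun n _ => hb0 n) (Nat.cast_nonneg z)
    | succ Y hY ih =>
      rw [sum_Ioc_succ_top (by omega), sum_Ioc_succ_top (by omega)]
      have hY0 : (0:ℝ) < Y := by exact_mod_cast (by omega : 0 < Y)
      set s := Real.sqrt Y with hs
      set s1 := Real.sqrt ((Y + 1 : ℕ) : ℝ) with hs1
      have hs0 : 0 < s := Real.sqrt_pos.mpr hY0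
      have hsq : s ^ 2 = Y := Real.sq_sqrt hY0.le
      have hsq1 : s1 ^ 2 = Y + 1 := by
        rw [hs1, Real.sq_sqrt (Nat.cast_nonneg _)]; push_cast; ring
      have hs10 : 0 < s1 := Real.sqrt_pos.mpr (by positivity)
      have hle : s ≤ s1 := Real.sqrt_le_sqrt (by push_cast; linarith)
      have hBY := hB Y
      rw [← hs] at hBY
      set B := ∑ n ∈ Ioc 0 Y, b n with hBdef
      have hB0 : 0 ≤ B := sum_nonneg fun n _ => hb0 n
      have e1 : B / Y - B / ((Y + 1 : ℕ) : ℝ) = B / (Y * (Y + 1)) := by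
        push_cast; field_simp; ring
      have e2 : B / (Y * (Y + 1)) ≤ C / (s * s1 ^ 2) := by
        rw [div_le_div_iff₀ (by positivity) (by positivity), hsq1]
        have : B * (s * (Y + 1)) ≤ (C * s) * (s * (Y + 1)) := by gcongr
        calc _ ≤ _ := this
          _ = C * (s ^ 2 * (Y + 1)) := by ring
          _ = _ := by rw [hsq]
      have e3 : C / (s * s1 ^ 2) ≤ 2 * C * (1 / s - 1 / s1) := by
        have h1 : 1 / s - 1 / s1 = (s1 - s) / (s * s1) := by field_simp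
        have h2 : s1 - s = 1 / (s1 + s) := by
          rw [eq_div_iff (by positivity)]
          have : (s1 - s) * (s1 + s) = s1 ^ 2 - s ^ 2 := by ring
          rw [this, hsq, hsq1]; ring
        rw [h1, h2, div_div, mul_one_div, div_le_div_iff₀ (by positivity) (by positivity)]
        have h3 : s1 + s ≤ 2 * s1 := by linarith
        have h4 : C * ((s1 + s) * (s * s1)) ≤ C * ((2 * s1) * (s * s1)) := by gcongr
        calc _ ≤ _ := h4
          _ = _ := by ring
      have e4 : (B + b (Y + 1)) / ((Y + 1 : ℕ) : ℝ) = B / ((Y + 1 : ℕ) : ℝ) + b (Y + 1) / ((Y + 1 : ℕ) : ℝ) := by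
        rw [add_div]
      rw [e4]
      linarith
  refine ⟨6 * C, by linarith, ?_⟩
  intro X Y hX
  have hX0 : (0:ℝ) < X := by exact_mod_cast (by omega : 0 < X)
  have hsX : 0 < Real.sqrt X := Real.sqrt_pos.mpr hX0
  rcases le_or_gt X Y with hXY | hXY
  · have h1 : ∑ n ∈ (Icc X Y).filter (fun n => ¬ n.Prime), ArithmeticFunction.vonMangoldt n / (n:ℝ) =
        ∑ n ∈ Ioc (X - 1) Y, b n / n := by
      rw [sum_filter]
      have : Icc X Y = Ioc (X - 1) Y := by ext n; simp only [mem_Icc, mem_Ioc]; omega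
      rw [this]
      apply sum_congr rfl
      intro n _
      rw [hb]; simp only
      split_ifs <;> simp_all
    rw [h1]
    refine (claim (X - 1) (by omega) Y (by omega)).trans ?_
    have hY0 : (0:ℝ) < Y := by exact_mod_cast (by omega : 0 < Y)
    have h2 : (∑ n ∈ Ioc 0 Y, b n) / Y ≤ C / Real.sqrt Y := by
      have hsY : 0 < Real.sqrt Y := Real.sqrt_pos.mpr hY0
      rw [div_le_div_iff₀ hY0 hsY]
      have h3 := hB Y
      calc _ ≤ C * Real.sqrt Y * Real.sqrt Y := by gcongr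
        _ = C * Y := by rw [mul_assoc, Real.mul_self_sqrt hY0.le]
    have h3 : C / Real.sqrt Y ≤ C / Real.sqrt X := by
      apply div_le_div_of_nonneg_left (by linarith) hsX
      exact Real.sqrt_le_sqrt (by exact_mod_cast hXY)
    have h4 : 1 / Real.sqrt ((X - 1 : ℕ) : ℝ) ≤ 2 / Real.sqrt X := by
      have hX1 : (0:ℝ) < ((X - 1 : ℕ) : ℝ) := by exact_mod_cast (by omega : 0 < X - 1)
      have hs1 : 0 < Real.sqrt ((X - 1 : ℕ) : ℝ) := Real.sqrt_pos.mpr hX1
      rw [div_le_div_iff₀ hs1 hsX, one_mul]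
      have h5 : Real.sqrt X ≤ Real.sqrt (2 ^ 2 * ((X - 1 : ℕ) : ℝ)) := by
        apply Real.sqrt_le_sqrt
        have : (X:ℝ) ≤ ((2 ^ 2 * (X - 1) : ℕ) : ℝ) := by exact_mod_cast (by omega : X ≤ 2 ^ 2 * (X - 1))
        push_cast at this
        linarith
      rw [Real.sqrt_mul (by norm_num), Real.sqrt_sq (by norm_num)] at h5
      exact h5
    have h6 : 0 ≤ 1 / Real.sqrt (Y:ℝ) := by positivity
    have h7 : 2 * C * (1 / Real.sqrt ((X - 1 : ℕ) : ℝ) - 1 / Real.sqrt Y) ≤ 2 * C * (2 / Real.sqrt X) := by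
      gcongr; linarith
    have h8 : 6 * C / Real.sqrt X = C / Real.sqrt X + 2 * C * (2 / Real.sqrt X) + C / Real.sqrt X := by
      field_simp; ring
    have h9 : 0 ≤ C / Real.sqrt X := by positivity
    linarith
  · rw [Icc_eq_empty (by omega), filter_empty, sum_empty]
    positivity

theorem Wt_psi (k : ℕ) (τ u0 : ℝ) (X Y : ℕ) (hτ : 1 ≤ τ) (hY : Real.exp u0 ≤ Y)
    (hX : (X:ℝ) ≤ Real.exp (u0 - (k + 2) * τ)) (hu : (k + 2) * τ ≤ u0) :
    Wt (fun n => psi (k + 1) τ (u0 - Real.log n)) X Y := by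
  have hτ0 : 0 < τ := by linarith
  refine ⟨fun n => psi_nonneg _ hτ0 _, fun n => psi_le_one _ hτ0 _, ?_, ?_, ?_⟩
  · intro n hn
    apply psi_left _ hτ0
    have h1 : (Y:ℝ) < n := by exact_mod_cast hn
    have h2 : Real.exp u0 < n := by linarith
    have h3 := Real.log_lt_log (Real.exp_pos _) h2
    rw [Real.log_exp] at h3
    linarith
  · intro n hn
    apply psi_right _ hτ0
    rcases Nat.eq_zero_or_pos n with h | h
    · subst h
      simp only [Nat.cast_zero, Real.log_zero, sub_zero]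
      push_cast
      linarith
    · have h1 : (n:ℝ) ≤ X := by exact_mod_cast hn.le
      have h0 : (0:ℝ) < n := by exact_mod_cast h
      have h2 := Real.log_le_log h0 (h1.trans hX)
      rw [Real.log_exp] at h2
      push_cast
      linarith
  · intro M j hM hj
    have hM0 : (0:ℝ) < M := by exact_mod_cast hM
    have hj0 : (0:ℝ) < j := by exact_mod_cast hj
    refine (psi_lip k hτ0 _ _).trans ?_
    have e : (u0 - Real.log ((M * j : ℕ) : ℝ)) - (u0 - Real.log (((M + 1) * j : ℕ) : ℝ)) =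
        Real.log (1 + 1 / M) := by
      push_cast
      rw [Real.log_mul hM0.ne' hj0.ne', Real.log_mul (by positivity) hj0.ne']
      have : (1:ℝ) + 1 / M = (M + 1) / M := by field_simp
      rw [this, Real.log_div (by positivity) hM0.ne']
      ring
    rw [e]
    have h1 : 0 ≤ Real.log (1 + 1 / (M:ℝ)) := Real.log_nonneg (by
      have : 0 < 1 / (M:ℝ) := by positivity
      linarith)
    have h2 : Real.log (1 + 1 / (M:ℝ)) ≤ 1 / M := by
      have := Real.log_le_sub_one_of_pos (show 0 < 1 + 1 / (M:ℝ) by positivity)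
      linarith
    rw [abs_of_nonneg h1, div_le_iff₀ hτ0]
    have h3 : 0 < 1 / (M:ℝ) := by positivity
    nlinarith

theorem E_bound (h : ℕ → ℝ) (Y d : ℕ) [NeZero d] (hco : ∀ n ∈ Icc 1 Y, h n ≠ 0 → n.Coprime d)
    (a : ℕ) (ha : a.Coprime d) (W : (f : ℕ) → DirichletCharacter ℂ f → ℝ)
    (hW : ∀ f, f ∣ d → ∀ ψ : DirichletCharacter ℂ f,
      ‖∑ n ∈ Icc 1 Y, ψ (n : ZMod f) * ((h n : ℝ) : ℂ)‖ ≤ W f ψ) :
    |∑ n ∈ Icc 1 Y, h n * (if n ≡ a [MOD d] then 1 else 0) - (∑ n ∈ Icc 1 Y, h n) / (Nat.totient d : ℝ)| ≤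
      (1 / (Nat.totient d : ℝ)) * ∑ f ∈ d.divisors.filter (fun f => f ≠ 1), ∑ ψ ∈ PC f, W f ψ := by
  have e1 : ∑ n ∈ Icc 1 Y, h n * (if n ≡ a [MOD d] then 1 else 0) -
      (∑ n ∈ Icc 1 Y, h n) / (Nat.totient d : ℝ) =
      ∑ n ∈ Icc 1 Y, h n * ((if n ≡ a [MOD d] then (1 : ℝ) else 0) -
      (if n.Coprime d then (1 : ℝ) / (Nat.totient d : ℝ) else 0)) := by
    rw [sum_div, ← sum_sub_distrib]
    apply sum_congr rfl
    intro n hn
    by_cases h0 : h n = 0
    · rw [h0]; simp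
    · rw [if_pos (hco n hn h0)]
      ring
  have e2 : ((∑ n ∈ Icc 1 Y, h n * ((if n ≡ a [MOD d] then (1 : ℝ) else 0) -
      (if n.Coprime d then (1 : ℝ) / (Nat.totient d : ℝ) else 0)) : ℝ) : ℂ) =
      (1 / (Nat.totient d : ℂ)) *
      ∑ χ ∈ (univ : Finset (DirichletCharacter ℂ d)).filter (fun χ => χ ≠ 1),
        χ ((a : ZMod d)⁻¹) * ∑ n ∈ Icc 1 Y, χ (n : ZMod d) * ((h n : ℝ) : ℂ) := by
    rw [Complex.ofReal_sum]
    have : ∀ n ∈ Icc 1 Y, ((h n * ((if n ≡ a [MOD d] then (1 : ℝ) else 0) -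
      (if n.Coprime d then (1 : ℝ) / (Nat.totient d : ℝ) else 0)) : ℝ) : ℂ) =
        ∑ χ ∈ (univ : Finset (DirichletCharacter ℂ d)).filter (fun χ => χ ≠ 1),
          (1 / (Nat.totient d : ℂ)) * (χ ((a : ZMod d)⁻¹) * (χ (n : ZMod d) * ((h n : ℝ) : ℂ))) := by
      intro n _
      rw [Complex.ofReal_mul, BLB.bracket d a ha n, mul_sum, mul_sum]
      apply sum_congr rfl
      intro χ _
      ring
    rw [sum_congr rfl this, sum_comm, mul_sum]
    apply sum_congr rfl
    intro χ _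
    rw [mul_sum, mul_sum]
  rw [e1, ← Real.norm_eq_abs, ← Complex.norm_real, e2, norm_mul]
  have h1 : ‖(1 / (Nat.totient d : ℂ))‖ = 1 / (Nat.totient d : ℝ) := by
    rw [norm_div, norm_one, Complex.norm_natCast]
  rw [h1]
  apply mul_le_mul_of_nonneg_left _ (by positivity)
  refine (norm_sum_le _ _).trans ?_
  have h2 : ∀ χ ∈ (univ : Finset (DirichletCharacter ℂ d)).filter (fun χ => χ ≠ 1),
      ‖χ ((a : ZMod d)⁻¹) * ∑ n ∈ Icc 1 Y, χ (n : ZMod d) * ((h n : ℝ) : ℂ)‖ ≤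
      ‖∑ n ∈ Icc 1 Y, χ (n : ZMod d) * ((h n : ℝ) : ℂ)‖ := by
    intro χ _
    rw [norm_mul]
    have : ‖χ ((a : ZMod d)⁻¹)‖ ≤ 1 := χ.norm_le_one _
    calc _ ≤ 1 * ‖∑ n ∈ Icc 1 Y, χ (n : ZMod d) * ((h n : ℝ) : ℂ)‖ :=
          mul_le_mul_of_nonneg_right this (norm_nonneg _)
      _ = _ := one_mul _
  refine (sum_le_sum h2).trans ?_
  have h3 := BLB.step2 d (fun χ => ‖∑ n ∈ Icc 1 Y, χ (n : ZMod d) * ((h n : ℝ) : ℂ)‖)
    (fun χ => norm_nonneg _) (fun f ψ => if f ∣ d then W f ψ else 0) (by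
      intro f hf ψ
      simp only [if_pos hf]
      refine le_trans (le_of_eq ?_) (hW f hf ψ)
      congr 1
      apply sum_congr rfl
      intro n hn
      by_cases h0 : h n = 0
      · rw [h0]; simp
      · have hc := hco n hn h0
        have h1 := DirichletCharacter.changeLevel_eq_cast_of_dvd' ψ hf (a := (n : ℤ))
          (by exact_mod_cast Nat.isCoprime_iff_coprime.mpr hc)
        push_cast at h1
        rw [h1])
  refine h3.trans (le_of_eq ?_)
  apply sum_congr rfl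
  intro f hf
  have hf1 := (Nat.mem_divisors.mp (mem_filter.mp hf).1)
  have : NeZero f := ⟨fun h => by rw [h] at hf1; exact hf1.2 (Nat.eq_zero_of_zero_dvd hf1.1)⟩
  rw [PC_eq]
  apply sum_congr rfl
  intro ψ _
  rw [if_pos hf1.1]

theorem inv_tot_le (n : ℕ) (hn : 1 ≤ n) : 1 / (Nat.totient n : ℝ) ≤ (n.divisors.card : ℝ) / n := by
  have h1 : n ≤ n.divisors.card * Nat.totient n := by
    calc n = ∑ d ∈ n.divisors, Nat.totient d := (Nat.sum_totient n).symm
      _ ≤ ∑ _d ∈ n.divisors, Nat.totient n := by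
          apply sum_le_sum
          intro d hd
          exact Nat.le_of_dvd (Nat.totient_pos.mpr hn)
            (Nat.totient_dvd_of_dvd (Nat.dvd_of_mem_divisors hd))
      _ = _ := by rw [sum_const, smul_eq_mul]
  have h2 : (0:ℝ) < Nat.totient n := by exact_mod_cast Nat.totient_pos.mpr hn
  have h3 : (0:ℝ) < n := by exact_mod_cast hn
  rw [div_le_div_iff₀ h2 h3, one_mul]
  exact_mod_cast h1

theorem sum_inv_tot (D : ℕ) : ∑ e ∈ Icc 1 D, 1 / (Nat.totient e : ℝ) ≤ (1 + Real.log D) ^ 2 := by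
  refine le_trans (sum_le_sum fun e he => ?_) (tau_sum_le D)
  rw [mem_Icc] at he
  exact inv_tot_le e he.1

theorem swap_sum (D : ℕ) (A : Finset ℕ) (hA : ∀ d ∈ A, 1 ≤ d ∧ d ≤ D ∧ Squarefree d)
    (Fam : ℕ → Prop) (hF : ∀ d ∈ A, ∀ f, f ∣ d → Fam f) (T : ℕ → ℝ) (hT : ∀ f, 0 ≤ T f) :
    ∑ d ∈ A, (1 / (Nat.totient d : ℝ)) * ∑ f ∈ d.divisors.filter (fun f => f ≠ 1), T f ≤
      (1 + Real.log D) ^ 2 * ∑ f ∈ (Icc 2 D).filter Fam, T f / (Nat.totient f : ℝ) := by
  have h1 : ∑ d ∈ A, (1 / (Nat.totient d : ℝ)) * ∑ f ∈ d.divisors.filter (fun f => f ≠ 1), T f ≤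
      (∑ f ∈ (Icc 2 D).filter Fam, T f / (Nat.totient f : ℝ)) * ∑ e ∈ Icc 1 D, 1 / (Nat.totient e : ℝ) := by
    rw [sum_mul_sum, ← sum_product']
    simp_rw [mul_sum]
    rw [sum_sigma']
    set S := A.sigma (fun d => d.divisors.filter (fun f => f ≠ 1)) with hS
    set φm : ((_ : ℕ) × ℕ) → ℕ × ℕ := fun x => (x.2, x.1 / x.2) with hφm
    have hmem : ∀ x ∈ S, x.1 ∈ A ∧ x.2 ∣ x.1 ∧ x.2 ≠ 1 ∧ 0 < x.2 := by
      intro x hx
      rw [hS, mem_sigma, mem_filter, Nat.mem_divisors] at hx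
      have h0 := (hA x.1 hx.1).1
      exact ⟨hx.1, hx.2.1.1, hx.2.2, Nat.pos_of_dvd_of_pos hx.2.1.1 h0⟩
    have hinj : Set.InjOn φm S := by
      intro x hx y hy hxy
      have hx' := hmem x hx
      have hy' := hmem y hy
      rw [hφm] at hxy
      simp only [Prod.mk.injEq] at hxy
      obtain ⟨e1, e2⟩ := hxy
      have e3 : x.1 = y.1 := by
        rw [← Nat.mul_div_cancel' hx'.2.1, ← Nat.mul_div_cancel' hy'.2.1, e2, e1]
      exact Sigma.ext e3 (heq_of_eq e1)
    have himg : S.image φm ⊆ (Icc 2 D).filter Fam ×ˢ Icc 1 D := by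
      intro y hy
      rw [mem_image] at hy
      obtain ⟨x, hx, rfl⟩ := hy
      have hx' := hmem x hx
      have hA' := hA x.1 hx'.1
      rw [mem_product, mem_filter, mem_Icc, mem_Icc]
      have h2 : x.2 ≤ x.1 := Nat.le_of_dvd hA'.1 hx'.2.1
      refine ⟨⟨⟨?_, ?_⟩, hF x.1 hx'.1 x.2 hx'.2.1⟩, ?_, ?_⟩
      · have := hx'.2.2.1; have := hx'.2.2.2; show 2 ≤ x.2; omega
      · show x.2 ≤ D; omega
      · exact Nat.div_pos h2 hx'.2.2.2
      · exact (Nat.div_le_self _ _).trans hA'.2.1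
    calc ∑ x ∈ S, 1 / (Nat.totient x.1 : ℝ) * T x.2 =
        ∑ x ∈ S, T (φm x).1 / (Nat.totient (φm x).1 : ℝ) * (1 / (Nat.totient (φm x).2 : ℝ)) := by
          apply sum_congr rfl
          intro x hx
          have hx' := hmem x hx
          have hsq := (hA x.1 hx'.1).2.2
          rw [hφm]
          simp only
          have hmul : x.2 * (x.1 / x.2) = x.1 := Nat.mul_div_cancel' hx'.2.1
          have hcop : Nat.Coprime x.2 (x.1 / x.2) := by
            rw [← hmul] at hsq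
            exact Nat.coprime_of_squarefree_mul hsq
          have htot : (Nat.totient x.1 : ℝ) = Nat.totient x.2 * Nat.totient (x.1 / x.2) := by
            conv_lhs => rw [← hmul]
            rw [Nat.totient_mul hcop]
            push_cast; ring
          rw [htot]
          rw [div_mul_div_comm, mul_one, one_div_mul_eq_div]
      _ = ∑ y ∈ S.image φm, T y.1 / (Nat.totient y.1 : ℝ) * (1 / (Nat.totient y.2 : ℝ)) := by
          rw [sum_image hinj]
      _ ≤ _ := by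
          apply sum_le_sum_of_subset_of_nonneg himg
          intro y _ _
          have := hT y.1
          positivity
  have h2 := sum_inv_tot D
  have h3 : 0 ≤ ∑ f ∈ (Icc 2 D).filter Fam, T f / (Nat.totient f : ℝ) :=
    sum_nonneg fun f _ => div_nonneg (hT f) (Nat.cast_nonneg _)
  calc _ ≤ _ := h1
    _ ≤ (∑ f ∈ (Icc 2 D).filter Fam, T f / (Nat.totient f : ℝ)) * (1 + Real.log D) ^ 2 := by gcongr
    _ = _ := by ring

end Pool.Agent.H316R2
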