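import Mathlib
import Pool.Agent.H316R2.C2

set_option autoImplicit false

open Finset Filter Topology DirichletCharacter

namespace Pool.Agent.H316R2

open Pool.Agent.Erdos456

noncomputable def TT {q : ℕ} (χ : DirichletCharacter ℂ q) (a k : ℕ) (v : ℝ) : ℂ :=
  ∑ n ∈ Icc 1 (EE v), χ (n : ZMod q) * (((Real.log n) ^ a / n * (v - Real.log n) ^ k : ℝ) : ℂ)

noncomputable def AA {q : ℕ} (χ : DirichletCharacter ℂ q) (k : ℕ) (u : ℝ) : ℂ :=
  ∑ n ∈ Icc 1 (EE u), χ (n : ZMod q) *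
    ((ArithmeticFunction.vonMangoldt n / n * (u - Real.log n) ^ k : ℝ) : ℂ)

theorem TT_expand {q : ℕ} (χ : DirichletCharacter ℂ q) (a k : ℕ) (v : ℝ) :
    TT χ a k v = ∑ i ∈ range (k + 1), (((k.choose i : ℝ) * (-1) ^ i * v ^ (k - i) : ℝ) : ℂ) *
      SS χ (a + i) (EE v) := by
  unfold TT SS
  simp_rw [mul_sum]
  rw [sum_comm]
  apply sum_congr rfl
  intro n _
  have h : (v - Real.log n) ^ k = ∑ i ∈ range (k + 1),
      (-Real.log n) ^ i * v ^ (k - i) * (k.choose i : ℝ) := by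
    rw [← add_pow]; congr 1; ring
  rw [h, mul_sum, Complex.ofReal_sum, mul_sum]
  apply sum_congr rfl
  intro i _
  have e : Real.log (n:ℝ) ^ a / n * ((-Real.log n) ^ i * v ^ (k - i) * (k.choose i : ℝ)) =
      ((k.choose i : ℝ) * (-1) ^ i * v ^ (k - i)) * (Real.log (n:ℝ) ^ (a + i) / n) := by
    rw [neg_pow, pow_add]; ring
  rw [e, Complex.ofReal_mul]
  ring

theorem TT_approx (a k : ℕ) : ∃ C : ℝ, 1 ≤ C ∧ ∀ (q : ℕ) [NeZero q] (χ : DirichletCharacter ℂ q),
    χ ≠ 1 → ∃ l : ℕ → ℂ, (a = 0 → l 0 = LFunction χ 1) ∧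
      (∀ i ≤ k, ‖l i‖ ≤ C * (1 + Real.log q) ^ (a + i + 1)) ∧
      ∀ v : ℝ, 0 ≤ v → ‖TT χ a k v - ∑ i ∈ range (k + 1),
        (((k.choose i : ℝ) * (-1) ^ i * v ^ (k - i) : ℝ) : ℂ) * l i‖ ≤
          C * q * ((1 + v) ^ (k + a) * Real.exp (-v)) := by
  choose Cf hCf1 hCf using c_lim
  set C := ∑ i ∈ range (k + 1), Cf (a + i) * (2 * 2 ^ k) with hC
  have hle : ∀ i ≤ k, Cf (a + i) * (2 * 2 ^ k) ≤ C := by
    intro i hi
    rw [hC]
    apply single_le_sum (f := fun i => Cf (a + i) * (2 * 2 ^ k))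
    · intro j _; have := hCf1 (a + j); positivity
    · rw [mem_range]; omega
  have h2k : (1:ℝ) ≤ 2 ^ k := one_le_pow₀ (by norm_num)
  refine ⟨C, ?_, ?_⟩
  · have := hle 0 (by omega)
    have h1 := hCf1 (a + 0)
    nlinarith
  intro q _ χ hχ
  choose l hl0 hl1 hl2 using fun i => hCf i q χ hχ
  have hlq : 0 ≤ Real.log (q:ℝ) := Real.log_natCast_nonneg q
  refine ⟨fun i => l (a + i), ?_, ?_, ?_⟩
  · intro ha; subst ha; exact hl0 0 rfl
  · intro i hi
    refine (hl1 (a + i)).trans ?_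
    have h1 := hle i hi
    have h2 := hCf1 (a + i)
    have h3 : Cf (a + i) ≤ C := by nlinarith
    gcongr
  · intro v hv
    rw [TT_expand, ← sum_sub_distrib]
    have hq0 : (0:ℝ) ≤ q := Nat.cast_nonneg q
    have hE1 := EE_pos hv
    have hE1r : (1:ℝ) ≤ EE v := by exact_mod_cast hE1
    have hb : ∀ i ∈ range (k + 1), ‖(((k.choose i : ℝ) * (-1) ^ i * v ^ (k - i) : ℝ) : ℂ) *
        SS χ (a + i) (EE v) - (((k.choose i : ℝ) * (-1) ^ i * v ^ (k - i) : ℝ) : ℂ) * l (a + i)‖ ≤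
        Cf (a + i) * (2 * 2 ^ k) * (q * ((1 + v) ^ (k + a) * Real.exp (-v))) := by
      intro i hi
      rw [mem_range] at hi
      rw [← mul_sub, norm_mul, Complex.norm_real, Real.norm_eq_abs, abs_mul, abs_mul, abs_pow, abs_neg,
        abs_one, one_pow, mul_one, abs_of_nonneg (show (0:ℝ) ≤ (k.choose i : ℝ) by positivity),
        abs_of_nonneg (show 0 ≤ v ^ (k - i) by positivity)]
      have h1 := hl2 (a + i) (EE v) hE1
      have h2 : (k.choose i : ℝ) ≤ 2 ^ k := by exact_mod_cast Nat.choose_le_two_pow k i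
      have h3 : v ^ (k - i) ≤ (1 + v) ^ (k - i) := pow_le_pow_left₀ hv (by linarith) _
      have h4 : (1 + Real.log (EE v)) ^ (a + i) ≤ (1 + v) ^ (a + i) := by
        apply pow_le_pow_left₀
        · have := Real.log_natCast_nonneg (EE v); linarith
        · have := log_EE_le hv; linarith
      have h5 : (1:ℝ) / EE v ≤ 2 * Real.exp (-v) := by
        have := EE_ge hv
        have he := Real.exp_pos v
        have h6 : (1:ℝ) / EE v ≤ 2 / Real.exp v := by
          rw [div_le_div_iff₀ (by linarith) he]; linarith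
        rw [Real.exp_neg, ← div_eq_mul_inv]
        exact h6
      have hc := hCf1 (a + i)
      have hlE := Real.log_natCast_nonneg (EE v)
      calc (k.choose i : ℝ) * v ^ (k - i) * ‖SS χ (a + i) (EE v) - l (a + i)‖
          ≤ 2 ^ k * (1 + v) ^ (k - i) * (Cf (a + i) * q * (1 + Real.log (EE v)) ^ (a + i) / EE v) := by
            gcongr
        _ = 2 ^ k * (1 + v) ^ (k - i) * (Cf (a + i) * q * (1 + Real.log (EE v)) ^ (a + i)) * (1 / EE v) := by
            ring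
        _ ≤ 2 ^ k * (1 + v) ^ (k - i) * (Cf (a + i) * q * (1 + v) ^ (a + i)) * (2 * Real.exp (-v)) := by
            gcongr
        _ = Cf (a + i) * (2 * 2 ^ k) * (q * (((1 + v) ^ (k - i) * (1 + v) ^ (a + i)) * Real.exp (-v))) := by
            ring
        _ = _ := by
            rw [← pow_add, show k - i + (a + i) = k + a by omega]
    refine (norm_sum_le _ _).trans ((sum_le_sum hb).trans ?_)
    rw [← sum_mul, hC]
    apply le_of_eq
    ring

theorem TT_conv {q : ℕ} (χ : DirichletCharacter ℂ q) (k : ℕ) (u : ℝ) :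
    TT χ 1 k u = ∑ d ∈ Icc 1 (EE u), χ (d : ZMod q) *
      ((ArithmeticFunction.vonMangoldt d / d : ℝ) : ℂ) * TT χ 0 k (u - Real.log d) := by
  have h1 : TT χ 1 k u = ∑ n ∈ Icc 1 (EE u), ∑ i ∈ n.divisorsAntidiagonal,
      (χ (i.1 : ZMod q) * χ (i.2 : ZMod q)) *
        ((ArithmeticFunction.vonMangoldt i.2 / (i.1 * i.2) *
          (u - Real.log i.1 - Real.log i.2) ^ k : ℝ) : ℂ) := by
    unfold TT
    apply sum_congr rfl
    intro n hn
    rw [mem_Icc] at hn
    have h2 : Real.log (n:ℝ) = ∑ i ∈ n.divisorsAntidiagonal, ArithmeticFunction.vonMangoldt i.2 := by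
      rw [← ArithmeticFunction.vonMangoldt_sum, ← Nat.sum_divisorsAntidiagonal' (f := fun a b =>
        ArithmeticFunction.vonMangoldt b)]
    have h3 : ∀ i ∈ n.divisorsAntidiagonal, (χ (i.1 : ZMod q) * χ (i.2 : ZMod q)) *
        ((ArithmeticFunction.vonMangoldt i.2 / (i.1 * i.2) *
          (u - Real.log i.1 - Real.log i.2) ^ k : ℝ) : ℂ) =
        χ (n : ZMod q) * ((ArithmeticFunction.vonMangoldt i.2 / n * (u - Real.log n) ^ k : ℝ) : ℂ) := by
      intro i hi
      rw [Nat.mem_divisorsAntidiagonal] at hi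
      have hi1 : i.1 ≠ 0 := by intro h; rw [h, zero_mul] at hi; omega
      have hi2 : i.2 ≠ 0 := by intro h; rw [h, mul_zero] at hi; omega
      have hi1' : (i.1 : ℝ) ≠ 0 := by exact_mod_cast hi1
      have hi2' : (i.2 : ℝ) ≠ 0 := by exact_mod_cast hi2
      rw [← hi.1, Nat.cast_mul, map_mul, Nat.cast_mul, Real.log_mul hi1' hi2']
      congr 2
      ring
    rw [sum_congr rfl h3, ← mul_sum, ← Complex.ofReal_sum]
    congr 2
    rw [pow_one]
    have h4 : ∑ i ∈ n.divisorsAntidiagonal, ArithmeticFunction.vonMangoldt i.2 / n * (u - Real.log n) ^ k =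
        (∑ i ∈ n.divisorsAntidiagonal, ArithmeticFunction.vonMangoldt i.2) / n * (u - Real.log n) ^ k := by
      rw [sum_div, sum_mul]
    rw [h4, ← h2]
  rw [h1]
  rw [hyperC (EE u) (fun b c => (χ (b : ZMod q) * χ (c : ZMod q)) *
        ((ArithmeticFunction.vonMangoldt c / (b * c) *
          (u - Real.log b - Real.log c) ^ k : ℝ) : ℂ))]
  apply sum_congr rfl
  intro d hd
  rw [mem_Icc] at hd
  unfold TT
  rw [EE_sub_log u hd.1, mul_sum]
  apply sum_congr rfl
  intro b hb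
  rw [pow_zero]
  push_cast
  ring

theorem TT_conv' {q : ℕ} (χ : DirichletCharacter ℂ q) (k : ℕ) (u : ℝ) (l : ℕ → ℂ) :
    ∑ d ∈ Icc 1 (EE u), χ (d : ZMod q) *
      ((ArithmeticFunction.vonMangoldt d / d : ℝ) : ℂ) * (∑ i ∈ range (k + 1),
        (((k.choose i : ℝ) * (-1) ^ i * (u - Real.log d) ^ (k - i) : ℝ) : ℂ) * l i) =
    ∑ i ∈ range (k + 1), (((k.choose i : ℝ) * (-1) ^ i : ℝ) : ℂ) * l i * AA χ (k - i) u := by
  simp_rw [mul_sum]
  rw [sum_comm]
  apply sum_congr rfl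
  intro i _
  unfold AA
  rw [mul_sum]
  apply sum_congr rfl
  intro d _
  push_cast
  ring

theorem pow_exp_le (k : ℕ) : ∃ C : ℝ, 1 ≤ C ∧ ∀ v : ℝ, 0 ≤ v → (1 + v) ^ k * Real.exp (-v) ≤ C := by
  obtain ⟨C, hC, h⟩ := one_add_pow_le k
  refine ⟨C, hC, fun v hv => ?_⟩
  calc (1 + v) ^ k * Real.exp (-v) ≤ C * Real.exp (v / 2) * Real.exp (-v) := by
        have := h v hv
        gcongr
    _ = C * Real.exp (-(v / 2)) := by rw [mul_assoc, ← Real.exp_add]; congr 2; ring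
    _ ≤ C * 1 := by
        have : Real.exp (-(v / 2)) ≤ 1 := Real.exp_le_one_iff.mpr (by linarith)
        gcongr
    _ = C := mul_one C

open Polynomial in
theorem small_poly (k : ℕ) : ∃ C : ℝ, 1 ≤ C ∧ ∀ (q : ℕ) [NeZero q] (χ : DirichletCharacter ℂ q),
    χ ≠ 1 → ∀ B : ℝ, 1 + Real.log q ≤ B → 1 ≤ B * ‖LFunction χ 1‖ →
      ∃ P : Polynomial ℂ, P.natDegree ≤ k ∧
        ∀ u : ℝ, 0 ≤ u → ‖AA χ k u - P.eval (u : ℂ)‖ ≤ C * q * B ^ ((k + 2) ^ 2) := by
  induction k using Nat.strong_induction_on with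
  | _ k ih =>
  -- constants
  have ih' : ∀ m : ℕ, ∃ C : ℝ, 1 ≤ C ∧ (m < k → ∀ (q : ℕ) [NeZero q] (χ : DirichletCharacter ℂ q),
      χ ≠ 1 → ∀ B : ℝ, 1 + Real.log q ≤ B → 1 ≤ B * ‖LFunction χ 1‖ →
      ∃ P : Polynomial ℂ, P.natDegree ≤ m ∧
        ∀ u : ℝ, 0 ≤ u → ‖AA χ m u - P.eval (u : ℂ)‖ ≤ C * q * B ^ ((m + 2) ^ 2)) := by
    intro m
    by_cases hm : m < k
    · obtain ⟨C, hC, h⟩ := ih m hm
      exact ⟨C, hC, fun _ => h⟩
    · exact ⟨1, le_rfl, fun h => absurd h hm⟩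
  choose Cf hCf1 hCf using ih'
  obtain ⟨Ca, hCa1, hCa⟩ := TT_approx 1 k
  obtain ⟨Cb, hCb1, hCb⟩ := TT_approx 0 k
  obtain ⟨Cv, hCv1, hCv⟩ := vm_conv k
  obtain ⟨Ce, hCe1, hCe⟩ := pow_exp_le (k + 1)
  set S : ℝ := ∑ i ∈ range k, 2 ^ k * Cb * Cf (k - (i + 1)) with hS
  have hS0 : 0 ≤ S := sum_nonneg fun i _ => by have := hCf1 (k - (i + 1)); positivity
  refine ⟨Ca * Ce + Cb * Cv + S, by nlinarith [mul_pos (zero_lt_one.trans_le hCb1) (zero_lt_one.trans_le hCv1)], ?_⟩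
  intro q _ χ hχ B hB hBL
  have hq1 : (1:ℝ) ≤ q := by exact_mod_cast NeZero.one_le
  have hlq : 0 ≤ Real.log (q:ℝ) := Real.log_natCast_nonneg q
  have hB1 : 1 ≤ B := by linarith
  obtain ⟨la, _, hla1, hla2⟩ := hCa q χ hχ
  obtain ⟨lb, hlb0, hlb1, hlb2⟩ := hCb q χ hχ
  have hlb0' := hlb0 rfl
  have hL0 : lb 0 ≠ 0 := by
    rw [hlb0']
    intro h
    rw [h, norm_zero, mul_zero] at hBL
    linarith
  have hLinv : ‖(lb 0)⁻¹‖ ≤ B := by
    rw [norm_inv, hlb0']
    have hpos : 0 < ‖LFunction χ 1‖ := by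
      rw [← hlb0']; exact norm_pos_iff.mpr hL0
    rw [inv_le_iff_one_le_mul₀ hpos]
    exact hBL
  choose Pf hPf1 hPf2 using fun (m : ℕ) (hm : m < k) => hCf m hm q χ hχ B hB hBL
  -- total polynomials for smaller exponents
  set R : Polynomial ℂ := ∑ i ∈ range (k + 1), C ((((k.choose i : ℝ) * (-1) ^ i : ℝ) : ℂ) * la i) * X ^ (k - i) with hR
  set Q : Polynomial ℂ := ∑ i ∈ range k, C ((((k.choose (i + 1) : ℝ) * (-1) ^ (i + 1) : ℝ) : ℂ) * lb (i + 1)) *
    (if h : k - (i + 1) < k then Pf (k - (i + 1)) h else 0) with hQ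
  refine ⟨C (lb 0)⁻¹ * (R - Q), ?_, ?_⟩
  · refine (natDegree_C_mul_le _ _).trans ?_
    refine (natDegree_sub_le _ _).trans (max_le ?_ ?_)
    · apply natDegree_sum_le_of_forall_le
      intro i _
      refine (natDegree_C_mul_le _ _).trans ?_
      rw [natDegree_X_pow]; omega
    · apply natDegree_sum_le_of_forall_le
      intro i _
      refine (natDegree_C_mul_le _ _).trans ?_
      split_ifs with h
      · exact (hPf1 _ h).trans (by omega)
      · simp
  · intro u hu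
    set err : ℕ → ℂ := fun d => TT χ 0 k (u - Real.log d) - ∑ i ∈ range (k + 1),
        (((k.choose i : ℝ) * (-1) ^ i * (u - Real.log d) ^ (k - i) : ℝ) : ℂ) * lb i with herr
    have h1 : TT χ 1 k u = ∑ i ∈ range (k + 1), (((k.choose i : ℝ) * (-1) ^ i : ℝ) : ℂ) * lb i * AA χ (k - i) u +
        ∑ d ∈ Icc 1 (EE u), χ (d : ZMod q) * ((ArithmeticFunction.vonMangoldt d / d : ℝ) : ℂ) * err d := by
      rw [← TT_conv', TT_conv, ← sum_add_distrib]
      apply sum_congr rfl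
      intro d _
      rw [herr]
      ring
    have h2 : ‖∑ d ∈ Icc 1 (EE u), χ (d : ZMod q) * ((ArithmeticFunction.vonMangoldt d / d : ℝ) : ℂ) * err d‖ ≤
        Cb * q * Cv := by
      refine (norm_sum_le _ _).trans ?_
      calc _ ≤ ∑ d ∈ Icc 1 (EE u), Cb * q * (ArithmeticFunction.vonMangoldt d / d *
              ((1 + (u - Real.log d)) ^ k * Real.exp (-(u - Real.log d)))) := by
            apply sum_le_sum
            intro d hd
            obtain ⟨hd1, hd2⟩ := mem_EE hd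
            have h3 := hlb2 (u - Real.log d) (by linarith)
            have hv : 0 ≤ ArithmeticFunction.vonMangoldt d / (d:ℝ) :=
              div_nonneg ArithmeticFunction.vonMangoldt_nonneg (Nat.cast_nonneg d)
            rw [norm_mul, norm_mul, Complex.norm_real, Real.norm_eq_abs, abs_of_nonneg hv]
            have h4 : ‖χ (d : ZMod q)‖ ≤ 1 := χ.norm_le_one _
            rw [add_zero] at h3
            calc ‖χ (d : ZMod q)‖ * (ArithmeticFunction.vonMangoldt d / (d:ℝ)) * ‖err d‖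
                ≤ 1 * (ArithmeticFunction.vonMangoldt d / (d:ℝ)) *
                  (Cb * q * ((1 + (u - Real.log d)) ^ k * Real.exp (-(u - Real.log d)))) := by
                  gcongr
              _ = _ := by ring
        _ = Cb * q * ∑ d ∈ Icc 1 (EE u), (ArithmeticFunction.vonMangoldt d / d *
              ((1 + (u - Real.log d)) ^ k * Real.exp (-(u - Real.log d)))) := by rw [mul_sum]
        _ ≤ Cb * q * Cv := by
            have := hCv u hu
            gcongr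
    set Er := ∑ d ∈ Icc 1 (EE u), χ (d : ZMod q) * ((ArithmeticFunction.vonMangoldt d / d : ℝ) : ℂ) * err d
    have h3 : ‖TT χ 1 k u - R.eval (u:ℂ)‖ ≤ Ca * q * Ce := by
      have e : R.eval (u:ℂ) = ∑ i ∈ range (k + 1),
        (((k.choose i : ℝ) * (-1) ^ i * u ^ (k - i) : ℝ) : ℂ) * la i := by
        rw [hR, eval_finsetSum]
        apply sum_congr rfl
        intro i _
        rw [eval_mul, eval_C, eval_pow, eval_X]
        push_cast
        ring
      rw [e]
      refine (hla2 u hu).trans ?_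
      have := hCe u hu
      gcongr
    -- isolate AA
    have h4 : lb 0 * AA χ k u = TT χ 1 k u - ∑ i ∈ range k,
        (((k.choose (i + 1) : ℝ) * (-1) ^ (i + 1) : ℝ) : ℂ) * lb (i + 1) * AA χ (k - (i + 1)) u - Er := by
      rw [h1, sum_range_succ']
      simp
      ring
    have h5 : AA χ k u - (C (lb 0)⁻¹ * (R - Q)).eval (u:ℂ) = (lb 0)⁻¹ * ((TT χ 1 k u - R.eval (u:ℂ)) -
        (∑ i ∈ range k, (((k.choose (i + 1) : ℝ) * (-1) ^ (i + 1) : ℝ) : ℂ) * lb (i + 1) *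
          AA χ (k - (i + 1)) u - Q.eval (u:ℂ)) - Er) := by
      have : AA χ k u = (lb 0)⁻¹ * (lb 0 * AA χ k u) := by
        rw [← mul_assoc, inv_mul_cancel₀ hL0, one_mul]
      rw [this, h4, eval_mul, eval_C, eval_sub]
      ring
    have h6 : ‖∑ i ∈ range k, (((k.choose (i + 1) : ℝ) * (-1) ^ (i + 1) : ℝ) : ℂ) * lb (i + 1) *
          AA χ (k - (i + 1)) u - Q.eval (u:ℂ)‖ ≤ S * q * B ^ ((k + 2) ^ 2 - 1) := by
      rw [hQ, eval_finsetSum, ← sum_sub_distrib]
      refine (norm_sum_le _ _).trans ?_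
      rw [hS, sum_mul, sum_mul]
      apply sum_le_sum
      intro i hi
      rw [mem_range] at hi
      have hlt : k - (i + 1) < k := by omega
      rw [dif_pos hlt, eval_mul, eval_C, ← mul_sub, norm_mul, norm_mul, Complex.norm_real, Real.norm_eq_abs,
        abs_mul, abs_pow, abs_neg, abs_one, one_pow, mul_one,
        abs_of_nonneg (show (0:ℝ) ≤ (k.choose (i + 1) : ℝ) by positivity)]
      have g1 := hPf2 _ hlt u hu
      have g2 := hlb1 (i + 1) (by omega)
      have g3 : (k.choose (i + 1) : ℝ) ≤ 2 ^ k := by exact_mod_cast Nat.choose_le_two_pow k (i + 1)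
      have g4 : (1 + Real.log q) ^ (0 + (i + 1) + 1) ≤ B ^ (0 + (i + 1) + 1) := by
        apply pow_le_pow_left₀ (by linarith) hB
      have g5 := hCf1 (k - (i + 1))
      calc (k.choose (i + 1) : ℝ) * ‖lb (i + 1)‖ * ‖AA χ (k - (i + 1)) u - (Pf (k - (i + 1)) hlt).eval (u:ℂ)‖
          ≤ 2 ^ k * (Cb * B ^ (0 + (i + 1) + 1)) * (Cf (k - (i + 1)) * q * B ^ ((k - (i + 1) + 2) ^ 2)) := by
            gcongr
            exact g2.trans (by gcongr)
        _ = 2 ^ k * Cb * Cf (k - (i + 1)) * q * (B ^ (0 + (i + 1) + 1) * B ^ ((k - (i + 1) + 2) ^ 2)) := by ring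
        _ ≤ 2 ^ k * Cb * Cf (k - (i + 1)) * q * B ^ ((k + 2) ^ 2 - 1) := by
            rw [← pow_add]
            have hexp : 0 + (i + 1) + 1 + (k - (i + 1) + 2) ^ 2 ≤ (k + 2) ^ 2 - 1 := by
              obtain ⟨j, hj⟩ : ∃ j, k = i + 1 + j := ⟨k - (i + 1), by omega⟩
              have : k - (i + 1) = j := by omega
              rw [this, hj]
              have h7 : (i + 1 + j + 2) ^ 2 = (j + 2) ^ 2 + 2 * (j + 2) * (i + 1) + (i + 1) ^ 2 := by ring
              rw [h7]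
              have h8 : i + 3 ≤ 2 * (j + 2) * (i + 1) + (i + 1) ^ 2 := by nlinarith
              omega
            exact mul_le_mul_of_nonneg_left (pow_le_pow_right₀ hB1 hexp) (by positivity)
    rw [h5, norm_mul]
    calc ‖(lb 0)⁻¹‖ * ‖_‖ ≤ B * (Ca * q * Ce + S * q * B ^ ((k + 2) ^ 2 - 1) + Cb * q * Cv) := by
          gcongr
          refine (norm_sub_le _ _).trans (add_le_add ((norm_sub_le _ _).trans (add_le_add h3 h6)) h2)
      _ ≤ B * (Ca * q * Ce * B ^ ((k + 2) ^ 2 - 1) + S * q * B ^ ((k + 2) ^ 2 - 1) +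
            Cb * q * Cv * B ^ ((k + 2) ^ 2 - 1)) := by
          have hp : 1 ≤ B ^ ((k + 2) ^ 2 - 1) := one_le_pow₀ hB1
          have e1 : Ca * q * Ce ≤ Ca * q * Ce * B ^ ((k + 2) ^ 2 - 1) := le_mul_of_one_le_right (by positivity) hp
          have e2 : Cb * q * Cv ≤ Cb * q * Cv * B ^ ((k + 2) ^ 2 - 1) := le_mul_of_one_le_right (by positivity) hp
          gcongr
      _ = (Ca * Ce + Cb * Cv + S) * q * (B ^ ((k + 2) ^ 2 - 1) * B) := by ring
      _ = _ := by
          rw [← pow_succ, Nat.sub_add_cancel (Nat.one_le_pow _ _ (by omega))]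

end Pool.Agent.H316R2
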