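import Mathlib
import Pool.Agent.H316R2.C3
import Pool.Agent.H316R2.Spl

set_option autoImplicit false

open Finset Filter Topology DirichletCharacter

namespace Pool.Agent.H316R2

theorem poly_diff (k : ℕ) (P : Polynomial ℂ) (hP : P.natDegree ≤ k) (u τ : ℂ) :
    ∑ j ∈ range (k + 2), (-1 : ℂ) ^ j * ((k + 1).choose j : ℂ) * P.eval (u - j * τ) = 0 := by
  set Q : Polynomial ℂ := P.comp (Polynomial.C u - Polynomial.C τ * Polynomial.X) with hQ
  have hdeg : Q.natDegree < k + 1 := by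
    have h1 : Q.natDegree ≤ P.natDegree * (Polynomial.C u - Polynomial.C τ * Polynomial.X).natDegree :=
      Polynomial.natDegree_comp_le
    have h2 : (Polynomial.C u - Polynomial.C τ * Polynomial.X).natDegree ≤ 1 := by
      refine (Polynomial.natDegree_sub_le _ _).trans (max_le (by simp) ?_)
      refine (Polynomial.natDegree_C_mul_le _ _).trans ?_
      simp
    have : P.natDegree * (Polynomial.C u - Polynomial.C τ * Polynomial.X).natDegree ≤ k * 1 :=
      Nat.mul_le_mul hP h2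
    omega
  have h := congrFun (Polynomial.fwdDiff_iter_eq_zero_of_degree_lt hdeg) 0
  rw [fwdDiff_iter_eq_sum_shift] at h
  simp only [Pi.zero_apply, zero_add] at h
  have e : ∀ j : ℕ, Q.eval ((j • (1:ℂ))) = P.eval (u - j * τ) := by
    intro j
    rw [hQ, Polynomial.eval_comp]
    congr 1
    simp
    ring
  have h3 : ∑ j ∈ range (k + 2), (-1 : ℂ) ^ j * ((k + 1).choose j : ℂ) * P.eval (u - j * τ) =
      (-1 : ℂ) ^ (k + 1) * ∑ j ∈ range (k + 1 + 1),
        (((-1 : ℤ) ^ (k + 1 - j) * ((k + 1).choose j : ℤ)) • Q.eval ((j • (1:ℂ)))) := by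
    rw [mul_sum]
    apply sum_congr rfl
    intro j hj
    rw [mem_range] at hj
    rw [e, zsmul_eq_mul]
    push_cast
    have : (-1 : ℂ) ^ (k + 1) * (-1 : ℂ) ^ (k + 1 - j) = (-1 : ℂ) ^ j := by
      rw [← pow_add]
      have e2 : k + 1 + (k + 1 - j) = j + 2 * (k + 1 - j) := by omega
      rw [e2, pow_add, pow_mul]
      simp
    rw [← this]
    ring
  rw [h3, h, mul_zero]

theorem AA_eq {q : ℕ} (χ : DirichletCharacter ℂ q) (k : ℕ) {v : ℝ} (N : ℕ)
    (hN : Real.exp v ≤ N) :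
    ∑ n ∈ Icc 1 N, χ (n : ZMod q) *
      ((ArithmeticFunction.vonMangoldt n / n * pp k (v - Real.log n) : ℝ) : ℂ) = AA χ k v := by
  unfold AA
  have hsub : Icc 1 (EE v) ⊆ Icc 1 N := by
    apply Icc_subset_Icc_right
    have := EE_le v
    exact_mod_cast this.trans hN
  rw [← sum_subset hsub]
  · apply sum_congr rfl
    intro n hn
    obtain ⟨h1, h2⟩ := mem_EE hn
    rw [pp_of_nonneg (by linarith)]
  · intro n hn hn2
    rw [mem_Icc] at hn
    have h0 : (0:ℝ) < n := by exact_mod_cast hn.1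
    have : v < Real.log n := by
      by_contra hcon
      push Not at hcon
      apply hn2
      rw [mem_Icc]
      refine ⟨hn.1, ?_⟩
      unfold EE
      rw [Nat.le_floor_iff (Real.exp_pos v).le]
      rwa [← Real.log_le_iff_le_exp h0]
    rw [pp_of_neg (by linarith)]
    simp

/-- small conductors -/
theorem small_bump (k : ℕ) : ∃ C : ℝ, 1 ≤ C ∧ ∀ (q : ℕ) [NeZero q] (χ : DirichletCharacter ℂ q),
    χ ≠ 1 → ∀ B : ℝ, 1 + Real.log q ≤ B → 1 ≤ B * ‖LFunction χ 1‖ →
      ∀ τ u : ℝ, 0 < τ → (k + 1 : ℝ) * τ ≤ u → ∀ N : ℕ, Real.exp u ≤ N →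
        ‖∑ n ∈ Icc 1 N, χ (n : ZMod q) *
          ((ArithmeticFunction.vonMangoldt n / n * psi k τ (u - Real.log n) : ℝ) : ℂ)‖ ≤
          C * q * B ^ ((k + 2) ^ 2) / τ ^ k := by
  obtain ⟨C, hC, h⟩ := small_poly k
  refine ⟨2 ^ (k + 1) * C, by
    have : (1:ℝ) ≤ 2 ^ (k + 1) := one_le_pow₀ (by norm_num)
    nlinarith, ?_⟩
  intro q _ χ hχ B hB hBL τ u hτ hu N hN
  obtain ⟨P, hP, hPe⟩ := h q χ hχ B hB hBL
  have hB0 : 0 ≤ B := by
    have : 0 ≤ Real.log (q:ℝ) := Real.log_natCast_nonneg q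
    linarith
  have hkf : (1:ℝ) ≤ (k.factorial : ℝ) := by exact_mod_cast k.factorial_pos
  have hτk : 0 < τ ^ k := by positivity
  have e1 : ∑ n ∈ Icc 1 N, χ (n : ZMod q) *
      ((ArithmeticFunction.vonMangoldt n / n * psi k τ (u - Real.log n) : ℝ) : ℂ) =
      (∑ j ∈ range (k + 2), (-1 : ℂ) ^ j * ((k + 1).choose j : ℂ) * AA χ k (u - j * τ)) /
        ((k.factorial : ℂ) * (τ : ℂ) ^ k) := by
    have hj : ∀ j ∈ range (k + 2), (-1 : ℂ) ^ j * ((k + 1).choose j : ℂ) * AA χ k (u - j * τ) =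
        ∑ n ∈ Icc 1 N, (-1 : ℂ) ^ j * ((k + 1).choose j : ℂ) * (χ (n : ZMod q) *
      ((ArithmeticFunction.vonMangoldt n / n * pp k (u - j * τ - Real.log n) : ℝ) : ℂ)) := by
      intro j hj
      rw [← mul_sum, AA_eq χ k N]
      refine le_trans (Real.exp_le_exp.mpr ?_) hN
      have : 0 ≤ (j:ℝ) * τ := by positivity
      linarith
    rw [sum_congr rfl hj, sum_comm, sum_div]
    apply sum_congr rfl
    intro n _
    have e2 : ArithmeticFunction.vonMangoldt n / n * psi k τ (u - Real.log n) =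
        (∑ j ∈ range (k + 2), (-1 : ℝ) ^ j * ((k + 1).choose j : ℝ) *
          (ArithmeticFunction.vonMangoldt n / n * pp k (u - j * τ - Real.log n))) /
          ((k.factorial : ℝ) * τ ^ k) := by
      unfold psi
      rw [← mul_div_assoc, mul_sum]
      congr 1
      apply sum_congr rfl
      intro j _
      rw [show u - Real.log n - j * τ = u - j * τ - Real.log n by ring]
      ring
    rw [e2]
    push_cast
    rw [← mul_div_assoc, mul_sum]
    congr 1
    apply sum_congr rfl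
    intro j _
    ring
  have hdiff := poly_diff k P hP (u : ℂ) (τ : ℂ)
  have e3 : ∑ j ∈ range (k + 2), (-1 : ℂ) ^ j * ((k + 1).choose j : ℂ) * AA χ k (u - j * τ) =
      ∑ j ∈ range (k + 2), (-1 : ℂ) ^ j * ((k + 1).choose j : ℂ) *
        (AA χ k (u - j * τ) - P.eval ((u - j * τ : ℝ) : ℂ)) := by
    have : ∑ j ∈ range (k + 2), (-1 : ℂ) ^ j * ((k + 1).choose j : ℂ) *
        (AA χ k (u - j * τ) - P.eval ((u - j * τ : ℝ) : ℂ)) =
        ∑ j ∈ range (k + 2), (-1 : ℂ) ^ j * ((k + 1).choose j : ℂ) * AA χ k (u - j * τ) -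
        ∑ j ∈ range (k + 2), (-1 : ℂ) ^ j * ((k + 1).choose j : ℂ) * P.eval ((u : ℂ) - j * τ) := by
      rw [← sum_sub_distrib]
      apply sum_congr rfl
      intro j _
      push_cast
      ring
    rw [this, hdiff, sub_zero]
  have h4 : ‖∑ j ∈ range (k + 2), (-1 : ℂ) ^ j * ((k + 1).choose j : ℂ) * AA χ k (u - j * τ)‖ ≤
      2 ^ (k + 1) * (C * q * B ^ ((k + 2) ^ 2)) := by
    rw [e3]
    refine (norm_sum_le _ _).trans ?_
    calc _ ≤ ∑ j ∈ range (k + 2), ((k + 1).choose j : ℝ) * (C * q * B ^ ((k + 2) ^ 2)) := by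
          apply sum_le_sum
          intro j hj
          rw [mem_range] at hj
          rw [norm_mul, norm_mul, norm_pow, norm_neg, norm_one, one_pow, one_mul, Complex.norm_natCast]
          have hj2 : (j:ℝ) * τ ≤ (k + 1) * τ := by
            have : (j:ℝ) ≤ k + 1 := by exact_mod_cast (show j ≤ k + 1 by omega)
            gcongr
          have := hPe (u - j * τ) (by linarith)
          gcongr
      _ = 2 ^ (k + 1) * (C * q * B ^ ((k + 2) ^ 2)) := by
          rw [← sum_mul]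
          congr 1
          have := Nat.sum_range_choose (k + 1)
          exact_mod_cast this
  rw [e1, norm_div, norm_mul, norm_pow, Complex.norm_natCast, Complex.norm_real, Real.norm_eq_abs,
    abs_of_pos hτ]
  rw [div_le_div_iff₀ (by positivity) hτk]
  calc _ ≤ (2 ^ (k + 1) * (C * q * B ^ ((k + 2) ^ 2))) * τ ^ k := by gcongr
    _ = (2 ^ (k + 1) * (C * q * B ^ ((k + 2) ^ 2))) * (1 * τ ^ k) := by ring
    _ ≤ (2 ^ (k + 1) * (C * q * B ^ ((k + 2) ^ 2))) * (k.factorial * τ ^ k) := by gcongr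
    _ = _ := by ring

end Pool.Agent.H316R2
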