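import Mathlib

set_option autoImplicit false

open Finset

namespace Pool.Agent.H316R2

theorem crt_exists (c : ℕ → ℕ) (S : Finset ℕ) (hS : ∀ p ∈ S, p.Prime) :
    ∃ a : ℕ, ∀ p ∈ S, a ≡ c p [MOD p] := by
  have hs : ∀ i ∈ S, (id i : ℕ) ≠ 0 := fun p hp => (hS p hp).ne_zero
  have pp : Set.Pairwise (S : Set ℕ) (Function.onFun Nat.Coprime id) := by
    intro p hp q hq hpq
    exact (Nat.coprime_primes (hS p hp) (hS q hq)).mpr hpq
  exact ⟨(Nat.chineseRemainderOfFinset c id S hs pp).1, (Nat.chineseRemainderOfFinset c id S hs pp).2⟩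

theorem crt_iff (S : Finset ℕ) (hS : ∀ p ∈ S, p.Prime) (a n : ℕ) (c : ℕ → ℕ)
    (ha : ∀ p ∈ S, a ≡ c p [MOD p]) :
    n ≡ a [MOD ∏ p ∈ S, p] ↔ ∀ p ∈ S, n ≡ c p [MOD p] := by
  constructor
  · intro h p hp
    exact (h.of_dvd (dvd_prod_of_mem _ hp)).trans (ha p hp)
  · intro h
    rw [Nat.modEq_iff_dvd]
    push_cast
    apply Finset.prod_dvd_of_coprime
    · intro p hp q hq hpq
      exact Nat.isCoprime_iff_coprime.mpr ((Nat.coprime_primes (hS p hp) (hS q hq)).mpr hpq)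
    · intro p hp
      exact Nat.modEq_iff_dvd.mp ((h p hp).trans (ha p hp).symm)

theorem ind_prod (S : Finset ℕ) (P : ℕ → Prop) [DecidablePred P] [Decidable (∀ p ∈ S, P p)] :
    ∏ p ∈ S, (if P p then (1:ℝ) else 0) = if ∀ p ∈ S, P p then 1 else 0 := by
  split_ifs with h
  · exact prod_eq_one fun p hp => if_pos (h p hp)
  · push Not at h
    obtain ⟨p, hp, hn⟩ := h
    exact prod_eq_zero hp (if_neg hn)

theorem prod_primes_inj {S T : Finset ℕ} (hS : ∀ p ∈ S, p.Prime) (hT : ∀ p ∈ T, p.Prime)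
    (h : ∏ p ∈ S, p = ∏ p ∈ T, p) : S = T := by
  have h1 := Nat.primeFactors_prod hS
  have h2 := Nat.primeFactors_prod hT
  rw [← h1, ← h2, h]

theorem totient_prod (S : Finset ℕ) (hS : ∀ p ∈ S, p.Prime) :
    (Nat.totient (∏ p ∈ S, p) : ℝ) = ∏ p ∈ S, ((p:ℝ) - 1) := by
  induction S using Finset.induction_on with
  | empty => simp
  | insert q S hq ih =>
    have hqp := hS q (mem_insert_self _ _)
    rw [prod_insert hq, prod_insert hq, Nat.totient_mul, Nat.totient_prime hqp]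
    · push_cast [Nat.cast_sub hqp.one_lt.le]
      rw [ih fun p hp => hS p (mem_insert_of_mem hp)]
    · apply Nat.Coprime.prod_right
      intro p hp
      exact (Nat.coprime_primes hqp (hS p (mem_insert_of_mem hp))).mpr (fun h => hq (h ▸ hp))

end Pool.Agent.H316R2
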