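import Mathlib

set_option autoImplicit false

open Finset

namespace Pool.Agent.H316R2

theorem exists_large_factor (P : ℕ) : ∃ M : ℕ, ∀ r : ℕ, Squarefree r → M < r →
    ∃ p, p.Prime ∧ P < p ∧ p ∣ r := by
  refine ⟨∏ p ∈ (Icc 1 P).filter Nat.Prime, p, ?_⟩
  intro r hr hM
  by_contra hcon
  push Not at hcon
  have h1 : r.primeFactors ⊆ (Icc 1 P).filter Nat.Prime := by
    intro p hp
    have hp' := Nat.prime_of_mem_primeFactors hp
    rw [mem_filter, mem_Icc]
    refine ⟨⟨hp'.one_lt.le, ?_⟩, hp'⟩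
    by_contra h
    exact hcon p hp' (by omega) (Nat.dvd_of_mem_primeFactors hp)
  have h2 := Nat.prod_primeFactors_of_squarefree hr
  have h3 : ∏ p ∈ r.primeFactors, p ≤ ∏ p ∈ (Icc 1 P).filter Nat.Prime, p := by
    apply prod_le_prod_of_subset_of_one_le' h1
    intro p hp _
    exact (mem_filter.mp hp).2.one_lt.le
  omega

end Pool.Agent.H316R2
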