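import Mathlib
import Pool.Agent.Erdos456.LDich
import Pool.Agent.H316R2.LS
import Pool.Agent.H316R2.Lf

set_option autoImplicit false

open Finset Filter Topology

namespace Pool.Agent.H316R2

open DirichletCharacter Pool.Agent.Erdos456

/-- lower bounds for `L(1,χ)`, one character at a time, with at most one exception. -/
theorem coreE : ∃ C : ℝ, 1 ≤ C ∧ ∃ d : ℝ, 0 < d ∧ d ≤ 1 ∧
    (∀ l : ℝ, 1 ≤ l → ∀ (q : ℕ) [NeZero q], Real.log (q + 2) ≤ 4 * l →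
      ∀ χ : DirichletCharacter ℂ q, χ ≠ 1 →
        32 * C * d / l ^ 7 ≤ ‖LFunction χ ((1 + d / l ^ 9 : ℝ) : ℂ)‖ →
        16 * C * d / l ^ 7 ≤ ‖LFunction χ 1‖) ∧
    (∀ l : ℝ, 1 ≤ l → ∀ (q : ℕ) [NeZero q], Real.log (q + 2) ≤ 4 * l →
      ∀ χ : DirichletCharacter ℂ q, χ ^ 2 ≠ 1 → 32 * C * d / l ^ 7 ≤ ‖LFunction χ ((1 + d / l ^ 9 : ℝ) : ℂ)‖) ∧
    (∀ l : ℝ, 1 ≤ l → ∀ (q₁ q₂ N : ℕ) [NeZero q₁] [NeZero q₂] [NeZero N], Real.log (N + 2) ≤ 4 * l →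
      ∀ (χ₁ : DirichletCharacter ℂ q₁) (χ₂ : DirichletCharacter ℂ q₂) (χ₃ : DirichletCharacter ℂ N),
      χ₁ ^ 2 = 1 → χ₂ ^ 2 = 1 → (∀ n : ℕ, χ₃ (n : ZMod N) = χ₁ (n : ZMod q₁) * χ₂ (n : ZMod q₂)) → χ₃ ≠ 1 →
      ‖LFunction χ₁ ((1 + d / l ^ 9 : ℝ) : ℂ)‖ < 32 * C * d / l ^ 7 →
      32 * C * d / l ^ 7 ≤ ‖LFunction χ₂ ((1 + d / l ^ 9 : ℝ) : ℂ)‖) := by
  obtain ⟨C, hC, h1, h2, h3, h4⟩ := Lf_bound
  obtain ⟨Z, hZ, hz⟩ := zeta_bound
  set d : ℝ := 1 / (8 * C * Z ^ 3 * (32 * C) ^ 4) with hd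
  have hC0 : 0 < C := by linarith
  have hZ0 : 0 < Z := by linarith
  have hden : 0 < 8 * C * Z ^ 3 * (32 * C) ^ 4 := by positivity
  have hd0 : 0 < d := by positivity
  have hdK : 4 * C * Z ^ 3 * (32 * C) ^ 4 * d < 1 := by
    rw [hd, mul_one_div, div_lt_one hden]
    nlinarith [hden]
  have hZ3 : 1 ≤ Z ^ 3 := one_le_pow₀ hZ
  have hK1 : 1 ≤ 32 * C := by linarith
  have hd1 : d ≤ 1 := by
    have e1 : 1 ≤ 4 * C * Z ^ 3 * (32 * C) ^ 4 := by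
      have : 1 ≤ (32 * C) ^ 4 := one_le_pow₀ hK1
      have a1 : 1 ≤ 4 * C * Z^3 := by nlinarith
      nlinarith
    nlinarith
  have hdK2 : 4 * C * Z * (32 * C) ^ 2 * d < 1 := by
    refine lt_of_le_of_lt ?_ hdK
    have a1 : Z ≤ Z ^ 3 := by nlinarith [sq_nonneg (Z-1), sq_nonneg Z]
    have a2 : (32 * C) ^ 2 ≤ (32 * C) ^ 4 := pow_le_pow_right₀ hK1 (by norm_num)
    gcongr
  -- the point
  have hx : ∀ l : ℝ, 1 ≤ l → 0 < d / l ^ 9 ∧ d / l ^ 9 ≤ 1 := by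
    intro l hl
    have hl9 : 1 ≤ l ^ 9 := one_le_pow₀ hl
    refine ⟨by positivity, ?_⟩
    rw [div_le_one (by positivity)]
    linarith
  refine ⟨C, hC, d, hd0, hd1, ?_, ?_, ?_⟩
  · intro l hl q _ hq χ hχ g
    obtain ⟨x0, x1⟩ := hx l hl
    have key : ∀ s : ℝ, 1 < s → s ≤ 1 + d / l ^ 9 → 16 * C * d / l ^ 7 ≤ ‖LFunction χ (s : ℂ)‖ := by
      intro s hs hs2
      have b := h3 q χ hχ (1 + d / l ^ 9) s (by linarith) (by linarith) hs (by linarith)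
      have hlog : 0 ≤ Real.log ((q:ℝ) + 2) := Real.log_nonneg (by
        have : (0:ℝ) ≤ q := Nat.cast_nonneg q
        linarith)
      have b2 : C * |1 + d / l ^ 9 - s| * Real.log (q + 2) ^ 2 ≤ 16 * C * d / l ^ 7 := by
        have : |1 + d / l ^ 9 - s| ≤ d / l ^ 9 := by
          rw [abs_of_nonneg (by linarith)]; linarith
        calc _ ≤ C * (d / l^9) * (4 * l) ^ 2 := by gcongr
          _ = _ := by
            have : l ≠ 0 := by linarith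
            field_simp
            ring
      have b3 : ‖LFunction χ ((1 + d / l ^ 9 : ℝ) : ℂ)‖ ≤ ‖LFunction χ (s : ℂ)‖ +
          ‖LFunction χ ((1 + d / l ^ 9 : ℝ) : ℂ) - LFunction χ (s : ℂ)‖ := by
        have := norm_add_le (LFunction χ (s : ℂ)) (LFunction χ ((1 + d / l ^ 9 : ℝ) : ℂ) - LFunction χ (s : ℂ))
        rwa [add_sub_cancel] at this
      have e : 32 * C * d / l ^ 7 = 16 * C * d / l^7 + 16 * C * d / l ^ 7 := by ring
      linarith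
    -- continuity at 1
    have hcont : Continuous (fun x : ℝ => ‖LFunction χ (x:ℂ)‖) :=
      ((differentiable_LFunction hχ).continuous.comp Complex.continuous_ofReal).norm
    have ht : Tendsto (fun x : ℝ => ‖LFunction χ (x:ℂ)‖) (𝓝[>] 1) (𝓝 ‖LFunction χ ((1:ℝ):ℂ)‖) :=
      (hcont.tendsto 1).mono_left nhdsWithin_le_nhds
    have hev : ∀ᶠ x : ℝ in 𝓝[>] 1, 16 * C * d / l ^ 7 ≤ ‖LFunction χ (x:ℂ)‖ := by
      have : Set.Ioc (1:ℝ) (1 + d / l ^ 9) ∈ 𝓝[>] (1:ℝ) := Ioc_mem_nhdsGT (by linarith)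
      filter_upwards [this] with x hx
      exact key x hx.1 hx.2
    have := ge_of_tendsto ht hev
    simpa using this
  · intro l hl q _ hq χ hχ
    obtain ⟨x0, x1⟩ := hx l hl
    by_contra hcon
    push Not at hcon
    have p := DirichletCharacter.norm_LFunction_product_ge_one χ x0 0
    have e1 : (1:ℂ) + ((d / l^9 : ℝ) : ℂ) = ((1 + d / l ^ 9 : ℝ) : ℂ) := by push_cast; rfl
    simp only [Complex.ofReal_zero, mul_zero, add_zero] at p
    rw [e1, norm_mul, norm_mul, norm_pow, norm_pow] at p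
    have z1 := hz (1 + d / l ^ 9) (by linarith) (by linarith)
    have z2 := triv_bound (q := q) (s := 1 + d / l ^ 9) (by linarith)
    rw [add_sub_cancel_left] at z1
    have z3 := z2.trans z1
    have b := h1 q (χ^2) hχ (1 + d / l ^ 9) (by linarith) (by linarith)
    have b' : ‖LFunction (χ^2) ((1 + d / l ^ 9 : ℝ) : ℂ)‖ ≤ C * (4 * l) := b.trans (by gcongr)
    have : ‖LFunctionTrivChar q ((1 + d / l ^ 9 : ℝ) : ℂ)‖ ^ 3 * ‖LFunction χ ((1 + d / l ^ 9 : ℝ) : ℂ)‖ ^ 4 *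
        ‖LFunction (χ^2) ((1 + d / l ^ 9 : ℝ) : ℂ)‖ ≤ (Z / (d / l ^ 9)) ^ 3 * (32 * C * d / l ^ 7) ^ 4 * (C * (4 * l)) := by
      gcongr
    have e2 : (Z / (d / l ^ 9)) ^ 3 * (32 * C * d / l ^ 7) ^ 4 * (C * (4 * l)) = 4 * C * Z ^ 3 * (32 * C) ^ 4 * d := by
      have : l ≠ 0 := by linarith
      field_simp
    linarith
  · intro l hl q₁ q₂ N _ _ _ hN χ₁ χ₂ χ₃ hχ₁ hχ₂ hmul hχ₃ hsmall
    obtain ⟨x0, x1⟩ := hx l hl
    by_contra hcon
    push Not at hcon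
    have p := four_prod χ₁ χ₂ χ₃ hχ₁ hχ₂ hmul (s := 1 + d / l ^ 9) (by linarith)
    have z1 := hz (1 + d / l ^ 9) (by linarith) (by linarith)
    rw [add_sub_cancel_left] at z1
    have b := h1 N χ₃ hχ₃ (1 + d / l ^ 9) (by linarith) (by linarith)
    have b' : ‖LFunction χ₃ ((1 + d / l ^ 9 : ℝ) : ℂ)‖ ≤ C * (4 * l) := b.trans (by gcongr)
    have : ‖riemannZeta ((1 + d / l ^ 9 : ℝ) : ℂ)‖ * ‖LFunction χ₁ ((1 + d / l ^ 9 : ℝ) : ℂ)‖ *
        ‖LFunction χ₂ ((1 + d / l ^ 9 : ℝ) : ℂ)‖ * ‖LFunction χ₃ ((1 + d / l ^ 9 : ℝ) : ℂ)‖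
        ≤ (Z / (d / l ^ 9)) * (32 * C * d / l ^ 7) * (32 * C * d / l ^ 7) * (C * (4 * l)) := by
      gcongr
    have e2 : (Z / (d / l ^ 9)) * (32 * C * d / l ^ 7) * (32 * C * d / l ^ 7) * (C * (4 * l)) = 4 * C * Z * (32 * C) ^ 2 * d / l ^ 4 := by
      have : l ≠ 0 := by linarith
      field_simp
    have e3 : 4 * C * Z * (32 * C) ^ 2 * d / l ^ 4 ≤ 4 * C * Z * (32 * C) ^ 2 * d :=
      div_le_self (by positivity) (one_le_pow₀ hl)
    linarith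

theorem changeLevel_natCast {n m : ℕ} [NeZero m] (h : n ∣ m) (χ : DirichletCharacter ℂ n) (a : ℕ)
    (ha : a.Coprime m) : changeLevel h χ (a : ZMod m) = χ (a : ZMod n) := by
  have h1 := DirichletCharacter.changeLevel_eq_cast_of_dvd' χ h (a := (a : ℤ))
      (by exact_mod_cast Nat.isCoprime_iff_coprime.mpr ha)
  push_cast at h1
  exact h1

/-- two different primitive real characters have nonprincipal product -/
theorem prim_prod {q₁ q₂ : ℕ} [NeZero q₁] [NeZero q₂] (χ₁ : DirichletCharacter ℂ q₁)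
    (χ₂ : DirichletCharacter ℂ q₂) (h1 : χ₁.IsPrimitive) (h2 : χ₂.IsPrimitive) (hne : q₁ ≠ q₂)
    (hs : χ₂ ^ 2 = 1) : changeLevel (q₁.dvd_mul_right q₂) χ₁ * changeLevel (q₂.dvd_mul_left q₁) χ₂ ≠ 1 := by
  intro h
  have h3 : changeLevel (q₂.dvd_mul_left q₁) χ₂ * changeLevel (q₂.dvd_mul_left q₁) χ₂ = 1 := by
    rw [← map_mul, ← pow_two, hs, map_one]
  have heq : changeLevel (q₁.dvd_mul_right q₂) χ₁ = changeLevel (q₂.dvd_mul_left q₁) χ₂ := by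
    calc changeLevel (q₁.dvd_mul_right q₂) χ₁ = changeLevel (q₁.dvd_mul_right q₂) χ₁ *
          (changeLevel (q₂.dvd_mul_left q₁) χ₂ * changeLevel (q₂.dvd_mul_left q₁) χ₂) := by rw [h3, mul_one]
      _ = _ := by rw [← mul_assoc, h, one_mul]
  have f1 := factorsThrough_gcd χ₁ χ₂ heq
  have f2 : χ₂.FactorsThrough (Nat.gcd q₂ q₁) := by
    apply factorsThrough_gcd χ₂ χ₁
    have e : ∀ n : ℕ, n.Coprime (q₂ * q₁) →
        changeLevel (q₂.dvd_mul_right q₁) χ₂ (n : ZMod (q₂ * q₁)) =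
        changeLevel (q₁.dvd_mul_left q₂) χ₁ (n : ZMod (q₂ * q₁)) := by
      intro n hn
      rw [changeLevel_natCast _ _ _ hn, changeLevel_natCast _ _ _ hn]
      have hn' : n.Coprime (q₁ * q₂) := by rwa [mul_comm] at hn
      have := congrArg (fun ψ => ψ (n : ZMod (q₁ * q₂))) heq
      rw [changeLevel_natCast _ _ _ hn', changeLevel_natCast _ _ _ hn'] at this
      exact this.symm
    apply MulChar.ext
    intro a
    have ha : ((a : ZMod (q₂ * q₁)).val : ZMod (q₂ * q₁)) = a := ZMod.natCast_zmod_val _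
    have hc : ((a : ZMod (q₂ * q₁)).val).Coprime (q₂ * q₁) := ZMod.val_coe_unit_coprime a
    rw [← ha]
    exact e _ hc
  have g1 : χ₁.conductor ≤ Nat.gcd q₁ q₂ := Nat.sInf_le f1
  have g2 : χ₂.conductor ≤ Nat.gcd q₂ q₁ := Nat.sInf_le f2
  rw [h1] at g1
  rw [h2] at g2
  have k1 : Nat.gcd q₁ q₂ ≤ q₂ := Nat.gcd_le_right _ (NeZero.pos q₂)
  have k2 : Nat.gcd q₂ q₁ ≤ q₁ := Nat.gcd_le_right _ (NeZero.pos q₁)
  omega

theorem exc : ∃ c : ℝ, 0 < c ∧ ∀ P : ℕ, ∃ l0 : ℝ, 1 ≤ l0 ∧ ∀ l : ℝ, l0 ≤ l → ∀ R0 : ℕ,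
    Real.log ((R0:ℝ) * R0 + 2) ≤ 4 * l → ∃ p1 : ℕ, p1.Prime ∧ P < p1 ∧ ∀ (r : ℕ) [NeZero r], 2 ≤ r → r ≤ R0 →
      Squarefree r → ¬ p1 ∣ r → ∀ χ ∈ PC r, c / l ^ 7 ≤ ‖LFunction χ 1‖ := by
  classical
  obtain ⟨C, hC, d, hd0, hd1, ha, hb, hc⟩ := coreE
  have hC0 : 0 < C := by linarith
  refine ⟨16 * C * d, by positivity, ?_⟩
  intro P
  obtain ⟨M, hM⟩ := exists_large_factor P
  obtain ⟨c0, hc0, hfix⟩ := fixed_lower_le M
  refine ⟨max 1 (32 * C * d / c0 + 1), le_max_left _ _, ?_⟩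
  intro l hl R0 hR0
  have hl1 : 1 ≤ l := (le_max_left _ _).trans hl
  have hl2 : 32 * C * d / c0 + 1 ≤ l := (le_max_right _ _).trans hl
  have hlog : ∀ r : ℕ, 2 ≤ r → r ≤ R0 → Real.log ((r:ℝ) + 2) ≤ 4 * l := by
    intro r hr hrR
    refine le_trans (Real.log_le_log (by positivity) ?_) hR0
    have h1 : (r:ℝ) ≤ R0 := by exact_mod_cast hrR
    have h2 : (2:ℝ) ≤ r := by exact_mod_cast hr
    nlinarith
  have hne1 : ∀ r : ℕ, 2 ≤ r → ∀ χ ∈ PC r, χ ≠ 1 ∧ χ.IsPrimitive := by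
    intro r hr χ hχ
    have : NeZero r := ⟨by omega⟩
    rw [PC_eq] at hχ
    have hχ2 := (mem_filter.mp hχ).2
    refine ⟨?_, hχ2⟩
    intro h
    have h2 := hχ2
    rw [h, DirichletCharacter.isPrimitive_def, DirichletCharacter.conductor_one] at h2
    omega
  by_cases hex : ∃ (r : ℕ) (_ : NeZero r), 2 ≤ r ∧ r ≤ R0 ∧ Squarefree r ∧ ∃ χ ∈ PC r,
      ‖LFunction χ ((1 + d / l ^ 9 : ℝ) : ℂ)‖ < 32 * C * d / l ^ 7
  · obtain ⟨r1, i2, hr1, hr1R, hsq, χ1, hχ1, hbad⟩ := hex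
    have hx1 : 1 ≤ 1 + d / l ^ 9 := by
      have : 0 < d / l ^ 9 := by positivity
      linarith
    have hx2 : 1 + d / l ^ 9 ≤ 2 := by
      have hl9 : 1 ≤ l ^ 9 := one_le_pow₀ hl1
      have : d / l ^ 9 ≤ 1 := by rw [div_le_one (by positivity)]; linarith
      linarith
    have hMr : M < r1 := by
      by_contra hcon
      have h1 := hfix r1 (by omega) χ1 (hne1 r1 hr1 χ1 hχ1).1 (1 + d / l ^ 9) hx1 hx2
      have h2 : 32 * C * d / l ^ 7 ≤ 32 * C * d / l := by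
        apply div_le_div_of_nonneg_left (by positivity) (by linarith)
        calc l = l ^ 1 := (pow_one l).symm
          _ ≤ l ^ 7 := pow_le_pow_right₀ hl1 (by norm_num)
      have h3 : 32 * C * d / l < c0 := by
        rw [div_lt_iff₀ (by linarith)]
        have h4 : 32 * C * d / c0 < l := by linarith
        rw [div_lt_iff₀ hc0] at h4
        linarith
      linarith
    obtain ⟨p1, hp1, hPp, hpr⟩ := hM r1 hsq hMr
    refine ⟨p1, hp1, hPp, ?_⟩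
    intro r _ hr hrR hsqr hnd χ hχ
    obtain ⟨hχn, hχp⟩ := hne1 r hr χ hχ
    obtain ⟨hχ1n, hχ1p⟩ := hne1 r1 hr1 χ1 hχ1
    apply ha l hl1 r (hlog r hr hrR) χ hχn
    by_contra hcon
    push Not at hcon
    have q1 : χ1 ^ 2 = 1 := by
      by_contra h
      exact absurd (hb l hl1 r1 (hlog r1 hr1 hr1R) χ1 h) (by linarith)
    have q2 : χ ^ 2 = 1 := by
      by_contra h
      exact absurd (hb l hl1 r (hlog r hr hrR) χ h) (by linarith)
    have hne : r1 ≠ r := fun h => hnd (h ▸ hpr)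
    have i3 : NeZero (r1 * r) := ⟨by positivity⟩
    have h5 := hc l hl1 r1 r (r1 * r) (by
      refine le_trans (Real.log_le_log (by positivity) ?_) hR0
      push_cast
      have g1 : (r:ℝ) ≤ R0 := by exact_mod_cast hrR
      have g2 : (r1:ℝ) ≤ R0 := by exact_mod_cast hr1R
      have := mul_le_mul g2 g1 (by positivity) (by positivity)
      linarith) χ1 χ
      (changeLevel (r1.dvd_mul_right r) χ1 * changeLevel (r.dvd_mul_left r1) χ) q1 q2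
      (by
        intro n
        rw [MulChar.mul_apply]
        by_cases hn : n.Coprime (r1 * r)
        · rw [changeLevel_natCast _ _ _ hn, changeLevel_natCast _ _ _ hn]
        · rw [MulChar.map_nonunit _ (fun hu => hn ((ZMod.isUnit_iff_coprime n _).mp hu)), zero_mul]
          by_cases hn1 : n.Coprime r1
          · have hn2 : ¬ n.Coprime r := fun h => hn (Nat.Coprime.mul_right hn1 h)
            rw [MulChar.map_nonunit χ (fun hu => hn2 ((ZMod.isUnit_iff_coprime n _).mp hu)), mul_zero]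
          · rw [MulChar.map_nonunit χ1 (fun hu => hn1 ((ZMod.isUnit_iff_coprime n _).mp hu)), zero_mul])
      (prim_prod χ1 χ hχ1p hχp hne q2) hbad
    linarith
  · push Not at hex
    obtain ⟨p1, hp1, hpp⟩ := Nat.exists_infinite_primes (P + 1)
    refine ⟨p1, hpp, by omega, ?_⟩
    intro r i1 hr hrR hsqr _ χ hχ
    exact ha l hl1 r (hlog r hr hrR) χ (hne1 r hr χ hχ).1 (hex r i1 hr hrR hsqr χ hχ)

end Pool.Agent.H316R2
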