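import Mathlib
import Pool.Agent.H316R2.Mt

set_option autoImplicit false

open Finset

namespace Pool.Agent.H316R2

theorem mert_low : ∃ c : ℝ, 0 < c ∧ ∀ w : ℕ, 1 ≤ w → ∀ Q : Finset ℕ,
    (∀ p ∈ Q, p.Prime ∧ 3 ≤ p ∧ p ≤ w) → c / (1 + Real.log w) ≤ ∏ p ∈ Q, (1 - 1 / ((p:ℝ) - 1)) := by
  obtain ⟨C, hC0, hC⟩ := Helper923.HMertens.mertens_ratio
  have hl2 : 0 < Real.log 2 := Real.log_pos (by norm_num)
  set c := min 1 (Real.exp (-(C / Real.log 2 + 5 / 2)) * Real.log 2) with hc
  have hc0 : 0 < c := lt_min one_pos (by positivity)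
  refine ⟨c, hc0, ?_⟩
  intro w hw Q hQ
  have hlw := Real.log_natCast_nonneg w
  rcases Nat.lt_or_ge w 3 with h3 | h3
  · have : Q = ∅ := by
      rw [Finset.eq_empty_iff_forall_notMem]
      intro p hp
      have := hQ p hp
      omega
    rw [this, prod_empty, div_le_one (by linarith)]
    have : c ≤ 1 := min_le_left _ _
    linarith
  · have hge := prod_ge Q (fun p => 1 / ((p:ℝ) - 1)) (fun p hp => by
        have h1 : (3:ℝ) ≤ p := by exact_mod_cast (hQ p hp).2.1
        apply div_nonneg zero_le_one; linarith) (fun p hp => by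
        have h1 : (3:ℝ) ≤ p := by exact_mod_cast (hQ p hp).2.1
        exact div_le_div_of_nonneg_left zero_le_one (by norm_num) (by linarith))
    refine le_trans ?_ hge
    have hinv : ∑ p ∈ Q, (1:ℝ) / (p * (p - 1)) ≤ 1 / 2 := by
      have := inv_sq_sum 2 (by norm_num) Q (fun p hp => by have := (hQ p hp).2.1; omega)
      simpa using this
    have hs1 : ∑ p ∈ Q, 1 / ((p:ℝ) - 1) = ∑ p ∈ Q, (1:ℝ) / p + ∑ p ∈ Q, (1:ℝ) / (p * (p - 1)) := by
      rw [← sum_add_distrib]
      apply sum_congr rfl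
      intro p hp
      have h1 : (3:ℝ) ≤ p := by exact_mod_cast (hQ p hp).2.1
      have h4 : (p:ℝ) ≠ 0 := by linarith
      have h5 : (p:ℝ) - 1 ≠ 0 := by linarith
      field_simp
      ring
    have hs2 : ∑ p ∈ Q, (1 / ((p:ℝ) - 1)) ^ 2 ≤ 1 := by
      calc _ ≤ ∑ p ∈ Q, 2 * ((1:ℝ) / (p * (p - 1))) := by
            apply sum_le_sum
            intro p hp
            have h1 : (3:ℝ) ≤ p := by exact_mod_cast (hQ p hp).2.1
            rw [div_pow, one_pow, mul_one_div, div_le_div_iff₀ (by nlinarith) (by nlinarith)]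
            nlinarith
        _ ≤ _ := by rw [← mul_sum]; linarith
    have hs3 : ∑ p ∈ Q, (1:ℝ) / p ≤ Real.log (Real.log w / Real.log 2) + C / Real.log 2 := by
      have h1 := (abs_le.mp (hC 2 w le_rfl (by omega))).2
      have h2 : ∑ p ∈ Q, (1:ℝ) / p ≤ ∑ p ∈ (Ioc 2 w).filter Nat.Prime, (1:ℝ) / p := by
        apply sum_le_sum_of_subset_of_nonneg
        · intro p hp
          have := hQ p hp
          rw [mem_filter, mem_Ioc]
          exact ⟨⟨by omega, this.2.2⟩, this.1⟩
        · intro _ _ _; positivity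
      push_cast at h1
      linarith
    have hlw0 : 0 < Real.log w := Real.log_pos (by exact_mod_cast (by omega : 1 < w))
    have h6 : Real.exp (-(Real.log (Real.log w / Real.log 2) + (C / Real.log 2 + 5 / 2))) ≤
        Real.exp (-(∑ p ∈ Q, 1 / ((p:ℝ) - 1) + 2 * ∑ p ∈ Q, (1 / ((p:ℝ) - 1)) ^ 2)) := by
      apply Real.exp_le_exp.mpr
      rw [hs1]
      linarith
    refine le_trans ?_ h6
    rw [neg_add, Real.exp_add, Real.exp_neg, Real.exp_log (by positivity), inv_div]
    have h7 : c ≤ Real.exp (-(C / Real.log 2 + 5 / 2)) * Real.log 2 := min_le_right _ _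
    rw [div_le_iff₀ (by linarith)]
    calc c ≤ Real.exp (-(C / Real.log 2 + 5 / 2)) * Real.log 2 := h7
      _ = Real.log 2 / Real.log w * Real.exp (-(C / Real.log 2 + 5 / 2)) * Real.log w := by
          field_simp
      _ ≤ Real.log 2 / Real.log w * Real.exp (-(C / Real.log 2 + 5 / 2)) * (1 + Real.log w) := by
          gcongr; linarith

end Pool.Agent.H316R2
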