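import Mathlib
import Pool.Agent.H316R2.Sa
import Pool.Agent.H316R2.Ml
import Pool.Agent.H316R2.Ex

set_option autoImplicit false

open Finset Filter

namespace Pool.Agent.H316R2

open DirichletCharacter

theorem partA (ε : ℝ) (hε : 0 < ε) : ∃ k : ℕ, ∀ P : ℕ, ∃ z0 : ℕ, ∀ z : ℕ, z0 ≤ z →
    ∀ t : ℝ, (Real.log z) ^ ε ≤ t → t ≤ Real.log z → ∃ p1 : ℕ, p1.Prime ∧ P < p1 ∧
    ∀ w : ℕ, 1 ≤ w → w ^ 200 ≤ z → ∀ Q : Finset ℕ, (∀ p ∈ Q, p.Prime ∧ 3 ≤ p ∧ p ≤ w ∧ p ≠ p1) →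
    ∀ c : ℕ → ℕ, (∀ p ∈ Q, (c p).Coprime p) →
    1 ≤ t / (3 * (k + 2)) ∧
    1 / 8 * (t / (3 * (k + 2))) * ∏ p ∈ Q, (1 - 1 / ((p:ℝ) - 1)) ≤
      ∑ n ∈ Icc 1 ⌈Real.exp (Real.log z + 2 * t / 3)⌉₊,
        hw k (t / (3 * (k + 2))) (Real.log z + 2 * t / 3) n *
          ∏ p ∈ Q, (1 - if n ≡ c p [MOD p] then (1:ℝ) else 0) := by
  obtain ⟨K, hK, hsA⟩ := sieveA
  obtain ⟨Cw, hCw, hwin⟩ := window
  obtain ⟨c0, hc0, hexc⟩ := exc
  obtain ⟨cM, hcM, hmert⟩ := mert_low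
  set k := ⌈34 / ε⌉₊ with hk
  refine ⟨k, ?_⟩
  intro P
  obtain ⟨l0, hl0, hexc⟩ := hexc P
  obtain ⟨C, hC, hsA⟩ := hsA k
  have hk34 : 34 ≤ ε * (k + 1) := by
    have h1 : 34 / ε ≤ k := Nat.le_ceil _
    rw [div_le_iff₀ hε] at h1
    nlinarith only [h1, hε]
  set k3 : ℝ := 3 * (k + 2) with hk3
  have hk30 : 0 < k3 := by positivity
  set C1 : ℝ := 4 * C * k3 ^ (k + 1) with hC1
  set C2 : ℝ := 32 * (((K ^ (2 * K + 1) : ℕ) : ℝ)) ^ 7 with hC2
  -- the eventual facts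
  have f1 : ∀ᶠ L : ℝ in atTop, 2000000 ≤ L := eventually_ge_atTop _
  have f2 : ∀ᶠ L : ℝ in atTop, ((7 * Real.log L) ^ 8) ^ ((k + 3) ^ 2) ≤ L := by
    have h1 := (Real.isLittleO_pow_log_id_atTop (n := 8 * (k + 3) ^ 2)).bound
      (show (0:ℝ) < 1 / 7 ^ (8 * (k + 3) ^ 2) by positivity)
    filter_upwards [h1, eventually_ge_atTop (1:ℝ)] with L h2 h3
    have hlog : 0 ≤ Real.log L := Real.log_nonneg h3
    rw [Real.norm_of_nonneg (by positivity), id, Real.norm_of_nonneg (by linarith)] at h2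
    rw [← pow_mul, mul_pow]
    have h7 : (0:ℝ) < 7 ^ (8 * (k + 3) ^ 2) := by positivity
    calc _ ≤ (7:ℝ) ^ (8 * (k + 3) ^ 2) * (1 / 7 ^ (8 * (k + 3) ^ 2) * L) := by gcongr
      _ = L := by field_simp
  have f3 : ∀ᶠ L : ℝ in atTop, k3 * (16 * Cw + 16 / cM) ≤ L ^ ε :=
    (tendsto_rpow_atTop hε).eventually_ge_atTop _
  have f4 : ∀ᶠ L : ℝ in atTop, C2 ≤ Real.exp (3 / 10 * L) :=
    (Real.tendsto_exp_atTop.comp (tendsto_id.const_mul_atTop (by norm_num : (0:ℝ) < 3 / 10))).eventually_ge_atTop _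
  have f5 : ∀ᶠ L : ℝ in atTop, 36 * C1 ≤ L ∧ 36 * C * (720 * (14 / 5) ^ 6) ≤ L :=
    (eventually_ge_atTop _).and (eventually_ge_atTop _)
  have f6 : ∀ᶠ L : ℝ in atTop, l0 + 1 / c0 + 2 ≤ 7 * Real.log L :=
    (Real.tendsto_log_atTop.const_mul_atTop (by norm_num : (0:ℝ) < 7)).eventually_ge_atTop _
  obtain ⟨L0, hL0⟩ := eventually_atTop.mp (f1.and (f2.and (f3.and (f4.and (f5.and f6)))))
  refine ⟨⌈Real.exp L0⌉₊, ?_⟩
  intro z hz t ht1 ht2
  set L := Real.log z with hL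
  have hzpos : (0:ℝ) < z := by
    have : Real.exp L0 ≤ z := (Nat.le_ceil _).trans (by exact_mod_cast hz)
    linarith [Real.exp_pos L0]
  have hLL0 : L0 ≤ L := by
    have : Real.exp L0 ≤ z := (Nat.le_ceil _).trans (by exact_mod_cast hz)
    rw [hL, Real.le_log_iff_exp_le hzpos]; exact this
  have hzexp : Real.exp L = z := Real.exp_log hzpos
  obtain ⟨g1, g2, g3, g4, ⟨g5, g5'⟩, g6⟩ := hL0 L hLL0
  have hLpos : 0 < L := by linarith
  -- the character parameters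
  set l := 7 * Real.log L with hl
  have hlog0 : 0 < Real.log L := Real.log_pos (by linarith)
  have hc0' : 0 < 1 / c0 := by positivity
  have hl2 : 2 ≤ l := by linarith
  have hll0 : l0 ≤ l := by linarith
  have hlc : 1 ≤ c0 * l := by
    have : 1 / c0 ≤ l := by linarith
    rw [div_le_iff₀ hc0] at this
    linarith
  set R0 := ⌈L ^ 12⌉₊ with hR0
  have hL12 : 1 ≤ L ^ 12 := one_le_pow₀ (by linarith)
  have hR1 : L ^ 12 ≤ R0 := Nat.le_ceil _
  have hR2 : (R0:ℝ) ≤ 2 * L ^ 12 := by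
    have := (Nat.ceil_lt_add_one (show 0 ≤ L ^ 12 by positivity)).le
    linarith
  have hR0n : 1 ≤ R0 := by
    have : (1:ℝ) ≤ R0 := by linarith
    exact_mod_cast this
  have hR0sq : Real.log ((R0:ℝ) * R0 + 2) ≤ 4 * l := by
    have h1 : (R0:ℝ) * R0 + 2 ≤ L ^ 28 := by
      have h2 : (R0:ℝ) * R0 ≤ (2 * L ^ 12) * (2 * L ^ 12) := by gcongr
      have h3 : (2 * L ^ 12) * (2 * L ^ 12) + 2 ≤ L ^ 24 * 6 := by
        have : 1 ≤ L ^ 24 := one_le_pow₀ (by linarith)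
        nlinarith only [this]
      have h4 : L ^ 24 * 6 ≤ L ^ 24 * L ^ 4 := by
        gcongr
        calc (6:ℝ) ≤ L := by linarith
          _ = L ^ 1 := (pow_one L).symm
          _ ≤ L ^ 4 := pow_le_pow_right₀ (by linarith) (by norm_num)
      calc _ ≤ L ^ 24 * L ^ 4 := by linarith
        _ = L ^ 28 := by ring
    have h2 := Real.log_le_log (by positivity) h1
    rw [Real.log_pow] at h2
    push_cast at h2
    rw [hl]; linarith
  obtain ⟨p1, hp1, hPp1, hgood⟩ := hexc l hll0 R0 hR0sq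
  refine ⟨p1, hp1, hPp1, ?_⟩
  intro w hw1 hwz Q hQ c hc
  set τ := t / k3 with hτdef
  have hLt : L ^ ε / k3 ≤ τ := by rw [hτdef]; gcongr
  have hτbig : 16 * Cw + 16 / cM ≤ τ := by
    refine le_trans ?_ hLt
    rw [le_div_iff₀ hk30]; linarith
  have hcM' : 0 < 16 / cM := by positivity
  have hτ1 : 1 ≤ τ := by linarith
  have hτ0 : 0 < τ := by linarith
  have hk3τ : k3 * τ = t := by rw [hτdef]; field_simp
  have hk2τ : (k + 2) * τ = t / 3 := by
    have : k3 * τ = 3 * ((k + 2) * τ) := by rw [hk3]; ring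
    linarith
  refine ⟨hτ1, ?_⟩
  set u0 := L + 2 * t / 3 with hu0
  set Y := ⌈Real.exp u0⌉₊ with hY
  have ht0 : 0 < t := by rw [← hk3τ]; positivity
  have hYge : Real.exp u0 ≤ Y := Nat.le_ceil _
  have hzu : (z:ℝ) ≤ Real.exp (u0 - (k + 2) * τ) := by
    rw [hk2τ, ← hzexp]
    apply Real.exp_le_exp.mpr
    rw [hu0]; linarith
  have huk : (k + 2) * τ ≤ u0 := by rw [hk2τ, hu0]; linarith
  set D := K ^ (2 * K + 1) * w ^ 20 with hD
  -- sizes
  have hlw : 200 * Real.log w ≤ L := by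
    have h1 : ((w ^ 200 : ℕ) : ℝ) ≤ z := by exact_mod_cast hwz
    have h2 := Real.log_le_log (by have : 0 < w ^ 200 := by positivity
                                   exact_mod_cast this) h1
    push_cast at h2
    rw [Real.log_pow] at h2
    exact_mod_cast h2
  have hw0 : (0:ℝ) < w := by exact_mod_cast hw1
  have hlw0 := Real.log_natCast_nonneg w
  have hwexp : (w:ℝ) = Real.exp (Real.log w) := (Real.exp_log hw0).symm
  have hD7 : 32 * (D:ℝ) ^ 7 ≤ z := by
    have e : 32 * (D:ℝ) ^ 7 = C2 * (w:ℝ) ^ 140 := by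
      rw [hD, hC2]; push_cast; ring
    rw [e, ← hzexp]
    have h1 : (w:ℝ) ^ 140 ≤ Real.exp (7 / 10 * L) := by
      conv_lhs => rw [hwexp]
      rw [← Real.exp_nat_mul]
      apply Real.exp_le_exp.mpr
      push_cast
      linarith
    calc C2 * (w:ℝ) ^ 140 ≤ Real.exp (3 / 10 * L) * Real.exp (7 / 10 * L) := by gcongr
      _ = Real.exp L := by rw [← Real.exp_add]; congr 1; ring
  have hD7n : 32 * D ^ 7 ≤ z := by exact_mod_cast hD7
  have hD1 : 1 ≤ D := by rw [hD]; exact Nat.one_le_iff_ne_zero.mpr (by positivity)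
  have hDz : D < z := by
    have : D ≤ D ^ 7 := Nat.le_self_pow (by norm_num) D
    omega
  have hmain := hsA z D R0 Y p1 w τ u0 (l ^ 8) hτ1 huk hzu hYge hD hw1 hDz hD7n hR0n
    (one_le_pow₀ (by linarith)) hp1 (by
      intro f _ hf2 hfR hfs hfn
      constructor
      · have h1 : Real.log f ≤ 4 * l := by
          refine le_trans (Real.log_le_log (by exact_mod_cast (by omega : 0 < f)) ?_) hR0sq
          have : (f:ℝ) ≤ R0 := by exact_mod_cast hfR
          have h3 : (1:ℝ) ≤ R0 := by linarith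
          nlinarith only [this, h3]
        have h2 : 1 + 4 * l ≤ l ^ 8 := by
          have h3 : (2:ℝ) ^ 7 ≤ l ^ 7 := by gcongr
          have h4 : l ^ 8 = l ^ 7 * l := by ring
          rw [h4]; nlinarith only [h3, hl2]
        linarith
      · intro χ hχ
        have h1 := hgood f hf2 hfR hfs hfn χ hχ
        have h2 : l ^ 8 * (c0 / l ^ 7) ≤ l ^ 8 * ‖LFunction χ 1‖ := by gcongr
        have h3 : l ^ 8 * (c0 / l ^ 7) = c0 * l := by
          have : l ≠ 0 := by linarith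
          field_simp
        linarith) Q hQ c hc
  -- the total mass
  set H := ∑ n ∈ Icc 1 Y, hw k τ u0 n with hH
  have hHlow : 15 / 16 * τ ≤ H := by
    have h1 := psi_avg lw Y τ 0 u0 (τ - Cw) (τ + Cw) hτ0 (by
      intro v hv1 hv2
      have := abs_le.mp (hwin v τ hτ0.le (by linarith) Y ((Real.exp_le_exp.mpr hv2).trans hYge))
      constructor <;> linarith [this.1, this.2]) (k + 1) u0 (by push_cast; linarith) le_rfl
    have h2 : H = ∑ n ∈ Icc 1 Y, lw n * psi (k + 1) τ (u0 - Real.log n) := rfl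
    rw [h2]
    linarith [h1.1]
  -- the error term
  have hV := hmert w hw1 Q (fun p hp => ⟨(hQ p hp).1, (hQ p hp).2.1, (hQ p hp).2.2.1⟩)
  set V := ∏ p ∈ Q, (1 - 1 / ((p:ℝ) - 1)) with hVdef
  have hVL : cM / L ≤ V := by
    refine le_trans ?_ hV
    apply div_le_div_of_nonneg_left hcM.le (by linarith)
    linarith
  have hV0 : 0 < V := lt_of_lt_of_le (by positivity) hVL
  have hlD : 7 * Real.log D ≤ L := by
    have h1 : (D:ℝ) ^ 7 ≤ z := by
      have : (0:ℝ) ≤ (D:ℝ) ^ 7 := by positivity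
      linarith
    have hD0 : (0:ℝ) < D := by exact_mod_cast hD1
    have h2 := Real.log_le_log (by positivity) h1
    rw [Real.log_pow] at h2
    exact_mod_cast h2
  have hlD0 := Real.log_natCast_nonneg D
  have e1 : 4 + 2 * Real.log w ≤ 3 * L := by linarith
  have e2 : (1 + Real.log D) ^ 2 ≤ 4 * L ^ 2 := by
    have : 1 + Real.log D ≤ 2 * L := by linarith
    calc _ ≤ (2 * L) ^ 2 := by gcongr
      _ = _ := by ring
  have e3 : (R0:ℝ) ^ 2 * (C * (l ^ 8) ^ ((k + 3) ^ 2) / τ ^ (k + 1)) ≤ C1 / L ^ 9 := by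
    have h1 : (R0:ℝ) ^ 2 ≤ 4 * L ^ 24 := by
      calc _ ≤ (2 * L ^ 12) ^ 2 := by gcongr
        _ = _ := by ring
    have h2 : L ^ 34 / k3 ^ (k + 1) ≤ τ ^ (k + 1) := by
      have h3 : L ^ 34 ≤ (L ^ ε) ^ (k + 1) := by
        rw [← Real.rpow_natCast (L ^ ε), ← Real.rpow_mul hLpos.le, ← Real.rpow_natCast L 34]
        apply Real.rpow_le_rpow_of_exponent_le (by linarith)
        push_cast
        linarith
      calc _ ≤ (L ^ ε) ^ (k + 1) / k3 ^ (k + 1) := by gcongr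
        _ = (L ^ ε / k3) ^ (k + 1) := by rw [div_pow]
        _ ≤ _ := by gcongr
    have h4 : C * (l ^ 8) ^ ((k + 3) ^ 2) / τ ^ (k + 1) ≤ C * L / (L ^ 34 / k3 ^ (k + 1)) := by
      gcongr
    calc _ ≤ (4 * L ^ 24) * (C * L / (L ^ 34 / k3 ^ (k + 1))) := by gcongr
      _ = C1 / L ^ 9 := by
          rw [hC1]
          field_simp
  have e4 : 73 * (1 + Real.log (Y + 1 : ℕ)) ^ 6 / R0 ≤ 53217 / L ^ 6 := by
    have h1 : Real.log ((Y + 1 : ℕ) : ℝ) ≤ 2 * L := by
      have h2 : ((Y + 1 : ℕ) : ℝ) ≤ Real.exp (2 * L) := by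
        have h3 := (Nat.ceil_lt_add_one (Real.exp_pos u0).le).le
        have h4 : Real.exp u0 + 2 ≤ Real.exp (2 * L) := by
          have h5 : Real.exp (u0 + 1) ≤ Real.exp (2 * L) := by
            apply Real.exp_le_exp.mpr
            rw [hu0]; linarith
          have h6 : Real.exp (u0 + 1) = Real.exp u0 * Real.exp 1 := Real.exp_add _ _
          have h7 := Real.exp_one_gt_d9
          have h8 : 1 + u0 ≤ Real.exp u0 := by linarith [Real.add_one_le_exp u0]
          have h9 : 2000000 ≤ u0 := by rw [hu0]; linarith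
          nlinarith only [h5, h6, h7, h8, h9]
        push_cast
        linarith
      have h3 := Real.log_le_log (by exact_mod_cast (Nat.succ_pos Y)) h2
      rwa [Real.log_exp] at h3
    have h0 := Real.log_natCast_nonneg (Y + 1)
    have h2 : (1 + Real.log (Y + 1 : ℕ)) ^ 6 ≤ (3 * L) ^ 6 := by
      apply pow_le_pow_left₀ (by linarith)
      linarith
    calc _ ≤ 73 * (3 * L) ^ 6 / L ^ 12 := by gcongr
      _ = 53217 / L ^ 6 := by field_simp; norm_num
  have e5 : (D:ℝ) * (C / Real.sqrt z) ≤ C * (720 * (14 / 5) ^ 6) / L ^ 6 := by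
    have hs : Real.sqrt z = Real.exp (L / 2) := by
      rw [← hzexp, Real.exp_half]
    have hDe : (D:ℝ) ≤ Real.exp (L / 7) := by
      have hD0 : (0:ℝ) < D := by exact_mod_cast hD1
      rw [← Real.exp_log hD0]
      apply Real.exp_le_exp.mpr
      linarith
    have h1 : (5 / 14 * L) ^ 6 / 720 ≤ Real.exp (5 / 14 * L) := by
      have := Real.pow_div_factorial_le_exp (5 / 14 * L) (by positivity) 6
      have e : ((Nat.factorial 6 : ℕ) : ℝ) = 720 := by norm_num [Nat.factorial]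
      rwa [e] at this
    calc (D:ℝ) * (C / Real.sqrt z) ≤ Real.exp (L / 7) * (C / Real.exp (L / 2)) := by
          rw [hs]; gcongr
      _ = C / Real.exp (5 / 14 * L) := by
          rw [show (L / 2) = L / 7 + 5 / 14 * L by ring, Real.exp_add]
          field_simp
      _ ≤ C / ((5 / 14 * L) ^ 6 / 720) := by gcongr
      _ = _ := by field_simp
  have hsum : (R0:ℝ) ^ 2 * (C * (l ^ 8) ^ ((k + 3) ^ 2) / τ ^ (k + 1)) +
        73 * (1 + Real.log (Y + 1 : ℕ)) ^ 6 / R0 + D * (C / Real.sqrt z) ≤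
        1 / (12 * L ^ 5) := by
    have d1 : C1 / L ^ 9 ≤ 1 / (36 * L ^ 5) := by
      rw [div_le_div_iff₀ (by positivity) (by positivity), one_mul]
      calc C1 * (36 * L ^ 5) = (36 * C1) * L ^ 5 := by ring
        _ ≤ L * L ^ 5 := by gcongr
        _ ≤ L ^ 4 * L ^ 5 := by
            gcongr
            calc L = L ^ 1 := (pow_one L).symm
              _ ≤ L ^ 4 := pow_le_pow_right₀ (by linarith) (by norm_num)
        _ = L ^ 9 := by ring
    have d2 : 53217 / L ^ 6 ≤ 1 / (36 * L ^ 5) := by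
      rw [div_le_div_iff₀ (by positivity) (by positivity), one_mul]
      calc (53217:ℝ) * (36 * L ^ 5) = (53217 * 36) * L ^ 5 := by ring
        _ ≤ L * L ^ 5 := by gcongr; linarith
        _ = L ^ 6 := by ring
    have d3 : C * (720 * (14 / 5) ^ 6) / L ^ 6 ≤ 1 / (36 * L ^ 5) := by
      rw [div_le_div_iff₀ (by positivity) (by positivity), one_mul]
      calc C * (720 * (14 / 5) ^ 6) * (36 * L ^ 5) = (36 * C * (720 * (14 / 5) ^ 6)) * L ^ 5 := by ring
        _ ≤ L * L ^ 5 := by gcongr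
        _ = L ^ 6 := by ring
    have d4 : 1 / (12 * L ^ 5) = 1 / (36 * L ^ 5) + 1 / (36 * L ^ 5) + 1 / (36 * L ^ 5) := by
      field_simp; norm_num
    linarith
  have herr : (4 + 2 * Real.log w) * ((1 + Real.log D) ^ 2 *
        ((R0:ℝ) ^ 2 * (C * (l ^ 8) ^ ((k + 3) ^ 2) / τ ^ (k + 1)) +
        73 * (1 + Real.log (Y + 1 : ℕ)) ^ 6 / R0 + D * (C / Real.sqrt z))) ≤ 1 / L ^ 2 := by
    have hn : 0 ≤ (R0:ℝ) ^ 2 * (C * (l ^ 8) ^ ((k + 3) ^ 2) / τ ^ (k + 1)) +
        73 * (1 + Real.log (Y + 1 : ℕ)) ^ 6 / R0 + D * (C / Real.sqrt z) := by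
      have := Real.log_natCast_nonneg (Y + 1)
      have h1 : 0 ≤ l := by linarith
      positivity
    calc _ ≤ (3 * L) * ((4 * L ^ 2) * (1 / (12 * L ^ 5))) := by gcongr
      _ = 1 / L ^ 2 := by field_simp; norm_num
  have hfin : 1 / L ^ 2 ≤ 1 / 16 * τ * V := by
    have h1 : 16 / cM ≤ τ := by linarith
    have h2 : 1 / 16 * (16 / cM) * (cM / L) ≤ 1 / 16 * τ * V := by gcongr
    have h3 : 1 / 16 * (16 / cM) * (cM / L) = 1 / L := by field_simp
    have h4 : 1 / L ^ 2 ≤ 1 / L := by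
      apply div_le_div_of_nonneg_left zero_le_one hLpos
      calc L = L ^ 1 := (pow_one L).symm
        _ ≤ L ^ 2 := pow_le_pow_right₀ (by linarith) (by norm_num)
    linarith
  have hHV : 15 / 16 * τ * V ≤ H * V := by gcongr
  calc 1 / 8 * τ * V ≤ 1 / 4 * (H * V) - 1 / L ^ 2 := by
        have : 0 < τ * V := by positivity
        linarith only [this, hHV, hfin]
    _ ≤ _ := by linarith
    _ ≤ _ := hmain

end Pool.Agent.H316R2
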