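import Mathlib
import Pool.Agent.H316R2.Mt

set_option autoImplicit false

open Finset

namespace Pool.Agent.H316R2

/-- products over small primes -/
theorem mert_up : ∃ C : ℝ, 1 ≤ C ∧ ∀ y : ℕ, 2 ≤ y →
    ∏ p ∈ (Icc 1 y).filter Nat.Prime, (1 - 1 / (p:ℝ)) ≤ C / Real.log y := by
  obtain ⟨C, hC0, hC⟩ := Helper923.HMertens.mertens_ratio
  have hl2 : 0 < Real.log 2 := Real.log_pos (by norm_num)
  refine ⟨max 1 (Real.exp (C / Real.log 2) * Real.log 2), le_max_left _ _, ?_⟩
  intro y hy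
  have hly : 0 < Real.log y := Real.log_pos (by exact_mod_cast (by omega : 1 < y))
  have h1 : ∏ p ∈ (Icc 1 y).filter Nat.Prime, (1 - 1 / (p:ℝ)) ≤
      ∏ p ∈ (Ioc 2 y).filter Nat.Prime, (1 - 1 / (p:ℝ)) := by
    apply Finset.prod_le_prod_of_subset_of_le_one
    · intro p hp
      rw [mem_filter, mem_Ioc] at hp
      rw [mem_filter, mem_Icc]
      exact ⟨⟨by omega, hp.1.2⟩, hp.2⟩
    · intro p hp
      have h1 : (1:ℝ) ≤ p := by exact_mod_cast (mem_filter.mp hp).2.one_lt.le
      have : 1 / (p:ℝ) ≤ 1 := by rw [div_le_one (by linarith)]; exact h1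
      linarith
    · intro p hp _
      have : 0 ≤ 1 / (p:ℝ) := by positivity
      linarith
  have h2 : ∏ p ∈ (Ioc 2 y).filter Nat.Prime, (1 - 1 / (p:ℝ)) ≤
      Real.exp (-∑ p ∈ (Ioc 2 y).filter Nat.Prime, 1 / (p:ℝ)) := by
    rw [← sum_neg_distrib, Real.exp_sum]
    apply prod_le_prod
    · intro p hp
      have h1 : (1:ℝ) ≤ p := by exact_mod_cast (mem_filter.mp hp).2.one_lt.le
      have : 1 / (p:ℝ) ≤ 1 := by rw [div_le_one (by linarith)]; exact h1
      linarith
    · intro p _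
      have := Real.add_one_le_exp (-(1 / (p:ℝ)))
      linarith
  have h3 := (abs_le.mp (hC 2 y le_rfl hy)).1
  push_cast at h3
  have h5 : Real.exp (-Real.log (Real.log y / Real.log 2) + C / Real.log 2) =
      Real.log 2 / Real.log y * Real.exp (C / Real.log 2) := by
    rw [Real.exp_add, Real.exp_neg, Real.exp_log (by positivity), inv_div]
  have h4 : Real.exp (-∑ p ∈ (Ioc 2 y).filter Nat.Prime, 1 / (p:ℝ)) ≤
      Real.log 2 / Real.log y * Real.exp (C / Real.log 2) := by
    rw [← h5]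
    apply Real.exp_le_exp.mpr
    linarith
  calc _ ≤ _ := h1
    _ ≤ _ := h2
    _ ≤ _ := h4
    _ = (Real.exp (C / Real.log 2) * Real.log 2) / Real.log y := by ring
    _ ≤ _ := by
        gcongr
        exact le_max_right _ _

theorem mert_tail : ∃ c : ℝ, 0 < c ∧ c ≤ 1 ∧ ∀ y w : ℕ, 2 ≤ y → 1 ≤ w → ∀ Q : Finset ℕ,
    (∀ p ∈ Q, p.Prime ∧ y < p ∧ p ≤ w) →
    c / max 1 (Real.log w / Real.log y) ≤ ∏ p ∈ Q, (1 - 1 / (p:ℝ)) := by
  obtain ⟨C, hC0, hC⟩ := Helper923.HMertens.mertens_ratio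
  have hl2 : 0 < Real.log 2 := Real.log_pos (by norm_num)
  set c := Real.exp (-(C / Real.log 2 + 2)) with hc
  have hc0 : 0 < c := Real.exp_pos _
  have hc1 : c ≤ 1 := by
    rw [hc, Real.exp_le_one_iff]
    have : 0 ≤ C / Real.log 2 := by positivity
    linarith
  refine ⟨c, hc0, hc1, ?_⟩
  intro y w hy hw Q hQ
  have hly : 0 < Real.log y := Real.log_pos (by exact_mod_cast (by omega : 1 < y))
  rcases Nat.lt_or_ge y w with hyw | hyw
  · have hlw : 0 < Real.log w := Real.log_pos (by exact_mod_cast (by omega : 1 < w))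
    have hge := prod_ge Q (fun p => 1 / (p:ℝ)) (fun p _ => by positivity) (fun p hp => by
        have h1 : (2:ℝ) ≤ p := by exact_mod_cast (hQ p hp).1.two_le
        exact div_le_div_of_nonneg_left zero_le_one (by norm_num) h1)
    have hinv : ∑ p ∈ Q, (1:ℝ) / (p * (p - 1)) ≤ 1 := by
      have h1 := inv_sq_sum 1 (by norm_num) Q (fun p hp => (hQ p hp).1.one_lt)
      simpa using h1
    have hs2 : ∑ p ∈ Q, (1 / (p:ℝ)) ^ 2 ≤ 1 := by
      refine le_trans (sum_le_sum fun p hp => ?_) hinv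
      have h1 : (2:ℝ) ≤ p := by exact_mod_cast (hQ p hp).1.two_le
      rw [div_pow, one_pow]
      apply div_le_div_of_nonneg_left zero_le_one (by nlinarith)
      nlinarith
    have hs3 : ∑ p ∈ Q, (1:ℝ) / p ≤ Real.log (Real.log w / Real.log y) + C / Real.log 2 := by
      have h1 := (abs_le.mp (hC y w hy hyw.le)).2
      have h2 : ∑ p ∈ Q, (1:ℝ) / p ≤ ∑ p ∈ (Ioc y w).filter Nat.Prime, (1:ℝ) / p := by
        apply sum_le_sum_of_subset_of_nonneg
        · intro p hp
          have := hQ p hp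
          rw [mem_filter, mem_Ioc]
          exact ⟨this.2, this.1⟩
        · intro _ _ _; positivity
      have h3 : C / Real.log y ≤ C / Real.log 2 := by
        apply div_le_div_of_nonneg_left hC0 hl2
        exact Real.log_le_log (by norm_num) (by exact_mod_cast hy)
      linarith
    refine le_trans ?_ hge
    have h6 : Real.exp (-(Real.log (Real.log w / Real.log y) + (C / Real.log 2 + 2))) ≤
        Real.exp (-(∑ p ∈ Q, 1 / (p:ℝ) + 2 * ∑ p ∈ Q, (1 / (p:ℝ)) ^ 2)) := by
      apply Real.exp_le_exp.mpr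
      linarith
    refine le_trans ?_ h6
    rw [neg_add, Real.exp_add, Real.exp_neg, Real.exp_log (by positivity), inv_div]
    have h7 : 0 < Real.log w / Real.log y := by positivity
    rw [div_le_iff₀ (by positivity)]
    calc c = Real.log y / Real.log w * Real.exp (-(C / Real.log 2 + 2)) * (Real.log w / Real.log y) := by
          rw [hc]; field_simp
      _ ≤ _ := by
          gcongr
          exact le_max_right _ _
  · have : Q = ∅ := by
      rw [Finset.eq_empty_iff_forall_notMem]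
      intro p hp
      have := hQ p hp
      omega
    rw [this, prod_empty, div_le_one (by positivity)]
    exact hc1.trans (le_max_left _ _)

theorem one_vs (Q : Finset ℕ) (hQ : ∀ p ∈ Q, p.Prime ∧ 3 ≤ p) :
    ∏ p ∈ Q, (1 - 1 / (p:ℝ)) ≤ Real.exp 1 * ∏ p ∈ Q, (1 - 1 / ((p:ℝ) - 1)) := by
  have h1 : ∏ p ∈ Q, (1 - 1 / (p:ℝ)) ≤
      ∏ p ∈ Q, (Real.exp (2 * (1 / ((p:ℝ) * (p - 1)))) * (1 - 1 / ((p:ℝ) - 1))) := by
    apply prod_le_prod
    · intro p hp
      have h1 : (3:ℝ) ≤ p := by exact_mod_cast (hQ p hp).2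
      have : 1 / (p:ℝ) ≤ 1 := by rw [div_le_one (by linarith)]; linarith
      linarith
    · intro p hp
      have h1 : (3:ℝ) ≤ p := by exact_mod_cast (hQ p hp).2
      have h2 := Real.add_one_le_exp (2 * (1 / ((p:ℝ) * (p - 1))))
      have h3 : 0 ≤ 1 - 1 / ((p:ℝ) - 1) := by
        have : 1 / ((p:ℝ) - 1) ≤ 1 := by rw [div_le_one (by linarith)]; linarith
        linarith
      refine le_trans ?_ (mul_le_mul_of_nonneg_right h2 h3)
      have h4 : (0:ℝ) < p := by linarith
      have h5 : (0:ℝ) < p - 1 := by linarith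
      have e : (2 * (1 / ((p:ℝ) * (p - 1))) + 1) * (1 - 1 / ((p:ℝ) - 1)) - (1 - 1 / (p:ℝ)) =
          (p - 3) / (p * (p - 1) ^ 2) := by
        field_simp
        ring
      have h6 : 0 ≤ ((p:ℝ) - 3) / (p * (p - 1) ^ 2) := by
        apply div_nonneg (by linarith)
        positivity
      linarith
  refine h1.trans ?_
  rw [prod_mul_distrib, ← Real.exp_sum]
  have h2 : ∑ p ∈ Q, 2 * (1 / ((p:ℝ) * (p - 1))) ≤ 1 := by
    rw [← mul_sum]
    have := inv_sq_sum 2 (by norm_num) Q (fun p hp => by have := (hQ p hp).2; omega)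
    push_cast at this
    linarith
  have h3 : 0 ≤ ∏ p ∈ Q, (1 - 1 / ((p:ℝ) - 1)) := by
    apply prod_nonneg
    intro p hp
    have h1 : (3:ℝ) ≤ p := by exact_mod_cast (hQ p hp).2
    have : 1 / ((p:ℝ) - 1) ≤ 1 := by rw [div_le_one (by linarith)]; linarith
    linarith
  gcongr

theorem affine_sum (p l b : ℕ) (hp : p.Prime) (hl : ¬ p ∣ l) (F : ℕ → ℝ) :
    ∑ m ∈ range p, F ((b + l * m) % p) = ∑ r ∈ range p, F r := by
  have hcop : Nat.Coprime p l := (Nat.Prime.coprime_iff_not_dvd hp).mpr hl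
  have hinj : Set.InjOn (fun m => (b + l * m) % p) (range p : Set ℕ) := by
    intro m hm n hn h
    simp only [coe_range, Set.mem_Iio] at hm hn
    have h1 : b + l * m ≡ b + l * n [MOD p] := h
    have h2 : l * m ≡ l * n [MOD p] := Nat.ModEq.add_left_cancel' b h1
    have h3 : m ≡ n [MOD p] := Nat.ModEq.cancel_left_of_coprime hcop h2
    exact Nat.ModEq.eq_of_lt_of_lt h3 hm hn
  have himg : (range p).image (fun m => (b + l * m) % p) = range p := by
    apply eq_of_subset_of_card_le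
    · intro r hr
      rw [mem_image] at hr
      obtain ⟨m, _, rfl⟩ := hr
      rw [mem_range]
      exact Nat.mod_lt _ hp.pos
    · rw [card_image_of_injOn hinj]
  conv_rhs => rw [← himg]
  rw [sum_image hinj]

/-- sieve weight for the interval sieve -/
noncomputable def fB (Q : Finset ℕ) (c : ℕ → ℕ) (l b : ℕ) (p m : ℕ) : ℝ :=
  if p ∣ b + l * m ∨ (p ∈ Q ∧ b + l * m ≡ c p [MOD p]) then 1 else 0

theorem fB_nonneg (Q : Finset ℕ) (c : ℕ → ℕ) (l b p m : ℕ) : 0 ≤ fB Q c l b p m := by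
  unfold fB; split_ifs <;> norm_num

theorem fB_le_one (Q : Finset ℕ) (c : ℕ → ℕ) (l b p m : ℕ) : fB Q c l b p m ≤ 1 := by
  unfold fB; split_ifs <;> norm_num

theorem fB_periodic (Q : Finset ℕ) (c : ℕ → ℕ) (l b p : ℕ) : Function.Periodic (fB Q c l b p) p := by
  intro m
  unfold fB
  have h1 : p ∣ b + l * (m + p) ↔ p ∣ b + l * m := by
    rw [mul_add, ← add_assoc]
    exact (Nat.dvd_add_iff_left (Dvd.intro_left l rfl)).symm
  have h2 : b + l * (m + p) ≡ c p [MOD p] ↔ b + l * m ≡ c p [MOD p] := by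
    have : b + l * (m + p) ≡ b + l * m [MOD p] := by
      rw [mul_add, ← add_assoc]
      unfold Nat.ModEq
      rw [Nat.add_mul_mod_self_right]
    exact ⟨fun h => this.symm.trans h, fun h => this.trans h⟩
  simp only [h1, h2]

theorem fB_sum (Q : Finset ℕ) (c : ℕ → ℕ) (l b p : ℕ) (hp : p.Prime) (hl : ¬ p ∣ l)
    (hc : p ∈ Q → (c p).Coprime p) :
    ∑ m ∈ range p, fB Q c l b p m = if p ∈ Q then 2 else 1 := by
  have e : ∀ m, fB Q c l b p m = (fun r => if r = 0 ∨ (p ∈ Q ∧ r = c p % p) then (1:ℝ) else 0)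
      ((b + l * m) % p) := by
    intro m
    unfold fB
    simp only [Nat.dvd_iff_mod_eq_zero, Nat.ModEq]
  rw [sum_congr rfl fun m _ => e m, affine_sum p l b hp hl
    (fun r => if r = 0 ∨ (p ∈ Q ∧ r = c p % p) then (1:ℝ) else 0), ← sum_filter, sum_const,
    nsmul_eq_mul, mul_one]
  by_cases hQ : p ∈ Q
  · rw [if_pos hQ]
    have h1 : (range p).filter (fun r => r = 0 ∨ (p ∈ Q ∧ r = c p % p)) = {0, c p % p} := by
      ext r
      simp only [mem_filter, mem_range, mem_insert, mem_singleton, hQ, true_and]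
      constructor
      · rintro ⟨_, h⟩; exact h
      · intro h
        refine ⟨?_, h⟩
        rcases h with h | h
        · rw [h]; exact hp.pos
        · rw [h]; exact Nat.mod_lt _ hp.pos
    have h2 : c p % p ≠ 0 := by
      intro h
      have h3 : p ∣ c p := Nat.dvd_of_mod_eq_zero h
      have h4 := hc hQ
      have h5 : Nat.gcd (c p) p = p := Nat.gcd_eq_right h3
      rw [Nat.Coprime, h5] at h4
      exact hp.one_lt.ne' h4
    rw [h1, card_pair h2.symm]
    norm_num
  · rw [if_neg hQ]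
    have h1 : (range p).filter (fun r => r = 0 ∨ (p ∈ Q ∧ r = c p % p)) = {0} := by
      ext r
      simp only [mem_filter, mem_range, mem_singleton, hQ, false_and, or_false]
      constructor
      · rintro ⟨_, h⟩; exact h
      · intro h
        exact ⟨by rw [h]; exact hp.pos, h⟩
    rw [h1, card_singleton]
    norm_num

end Pool.Agent.H316R2
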