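import Mathlib
import Pool.Agent.H316R2.Pb1
import Pool.Agent.H316R2.Crt

set_option autoImplicit false

open Finset

namespace Pool.Agent.H316R2

/-- indicator of the sifted primes -/
noncomputable def WB (Q : Finset ℕ) (c : ℕ → ℕ) (l b n : ℕ) : ℝ :=
  (if n.Prime then 1 else 0) * ((if n ≡ b [MOD l] then 1 else 0) *
    ∏ p ∈ Q, (1 - if n ≡ c p [MOD p] then (1:ℝ) else 0))

theorem WB_nonneg (Q : Finset ℕ) (c : ℕ → ℕ) (l b n : ℕ) : 0 ≤ WB Q c l b n := by
  unfold WB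
  apply mul_nonneg
  · split_ifs <;> norm_num
  · apply mul_nonneg
    · split_ifs <;> norm_num
    · apply prod_nonneg
      intro p _
      split_ifs <;> norm_num

theorem WB_le (Q : Finset ℕ) (c : ℕ → ℕ) (l b n : ℕ) : WB Q c l b n ≤
    if (n.Prime ∧ n ≡ b [MOD l] ∧ ∀ p ∈ Q, ¬ n ≡ c p [MOD p]) then 1 else 0 := by
  have hpr : ∏ p ∈ Q, (1 - if n ≡ c p [MOD p] then (1:ℝ) else 0) ≤ 1 := by
    apply prod_le_one
    · intro p _; split_ifs <;> norm_num
    · intro p _; split_ifs <;> norm_num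
  unfold WB
  by_cases h1 : n.Prime
  · by_cases h2 : n ≡ b [MOD l]
    · by_cases h3 : ∀ p ∈ Q, ¬ n ≡ c p [MOD p]
      · rw [if_pos h1, if_pos h2, if_pos ⟨h1, h2, h3⟩, one_mul, one_mul]
        exact hpr
      · have hneg : ¬ (n.Prime ∧ n ≡ b [MOD l] ∧ ∀ p ∈ Q, ¬ n ≡ c p [MOD p]) := fun h => h3 h.2.2
        rw [if_neg hneg]
        push Not at h3
        obtain ⟨p, hp, hn⟩ := h3
        rw [prod_eq_zero hp (by rw [if_pos hn, sub_self]), mul_zero, mul_zero]
    · rw [if_neg h2, zero_mul, mul_zero]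
      split_ifs <;> norm_num
  · rw [if_neg h1, zero_mul]
    split_ifs <;> norm_num

theorem sum_Icc_le_sq (D : ℕ) : ∑ d ∈ Icc 1 D, (d:ℝ) ≤ (D:ℝ) ^ 2 := by
  calc _ ≤ ∑ _d ∈ Icc 1 D, (D:ℝ) := by
        apply sum_le_sum
        intro d hd
        rw [mem_Icc] at hd
        exact_mod_cast hd.2
    _ = _ := by
        rw [sum_const, Nat.card_Icc, nsmul_eq_mul, show D + 1 - 1 = D by omega]
        ring

theorem blockB : ∃ K : ℕ, 2 ≤ K ∧ ∃ C : ℝ, 1 ≤ C ∧ ∀ (Q : Finset ℕ), (∀ p ∈ Q, p.Prime ∧ 3 ≤ p) →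
    ∀ c : ℕ → ℕ, (∀ p ∈ Q, (c p).Coprime p) → ∀ l : ℕ, l.Prime → ∀ b y : ℕ, 1 ≤ y →
    ∀ X : ℝ, (l:ℝ) ≤ X → (y:ℝ) ≤ X →
    ∑ n ∈ Ioc ⌊X⌋₊ ⌊2 * X⌋₊, WB Q c l b n ≤
      C * (X / l * ∏ p ∈ (Icc 1 y).filter (fun p => p.Prime ∧ p ≠ l),
        (1 - (if p ∈ Q then 2 else 1) / (p:ℝ))) + ((K ^ (2 * K + 1) * y ^ 20 : ℕ) : ℝ) ^ 2 := by
  classical
  obtain ⟨K, hK, C, hC, hs⟩ := sieve2_up
  refine ⟨K, hK, 3 * C, by linarith, ?_⟩
  intro Q hQ c hc l hl b y hy X hlX hyX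
  have hl0 : (0:ℝ) < l := by exact_mod_cast hl.pos
  have hX0 : 0 < X := by linarith
  set T := (Icc 1 y).filter (fun p => p.Prime ∧ p ≠ l) with hT
  have hTm : ∀ p ∈ T, p.Prime ∧ p ≠ l ∧ p ≤ y := by
    intro p hp
    rw [hT, mem_filter, mem_Icc] at hp
    exact ⟨hp.2.1, hp.2.2, hp.1.2⟩
  set b' := b % l with hb'
  set B := ⌊X / l⌋₊ with hB
  set H := ⌊2 * X / l⌋₊ + 1 - B with hH
  set f : ℕ → ℕ → ℝ := fun p m => fB Q c l b' p m with hf
  set ν : ℕ → ℝ := fun p => if p ∈ Q then 2 else 1 with hν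
  have hν1 : ∀ p, 1 ≤ ν p := by intro p; rw [hν]; simp only; split_ifs <;> norm_num
  have hν2 : ∀ p, ν p ≤ 2 := by intro p; rw [hν]; simp only; split_ifs <;> norm_num
  have hfsum : ∀ p ∈ T, ∑ m ∈ range p, f p m = ν p := by
    intro p hp
    obtain ⟨h1, h2, _⟩ := hTm p hp
    exact fB_sum Q c l b' p h1 (fun h => h2 ((Nat.prime_dvd_prime_iff_eq h1 hl).mp h)) (hc p)
  set g : ℕ → ℝ := fun p => if p ∈ T then ν p / p else 0 with hg
  have hgT : ∀ p ∈ T, g p = ν p / p := fun p hp => by rw [hg]; simp only [if_pos hp]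
  have hg0 : ∀ p, 0 ≤ g p := by
    intro p; rw [hg]; simp only; split_ifs
    · have := hν1 p; positivity
    · exact le_rfl
  have hg1 : ∀ p, g p < 1 := by
    intro p
    by_cases hp : p ∈ T
    · rw [hgT p hp]
      have hpp := (hTm p hp).1
      have hp2 : (2:ℝ) ≤ p := by exact_mod_cast hpp.two_le
      rw [div_lt_one (by linarith), hν]
      simp only
      split_ifs with hpQ
      · have : (3:ℝ) ≤ p := by exact_mod_cast (hQ p hpQ).2
        linarith
      · linarith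
    · rw [hg]; simp only [if_neg hp]; norm_num
  have hg2 : ∀ p ∈ T, g p ≤ 2 / p := by
    intro p hp
    rw [hgT p hp]
    exact div_le_div_of_nonneg_right (hν2 p) (Nat.cast_nonneg _)
  set Ω := Ico B (B + H) with hΩ
  set R : Finset ℕ → ℝ := fun S => ∑ m ∈ Ω, (1:ℝ) * ∏ p ∈ S, f p m - (H:ℝ) * ∏ p ∈ S, g p with hR
  have hsieve := hs T y hy (fun p hp => ⟨(hTm p hp).1, (hTm p hp).2.2⟩) g hg0 hg1 hg2 Ω
    (fun _ => 1) (fun _ => zero_le_one) (fun m p => f p m) (fun m p => fB_nonneg _ _ _ _ _ _)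
    (fun m p => fB_le_one _ _ _ _ _ _) H (Nat.cast_nonneg _) R
    (by intro S _; rw [hR]; simp only; ring)
  -- the remainder
  have hRS : ∀ S ⊆ T, |R S| ≤ ((∏ p ∈ S, p : ℕ) : ℝ) := by
    intro S hS
    have hSp : ∀ p ∈ S, p.Prime := fun p hp => (hTm p (hS hp)).1
    have hper : ∀ p ∈ S, Function.Periodic (f p) p := fun p _ => fB_periodic Q c l b' p
    have hd : 0 < ∏ p ∈ S, p := prod_pos fun p hp => (hSp p hp).pos
    have h1 := Helper559.sum_interval (fun m => ∏ p ∈ S, f p m) (∏ p ∈ S, p) hd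
      (Helper559.periodic_prod f S hper) (fun m => prod_nonneg fun p _ => fB_nonneg _ _ _ _ _ _) B H
    have h2 := Helper559.crt_prod f S hSp hper
    have h3 : ∏ p ∈ S, ∑ n ∈ range p, f p n = ∏ p ∈ S, ν p :=
      prod_congr rfl fun p hp => hfsum p (hS hp)
    rw [h2, h3] at h1
    have h4 : (H:ℝ) / ((∏ p ∈ S, p : ℕ) : ℝ) * ∏ p ∈ S, ν p = H * ∏ p ∈ S, g p := by
      have : ∏ p ∈ S, g p = (∏ p ∈ S, ν p) / ((∏ p ∈ S, p : ℕ) : ℝ) := by
        push_cast
        rw [← prod_div_distrib]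
        exact prod_congr rfl fun p hp => hgT p (hS hp)
      rw [this]; ring
    rw [h4] at h1
    have h5 : R S = ∑ m ∈ Ico B (B + H), ∏ p ∈ S, f p m - H * ∏ p ∈ S, g p := by
      rw [hR]; simp only [one_mul, hΩ]
    rw [h5]
    refine h1.trans ?_
    push_cast
    apply prod_le_prod
    · intro p _; have := hν1 p; linarith
    · intro p hp
      have : (2:ℝ) ≤ p := by exact_mod_cast (hSp p hp).two_le
      exact (hν2 p).trans this
  set D := K ^ (2 * K + 1) * y ^ 20 with hD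
  have herr : ∑ S ∈ T.powerset.filter (fun S => ∏ p ∈ S, p ≤ D), |R S| ≤ (D:ℝ) ^ 2 := by
    have hmem : ∀ S ∈ T.powerset.filter (fun S => ∏ p ∈ S, p ≤ D), S ⊆ T ∧ ∏ p ∈ S, p ≤ D := by
      intro S hS
      rw [mem_filter, mem_powerset] at hS
      exact hS
    have hinj : Set.InjOn (fun S : Finset ℕ => ∏ p ∈ S, p)
        (T.powerset.filter (fun S => ∏ p ∈ S, p ≤ D) : Set (Finset ℕ)) := by
      intro S hS S' hS' h
      exact prod_primes_inj (fun p hp => (hTm p ((hmem S hS).1 hp)).1)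
        (fun p hp => (hTm p ((hmem S' hS').1 hp)).1) h
    calc _ ≤ ∑ S ∈ T.powerset.filter (fun S => ∏ p ∈ S, p ≤ D), ((∏ p ∈ S, p : ℕ) : ℝ) :=
          sum_le_sum fun S hS => hRS S (hmem S hS).1
      _ = ∑ d ∈ (T.powerset.filter (fun S => ∏ p ∈ S, p ≤ D)).image (fun S => ∏ p ∈ S, p), (d:ℝ) := by
          rw [sum_image hinj]
      _ ≤ ∑ d ∈ Icc 1 D, (d:ℝ) := by
          apply sum_le_sum_of_subset_of_nonneg
          · intro d hd
            rw [mem_image] at hd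
            obtain ⟨S, hS, rfl⟩ := hd
            rw [mem_Icc]
            exact ⟨Nat.one_le_iff_ne_zero.mpr (prod_ne_zero_iff.mpr fun p hp =>
              (hTm p ((hmem S hS).1 hp)).1.ne_zero), (hmem S hS).2⟩
          · intro _ _ _; positivity
      _ ≤ _ := sum_Icc_le_sq D
  -- counting
  set F := (Ioc ⌊X⌋₊ ⌊2 * X⌋₊).filter
    (fun n => n.Prime ∧ n ≡ b [MOD l] ∧ ∀ p ∈ Q, ¬ n ≡ c p [MOD p]) with hF
  have hFm : ∀ n ∈ F, (n.Prime ∧ n ≡ b [MOD l] ∧ ∀ p ∈ Q, ¬ n ≡ c p [MOD p]) ∧ X < n ∧ (n:ℝ) ≤ 2 * X ∧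
      n = b' + l * (n / l) := by
    intro n hn
    rw [hF, mem_filter, mem_Ioc] at hn
    refine ⟨hn.2, (Nat.floor_lt hX0.le).mp hn.1.1, (Nat.le_floor_iff (by positivity)).mp hn.1.2, ?_⟩
    have h1 : n % l = b' := hn.2.2.1
    rw [← h1]
    exact (Nat.mod_add_div n l).symm
  have hcount : ∑ n ∈ Ioc ⌊X⌋₊ ⌊2 * X⌋₊, WB Q c l b n ≤ ∑ m ∈ Ω, (1:ℝ) * ∏ p ∈ T, (1 - f p m) := by
    calc _ ≤ ∑ n ∈ Ioc ⌊X⌋₊ ⌊2 * X⌋₊, (if (n.Prime ∧ n ≡ b [MOD l] ∧ ∀ p ∈ Q, ¬ n ≡ c p [MOD p])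
            then (1:ℝ) else 0) := sum_le_sum fun n _ => WB_le Q c l b n
      _ = ∑ n ∈ F, (1:ℝ) := by rw [hF, sum_filter]
      _ = ∑ n ∈ F, (1:ℝ) * ∏ p ∈ T, (1 - f p (n / l)) := by
          apply sum_congr rfl
          intro n hn
          obtain ⟨⟨h1, h2, h3⟩, h4, h5, h6⟩ := hFm n hn
          have : ∏ p ∈ T, (1 - f p (n / l)) = 1 := by
            apply prod_eq_one
            intro p hp
            obtain ⟨hp1, hp2, hp3⟩ := hTm p hp
            have h0 : f p (n / l) = 0 := by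
              rw [hf]
              simp only
              unfold fB
              rw [← h6, if_neg]
              rintro (hdv | ⟨hq, hm⟩)
              · have h7 := (Nat.prime_dvd_prime_iff_eq hp1 h1).mp hdv
                have h8 : (p:ℝ) ≤ y := by exact_mod_cast hp3
                rw [h7] at h8
                linarith
              · exact h3 p hq hm
            rw [h0, sub_zero]
          rw [this, one_mul]
      _ = ∑ m ∈ F.image (fun n => n / l), (1:ℝ) * ∏ p ∈ T, (1 - f p m) := by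
          rw [sum_image]
          intro n hn n' hn' h
          have e1 := (hFm n hn).2.2.2
          have e2 := (hFm n' hn').2.2.2
          simp only at h
          rw [e1, e2, h]
      _ ≤ _ := by
          apply sum_le_sum_of_subset_of_nonneg
          · intro m hm
            rw [mem_image] at hm
            obtain ⟨n, hn, rfl⟩ := hm
            obtain ⟨_, h4, h5, h6⟩ := hFm n hn
            have hb'l : b' < l := Nat.mod_lt _ hl.pos
            rw [hΩ, mem_Ico]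
            have hlow : B ≤ n / l := by
              rw [hB]
              have h7 : X / l < ((n / l + 1 : ℕ) : ℝ) := by
                rw [div_lt_iff₀ hl0]
                have h8 : (n:ℝ) < ((n / l + 1 : ℕ) : ℝ) * l := by
                  have : n < (n / l + 1) * l := by
                    rw [h6]
                    have : (b' + l * (n / l)) / l = n / l := by rw [← h6]
                    rw [this]
                    nlinarith
                  exact_mod_cast this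
                linarith
              have h9 := (Nat.floor_lt (by positivity)).mpr h7
              omega
            have hhigh : n / l ≤ ⌊2 * X / l⌋₊ := by
              rw [Nat.le_floor_iff (by positivity), le_div_iff₀ hl0]
              have : n / l * l ≤ n := Nat.div_mul_le_self n l
              have h7 : ((n / l : ℕ) : ℝ) * l ≤ n := by exact_mod_cast this
              linarith
            constructor
            · exact hlow
            · rw [hH]; omega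
          · intro m _ _
            rw [one_mul]
            apply prod_nonneg
            intro p _
            have := fB_le_one Q c l b' p m
            rw [hf]; simp only; linarith
  have hHle : (H:ℝ) ≤ 3 * (X / l) := by
    have hBle : B ≤ ⌊2 * X / l⌋₊ := by
      rw [hB]
      apply Nat.floor_le_floor
      gcongr
      linarith
    have h1 : (H:ℝ) = (⌊2 * X / l⌋₊ : ℝ) + 1 - B := by
      rw [hH, Nat.cast_sub (by omega)]
      push_cast; ring
    have h2 : (⌊2 * X / l⌋₊ : ℝ) ≤ 2 * X / l := Nat.floor_le (by positivity)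
    have h3 : X / l < (B:ℝ) + 1 := Nat.lt_floor_add_one _
    have h4 : 1 ≤ X / l := by rw [le_div_iff₀ hl0]; linarith
    have h5 : 2 * X / l = X / l + X / l := by ring
    rw [h1]; linarith
  have hprod : ∏ p ∈ T, (1 - g p) = ∏ p ∈ T, (1 - (if p ∈ Q then 2 else 1) / (p:ℝ)) := by
    apply prod_congr rfl
    intro p hp
    rw [hgT p hp]
  have hV0 : 0 ≤ ∏ p ∈ T, (1 - g p) := prod_nonneg fun p _ => by linarith [hg1 p]
  calc _ ≤ _ := hcount
    _ ≤ C * (H * ∏ p ∈ T, (1 - g p)) + ∑ S ∈ T.powerset.filter (fun S => ∏ p ∈ S, p ≤ D), |R S| := hsieve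
    _ ≤ C * (3 * (X / l) * ∏ p ∈ T, (1 - g p)) + (D:ℝ) ^ 2 := by
        have hC0 : 0 ≤ C := by linarith
        gcongr
    _ = _ := by rw [hprod]; ring

theorem prodB : ∃ C : ℝ, 1 ≤ C ∧ ∀ (w : ℕ) (Q : Finset ℕ), 1 ≤ w → (∀ p ∈ Q, p.Prime ∧ 3 ≤ p ∧ p ≤ w) →
    ∀ l : ℕ, l.Prime → l ∉ Q → ∀ y : ℕ, 2 ≤ y →
    ∏ p ∈ (Icc 1 y).filter (fun p => p.Prime ∧ p ≠ l), (1 - (if p ∈ Q then 2 else 1) / (p:ℝ)) ≤
      C / Real.log y * max 1 (Real.log w / Real.log y) * ∏ p ∈ Q, (1 - 1 / ((p:ℝ) - 1)) := by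
  classical
  obtain ⟨C1, hC1, h1⟩ := mert_up
  obtain ⟨c2, hc2, hc21, h2⟩ := mert_tail
  refine ⟨2 * C1 * (Real.exp 1 / c2), ?_, ?_⟩
  · have h3 : 1 ≤ Real.exp 1 / c2 := by
      rw [le_div_iff₀ hc2]
      have := Real.one_le_exp (zero_le_one (α := ℝ))
      linarith
    nlinarith
  intro w Q hw hQ l hl hlQ y hy
  have hly : 0 < Real.log y := Real.log_pos (by exact_mod_cast (by omega : 1 < y))
  set T := (Icc 1 y).filter (fun p => p.Prime ∧ p ≠ l) with hT
  have hTm : ∀ p ∈ T, p.Prime ∧ p ≠ l ∧ p ≤ y := by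
    intro p hp
    rw [hT, mem_filter, mem_Icc] at hp
    exact ⟨hp.2.1, hp.2.2, hp.1.2⟩
  have hp1 : ∀ p : ℕ, p.Prime → 0 < 1 - 1 / (p:ℝ) ∧ 1 - 1 / (p:ℝ) ≤ 1 := by
    intro p hp
    have : (2:ℝ) ≤ p := by exact_mod_cast hp.two_le
    have h3 : 1 / (p:ℝ) ≤ 1 / 2 := div_le_div_of_nonneg_left zero_le_one (by norm_num) this
    have h4 : 0 ≤ 1 / (p:ℝ) := by positivity
    constructor <;> linarith
  -- pointwise splitting
  have hA : ∏ p ∈ T, (1 - (if p ∈ Q then 2 else 1) / (p:ℝ)) ≤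
      (∏ p ∈ T, (1 - 1 / (p:ℝ))) * ∏ p ∈ T, (if p ∈ Q then (1 - 1 / (p:ℝ)) else 1) := by
    rw [← prod_mul_distrib]
    apply prod_le_prod
    · intro p hp
      have h3 : (2:ℝ) ≤ p := by exact_mod_cast (hTm p hp).1.two_le
      split_ifs
      · have : 2 / (p:ℝ) ≤ 1 := by rw [div_le_one (by linarith)]; exact h3
        linarith
      · linarith [(hp1 p (hTm p hp).1).1]
    · intro p hp
      have h3 : (2:ℝ) ≤ p := by exact_mod_cast (hTm p hp).1.two_le
      split_ifs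
      · have e : (1 - 1 / (p:ℝ)) * (1 - 1 / (p:ℝ)) = 1 - 2 / p + (1 / (p:ℝ)) ^ 2 := by ring
        rw [e]
        have : 0 ≤ (1 / (p:ℝ)) ^ 2 := by positivity
        linarith
      · rw [mul_one]
  -- the first product
  have hB1 : ∏ p ∈ T, (1 - 1 / (p:ℝ)) ≤ 2 * (C1 / Real.log y) := by
    have h3 := h1 y hy
    have h4 : (Icc 1 y).filter Nat.Prime ⊆ insert l T := by
      intro p hp
      rw [mem_filter] at hp
      rw [mem_insert]
      by_cases h : p = l
      · exact Or.inl h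
      · right; rw [hT, mem_filter]; exact ⟨hp.1, hp.2, h⟩
    have hlT : l ∉ T := fun h => (hTm l h).2.1 rfl
    have h5 : ∏ p ∈ insert l T, (1 - 1 / (p:ℝ)) ≤ ∏ p ∈ (Icc 1 y).filter Nat.Prime, (1 - 1 / (p:ℝ)) := by
      apply Finset.prod_le_prod_of_subset_of_le_one h4
      · intro p hp
        rcases mem_insert.mp hp with h | h
        · rw [h]; exact (hp1 l hl).1.le
        · exact (hp1 p (hTm p h).1).1.le
      · intro p hp _
        rcases mem_insert.mp hp with h | h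
        · rw [h]; exact (hp1 l hl).2
        · exact (hp1 p (hTm p h).1).2
    rw [prod_insert hlT] at h5
    have h6 : 1 / 2 ≤ 1 - 1 / (l:ℝ) := by
      have : (2:ℝ) ≤ l := by exact_mod_cast hl.two_le
      have h3 : 1 / (l:ℝ) ≤ 1 / 2 := div_le_div_of_nonneg_left zero_le_one (by norm_num) this
      linarith
    have h7 : 0 ≤ ∏ p ∈ T, (1 - 1 / (p:ℝ)) := prod_nonneg fun p hp => (hp1 p (hTm p hp).1).1.le
    have h8 := mul_le_mul_of_nonneg_right h6 h7
    linarith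
  -- the second product
  have hB2 : ∏ p ∈ T, (if p ∈ Q then (1 - 1 / (p:ℝ)) else 1) = ∏ p ∈ Q.filter (fun p => p ≤ y), (1 - 1 / (p:ℝ)) := by
    rw [← prod_filter]
    apply prod_congr _ fun _ _ => rfl
    ext p
    rw [mem_filter, mem_filter, mem_filter, mem_Icc]
    constructor
    · rintro ⟨⟨⟨_, h3⟩, _, _⟩, h5⟩
      exact ⟨h5, h3⟩
    · rintro ⟨h3, h4⟩
      have h5 := (hQ p h3).1
      exact ⟨⟨⟨h5.one_lt.le, h4⟩, h5, fun h => hlQ (h ▸ h3)⟩, h3⟩
  have hB3 := h2 y w hy hw (Q.filter (fun p => ¬ p ≤ y)) (by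
    intro p hp
    rw [mem_filter] at hp
    exact ⟨(hQ p hp.1).1, by omega, (hQ p hp.1).2.2⟩)
  have hB4 : (∏ p ∈ Q.filter (fun p => p ≤ y), (1 - 1 / (p:ℝ))) *
      ∏ p ∈ Q.filter (fun p => ¬ p ≤ y), (1 - 1 / (p:ℝ)) = ∏ p ∈ Q, (1 - 1 / (p:ℝ)) :=
    prod_filter_mul_prod_filter_not Q _ _
  have hB5 := one_vs Q (fun p hp => ⟨(hQ p hp).1, (hQ p hp).2.1⟩)
  set M := max 1 (Real.log w / Real.log y) with hM
  have hM1 : 1 ≤ M := le_max_left _ _
  set V := ∏ p ∈ Q, (1 - 1 / ((p:ℝ) - 1)) with hV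
  have hB6 : ∏ p ∈ Q.filter (fun p => p ≤ y), (1 - 1 / (p:ℝ)) ≤ Real.exp 1 / c2 * M * V := by
    have h0 : 0 ≤ ∏ p ∈ Q.filter (fun p => p ≤ y), (1 - 1 / (p:ℝ)) :=
      prod_nonneg fun p hp => (hp1 p (hQ p (mem_filter.mp hp).1).1).1.le
    have h3 := mul_le_mul_of_nonneg_left hB3 h0
    rw [hB4] at h3
    have h4 : (∏ p ∈ Q.filter (fun p => p ≤ y), (1 - 1 / (p:ℝ))) * (c2 / M) ≤ Real.exp 1 * V := h3.trans hB5
    have h5 : (∏ p ∈ Q.filter (fun p => p ≤ y), (1 - 1 / (p:ℝ))) =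
        ((∏ p ∈ Q.filter (fun p => p ≤ y), (1 - 1 / (p:ℝ))) * (c2 / M)) * (M / c2) := by
      field_simp
    rw [h5]
    calc _ ≤ (Real.exp 1 * V) * (M / c2) := by gcongr
      _ = _ := by ring
  calc _ ≤ _ := hA
    _ ≤ (2 * (C1 / Real.log y)) * (Real.exp 1 / c2 * M * V) := by
        rw [hB2]
        apply mul_le_mul hB1 hB6 (prod_nonneg fun p hp => (hp1 p (hQ p (mem_filter.mp hp).1).1).1.le)
        positivity
    _ = _ := by ring

end Pool.Agent.H316R2
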