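import Mathlib
import Pool.Agent.H316R2.Pb2

set_option autoImplicit false

open Finset

namespace Pool.Agent.H316R2

theorem hw_split (Q : Finset ℕ) (c : ℕ → ℕ) (l b n : ℕ) :
    lw n * ((if n ≡ b [MOD l] then 1 else 0) *
      ∏ p ∈ Q, (1 - if n ≡ c p [MOD p] then (1:ℝ) else 0)) = Real.log n / n * WB Q c l b n := by
  unfold lw WB
  split_ifs <;> ring

/-- dyadic decomposition of a window -/
theorem window_dyadic (F : ℕ → ℝ) (hF : ∀ n, 0 ≤ F n) (X0 E : ℝ) (hX0 : 0 < X0) (J : ℕ)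
    (hE : E ≤ 2 ^ J * X0) (M : ℝ) (hM : ∀ j, j < J →
      ∑ n ∈ Ioc ⌊2 ^ j * X0⌋₊ ⌊2 * (2 ^ j * X0)⌋₊, F n ≤ M) :
    ∑ n ∈ Ioc ⌊X0⌋₊ ⌊E⌋₊, F n ≤ J * M := by
  have h1 : ∑ n ∈ Ioc ⌊X0⌋₊ ⌊E⌋₊, F n ≤ ∑ n ∈ Ioc ⌊X0⌋₊ ⌊2 ^ J * X0⌋₊, F n := by
    apply sum_le_sum_of_subset_of_nonneg
    · exact Ioc_subset_Ioc_right (Nat.floor_le_floor hE)
    · intro n _ _; exact hF n
  refine h1.trans ?_
  clear hE h1
  induction J with
  | zero => simp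
  | succ J ih =>
    have hle1 : ⌊X0⌋₊ ≤ ⌊2 ^ J * X0⌋₊ := by
      apply Nat.floor_le_floor
      have : (1:ℝ) ≤ 2 ^ J := one_le_pow₀ (by norm_num)
      nlinarith only [this, hX0]
    have e : (2:ℝ) ^ (J + 1) * X0 = 2 * (2 ^ J * X0) := by ring
    have hle2 : ⌊2 ^ J * X0⌋₊ ≤ ⌊(2:ℝ) ^ (J + 1) * X0⌋₊ := by
      apply Nat.floor_le_floor
      rw [e]
      have : 0 < (2:ℝ) ^ J * X0 := by positivity
      linarith
    rw [← sum_Ioc_consecutive F hle1 hle2, e]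
    have h2 := ih (fun j hj => hM j (by omega))
    have h3 := hM J (by omega)
    push_cast
    linarith

end Pool.Agent.H316R2
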