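import Mathlib
import Pool.Agent.H316R2.Pb2
import Pool.Agent.H316R2.Wd
import Pool.Agent.H316R2.Pa

set_option autoImplicit false

open Finset

namespace Pool.Agent.H316R2

theorem block_final (K : ℕ) (C Cp cM : ℝ) (hC : 1 ≤ C) (hCp : 1 ≤ Cp)
    (l : ℕ) (hl : 0 < l) (L u X lwr V P D2 M : ℝ) (hL : 0 < L) (hu : 0 < u) (hX : 0 < X) (hV : 0 ≤ V)
    (hM : M = max 1 (lwr / u))
    (hP : P ≤ Cp * (400 / u) * (400 * M) * V)
    (hD2 : D2 ≤ X / l * (V / u)) (S : ℝ) (hS : S ≤ C * (X / l * P) + D2) :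
    2 * L / X * S ≤ (2 * (C * Cp * 160000 + 1)) * (L / (l * u) * M * V) := by
  have hl0 : (0:ℝ) < l := by exact_mod_cast hl
  have hM1 : 1 ≤ M := by rw [hM]; exact le_max_left _ _
  have hM0 : 0 < M := by linarith
  have h1 : S ≤ C * (X / l * (Cp * (400 / u) * (400 * M) * V)) + X / l * (V / u) := by
    refine hS.trans ?_
    have hC0 : 0 ≤ C := by linarith
    gcongr
  have h2 : X / l * (V / u) ≤ X / l * (V / u * M) := by
    have : V / u * 1 ≤ V / u * M := by gcongr
    have h3 : 0 < X / l := by positivity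
    rw [mul_one] at this
    gcongr
  calc 2 * L / X * S ≤ 2 * L / X * (C * (X / l * (Cp * (400 / u) * (400 * M) * V)) +
        X / l * (V / u * M)) := by
        have : 0 ≤ 2 * L / X := by positivity
        apply mul_le_mul_of_nonneg_left _ this
        linarith
    _ = _ := by field_simp; ring

theorem partB : ∃ C : ℝ, 1 ≤ C ∧ ∀ ε : ℝ, 0 < ε → ∃ z0 : ℕ, ∀ z : ℕ, z0 ≤ z →
    ∀ t : ℝ, (Real.log z) ^ ε ≤ t → t ≤ Real.log z → ∀ w : ℕ, 1 ≤ w → w ^ 200 ≤ z →
    ∀ Q : Finset ℕ, (∀ p ∈ Q, p.Prime ∧ 3 ≤ p ∧ p ≤ w) →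
    ∀ c : ℕ → ℕ, (∀ p ∈ Q, (c p).Coprime p) →
    ∀ l : ℕ, l.Prime → l ≤ z → l ∉ Q → ∀ b k Y : ℕ, 1 ≤ t / (3 * (k + 2)) →
    Real.exp (Real.log z + 2 * t / 3) ≤ Y →
    ∑ n ∈ Icc 1 Y, hw k (t / (3 * (k + 2))) (Real.log z + 2 * t / 3) n *
        ((if n ≡ b [MOD l] then 1 else 0) *
          ∏ p ∈ Q, (1 - if n ≡ c p [MOD p] then (1:ℝ) else 0)) ≤
      C * (t / (3 * (k + 2))) * (Real.log z / (l * (Real.log z + t - Real.log l)) *
        max 1 (Real.log w / (Real.log z + t - Real.log l)) * ∏ p ∈ Q, (1 - 1 / ((p:ℝ) - 1))) := by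
  obtain ⟨K, hK, C, hC, hblock⟩ := blockB
  obtain ⟨Cp, hCp, hprod⟩ := prodB
  obtain ⟨cM, hcM, hmert⟩ := mert_low
  refine ⟨3 * (2 * (C * Cp * 160000 + 1)), ?_, ?_⟩
  · have : 0 ≤ C * Cp * 160000 := by positivity
    linarith
  intro ε hε
  set K2 : ℝ := (((K ^ (2 * K + 1) : ℕ) : ℝ)) ^ 2 with hK2
  have hK20 : 0 < K2 := by
    have : 0 < K ^ (2 * K + 1) := by positivity
    have h2 : (0:ℝ) < ((K ^ (2 * K + 1) : ℕ) : ℝ) := by exact_mod_cast this
    positivity
  have f1 : ∀ᶠ L : ℝ in Filter.atTop, 1000 ≤ L := Filter.eventually_ge_atTop _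
  have f2 : ∀ᶠ L : ℝ in Filter.atTop, 1200 ≤ L ^ ε :=
    (tendsto_rpow_atTop hε).eventually_ge_atTop _
  have f3 : ∀ᶠ L : ℝ in Filter.atTop, K2 * (2 * L ^ 2) / cM ≤ Real.exp (1 / 5 * L ^ ε) := by
    have h1 := (isLittleO_rpow_exp_pos_mul_atTop (2 / ε) (show (0:ℝ) < 1 / 5 by norm_num)).comp_tendsto
      (tendsto_rpow_atTop hε)
    have h2 := h1.bound (show (0:ℝ) < cM / (2 * K2) by positivity)
    filter_upwards [h2, Filter.eventually_ge_atTop (1:ℝ)] with L h3 h4
    simp only [Function.comp] at h3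
    have hL0 : 0 < L := by linarith
    rw [Real.norm_of_nonneg (by positivity), Real.norm_of_nonneg (by positivity),
      ← Real.rpow_mul hL0.le, mul_div_cancel₀ _ hε.ne'] at h3
    have h5 : L ^ (2:ℝ) = L ^ 2 := by exact_mod_cast Real.rpow_natCast L 2
    rw [h5] at h3
    rw [div_le_iff₀ hcM]
    calc K2 * (2 * L ^ 2) = (2 * K2) * L ^ 2 := by ring
      _ ≤ (2 * K2) * (cM / (2 * K2) * Real.exp (1 / 5 * L ^ ε)) := by gcongr
      _ = _ := by field_simp
  obtain ⟨L0, hL0⟩ := Filter.eventually_atTop.mp (f1.and (f2.and f3))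
  refine ⟨⌈Real.exp L0⌉₊, ?_⟩
  intro z hz t ht1 ht2 w hw1 hwz Q hQ c hc l hl hlz hlQ b k Y hτ1 hY
  set L := Real.log z with hL
  have hzpos : (0:ℝ) < z := by
    have : Real.exp L0 ≤ z := (Nat.le_ceil _).trans (by exact_mod_cast hz)
    linarith [Real.exp_pos L0]
  have hLL0 : L0 ≤ L := by
    have : Real.exp L0 ≤ z := (Nat.le_ceil _).trans (by exact_mod_cast hz)
    rw [hL, Real.le_log_iff_exp_le hzpos]; exact this
  have hzexp : Real.exp L = z := Real.exp_log hzpos
  obtain ⟨g1, g2, g3⟩ := hL0 L hLL0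
  have hLpos : 0 < L := by linarith
  set k3 : ℝ := 3 * (k + 2) with hk3
  have hk30 : 0 < k3 := by positivity
  set τ := t / k3 with hτ
  have hτ0 : 0 < τ := by linarith
  have hk3τ : k3 * τ = t := by rw [hτ]; field_simp
  have hk2τ : (k + 2) * τ = t / 3 := by
    have : k3 * τ = 3 * ((k + 2) * τ) := by rw [hk3]; ring
    linarith
  have ht0 : 1200 ≤ t := g2.trans ht1
  have hl0 : (0:ℝ) < l := by exact_mod_cast hl.pos
  have hlogl : Real.log l ≤ L := by
    rw [hL]; exact Real.log_le_log hl0 (by exact_mod_cast hlz)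
  have hlogl0 := Real.log_natCast_nonneg l
  set u := L + t - Real.log l with hu
  have hut : t ≤ u := by rw [hu]; linarith
  have hu1200 : 1200 ≤ u := by linarith
  have hu2L : u ≤ 2 * L := by rw [hu]; linarith
  have hu0 : 0 < u := by linarith
  set V := ∏ p ∈ Q, (1 - 1 / ((p:ℝ) - 1)) with hV
  have hlw : 200 * Real.log w ≤ L := by
    have h1 : ((w ^ 200 : ℕ) : ℝ) ≤ z := by exact_mod_cast hwz
    have h2 := Real.log_le_log (by have : 0 < w ^ 200 := by positivity
                                   exact_mod_cast this) h1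
    push_cast at h2
    rw [Real.log_pow] at h2
    exact_mod_cast h2
  have hlw0 := Real.log_natCast_nonneg w
  have hVL : cM / L ≤ V := by
    refine le_trans ?_ (hmert w hw1 Q hQ)
    apply div_le_div_of_nonneg_left hcM.le (by linarith)
    linarith
  have hV0 : 0 < V := lt_of_lt_of_le (by positivity) hVL
  -- the sifting limit
  set y := ⌊Real.exp (u / 300)⌋₊ with hy
  have hexpu : 5 ≤ Real.exp (u / 300) := by
    have := Real.add_one_le_exp (u / 300)
    linarith
  have hy2 : 2 ≤ y := by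
    rw [hy, Nat.le_floor_iff (Real.exp_pos _).le]
    push_cast; linarith
  have hyle : (y:ℝ) ≤ Real.exp (u / 300) := Nat.floor_le (Real.exp_pos _).le
  have hy0 : (0:ℝ) < y := by exact_mod_cast (by omega : 0 < y)
  have hylog : u / 400 ≤ Real.log y := by
    rw [Real.le_log_iff_exp_le hy0]
    have h1 : Real.exp (u / 400) * Real.exp 1 ≤ Real.exp (u / 300) := by
      rw [← Real.exp_add]
      apply Real.exp_le_exp.mpr
      linarith
    have h2 : Real.exp (u / 300) < y + 1 := Nat.lt_floor_add_one _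
    have h3 := Real.exp_one_gt_d9
    have h4 : 1 ≤ Real.exp (u / 400) := Real.one_le_exp (by positivity)
    nlinarith only [h1, h2, h3, h4]
  have hylog0 : 0 < Real.log y := by
    have : 0 < u / 400 := by positivity
    linarith
  set M := max 1 (Real.log w / u) with hM
  have hM1 : 1 ≤ M := le_max_left _ _
  have hP := hprod w Q hw1 hQ l hl hlQ y hy2
  have hP2 : ∏ p ∈ (Icc 1 y).filter (fun p => p.Prime ∧ p ≠ l), (1 - (if p ∈ Q then 2 else 1) / (p:ℝ)) ≤
      Cp * (400 / u) * (400 * M) * V := by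
    refine hP.trans ?_
    have h1 : Cp / Real.log y ≤ Cp * (400 / u) := by
      have : 1 / Real.log y ≤ 400 / u := by
        rw [div_le_div_iff₀ hylog0 hu0]
        linarith
      calc Cp / Real.log y = Cp * (1 / Real.log y) := by ring
        _ ≤ _ := by gcongr
    have h2 : max 1 (Real.log w / Real.log y) ≤ 400 * M := by
      apply max_le
      · linarith
      · have h3 : Real.log w / Real.log y ≤ Real.log w / (u / 400) := by
          apply div_le_div_of_nonneg_left hlw0 (by positivity) hylog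
        have h4 : Real.log w / (u / 400) = 400 * (Real.log w / u) := by field_simp
        have h5 : Real.log w / u ≤ M := le_max_right _ _
        linarith
    gcongr
  -- the window sums
  set F : ℕ → ℝ := fun n => lw n * ((if n ≡ b [MOD l] then 1 else 0) *
      ∏ p ∈ Q, (1 - if n ≡ c p [MOD p] then (1:ℝ) else 0)) with hF
  have hF0 : ∀ n, 0 ≤ F n := by
    intro n
    rw [hF]
    simp only
    rw [hw_split]
    exact mul_nonneg (div_nonneg (Real.log_natCast_nonneg n) (Nat.cast_nonneg n)) (WB_nonneg _ _ _ _ _)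
  set BD := (2 * (C * Cp * 160000 + 1)) * (L / (l * u) * M * V) with hBD
  have hBD0 : 0 ≤ BD := by rw [hBD]; positivity
  have hwin : ∀ v, L + t / 3 + τ ≤ v → v ≤ L + 2 * t / 3 →
      ∑ n ∈ Icc 1 Y, F n * psi 0 τ (v - Real.log n) ≤ 3 * τ * BD := by
    intro v hv1 hv2
    rw [sum_psi0 F Y τ v hτ0.le ((Real.exp_le_exp.mpr hv2).trans hY)]
    have hfl : ⌊Real.exp (v - τ)⌋₊ ≤ ⌊Real.exp v⌋₊ :=
      Nat.floor_le_floor (Real.exp_le_exp.mpr (by linarith))
    have e : ∑ n ∈ Icc 1 ⌊Real.exp v⌋₊, F n - ∑ n ∈ Icc 1 ⌊Real.exp (v - τ)⌋₊, F n =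
        ∑ n ∈ Ioc ⌊Real.exp (v - τ)⌋₊ ⌊Real.exp v⌋₊, F n := by
      have h1 : Icc 1 ⌊Real.exp v⌋₊ = Ioc 0 ⌊Real.exp v⌋₊ := by
        ext n; simp only [mem_Icc, mem_Ioc]; omega
      have h2 : Icc 1 ⌊Real.exp (v - τ)⌋₊ = Ioc 0 ⌊Real.exp (v - τ)⌋₊ := by
        ext n; simp only [mem_Icc, mem_Ioc]; omega
      rw [h1, h2, ← sum_Ioc_consecutive F (Nat.zero_le _) hfl]
      ring
    rw [e]
    set X0 := Real.exp (v - τ) with hX0
    have hX00 : 0 < X0 := Real.exp_pos _
    have hl2 := Real.log_two_gt_d9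
    have hl2' := Real.log_two_lt_d9
    set J := ⌈τ / Real.log 2⌉₊ with hJ
    have hJ1 : τ / Real.log 2 ≤ J := Nat.le_ceil _
    have hJ2 : (J:ℝ) < τ / Real.log 2 + 1 := Nat.ceil_lt_add_one (by positivity)
    have hJ3 : (J:ℝ) ≤ 3 * τ := by
      have : τ / Real.log 2 ≤ 2 * τ := by
        rw [div_le_iff₀ (by linarith)]
        nlinarith only [hτ0, hl2]
      linarith
    have hE : Real.exp v ≤ 2 ^ J * X0 := by
      have h1 : Real.exp τ ≤ 2 ^ J := by
        have h2 : (2:ℝ) ^ J = Real.exp (J * Real.log 2) := by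
          rw [Real.exp_nat_mul, Real.exp_log (by norm_num)]
        rw [h2]
        apply Real.exp_le_exp.mpr
        rwa [div_le_iff₀ (by linarith)] at hJ1
      calc Real.exp v = Real.exp τ * X0 := by rw [hX0, ← Real.exp_add]; congr 1; ring
        _ ≤ _ := by gcongr
    have hdy := window_dyadic F hF0 X0 (Real.exp v) hX00 J hE BD (by
      intro j hj
      set X := 2 ^ j * X0 with hX
      have h2j : (1:ℝ) ≤ 2 ^ j := one_le_pow₀ (by norm_num)
      have hXX0 : X0 ≤ X := by rw [hX]; nlinarith only [h2j, hX00]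
      have hXpos : 0 < X := by linarith
      have hXv : X ≤ Real.exp v := by
        have h1 : (2:ℝ) ^ j ≤ Real.exp τ := by
          have h2 : (2:ℝ) ^ j = Real.exp (j * Real.log 2) := by
            rw [Real.exp_nat_mul, Real.exp_log (by norm_num)]
          rw [h2]
          apply Real.exp_le_exp.mpr
          have h3 : (j:ℝ) + 1 ≤ J := by exact_mod_cast hj
          have h4 : (j:ℝ) ≤ τ / Real.log 2 := by linarith
          rwa [le_div_iff₀ (by linarith)] at h4
        calc X = 2 ^ j * X0 := hX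
          _ ≤ Real.exp τ * X0 := by gcongr
          _ = Real.exp v := by rw [hX0, ← Real.exp_add]; congr 1; ring
      have hX0L : Real.exp (L + t / 3) ≤ X0 := by
        rw [hX0]; apply Real.exp_le_exp.mpr; linarith
      have hlX : (l:ℝ) ≤ X := by
        have h1 : (l:ℝ) ≤ z := by exact_mod_cast hlz
        have h2 : Real.exp L ≤ Real.exp (L + t / 3) := Real.exp_le_exp.mpr (by linarith)
        linarith
      have hyX : (y:ℝ) ≤ X := by
        have h2 : Real.exp (u / 300) ≤ Real.exp (L + t / 3) := Real.exp_le_exp.mpr (by linarith)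
        linarith
      have hblk := hblock Q (fun p hp => ⟨(hQ p hp).1, (hQ p hp).2.1⟩) c hc l hl b y (by omega) X hlX hyX
      -- pointwise weights
      have hpt : ∑ n ∈ Ioc ⌊X⌋₊ ⌊2 * X⌋₊, F n ≤ 2 * L / X * ∑ n ∈ Ioc ⌊X⌋₊ ⌊2 * X⌋₊, WB Q c l b n := by
        rw [mul_sum]
        apply sum_le_sum
        intro n hn
        rw [mem_Ioc] at hn
        have hn1 : X < n := (Nat.floor_lt hXpos.le).mp hn.1
        have hn2 : (n:ℝ) ≤ 2 * X := (Nat.le_floor_iff (by positivity)).mp hn.2
        have hn0 : (0:ℝ) < n := by linarith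
        rw [hF]
        simp only
        rw [hw_split]
        apply mul_le_mul_of_nonneg_right _ (WB_nonneg _ _ _ _ _)
        have h1 : Real.log n ≤ 2 * L := by
          have h2 := Real.log_le_log hn0 hn2
          rw [Real.log_mul (by norm_num) hXpos.ne'] at h2
          have h3 := Real.log_le_log hXpos hXv
          rw [Real.log_exp] at h3
          linarith
        calc Real.log n / n ≤ 2 * L / n := by gcongr
          _ ≤ 2 * L / X := by gcongr
      refine hpt.trans ?_
      rw [hBD]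
      have hD2 : (((K ^ (2 * K + 1) * y ^ 20 : ℕ) : ℝ)) ^ 2 ≤ X / l * (V / u) := by
        have h1 : (((K ^ (2 * K + 1) * y ^ 20 : ℕ) : ℝ)) ^ 2 = K2 * (y:ℝ) ^ 40 := by
          rw [hK2]; push_cast; ring
        have h2 : (y:ℝ) ^ 40 ≤ Real.exp (2 / 15 * u) := by
          calc (y:ℝ) ^ 40 ≤ (Real.exp (u / 300)) ^ 40 := by gcongr
            _ = Real.exp (2 / 15 * u) := by
                rw [← Real.exp_nat_mul]; congr 1; push_cast; ring
        have h3 : Real.exp (1 / 3 * u) ≤ X / l := by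
          rw [le_div_iff₀ hl0]
          calc Real.exp (1 / 3 * u) * l = Real.exp (1 / 3 * u + Real.log l) := by
                rw [Real.exp_add, Real.exp_log hl0]
            _ ≤ Real.exp (L + t / 3) := by
                apply Real.exp_le_exp.mpr
                rw [hu]; linarith
            _ ≤ X := hX0L.trans hXX0
        have h4 : K2 * (2 * L ^ 2) / cM ≤ Real.exp (1 / 5 * u) := by
          refine g3.trans (Real.exp_le_exp.mpr ?_)
          linarith
        have h5 : K2 * Real.exp (2 / 15 * u) ≤ Real.exp (1 / 3 * u) * (V / u) := by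
          have h6 : K2 * (2 * L ^ 2) / cM * (cM / (2 * L ^ 2)) = K2 := by field_simp
          have h7 : cM / (2 * L ^ 2) ≤ V / u := by
            have h8 : cM / (2 * L ^ 2) = (cM / L) / (2 * L) := by field_simp
            rw [h8]
            gcongr
          have h9 : K2 ≤ Real.exp (1 / 5 * u) * (V / u) := by
            calc K2 = K2 * (2 * L ^ 2) / cM * (cM / (2 * L ^ 2)) := h6.symm
              _ ≤ Real.exp (1 / 5 * u) * (V / u) := by gcongr
          calc K2 * Real.exp (2 / 15 * u) ≤ (Real.exp (1 / 5 * u) * (V / u)) * Real.exp (2 / 15 * u) := by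
                gcongr
            _ = (Real.exp (1 / 5 * u) * Real.exp (2 / 15 * u)) * (V / u) := by ring
            _ = Real.exp (1 / 3 * u) * (V / u) := by
                rw [← Real.exp_add]; congr 2; ring
        rw [h1]
        calc K2 * (y:ℝ) ^ 40 ≤ K2 * Real.exp (2 / 15 * u) := by gcongr
          _ ≤ Real.exp (1 / 3 * u) * (V / u) := h5
          _ ≤ _ := by gcongr
      exact block_final K C Cp cM hC hCp l hl.pos L u X (Real.log w) V _ _ M hLpos hu0 hXpos hV0.le hM
        hP2 hD2 _ hblk)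
    calc _ ≤ _ := hdy
      _ ≤ 3 * τ * BD := by gcongr
  -- averaging
  have havg := psi_avg F Y τ (L + t / 3) (L + 2 * t / 3) 0 (3 * τ * BD) hτ0 (by
    intro v hv1 hv2
    refine ⟨?_, hwin v hv1 hv2⟩
    exact sum_nonneg fun n _ => mul_nonneg (hF0 n) (psi_nonneg 0 hτ0 _)) (k + 1) (L + 2 * t / 3)
    (by push_cast; linarith) le_rfl
  have hfin := havg.2
  calc _ = ∑ n ∈ Icc 1 Y, F n * psi (k + 1) τ (L + 2 * t / 3 - Real.log n) := by
        apply sum_congr rfl
        intro n _
        rw [hF]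
        simp only
        unfold hw
        ring
    _ ≤ _ := hfin
    _ = _ := by rw [hBD]; ring

end Pool.Agent.H316R2
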