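import Mathlib

set_option autoImplicit false

open Finset

namespace Pool.Agent.H316R2

theorem residue_exists (s : ℕ) (hs : s = 1 ∨ s = 2) (p : ℕ) (hp : p.Prime) (hp3 : 3 ≤ p) (a : ℤ)
    (ha : ¬ (p:ℤ) ∣ a) : ∃ c : ℕ, c.Coprime p ∧
      ∀ n : ℕ, ((p:ℤ) ∣ ((s * n : ℕ) : ℤ) - a ↔ n ≡ c [MOD p]) := by
  have : Fact p.Prime := ⟨hp⟩
  have hs0 : (s : ZMod p) ≠ 0 := by
    intro h
    rw [ZMod.natCast_eq_zero_iff] at h
    have h1 := Nat.le_of_dvd (by omega) h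
    omega
  have ha0 : (a : ZMod p) ≠ 0 := by
    intro h
    exact ha ((ZMod.intCast_zmod_eq_zero_iff_dvd a p).mp h)
  refine ⟨((a : ZMod p) / s).val, ?_, ?_⟩
  · rw [Nat.coprime_comm, Nat.Prime.coprime_iff_not_dvd hp]
    intro h
    have h1 : ((((a : ZMod p) / s).val : ℕ) : ZMod p) = 0 := (ZMod.natCast_eq_zero_iff _ _).mpr h
    rw [ZMod.natCast_zmod_val] at h1
    rcases div_eq_zero_iff.mp h1 with h2 | h2
    · exact ha0 h2
    · exact hs0 h2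
  · intro n
    rw [← ZMod.natCast_eq_natCast_iff, ZMod.natCast_zmod_val, ← ZMod.intCast_zmod_eq_zero_iff_dvd]
    push_cast
    rw [sub_eq_zero, eq_div_iff hs0, mul_comm]

end Pool.Agent.H316R2
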