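import Mathlib
import Pool.Agent.H316R2.Pb3
import Pool.Agent.H316R2.Rx

set_option autoImplicit false

open Finset

namespace Pool.Agent.H316R2

theorem barrier : ∃ c : ℝ, 0 < c ∧ ∀ ε : ℝ, 0 < ε → ∃ z₀ : ℕ, ∀ z : ℕ, z₀ ≤ z →
    ∀ w : ℕ, 1 ≤ w → w ^ 200 ≤ z → ∀ t : ℝ, (Real.log z) ^ ε ≤ t → t ≤ Real.log z →
    ∀ a : ℕ → ℤ, (∀ n : ℕ, 1 ≤ n → (n:ℝ) ≤ z * Real.exp t →
      ∃ p : ℕ, p.Prime ∧ p ≤ z ∧ (p:ℤ) ∣ (n:ℤ) - a p) →
    c ≤ ∑ p ∈ (Ioc w z).filter (fun p : ℕ => p.Prime ∧ ¬ (p:ℤ) ∣ a p),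
      1 / (p:ℝ) * (Real.log z / (Real.log z + t - Real.log p)) *
        max 1 (Real.log w / (Real.log z + t - Real.log p)) := by
  classical
  obtain ⟨C, hC, hB⟩ := partB
  refine ⟨1 / (16 * C), by positivity, ?_⟩
  intro ε hε
  obtain ⟨k, hA⟩ := partA ε hε
  set P := ⌈32 * C⌉₊ with hP
  obtain ⟨z1, hA⟩ := hA P
  obtain ⟨z2, hB⟩ := hB ε hε
  -- t is large
  have f1 : ∀ᶠ L : ℝ in Filter.atTop, 3 ≤ L ^ ε ∧ 3 ≤ L :=
    ((tendsto_rpow_atTop hε).eventually_ge_atTop _).and (Filter.eventually_ge_atTop _)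
  obtain ⟨L0, hL0⟩ := Filter.eventually_atTop.mp f1
  refine ⟨max (max z1 z2) (⌈Real.exp L0⌉₊), ?_⟩
  intro z hz w hw1 hwz t ht1 ht2 a hcov
  have hz1 : z1 ≤ z := (le_max_left _ _).trans ((le_max_left _ _).trans hz)
  have hz2 : z2 ≤ z := (le_max_right _ _).trans ((le_max_left _ _).trans hz)
  have hz3 : ⌈Real.exp L0⌉₊ ≤ z := (le_max_right _ _).trans hz
  set L := Real.log z with hL
  have hzE : Real.exp L0 ≤ z := (Nat.le_ceil _).trans (by exact_mod_cast hz3)
  have hzpos : (0:ℝ) < z := by linarith [Real.exp_pos L0]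
  have hLL0 : L0 ≤ L := by rw [hL, Real.le_log_iff_exp_le hzpos]; exact hzE
  have hzexp : Real.exp L = z := Real.exp_log hzpos
  obtain ⟨g1, g1'⟩ := hL0 L hLL0
  have ht3 : 3 ≤ t := g1.trans ht1
  have hLpos : 0 < L := by linarith
  obtain ⟨p1, hp1, hPp1, hA⟩ := hA z hz1 t ht1 ht2
  have hlw : 200 * Real.log w ≤ L := by
    have h1 : ((w ^ 200 : ℕ) : ℝ) ≤ z := by exact_mod_cast hwz
    have h2 := Real.log_le_log (by have : 0 < w ^ 200 := by positivity
                                   exact_mod_cast this) h1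
    push_cast at h2
    rw [Real.log_pow] at h2
    exact_mod_cast h2
  have hlw0 := Real.log_natCast_nonneg w
  -- the multiplier
  obtain ⟨s, hs, hs2⟩ : ∃ s : ℕ, (s = 1 ∨ s = 2) ∧ ∀ n : ℕ, ¬ 2 ∣ n → ¬ (2:ℤ) ∣ ((s * n : ℕ) : ℤ) - a 2 := by
    by_cases h2 : (2:ℤ) ∣ a 2
    · refine ⟨1, Or.inl rfl, ?_⟩
      intro n hn h
      apply hn
      have h3 : (2:ℤ) ∣ ((1 * n : ℕ) : ℤ) := by
        have := dvd_add h h2
        rwa [sub_add_cancel] at this
      rw [one_mul] at h3
      exact_mod_cast h3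
    · refine ⟨2, Or.inr rfl, ?_⟩
      intro n _ h
      apply h2
      have h3 : (2:ℤ) ∣ ((2 * n : ℕ) : ℤ) := by push_cast; exact Dvd.intro _ rfl
      have := dvd_sub h3 h
      rwa [sub_sub_cancel] at this
  -- residues
  have hres : ∀ p : ℕ, ∃ c : ℕ, p.Prime → 3 ≤ p → ¬ (p:ℤ) ∣ a p → c.Coprime p ∧
      ∀ n : ℕ, ((p:ℤ) ∣ ((s * n : ℕ) : ℤ) - a p ↔ n ≡ c [MOD p]) := by
    intro p
    by_cases h : p.Prime ∧ 3 ≤ p ∧ ¬ (p:ℤ) ∣ a p
    · obtain ⟨c, hc⟩ := residue_exists s hs p h.1 h.2.1 (a p) h.2.2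
      exact ⟨c, fun _ _ _ => hc⟩
    · exact ⟨0, fun h1 h2 h3 => absurd ⟨h1, h2, h3⟩ h⟩
  choose c hc using hres
  set Q := (Icc 3 w).filter (fun p : ℕ => p.Prime ∧ ¬ (p:ℤ) ∣ a p ∧ p ≠ p1) with hQdef
  have hQ : ∀ p ∈ Q, p.Prime ∧ 3 ≤ p ∧ p ≤ w ∧ p ≠ p1 ∧ ¬ (p:ℤ) ∣ a p := by
    intro p hp
    rw [hQdef, mem_filter, mem_Icc] at hp
    exact ⟨hp.2.1, hp.1.1, hp.1.2, hp.2.2.2, hp.2.2.1⟩
  have hcQ : ∀ p ∈ Q, (c p).Coprime p := fun p hp => by
    obtain ⟨h1, h2, _, _, h5⟩ := hQ p hp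
    exact (hc p h1 h2 h5).1
  obtain ⟨hτ1, hA⟩ := hA w hw1 hwz Q (fun p hp => by
    obtain ⟨h1, h2, h3, h4, _⟩ := hQ p hp
    exact ⟨h1, h2, h3, h4⟩) c hcQ
  set τ := t / (3 * ((k:ℝ) + 2)) with hτ
  have hτ0 : 0 < τ := by linarith
  have hk2τ : (k + 2) * τ = t / 3 := by
    rw [hτ]; field_simp
  set u0 := L + 2 * t / 3 with hu0
  set Y := ⌈Real.exp u0⌉₊ with hY
  set V := ∏ p ∈ Q, (1 - 1 / ((p:ℝ) - 1)) with hV
  have hV0 : 0 < V := by
    apply prod_pos
    intro p hp
    have h1 : (3:ℝ) ≤ p := by exact_mod_cast (hQ p hp).2.1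
    have : 1 / ((p:ℝ) - 1) < 1 := by rw [div_lt_one (by linarith)]; linarith
    linarith
  set EE' := (Ioc w z).filter (fun p : ℕ => p.Prime ∧ ¬ (p:ℤ) ∣ a p) with hEE
  set G : ℕ → ℝ := fun l => ∑ n ∈ Icc 1 Y, hw k τ u0 n *
        ((if n ≡ c l [MOD l] then 1 else 0) *
          ∏ p ∈ Q, (1 - if n ≡ c p [MOD p] then (1:ℝ) else 0)) with hG
  have hprod0 : ∀ n, 0 ≤ ∏ p ∈ Q, (1 - if n ≡ c p [MOD p] then (1:ℝ) else 0) := by
    intro n
    apply prod_nonneg
    intro p _
    split_ifs <;> norm_num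
  have hterm0 : ∀ l n, 0 ≤ hw k τ u0 n * ((if n ≡ c l [MOD l] then 1 else 0) *
          ∏ p ∈ Q, (1 - if n ≡ c p [MOD p] then (1:ℝ) else 0)) := by
    intro l n
    apply mul_nonneg (hw_nonneg k hτ0 u0 n)
    apply mul_nonneg _ (hprod0 n)
    split_ifs <;> norm_num
  have hG0 : ∀ l, 0 ≤ G l := fun l => sum_nonneg fun n _ => hterm0 l n
  -- union bound
  have hunion : ∑ n ∈ Icc 1 Y, hw k τ u0 n *
      ∏ p ∈ Q, (1 - if n ≡ c p [MOD p] then (1:ℝ) else 0) ≤
      ∑ l ∈ EE', G l + (if p1 ≤ w then G p1 else 0) := by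
    have hpt : ∀ n ∈ Icc 1 Y, hw k τ u0 n *
      ∏ p ∈ Q, (1 - if n ≡ c p [MOD p] then (1:ℝ) else 0) ≤
      ∑ l ∈ EE', hw k τ u0 n * ((if n ≡ c l [MOD l] then 1 else 0) *
          ∏ p ∈ Q, (1 - if n ≡ c p [MOD p] then (1:ℝ) else 0)) +
      (if p1 ≤ w then hw k τ u0 n * ((if n ≡ c p1 [MOD p1] then 1 else 0) *
          ∏ p ∈ Q, (1 - if n ≡ c p [MOD p] then (1:ℝ) else 0)) else 0) := by
      intro n _
      have hs1 : 0 ≤ ∑ l ∈ EE', hw k τ u0 n * ((if n ≡ c l [MOD l] then 1 else 0) *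
          ∏ p ∈ Q, (1 - if n ≡ c p [MOD p] then (1:ℝ) else 0)) := sum_nonneg fun l _ => hterm0 l n
      have hs2' : 0 ≤ (if p1 ≤ w then hw k τ u0 n * ((if n ≡ c p1 [MOD p1] then 1 else 0) *
          ∏ p ∈ Q, (1 - if n ≡ c p [MOD p] then (1:ℝ) else 0)) else 0) := by
        by_cases hpw : p1 ≤ w
        · rw [if_pos hpw]; exact hterm0 p1 n
        · rw [if_neg hpw]
      by_cases h0 : hw k τ u0 n = 0
      · rw [h0, zero_mul]
        rw [h0] at hs1 hs2'
        linarith
      · -- n is a prime of the right size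
        have hnp : n.Prime := by
          by_contra h
          apply h0
          unfold hw lw
          rw [if_neg h, zero_mul]
        have hn0 : (0:ℝ) < n := by exact_mod_cast hnp.pos
        have hlog1 : Real.log n ≤ u0 := by
          by_contra h
          apply h0
          unfold hw
          rw [psi_left _ hτ0 (by linarith), mul_zero]
        have hlog2 : L + t / 3 < Real.log n := by
          by_contra h
          apply h0
          unfold hw
          rw [psi_right _ hτ0 (by push_cast; linarith), mul_zero]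
        have hzn : (z:ℝ) < n := by
          rw [← hzexp, ← Real.exp_log hn0]
          apply Real.exp_lt_exp.mpr
          linarith
        have hznn : z < n := by exact_mod_cast hzn
        have hsn : ((s * n : ℕ) : ℝ) ≤ z * Real.exp t := by
          have h1 : (n:ℝ) ≤ Real.exp u0 := by
            rw [← Real.exp_log hn0]
            exact Real.exp_le_exp.mpr hlog1
          have h2 : ((s * n : ℕ) : ℝ) ≤ 2 * n := by
            push_cast
            have : (s:ℝ) ≤ 2 := by rcases hs with h | h <;> rw [h] <;> norm_num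
            gcongr
          have h3 : 2 * Real.exp u0 ≤ z * Real.exp t := by
            rw [← hzexp, ← Real.exp_add, hu0]
            have h4 : (2:ℝ) ≤ Real.exp 1 := by have := Real.exp_one_gt_d9; linarith
            calc 2 * Real.exp (L + 2 * t / 3) ≤ Real.exp 1 * Real.exp (L + 2 * t / 3) := by gcongr
              _ = Real.exp (1 + (L + 2 * t / 3)) := (Real.exp_add _ _).symm
              _ ≤ _ := Real.exp_le_exp.mpr (by linarith)
          linarith
        have hsn1 : 1 ≤ s * n := by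
          have : 1 ≤ s := by rcases hs with h | h <;> omega
          exact Nat.mul_pos this hnp.pos
        obtain ⟨p, hp, hpz, hdvd⟩ := hcov (s * n) hsn1 hsn
        -- p is odd
        have hp2 : p ≠ 2 := by
          intro h
          subst h
          refine hs2 n ?_ hdvd
          intro h2n
          have h3 := (Nat.prime_dvd_prime_iff_eq Nat.prime_two hnp).mp h2n
          have : (3:ℝ) ≤ z := by
            rw [← hzexp]
            have := Real.add_one_le_exp L
            linarith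
          have : 3 ≤ z := by exact_mod_cast this
          omega
        have hp3 : 3 ≤ p := by
          have := hp.two_le
          omega
        have hpa : ¬ (p:ℤ) ∣ a p := by
          intro h
          have h1 : (p:ℤ) ∣ ((s * n : ℕ) : ℤ) := by
            have := dvd_add hdvd h
            rwa [sub_add_cancel] at this
          have h2 : p ∣ s * n := by exact_mod_cast h1
          rcases (Nat.Prime.dvd_mul hp).mp h2 with h3 | h3
          · have h4 : 0 < s := by rcases hs with h | h <;> omega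
            have := Nat.le_of_dvd h4 h3
            rcases hs with h | h <;> omega
          · have := (Nat.prime_dvd_prime_iff_eq hp hnp).mp h3
            omega
        have hmod : n ≡ c p [MOD p] := ((hc p hp hp3 hpa).2 n).mp hdvd
        have hterm : hw k τ u0 n * ((if n ≡ c p [MOD p] then 1 else 0) *
          ∏ q ∈ Q, (1 - if n ≡ c q [MOD q] then (1:ℝ) else 0)) = hw k τ u0 n *
          ∏ q ∈ Q, (1 - if n ≡ c q [MOD q] then (1:ℝ) else 0) := by
          rw [if_pos hmod, one_mul]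
        by_cases hpw : p ≤ w
        · by_cases hpp1 : p = p1
          · rw [hpp1] at hterm hpw
            rw [if_pos hpw, hterm]
            linarith
          · have hpQ : p ∈ Q := by
              rw [hQdef, mem_filter, mem_Icc]
              exact ⟨⟨hp3, hpw⟩, hp, hpa, hpp1⟩
            rw [prod_eq_zero hpQ (by rw [if_pos hmod, sub_self]), mul_zero]
            have e1 : ∀ l, hw k τ u0 n * ((if n ≡ c l [MOD l] then (1:ℝ) else 0) * 0) = 0 := by
              intro l; ring
            simp only [mul_zero, sum_const_zero, ite_self, add_zero]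
            exact le_rfl
        · have hpE : p ∈ EE' := by
            rw [hEE, mem_filter, mem_Ioc]
            exact ⟨⟨by omega, hpz⟩, hp, hpa⟩
          have h1 := single_le_sum (f := fun l => hw k τ u0 n * ((if n ≡ c l [MOD l] then 1 else 0) *
            ∏ q ∈ Q, (1 - if n ≡ c q [MOD q] then (1:ℝ) else 0))) (fun l _ => hterm0 l n) hpE
          rw [hterm] at h1
          linarith
    refine (sum_le_sum hpt).trans ?_
    rw [sum_add_distrib, sum_comm]
    apply add_le_add le_rfl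
    split_ifs
    · exact le_rfl
    · rw [sum_const_zero]
  -- bounds for the G
  have hYle : Real.exp (L + 2 * t / 3) ≤ Y := Nat.le_ceil _
  have hGb : ∀ l, l.Prime → l ≤ z → l ∉ Q → G l ≤ C * τ * (L / (l * (L + t - Real.log l)) *
      max 1 (Real.log w / (L + t - Real.log l)) * V) := by
    intro l hl hlz hlQ
    exact hB z hz2 t ht1 ht2 w hw1 hwz Q (fun p hp => by
      obtain ⟨h1, h2, h3, _, _⟩ := hQ p hp
      exact ⟨h1, h2, h3⟩) c hcQ l hl hlz hlQ (c l) k Y hτ1 hYle
  have hGp1 : (if p1 ≤ w then G p1 else 0) ≤ 1 / 16 * (τ * V) := by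
    split_ifs with hpw
    · have hwz' : w ≤ z := (Nat.le_self_pow (by norm_num) w).trans hwz
      have hp1Q : p1 ∉ Q := fun h => (hQ p1 h).2.2.2.1 rfl
      refine (hGb p1 hp1 (hpw.trans hwz') hp1Q).trans ?_
      have hp10 : (0:ℝ) < p1 := by exact_mod_cast hp1.pos
      have hlp1 : Real.log p1 ≤ Real.log w := Real.log_le_log hp10 (by exact_mod_cast hpw)
      set u := L + t - Real.log p1 with hu
      have hu1 : L / 2 ≤ u := by rw [hu]; linarith
      have hu0' : 0 < u := by linarith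
      have hmax : max 1 (Real.log w / u) = 1 := by
        apply max_eq_left
        rw [div_le_one hu0']
        linarith
      rw [hmax]
      have h1 : L / (p1 * u) ≤ 2 / p1 := by
        rw [div_le_div_iff₀ (by positivity) hp10]
        nlinarith only [hu1, hp10]
      have h2 : (2:ℝ) / p1 ≤ 1 / (16 * C) := by
        rw [div_le_div_iff₀ hp10 (by positivity)]
        have h3 : 32 * C ≤ P := Nat.le_ceil _
        have h4 : (P:ℝ) ≤ p1 := by exact_mod_cast hPp1.le
        linarith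
      have h5 : L / (p1 * u) ≤ 1 / (16 * C) := h1.trans h2
      calc C * τ * (L / (p1 * u) * 1 * V) ≤ C * τ * (1 / (16 * C) * 1 * V) := by
            gcongr
        _ = _ := by field_simp
    · positivity
  have hGE : ∑ l ∈ EE', G l ≤ C * (τ * V) * ∑ p ∈ EE', 1 / (p:ℝ) * (L / (L + t - Real.log p)) *
        max 1 (Real.log w / (L + t - Real.log p)) := by
    rw [mul_sum]
    apply sum_le_sum
    intro l hl
    rw [hEE, mem_filter, mem_Ioc] at hl
    have hlQ : l ∉ Q := fun h => by have := (hQ l h).2.2.1; omega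
    refine (hGb l hl.2.1 hl.1.2 hlQ).trans (le_of_eq ?_)
    have hl0 : (0:ℝ) < l := by exact_mod_cast hl.2.1.pos
    have hlz : Real.log l ≤ L := by
      rw [hL]; exact Real.log_le_log hl0 (by exact_mod_cast hl.1.2)
    have hu0' : L + t - Real.log l ≠ 0 := by
      have : 0 < L + t - Real.log l := by linarith
      exact this.ne'
    field_simp
  have hfinal : 1 / 8 * τ * V ≤ C * (τ * V) * (∑ p ∈ EE', 1 / (p:ℝ) * (L / (L + t - Real.log p)) *
        max 1 (Real.log w / (L + t - Real.log p))) + 1 / 16 * (τ * V) := by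
    calc _ ≤ _ := hA
      _ ≤ _ := hunion
      _ ≤ _ := add_le_add hGE hGp1
  set Sg := ∑ p ∈ EE', 1 / (p:ℝ) * (L / (L + t - Real.log p)) *
        max 1 (Real.log w / (L + t - Real.log p)) with hSg
  have hτV : 0 < τ * V := by positivity
  have h1 : τ * V * (1 / 16) ≤ τ * V * (C * Sg) := by
    linarith
  have h2 := le_of_mul_le_mul_left h1 hτV
  rw [div_le_iff₀ (by positivity)]
  linarith

end Pool.Agent.H316R2
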