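import Mathlib
import Pool.Agent.H316R2.Bv

set_option autoImplicit false

open Finset

namespace Pool.Agent.H316R2

open DirichletCharacter Classical

/-- Bombieri–Vinogradov in the logarithmic scale for a general weight -/
theorem bv_gen : ∃ C : ℝ, 1 ≤ C ∧ ∀ (z D R0 Y p1 : ℕ) (Φ : ℕ → ℝ) (δ : ℝ), Wt Φ z Y →
    1 ≤ D → D < z → 32 * D ^ 7 ≤ z → 1 ≤ R0 → 0 ≤ δ →
    (∀ (f : ℕ), 2 ≤ f → f ≤ R0 → Squarefree f → ¬ p1 ∣ f → ∀ χ ∈ PC f,
      ‖∑ n ∈ Icc 1 Y, χ (n : ZMod f) * ((ArithmeticFunction.vonMangoldt n / n * Φ n : ℝ) : ℂ)‖ ≤ δ) →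
    ∀ A : Finset ℕ, (∀ d ∈ A, 1 ≤ d ∧ d ≤ D ∧ Squarefree d ∧ ¬ p1 ∣ d) →
    ∀ a : ℕ → ℕ, (∀ d ∈ A, (a d).Coprime d) →
    ∑ d ∈ A, |∑ n ∈ Icc 1 Y, lw n * Φ n * (if n ≡ a d [MOD d] then 1 else 0) -
      (∑ n ∈ Icc 1 Y, lw n * Φ n) / (Nat.totient d : ℝ)| ≤
      (1 + Real.log D) ^ 2 * (R0 * δ +
        73 * (1 + Real.log (Y + 1 : ℕ)) ^ 6 / R0 + D * (C / Real.sqrt z)) := by
  obtain ⟨C2, hC2, heta⟩ := eta_bound
  refine ⟨C2, hC2, ?_⟩
  intro z D R0 Y p1 Φ δ hWt hD hDz hDz7 hR0 hδ hL A hA a ha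
  set C := C2 with hC
  have hC2C : C2 ≤ C := le_rfl
  have hC0 : 1 ≤ C := hC2
  have hz0 : (0:ℝ) < z := by exact_mod_cast (by omega : 0 < z)
  set η := C / Real.sqrt z with hη
  have hsz : 0 < Real.sqrt z := Real.sqrt_pos.mpr hz0
  have hη0 : 0 ≤ η := by positivity
  set S : (f : ℕ) → DirichletCharacter ℂ f → ℝ := fun f χ =>
    ‖∑ n ∈ Icc 1 Y, χ (n : ZMod f) * ((ArithmeticFunction.vonMangoldt n / n * Φ n : ℝ) : ℂ)‖ with hS
  -- primes versus prime powers
  have hW : ∀ f, ∀ χ : DirichletCharacter ℂ f,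
      ‖∑ n ∈ Icc 1 Y, χ (n : ZMod f) * (((lw n * Φ n) : ℝ) : ℂ)‖ ≤ S f χ + η := by
    intro f χ
    have e : ∑ n ∈ Icc 1 Y, χ (n : ZMod f) * (((lw n * Φ n) : ℝ) : ℂ) =
        ∑ n ∈ Icc 1 Y, χ (n : ZMod f) * ((ArithmeticFunction.vonMangoldt n / n * Φ n : ℝ) : ℂ) -
        ∑ n ∈ Icc 1 Y, χ (n : ZMod f) *
          (((if n.Prime then 0 else ArithmeticFunction.vonMangoldt n / n) * Φ n : ℝ) : ℂ) := by
      rw [← sum_sub_distrib]
      apply sum_congr rfl
      intro n _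
      rw [← mul_sub]
      congr 1
      unfold lw
      by_cases hp : n.Prime
      · rw [if_pos hp, if_pos hp, ArithmeticFunction.vonMangoldt_apply_prime hp]
        push_cast; ring
      · rw [if_neg hp, if_neg hp]
        push_cast; ring
    rw [e]
    refine (norm_sub_le _ _).trans ?_
    apply add_le_add le_rfl
    refine (norm_sum_le _ _).trans ?_
    have h1 : ∀ n ∈ Icc 1 Y, ‖χ (n : ZMod f) *
          (((if n.Prime then 0 else ArithmeticFunction.vonMangoldt n / n) * Φ n : ℝ) : ℂ)‖ ≤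
        if n ∈ (Icc z Y).filter (fun n => ¬ n.Prime) then ArithmeticFunction.vonMangoldt n / (n:ℝ) else 0 := by
      intro n hn
      rw [mem_Icc] at hn
      have hΛ : (0:ℝ) ≤ ArithmeticFunction.vonMangoldt n / n :=
        div_nonneg ArithmeticFunction.vonMangoldt_nonneg (Nat.cast_nonneg _)
      rw [norm_mul, Complex.norm_real, Real.norm_eq_abs]
      have hχ1 : ‖χ (n : ZMod f)‖ ≤ 1 := χ.norm_le_one _
      have hb : |(if n.Prime then 0 else ArithmeticFunction.vonMangoldt n / (n:ℝ)) * Φ n| ≤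
          if n ∈ (Icc z Y).filter (fun n => ¬ n.Prime) then ArithmeticFunction.vonMangoldt n / (n:ℝ) else 0 := by
        by_cases hp : n.Prime
        · rw [if_pos hp, zero_mul, abs_zero]
          split_ifs
          · exact hΛ
          · exact le_rfl
        · rw [if_neg hp]
          by_cases hzn : z ≤ n
          · rw [if_pos (mem_filter.mpr ⟨mem_Icc.mpr ⟨hzn, hn.2⟩, hp⟩), abs_mul, abs_of_nonneg hΛ,
              abs_of_nonneg (hWt.nonneg n)]
            have := hWt.le_one n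
            nlinarith
          · rw [hWt.lo n (by omega), mul_zero, abs_zero]
            split_ifs
            · exact hΛ
            · exact le_rfl
      calc _ ≤ 1 * |(if n.Prime then 0 else ArithmeticFunction.vonMangoldt n / (n:ℝ)) * Φ n| :=
            mul_le_mul_of_nonneg_right hχ1 (abs_nonneg _)
        _ ≤ _ := by rw [one_mul]; exact hb
    refine (sum_le_sum h1).trans ?_
    rw [← sum_filter]
    have h2 : (Icc 1 Y).filter (fun n => n ∈ (Icc z Y).filter (fun n => ¬ n.Prime)) ⊆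
        (Icc z Y).filter (fun n => ¬ n.Prime) := fun n hn => (mem_filter.mp hn).2
    refine (sum_le_sum_of_subset_of_nonneg h2 fun n _ _ =>
      div_nonneg ArithmeticFunction.vonMangoldt_nonneg (Nat.cast_nonneg _)).trans ?_
    refine (heta z Y (by omega)).trans ?_
    rw [hη]
  -- each modulus
  have hE : ∀ d ∈ A, |∑ n ∈ Icc 1 Y, (lw n * Φ n) * (if n ≡ a d [MOD d] then 1 else 0) -
      (∑ n ∈ Icc 1 Y, (lw n * Φ n)) / (Nat.totient d : ℝ)| ≤
      (1 / (Nat.totient d : ℝ)) * ∑ f ∈ d.divisors.filter (fun f => f ≠ 1),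
        ∑ ψ ∈ PC f, (S f ψ + η) := by
    intro d hd
    obtain ⟨hd1, hdD, hsq, hnd⟩ := hA d hd
    have : NeZero d := ⟨by omega⟩
    apply E_bound (fun n => lw n * Φ n) Y d _ (a d) (ha d hd) (fun f ψ => S f ψ + η)
    · intro f _ ψ
      exact hW f ψ
    · intro n hn h0
      have hn1 : n.Prime := by
        by_contra h
        apply h0
        show lw n * Φ n = 0
        unfold lw
        rw [if_neg h, zero_mul]
      have hzn : z ≤ n := by
        by_contra h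
        apply h0
        show lw n * Φ n = 0
        rw [hWt.lo n (by omega), mul_zero]
      rw [Nat.Prime.coprime_iff_not_dvd hn1]
      intro hdvd
      have := Nat.le_of_dvd hd1 hdvd
      omega
  refine (sum_le_sum hE).trans ?_
  have hS0 : ∀ f χ, 0 ≤ S f χ := fun f χ => norm_nonneg _
  have hT0 : ∀ f, 0 ≤ ∑ ψ ∈ PC f, (S f ψ + η) := fun f => sum_nonneg fun ψ _ => by
    have := hS0 f ψ
    linarith
  obtain ⟨Fam, hFam⟩ : ∃ Fam : ℕ → Prop, ∀ f, Fam f ↔ (Squarefree f ∧ ¬ p1 ∣ f) :=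
    ⟨fun f => Squarefree f ∧ ¬ p1 ∣ f, fun f => Iff.rfl⟩
  refine (swap_sum D A (fun d hd => ⟨(hA d hd).1, (hA d hd).2.1, (hA d hd).2.2.1⟩)
    Fam (fun d hd f hf => (hFam f).mpr ⟨(hA d hd).2.2.1.squarefree_of_dvd hf,
      fun h => (hA d hd).2.2.2 (h.trans hf)⟩) _ hT0).trans ?_
  apply mul_le_mul_of_nonneg_left _ (by positivity)
  -- the bound for the sum over conductors
  set G : ℕ → ℝ := fun f => ((f : ℝ) / (Nat.totient f : ℝ)) * ∑ χ ∈ PC f, S f χ with hG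
  have hG0 : ∀ f, 0 ≤ G f := fun f => mul_nonneg (by positivity) (sum_nonneg fun χ _ => hS0 f χ)
  set Q := δ with hQ
  have hR0' : (1:ℝ) ≤ R0 := by exact_mod_cast hR0
  have hQ0 : 0 ≤ Q := hδ
  have hterm : ∀ f ∈ (Icc 2 D).filter Fam,
      (∑ ψ ∈ PC f, (S f ψ + η)) / (Nat.totient f : ℝ) ≤
      (if f ≤ R0 then Q else 0) + G f / R0 + η := by
    intro f hf
    rw [mem_filter, mem_Icc, hFam] at hf
    obtain ⟨⟨hf2, hfD⟩, hfs, hfn⟩ := hf
    have : NeZero f := ⟨by omega⟩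
    have hf0 : (0:ℝ) < f := by exact_mod_cast (by omega : 0 < f)
    have htot : (0:ℝ) < Nat.totient f := by exact_mod_cast Nat.totient_pos.mpr (by omega)
    have hcard := PC_card_le f (by omega)
    rw [sum_add_distrib, add_div, sum_const, nsmul_eq_mul]
    have h1 : ((PC f).card : ℝ) * η / (Nat.totient f : ℝ) ≤ η := by
      rw [div_le_iff₀ htot]
      nlinarith
    have h2 : (∑ ψ ∈ PC f, S f ψ) / (Nat.totient f : ℝ) ≤ (if f ≤ R0 then Q else 0) + G f / R0 := by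
      by_cases hfR : f ≤ R0
      · rw [if_pos hfR]
        have h3 : ∀ ψ ∈ PC f, S f ψ ≤ Q := hL f hf2 hfR hfs hfn
        have h4 : (∑ ψ ∈ PC f, S f ψ) ≤ (Nat.totient f : ℝ) * Q := by
          calc _ ≤ ∑ ψ ∈ PC f, Q := sum_le_sum h3
            _ = ((PC f).card : ℝ) * Q := by rw [sum_const, nsmul_eq_mul]
            _ ≤ _ := by gcongr
        have h5 : 0 ≤ G f / R0 := div_nonneg (hG0 f) (by linarith)
        have h6 : (∑ ψ ∈ PC f, S f ψ) / (Nat.totient f : ℝ) ≤ Q := by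
          rw [div_le_iff₀ htot]; linarith
        linarith
      · rw [if_neg hfR, zero_add, hG]
        simp only
        have h5 : (R0:ℝ) ≤ f := by exact_mod_cast (by omega : R0 ≤ f)
        have h6 : 0 ≤ ∑ ψ ∈ PC f, S f ψ := sum_nonneg fun χ _ => hS0 f χ
        rw [div_le_div_iff₀ htot (by linarith)]
        have h7 : (f : ℝ) / (Nat.totient f : ℝ) * (∑ χ ∈ PC f, S f χ) * (Nat.totient f : ℝ) =
            (∑ χ ∈ PC f, S f χ) * f := by field_simp
        rw [h7]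
        gcongr
    linarith
  refine (sum_le_sum hterm).trans ?_
  rw [sum_add_distrib, sum_add_distrib]
  set F := (Icc 2 D).filter Fam with hF
  have s1 : ∑ f ∈ F, (if f ≤ R0 then Q else 0) ≤ (R0:ℝ) * δ := by
    rw [← sum_filter, sum_const, nsmul_eq_mul]
    have h1 : (F.filter (fun f => f ≤ R0)).card ≤ R0 := by
      have : F.filter (fun f => f ≤ R0) ⊆ Icc 1 R0 := by
        intro f hf
        rw [mem_filter, hF, mem_filter, mem_Icc] at hf
        rw [mem_Icc]; omega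
      have h2 := card_le_card this
      rw [Nat.card_Icc] at h2; omega
    have h2 : ((F.filter (fun f => f ≤ R0)).card : ℝ) ≤ R0 := by exact_mod_cast h1
    gcongr
  have s2 : ∑ f ∈ F, G f / R0 ≤ 73 * (1 + Real.log (Y + 1 : ℕ)) ^ 6 / R0 := by
    rw [← sum_div]
    apply div_le_div_of_nonneg_right _ (by linarith)
    have h1 : ∑ f ∈ F, G f ≤ ∑ f ∈ Icc 2 D, G f :=
      sum_le_sum_of_subset_of_nonneg (filter_subset _ _) fun f _ _ => hG0 f
    refine h1.trans ?_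
    have hD1 : 1 ≤ D := hD
    have h32 : 2 * (D ^ 2 * D ^ 2) ≤ z := by
      have : D ^ 4 ≤ D ^ 7 := Nat.pow_le_pow_right hD1 (by norm_num)
      calc 2 * (D ^ 2 * D ^ 2) = 2 * D ^ 4 := by ring
        _ ≤ 32 * D ^ 7 := by omega
        _ ≤ z := hDz7
    have h2 := SW_large z Y (D ^ 2) D Φ hWt (Nat.one_le_pow _ _ hD1) le_rfl h32
    refine h2.trans ?_
    set Lg := 1 + Real.log (Y + 1 : ℕ) with hLg
    have hLg1 : 1 ≤ Lg := by
      have := Real.log_natCast_nonneg (Y + 1)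
      linarith
    have h3 : 32 * (D:ℝ) ^ 3 * Lg ^ 2 * ((D ^ 2 : ℕ) : ℝ) ^ 2 / z ≤ Lg ^ 2 := by
      rw [div_le_iff₀ hz0]
      push_cast
      have h4 : (32:ℝ) * D ^ 7 ≤ z := by exact_mod_cast hDz7
      calc 32 * (D:ℝ) ^ 3 * Lg ^ 2 * ((D:ℝ) ^ 2) ^ 2 = Lg ^ 2 * (32 * (D:ℝ) ^ 7) := by ring
        _ ≤ Lg ^ 2 * z := by gcongr
    have h4 : Lg ^ 2 ≤ Lg ^ 6 := pow_le_pow_right₀ hLg1 (by norm_num)
    linarith
  have s3 : ∑ _f ∈ F, η ≤ D * η := by
    rw [sum_const, nsmul_eq_mul]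
    have h1 : F.card ≤ D := by
      have h2 := card_filter_le (Icc 2 D) Fam
      rw [Nat.card_Icc] at h2
      rw [hF]; omega
    have h2 : (F.card : ℝ) ≤ D := by exact_mod_cast h1
    gcongr
  linarith

end Pool.Agent.H316R2
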