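import Mathlib
import Pool.Agent.H316R2.Crt
import Pool.Agent.H316R2.G1

set_option autoImplicit false

open Finset

namespace Pool.Agent.H316R2

open DirichletCharacter

/-- the sieve lower bound for a general weight -/
theorem sieveA_gen : ∃ K : ℕ, 2 ≤ K ∧ ∃ C : ℝ, 1 ≤ C ∧
    ∀ (z D R0 Y p1 w : ℕ) (Φ : ℕ → ℝ) (δ : ℝ), Wt Φ z Y →
    D = K ^ (2 * K + 1) * w ^ 20 → 1 ≤ w → D < z → 32 * D ^ 7 ≤ z → 1 ≤ R0 → 0 ≤ δ → p1.Prime →
    (∀ (f : ℕ), 2 ≤ f → f ≤ R0 → Squarefree f → ¬ p1 ∣ f → ∀ χ ∈ PC f,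
      ‖∑ n ∈ Icc 1 Y, χ (n : ZMod f) * ((ArithmeticFunction.vonMangoldt n / n * Φ n : ℝ) : ℂ)‖ ≤ δ) →
    ∀ Q : Finset ℕ, (∀ p ∈ Q, p.Prime ∧ 3 ≤ p ∧ p ≤ w ∧ p ≠ p1) →
    ∀ c : ℕ → ℕ, (∀ p ∈ Q, (c p).Coprime p) →
    1 / 4 * ((∑ n ∈ Icc 1 Y, (lw n * Φ n)) * ∏ p ∈ Q, (1 - 1 / ((p:ℝ) - 1))) -
      (4 + 2 * Real.log w) * ((1 + Real.log D) ^ 2 *
        (R0 * δ +
        73 * (1 + Real.log (Y + 1 : ℕ)) ^ 6 / R0 + D * (C / Real.sqrt z))) ≤
      ∑ n ∈ Icc 1 Y, (lw n * Φ n) * ∏ p ∈ Q, (1 - if n ≡ c p [MOD p] then (1:ℝ) else 0) := by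
  classical
  obtain ⟨K, hK, hsieve⟩ := sieve1_low
  refine ⟨K, hK, ?_⟩
  obtain ⟨C, hC, hbv⟩ := bv_gen
  refine ⟨C, hC, ?_⟩
  intro z D R0 Y p1 w Φ δ hWt hD hw1 hDz hDz7 hR0 hδ hp1 hL Q hQ c hc
  have hh0 : ∀ n, 0 ≤ lw n * Φ n := fun n => mul_nonneg (lw_nonneg n) (hWt.nonneg n)
  have hD1 : 1 ≤ D := by
    rw [hD]
    exact Nat.one_le_iff_ne_zero.mpr (by positivity)
  have hQp : ∀ S ⊆ Q, ∀ p ∈ S, p.Prime := fun S hS p hp => (hQ p (hS hp)).1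
  set H := ∑ n ∈ Icc 1 Y, (lw n * Φ n) with hH
  have hH0 : 0 ≤ H := sum_nonneg fun n _ => hh0 n
  set u : ℕ → ℕ → ℝ := fun n p => if n ≡ c p [MOD p] then (1:ℝ) else 0 with hu'
  set R : Finset ℕ → ℝ := fun S => ∑ n ∈ Icc 1 Y, (lw n * Φ n) * ∏ p ∈ S, u n p -
    H * ∏ p ∈ S, (1 / ((p:ℝ) - 1)) with hR
  have h1 := hsieve Q w hw1 (fun p hp => ⟨(hQ p hp).1, (hQ p hp).2.1, (hQ p hp).2.2.1⟩) (Icc 1 Y)
    (fun n => lw n * Φ n) hh0 u
    (by intro n p; rw [hu']; simp only; split_ifs <;> norm_num)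
    (by intro n p; rw [hu']; simp only; split_ifs <;> norm_num) H hH0 R
    (by intro S _; rw [hR]; simp only; ring)
  -- the error term
  choose! a ha using fun (d : ℕ) => crt_exists c d.primeFactors (fun p hp => Nat.prime_of_mem_primeFactors hp)
  set FF := Q.powerset.filter (fun S => ∏ p ∈ S, p ≤ K ^ (2 * K + 1) * w ^ 20) with hFF
  have hFFm : ∀ S ∈ FF, S ⊆ Q ∧ ∏ p ∈ S, p ≤ D := by
    intro S hS
    rw [hFF, mem_filter, mem_powerset, ← hD] at hS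
    exact hS
  have hpf : ∀ S ∈ FF, (∏ p ∈ S, p).primeFactors = S := fun S hS =>
    Nat.primeFactors_prod (hQp S (hFFm S hS).1)
  have hRS : ∀ S ∈ FF, |R S| =
      |∑ n ∈ Icc 1 Y, (lw n * Φ n) * (if n ≡ a (∏ p ∈ S, p) [MOD (∏ p ∈ S, p)] then 1 else 0) -
      H / (Nat.totient (∏ p ∈ S, p) : ℝ)| := by
    intro S hS
    have hSp := hQp S (hFFm S hS).1
    congr 1
    rw [hR]
    simp only
    congr 1
    · apply sum_congr rfl
      intro n _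
      congr 1
      rw [hu']
      simp only
      rw [ind_prod]
      have := crt_iff S hSp (a (∏ p ∈ S, p)) n c (by
        have := ha (∏ p ∈ S, p)
        rwa [hpf S hS] at this)
      by_cases hn : ∀ p ∈ S, n ≡ c p [MOD p]
      · rw [if_pos hn, if_pos (this.mpr hn)]
      · rw [if_neg hn, if_neg (fun h => hn (this.mp h))]
    · rw [totient_prod S hSp, prod_div_distrib, prod_const_one, mul_one_div]
  have hinj : Set.InjOn (fun S : Finset ℕ => ∏ p ∈ S, p) FF := by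
    intro S hS T hT h
    exact prod_primes_inj (hQp S (hFFm S hS).1) (hQp T (hFFm T hT).1) h
  have h2 := hbv z D R0 Y p1 Φ δ hWt hD1 hDz hDz7 hR0 hδ hL
    (FF.image (fun S => ∏ p ∈ S, p)) (by
      intro d hd
      rw [mem_image] at hd
      obtain ⟨S, hS, rfl⟩ := hd
      have hSQ := (hFFm S hS).1
      have hSp := hQp S hSQ
      refine ⟨Nat.one_le_iff_ne_zero.mpr (prod_ne_zero_iff.mpr fun p hp => (hSp p hp).ne_zero),
        (hFFm S hS).2, ?_, ?_⟩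
      · refine Finset.squarefree_prod_of_pairwise_isCoprime (fun p hp r hr hpr ↦ ?_) fun p hp ↦ ?_
        · simp only [← Nat.coprime_iff_isRelPrime]
          exact (Nat.coprime_primes (hSp p hp) (hSp r hr)).mpr hpr
        · exact (hSp p hp).squarefree
      · intro hdvd
        rw [Prime.dvd_finsetProd_iff hp1.prime] at hdvd
        obtain ⟨r, hr, hpr⟩ := hdvd
        exact (hQ r (hSQ hr)).2.2.2 ((Nat.prime_dvd_prime_iff_eq hp1 (hSp r hr)).mp hpr).symm)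
    a (by
      intro d hd
      rw [mem_image] at hd
      obtain ⟨S, hS, rfl⟩ := hd
      have hSQ := (hFFm S hS).1
      have hSp := hQp S hSQ
      apply Nat.Coprime.prod_right
      intro p hp
      have h3 := ha (∏ p ∈ S, p) p (by rw [hpf S hS]; exact hp)
      have h4 := hc p (hSQ hp)
      rw [Nat.Coprime, h3.gcd_eq]
      exact h4)
  rw [sum_image hinj] at h2
  have h3 : ∑ S ∈ FF, |R S| ≤ (1 + Real.log D) ^ 2 *
        (R0 * δ +
        73 * (1 + Real.log (Y + 1 : ℕ)) ^ 6 / R0 + D * (C / Real.sqrt z)) := by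
    rw [sum_congr rfl hRS]
    exact h2
  have hlw : 0 ≤ 4 + 2 * Real.log w := by
    have := Real.log_natCast_nonneg w
    linarith
  have h4 := mul_le_mul_of_nonneg_left h3 hlw
  linarith

end Pool.Agent.H316R2
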