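import Mathlib
import Pool.Agent.H316R2.G2
import Pool.Agent.H316R2.Ml
import Pool.Agent.H316R2.Lf
import Pool.Agent.H378R2.M1
import Pool.Agent.Helper923.PNT

set_option autoImplicit false

open Finset

namespace Pool.Agent.H316R2

open Pool.Agent.H378R2

theorem Phi_nonneg' (u : ℝ) : 0 ≤ Phi u := le_max_left _ _

theorem Phi_le_half (u : ℝ) : Phi u ≤ 1 / 2 := by
  unfold Phi
  apply max_le (by norm_num)
  have := abs_nonneg (Real.log u - 1 / 2)
  linarith

theorem Phi_low {u : ℝ} (h0 : 0 ≤ u) (h1 : u ≤ 1) : Phi u = 0 := by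
  unfold Phi
  apply max_eq_left
  have h2 : Real.log u ≤ 0 := Real.log_nonpos h0 h1
  have h3 : -(Real.log u - 1 / 2) ≤ |Real.log u - 1 / 2| := neg_le_abs _
  linarith

theorem Phi_high {u : ℝ} (h1 : Real.exp 1 ≤ u) : Phi u = 0 := by
  unfold Phi
  apply max_eq_left
  have h2 : 1 ≤ Real.log u := by
    rw [Real.le_log_iff_exp_le (lt_of_lt_of_le (Real.exp_pos _) h1)]
    exact h1
  have h3 : Real.log u - 1 / 2 ≤ |Real.log u - 1 / 2| := le_abs_self _
  linarith

theorem Phi_lip (a b : ℝ) : |Phi a - Phi b| ≤ |Real.log a - Real.log b| := by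
  unfold Phi
  rw [max_comm 0, max_comm 0]
  refine (abs_max_sub_max_le_abs _ _ _).trans ?_
  have e : 1 / 2 - |Real.log a - 1 / 2| - (1 / 2 - |Real.log b - 1 / 2|) =
      |Real.log b - 1 / 2| - |Real.log a - 1 / 2| := by ring
  rw [e]
  refine (abs_abs_sub_abs_le_abs_sub _ _).trans ?_
  have e2 : Real.log b - 1 / 2 - (Real.log a - 1 / 2) = -(Real.log a - Real.log b) := by ring
  rw [e2, abs_neg]

/-- the tent weight -/
noncomputable def tw (X : ℝ) (n : ℕ) : ℝ := (n / X) * Phi (n / X) / 5

theorem uPhi_lip {a b : ℝ} (ha : 0 < a) (hab : a ≤ b) (ε : ℝ) (hε : 0 ≤ ε) (hb : b ≤ a * (1 + ε)) :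
    |a * Phi a - b * Phi b| ≤ 5 * ε := by
  have hb0 : 0 < b := by linarith
  have hl : |Real.log a - Real.log b| ≤ ε := by
    have h1 : Real.log a ≤ Real.log b := Real.log_le_log ha hab
    rw [abs_of_nonpos (by linarith), neg_sub]
    rw [← Real.log_div hb0.ne' ha.ne']
    have h2 := Real.log_le_sub_one_of_pos (show 0 < b / a by positivity)
    have h3 : b / a ≤ 1 + ε := by rw [div_le_iff₀ ha]; linarith
    linarith
  have hP := (Phi_lip a b).trans hl
  have he := Real.exp_one_lt_d9
  have he0 := Real.exp_one_gt_d9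
  by_cases hbe : b ≤ Real.exp 1
  · have e : a * Phi a - b * Phi b = b * (Phi a - Phi b) - (b - a) * Phi a := by ring
    rw [e]
    refine (abs_sub _ _).trans ?_
    rw [abs_mul, abs_mul, abs_of_pos hb0, abs_of_nonneg (by linarith : 0 ≤ b - a),
      abs_of_nonneg (Phi_nonneg' a)]
    have h1 : b * |Phi a - Phi b| ≤ 3 * ε := by
      calc _ ≤ 3 * |Phi a - Phi b| := by gcongr; linarith
        _ ≤ 3 * ε := by gcongr
    have h2 : (b - a) * Phi a ≤ 2 * ε := by
      have h3 : b - a ≤ a * ε := by linarith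
      have h4 : a ≤ 3 := by linarith
      calc (b - a) * Phi a ≤ (a * ε) * (1 / 2) := by
            have := Phi_le_half a
            have := Phi_nonneg' a
            gcongr
        _ ≤ (3 * ε) * (1 / 2) := by gcongr
        _ ≤ 2 * ε := by linarith
    linarith
  · push Not at hbe
    have hPb : Phi b = 0 := Phi_high hbe.le
    rw [hPb, mul_zero, sub_zero, abs_mul, abs_of_pos ha]
    rw [hPb, sub_zero] at hP
    by_cases hae : a ≤ Real.exp 1
    · calc a * |Phi a| ≤ 3 * ε := by
            apply mul_le_mul (by linarith) hP (abs_nonneg _) (by norm_num)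
        _ ≤ 5 * ε := by linarith
    · push Not at hae
      rw [Phi_high hae.le, abs_zero, mul_zero]
      positivity

theorem Wt_tent (X : ℝ) (hX : 1 ≤ X) (z : ℕ) (hz : (z:ℝ) ≤ X) : Wt (tw X) z ⌊3 * X⌋₊ := by
  have hX0 : 0 < X := by linarith
  have he := Real.exp_one_lt_d9
  refine ⟨?_, ?_, ?_, ?_, ?_⟩
  · intro n
    unfold tw
    have := Phi_nonneg' (n / X)
    positivity
  · intro n
    unfold tw
    by_cases h : (n:ℝ) / X ≤ Real.exp 1
    · have h1 := Phi_le_half (n / X)
      have h2 := Phi_nonneg' (n / X)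
      have h3 : (n:ℝ) / X * Phi (n / X) ≤ 3 * (1 / 2) := by
        apply mul_le_mul (by linarith) h1 h2 (by norm_num)
      linarith
    · push Not at h
      rw [Phi_high h.le]
      norm_num
  · intro n hn
    unfold tw
    have h1 : 3 * X < n := (Nat.floor_lt (by positivity)).mp hn
    have h2 : Real.exp 1 ≤ (n:ℝ) / X := by
      rw [le_div_iff₀ hX0]
      nlinarith
    rw [Phi_high h2]
    simp
  · intro n hn
    unfold tw
    have h1 : (n:ℝ) ≤ z := by exact_mod_cast hn.le
    have h2 : (n:ℝ) / X ≤ 1 := by rw [div_le_one hX0]; linarith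
    rw [Phi_low (by positivity) h2]
    simp
  · intro M j hM hj
    have hM0 : (0:ℝ) < M := by exact_mod_cast hM
    have hj0 : (0:ℝ) < j := by exact_mod_cast hj
    unfold tw
    have h1 := uPhi_lip (a := ((M * j : ℕ) : ℝ) / X) (b := (((M + 1) * j : ℕ) : ℝ) / X)
      (by push_cast; positivity) (by
        apply div_le_div_of_nonneg_right _ hX0.le
        push_cast
        nlinarith) (1 / M) (by positivity) (by
        push_cast
        apply le_of_eq
        field_simp)
    rw [← sub_div, abs_div, abs_of_pos (show (0:ℝ) < 5 by norm_num), div_le_iff₀ (by norm_num)]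
    linarith

/-- mass of the tent window -/
theorem mass_low : ∃ X0 : ℝ, ∀ X : ℝ, X0 ≤ X → 1 / 30 ≤ ∑ n ∈ Icc 1 ⌊3 * X⌋₊, lw n * tw X n := by
  have ht := Helper923.PNT.theta_div_tendsto
  have h1 : ∀ᶠ x : ℝ in Filter.atTop, |Chebyshev.theta x / x - 1| < 1 / 100 := by
    have := (Metric.tendsto_nhds.mp ht) (1 / 100) (by norm_num)
    filter_upwards [this] with x hx
    rwa [Real.dist_eq] at hx
  obtain ⟨X1, hX1⟩ := Filter.eventually_atTop.mp h1
  refine ⟨max X1 1, ?_⟩
  intro X hX
  have hXX1 : X1 ≤ X := (le_max_left _ _).trans hX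
  have hX1' : 1 ≤ X := (le_max_right _ _).trans hX
  have hX0 : 0 < X := by linarith
  -- numerical bounds
  have he1 := Real.exp_one_gt_d9
  have he2 := Real.exp_one_lt_d9
  set q := Real.exp (1 / 4) with hq
  have hq0 : 0 < q := Real.exp_pos _
  have hq4 : q ^ 4 = Real.exp 1 := by
    rw [hq, ← Real.exp_nat_mul]; norm_num
  have hqu : q ≤ 1.285 := by
    by_contra h
    push Not at h
    have : (1.285:ℝ) ^ 4 < q ^ 4 := pow_lt_pow_left₀ h (by norm_num) (by norm_num)
    rw [hq4] at this
    norm_num at this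
    linarith
  have hql : 1 ≤ q := Real.one_le_exp (by norm_num)
  have hq3 : Real.exp (3 / 4) = q ^ 3 := by
    rw [hq, ← Real.exp_nat_mul]; norm_num
  have hq3l : 2.11 ≤ q ^ 3 := by
    have : q ^ 4 = q ^ 3 * q := by ring
    rw [this] at hq4
    nlinarith
  set a := q * X with ha
  set b := q ^ 3 * X with hb
  have haX : X ≤ a := by rw [ha]; nlinarith
  have hab : a ≤ b := by
    rw [ha, hb]
    have : q ≤ q ^ 3 := by nlinarith [sq_nonneg (q - 1)]
    gcongr
  have ha0 : 0 < a := by linarith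
  have hb0 : 0 < b := by linarith
  have hta := abs_lt.mp (hX1 a (by linarith))
  have htb := abs_lt.mp (hX1 b (by linarith))
  have hta2 : Chebyshev.theta a ≤ 1.01 * a := by
    have : Chebyshev.theta a / a ≤ 1.01 := by linarith [hta.2]
    rwa [div_le_iff₀ ha0] at this
  have htb2 : 0.99 * b ≤ Chebyshev.theta b := by
    have : 0.99 ≤ Chebyshev.theta b / b := by linarith [htb.1]
    rwa [le_div_iff₀ hb0] at this
  have hdiff : 2 / 3 * X ≤ Chebyshev.theta b - Chebyshev.theta a := by
    have h2 : 2.11 * X ≤ b := by rw [hb]; gcongr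
    have h3 : a ≤ 1.285 * X := by rw [ha]; gcongr
    nlinarith
  have hbe : b ≤ 3 * X := by
    rw [hb]
    have h3 : q ^ 3 ≤ 3 := by
      have h4 : q ^ 3 ≤ (1.285:ℝ) ^ 3 := by gcongr
      norm_num at h4
      linarith
    gcongr
  -- the difference of theta
  have hfl : ⌊a⌋₊ ≤ ⌊b⌋₊ := Nat.floor_le_floor hab
  have hth : Chebyshev.theta b - Chebyshev.theta a = ∑ p ∈ (Ioc ⌊a⌋₊ ⌊b⌋₊).filter Nat.Prime, Real.log p := by
    unfold Chebyshev.theta
    rw [sum_filter, sum_filter, sum_filter, ← sum_Ioc_consecutive _ (Nat.zero_le _) hfl]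
    ring
  rw [hth] at hdiff
  have hpt : ∑ p ∈ (Ioc ⌊a⌋₊ ⌊b⌋₊).filter Nat.Prime, Real.log p * (1 / (20 * X)) ≤
      ∑ n ∈ Icc 1 ⌊3 * X⌋₊, lw n * tw X n := by
    calc _ ≤ ∑ p ∈ (Ioc ⌊a⌋₊ ⌊b⌋₊).filter Nat.Prime, lw p * tw X p := by
          apply sum_le_sum
          intro p hp
          rw [mem_filter, mem_Ioc] at hp
          have hp0 : (0:ℝ) < p := by exact_mod_cast hp.2.pos
          have h2 : a < p := (Nat.floor_lt ha0.le).mp hp.1.1
          have h3 : (p:ℝ) ≤ b := (Nat.le_floor_iff hb0.le).mp hp.1.2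
          have hlog : 0 ≤ Real.log p := Real.log_natCast_nonneg p
          have hphi : 1 / 4 ≤ Phi (p / X) := by
            unfold Phi
            refine le_trans ?_ (le_max_right _ _)
            have h4 : 1 / 4 ≤ Real.log (p / X) := by
              rw [Real.le_log_iff_exp_le (by positivity), ← hq, le_div_iff₀ hX0]
              exact h2.le
            have h5 : Real.log (p / X) ≤ 3 / 4 := by
              rw [Real.log_le_iff_le_exp (by positivity), hq3, div_le_iff₀ hX0]
              exact h3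
            have h6 : |Real.log (p / X) - 1 / 2| ≤ 1 / 4 := by
              rw [abs_le]; constructor <;> linarith
            linarith
          unfold lw tw
          rw [if_pos hp.2]
          have e : Real.log p / p * (p / X * Phi (p / X) / 5) = Real.log p * (Phi (p / X) / (5 * X)) := by
            field_simp
          rw [e]
          apply mul_le_mul_of_nonneg_left _ hlog
          rw [div_le_div_iff₀ (by positivity) (by positivity)]
          nlinarith
      _ ≤ _ := by
          apply sum_le_sum_of_subset_of_nonneg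
          · intro p hp
            rw [mem_filter, mem_Ioc] at hp
            rw [mem_Icc]
            refine ⟨hp.2.one_lt.le, hp.1.2.trans (Nat.floor_le_floor hbe)⟩
          · intro n _ _
            exact mul_nonneg (lw_nonneg n) ((Wt_tent X hX1' 0 (by simpa using hX0.le)).nonneg n)
  rw [← sum_mul] at hpt
  refine le_trans ?_ hpt
  calc (1:ℝ) / 30 = 2 / 3 * X * (1 / (20 * X)) := by field_simp; norm_num
    _ ≤ _ := by gcongr

theorem S_eq (X : ℝ) (hX : 0 < X) {f : ℕ} (χ : DirichletCharacter ℂ f) :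
    ‖∑ n ∈ Icc 1 ⌊3 * X⌋₊, χ (n : ZMod f) *
      ((ArithmeticFunction.vonMangoldt n / n * tw X n : ℝ) : ℂ)‖ = ‖psiPhi χ X‖ / (5 * X) := by
  have e : ∑ n ∈ Icc 1 ⌊3 * X⌋₊, χ (n : ZMod f) *
      ((ArithmeticFunction.vonMangoldt n / n * tw X n : ℝ) : ℂ) = psiPhi χ X / ((5 * X : ℝ) : ℂ) := by
    unfold psiPhi
    rw [sum_div]
    apply sum_congr rfl
    intro n hn
    rw [mem_Icc] at hn
    have hn0 : (n:ℝ) ≠ 0 := by
      have : (0:ℝ) < n := by exact_mod_cast hn.1
      exact this.ne'
    have e1 : (ArithmeticFunction.vonMangoldt n / n * tw X n : ℝ) =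
        Phi (n / X) * ArithmeticFunction.vonMangoldt n / (5 * X) := by
      unfold tw
      field_simp
    rw [e1]
    push_cast
    ring
  rw [e, norm_div, Complex.norm_real, Real.norm_of_nonneg (by positivity)]

end Pool.Agent.H316R2
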