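import Mathlib
import Pool.Agent.H316R2.G3

set_option autoImplicit false

open Finset

namespace Pool.Agent.H316R2

open Pool.Agent.H378R2

/-- the numerical error estimate -/
theorem err_num (L lw' lD R0r δ lY C Dr sz : ℝ) (hL : 2000000 ≤ L) (hC : 1 ≤ C)
    (h36 : 36 * C * (720 * (14 / 5) ^ 6) ≤ L)
    (hlw : 200 * lw' ≤ L) (hlw0 : 0 ≤ 4 + 2 * lw') (hlD : 7 * lD ≤ L) (hlD0 : 0 ≤ lD)
    (hR1 : L ^ 12 ≤ R0r) (hR2 : R0r ≤ 2 * L ^ 12) (hδ0 : 0 ≤ δ) (hδ : δ * L ^ 20 ≤ 1)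
    (hlY0 : 0 ≤ lY) (hlY : 1 + lY ≤ 3 * L) (hDr : Dr ≤ Real.exp (L / 7)) (hDr0 : 0 ≤ Dr)
    (hsz : sz = Real.exp (L / 2)) :
    (4 + 2 * lw') * ((1 + lD) ^ 2 * (R0r * δ + 73 * (1 + lY) ^ 6 / R0r + Dr * (C / sz))) ≤
      1 / L ^ 2 := by
  have hLpos : 0 < L := by linarith
  have e1 : 4 + 2 * lw' ≤ 3 * L := by linarith
  have e2 : (1 + lD) ^ 2 ≤ 4 * L ^ 2 := by
    have : 1 + lD ≤ 2 * L := by linarith
    calc _ ≤ (2 * L) ^ 2 := by gcongr
      _ = _ := by ring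
  have hR0 : 0 < R0r := lt_of_lt_of_le (by positivity) hR1
  have e3 : R0r * δ ≤ 1 / (36 * L ^ 5) := by
    have h1 : R0r * δ ≤ 2 * L ^ 12 * δ := by gcongr
    have h2 : δ ≤ 1 / L ^ 20 := by rw [le_div_iff₀ (by positivity)]; exact hδ
    calc R0r * δ ≤ 2 * L ^ 12 * δ := h1
      _ ≤ 2 * L ^ 12 * (1 / L ^ 20) := by gcongr
      _ = 2 / L ^ 8 := by field_simp
      _ ≤ 1 / (36 * L ^ 5) := by
          rw [div_le_div_iff₀ (by positivity) (by positivity), one_mul]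
          calc 2 * (36 * L ^ 5) = 72 * L ^ 5 := by ring
            _ ≤ L ^ 3 * L ^ 5 := by
                gcongr
                calc (72:ℝ) ≤ L := by linarith
                  _ = L ^ 1 := (pow_one L).symm
                  _ ≤ L ^ 3 := pow_le_pow_right₀ (by linarith) (by norm_num)
            _ = L ^ 8 := by ring
  have e4 : 73 * (1 + lY) ^ 6 / R0r ≤ 1 / (36 * L ^ 5) := by
    have h2 : (1 + lY) ^ 6 ≤ (3 * L) ^ 6 := pow_le_pow_left₀ (by linarith) hlY 6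
    calc _ ≤ 73 * (3 * L) ^ 6 / L ^ 12 := by gcongr
      _ = 53217 / L ^ 6 := by field_simp; norm_num
      _ ≤ 1 / (36 * L ^ 5) := by
          rw [div_le_div_iff₀ (by positivity) (by positivity), one_mul]
          calc (53217:ℝ) * (36 * L ^ 5) = (53217 * 36) * L ^ 5 := by ring
            _ ≤ L * L ^ 5 := by gcongr; linarith
            _ = L ^ 6 := by ring
  have e5 : Dr * (C / sz) ≤ 1 / (36 * L ^ 5) := by
    have h1 : (5 / 14 * L) ^ 6 / 720 ≤ Real.exp (5 / 14 * L) := by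
      have := Real.pow_div_factorial_le_exp (5 / 14 * L) (by positivity) 6
      have e : ((Nat.factorial 6 : ℕ) : ℝ) = 720 := by norm_num [Nat.factorial]
      rwa [e] at this
    calc Dr * (C / sz) ≤ Real.exp (L / 7) * (C / Real.exp (L / 2)) := by
          rw [hsz]; gcongr
      _ = C / Real.exp (5 / 14 * L) := by
          rw [show (L / 2) = L / 7 + 5 / 14 * L by ring, Real.exp_add]
          field_simp
      _ ≤ C / ((5 / 14 * L) ^ 6 / 720) := by gcongr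
      _ = C * (720 * (14 / 5) ^ 6) / L ^ 6 := by field_simp
      _ ≤ 1 / (36 * L ^ 5) := by
          rw [div_le_div_iff₀ (by positivity) (by positivity), one_mul]
          calc C * (720 * (14 / 5) ^ 6) * (36 * L ^ 5) = (36 * C * (720 * (14 / 5) ^ 6)) * L ^ 5 := by ring
            _ ≤ L * L ^ 5 := by gcongr
            _ = L ^ 6 := by ring
  have hsum : R0r * δ + 73 * (1 + lY) ^ 6 / R0r + Dr * (C / sz) ≤ 1 / (12 * L ^ 5) := by
    have d4 : 1 / (12 * L ^ 5) = 1 / (36 * L ^ 5) + 1 / (36 * L ^ 5) + 1 / (36 * L ^ 5) := by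
      field_simp; norm_num
    linarith
  have hn : 0 ≤ R0r * δ + 73 * (1 + lY) ^ 6 / R0r + Dr * (C / sz) := by
    have : 0 < sz := by rw [hsz]; exact Real.exp_pos _
    positivity
  calc _ ≤ (3 * L) * ((4 * L ^ 2) * (1 / (12 * L ^ 5))) := by gcongr
    _ = 1 / L ^ 2 := by field_simp; norm_num

theorem partA2 (P : ℕ) : ∃ z0 : ℕ, ∀ z : ℕ, z0 ≤ z →
    ∀ X : ℝ, (z:ℝ) ≤ X → X ≤ (z:ℝ) ^ 2 → ∃ p1 : ℕ, p1.Prime ∧ P < p1 ∧
    ∀ w : ℕ, 1 ≤ w → w ^ 200 ≤ z → ∀ Q : Finset ℕ, (∀ p ∈ Q, p.Prime ∧ 3 ≤ p ∧ p ≤ w ∧ p ≠ p1) →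
    ∀ c : ℕ → ℕ, (∀ p ∈ Q, (c p).Coprime p) →
    1 / 200 * ∏ p ∈ Q, (1 - 1 / ((p:ℝ) - 1)) ≤
      ∑ n ∈ Icc 1 ⌊3 * X⌋₊, lw n * tw X n *
          ∏ p ∈ Q, (1 - if n ≡ c p [MOD p] then (1:ℝ) else 0) := by
  obtain ⟨K, hK, C, hC, hsA⟩ := sieveA_gen
  obtain ⟨cM, hcM, hmert⟩ := mert_low
  obtain ⟨Xm, hmass⟩ := mass_low
  obtain ⟨M, hM⟩ := exists_large_factor P
  obtain ⟨Xs, hsc⟩ := small_conductor M
  set C2 : ℝ := 32 * (((K ^ (2 * K + 1) : ℕ) : ℝ)) ^ 7 with hC2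
  have f1 : ∀ᶠ L : ℝ in Filter.atTop, 2000000 ≤ L := Filter.eventually_ge_atTop _
  have f2 : ∀ᶠ L : ℝ in Filter.atTop, 300 / cM ≤ L := Filter.eventually_ge_atTop _
  have f3 : ∀ᶠ L : ℝ in Filter.atTop, max Xm Xs ≤ Real.exp L :=
    Real.tendsto_exp_atTop.eventually_ge_atTop _
  have f4 : ∀ᶠ L : ℝ in Filter.atTop, C2 ≤ Real.exp (3 / 10 * L) :=
    (Real.tendsto_exp_atTop.comp (Filter.tendsto_id.const_mul_atTop (by norm_num : (0:ℝ) < 3 / 10))).eventually_ge_atTop _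
  have f5 : ∀ᶠ L : ℝ in Filter.atTop, 36 * C * (720 * (14 / 5) ^ 6) ≤ L :=
    Filter.eventually_ge_atTop _
  have f6 : ∀ᶠ L : ℝ in Filter.atTop, 3 ≤ Real.log L :=
    Real.tendsto_log_atTop.eventually_ge_atTop _
  obtain ⟨L0, hL0⟩ := Filter.eventually_atTop.mp (f1.and (f2.and (f3.and (f4.and (f5.and f6)))))
  refine ⟨⌈Real.exp L0⌉₊, ?_⟩
  intro z hz X hzX hXz
  set L := Real.log z with hL
  have hzE : Real.exp L0 ≤ z := (Nat.le_ceil _).trans (by exact_mod_cast hz)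
  have hzpos : (0:ℝ) < z := by linarith [Real.exp_pos L0]
  have hLL0 : L0 ≤ L := by rw [hL, Real.le_log_iff_exp_le hzpos]; exact hzE
  have hzexp : Real.exp L = z := Real.exp_log hzpos
  obtain ⟨g1, g2, g3, g4, g5, g6⟩ := hL0 L hLL0
  have hLpos : 0 < L := by linarith
  have hXpos : 0 < X := by linarith
  have hz1 : (1:ℝ) ≤ z := by
    rw [← hzexp]; exact Real.one_le_exp hLpos.le
  have hX1 : 1 ≤ X := by linarith
  have hXm : Xm ≤ X := by
    have := le_max_left Xm Xs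
    linarith
  have hXs : Xs ≤ X := by
    have := le_max_right Xm Xs
    linarith
  have hlX1 : L ≤ Real.log X := Real.log_le_log hzpos hzX
  have hlX2 : Real.log X ≤ 2 * L := by
    have := Real.log_le_log hXpos hXz
    rw [Real.log_pow] at this
    exact_mod_cast this
  set lam := Real.log (Real.log X) with hlam
  have hlamL : Real.log L ≤ lam := Real.log_le_log hLpos hlX1
  have hlam3 : 3 ≤ lam := by linarith
  obtain ⟨fs, hfs, hsmall⟩ := hsc X hXs
  -- the exceptional prime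
  obtain ⟨p1, hp1, hPp1, hex⟩ : ∃ p1 : ℕ, p1.Prime ∧ P < p1 ∧ ∀ f, Squarefree f → ¬ p1 ∣ f → 1 < f → f ≠ fs := by
    by_cases hsq : Squarefree fs ∧ M < fs
    · obtain ⟨p, hp, hPp, hdvd⟩ := hM fs hsq.1 hsq.2
      exact ⟨p, hp, hPp, fun f _ hnd _ h => hnd (h ▸ hdvd)⟩
    · obtain ⟨p, hPp, hp⟩ := Nat.exists_infinite_primes (P + 1)
      refine ⟨p, hp, by omega, ?_⟩
      intro f hf _ hf1 h
      apply hsq
      rw [← h]
      refine ⟨hf, ?_⟩
      rcases hfs with h0 | h0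
      · omega
      · omega
  refine ⟨p1, hp1, hPp1, ?_⟩
  intro w hw1 hwz Q hQ c hc
  -- parameters
  set R0 := ⌈L ^ 12⌉₊ with hR0
  have hL12 : 1 ≤ L ^ 12 := one_le_pow₀ (by linarith)
  have hR1 : L ^ 12 ≤ R0 := Nat.le_ceil _
  have hR2 : (R0:ℝ) ≤ 2 * L ^ 12 := by
    have := (Nat.ceil_lt_add_one (show 0 ≤ L ^ 12 by positivity)).le
    linarith
  have hR0n : 1 ≤ R0 := by
    have : (1:ℝ) ≤ R0 := by linarith
    exact_mod_cast this
  set δ := Real.exp (-lam ^ 7) with hδ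
  have hδ0 : 0 ≤ δ := (Real.exp_pos _).le
  have hLexp : L = Real.exp (Real.log L) := (Real.exp_log hLpos).symm
  have hδL : δ * L ^ 20 ≤ 1 := by
    have h1 : L ^ 20 ≤ Real.exp (lam ^ 7) := by
      have h2 : L ^ 20 = Real.exp (20 * Real.log L) := by
        conv_lhs => rw [hLexp]
        rw [← Real.exp_nat_mul]
        norm_num
      rw [h2]
      apply Real.exp_le_exp.mpr
      have h3 : (3:ℝ) ^ 6 ≤ lam ^ 6 := by gcongr
      have h4 : lam ^ 7 = lam ^ 6 * lam := by ring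
      rw [h4]
      norm_num at h3
      nlinarith only [h3, hlamL, hlam3]
    rw [hδ, Real.exp_neg, inv_mul_le_iff₀ (Real.exp_pos _), mul_one]
    exact h1
  have hRexp : (R0:ℝ) ≤ Real.exp (lam ^ 6) := by
    have h2 : L ^ 13 = Real.exp (13 * Real.log L) := by
      conv_lhs => rw [hLexp]
      rw [← Real.exp_nat_mul]
      norm_num
    have h3 : 2 * L ^ 12 ≤ L ^ 13 := by
      calc 2 * L ^ 12 ≤ L * L ^ 12 := by gcongr; linarith
        _ = L ^ 13 := by ring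
    have h4 : 13 * Real.log L ≤ lam ^ 6 := by
      have h5 : (3:ℝ) ^ 5 ≤ lam ^ 5 := by gcongr
      have h6 : lam ^ 6 = lam ^ 5 * lam := by ring
      rw [h6]
      norm_num at h5
      nlinarith only [h5, hlamL, hlam3]
    have h7 := Real.exp_le_exp.mpr h4
    linarith
  set D := K ^ (2 * K + 1) * w ^ 20 with hD
  have hlw : 200 * Real.log w ≤ L := by
    have h1 : ((w ^ 200 : ℕ) : ℝ) ≤ z := by exact_mod_cast hwz
    have h2 := Real.log_le_log (by have : 0 < w ^ 200 := by positivity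
                                   exact_mod_cast this) h1
    push_cast at h2
    rw [Real.log_pow] at h2
    exact_mod_cast h2
  have hw0 : (0:ℝ) < w := by exact_mod_cast hw1
  have hlw0 := Real.log_natCast_nonneg w
  have hwexp : (w:ℝ) = Real.exp (Real.log w) := (Real.exp_log hw0).symm
  have hD7 : 32 * (D:ℝ) ^ 7 ≤ z := by
    have e : 32 * (D:ℝ) ^ 7 = C2 * (w:ℝ) ^ 140 := by
      rw [hD, hC2]; push_cast; ring
    rw [e, ← hzexp]
    have h1 : (w:ℝ) ^ 140 ≤ Real.exp (7 / 10 * L) := by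
      conv_lhs => rw [hwexp]
      rw [← Real.exp_nat_mul]
      apply Real.exp_le_exp.mpr
      push_cast
      linarith
    calc C2 * (w:ℝ) ^ 140 ≤ Real.exp (3 / 10 * L) * Real.exp (7 / 10 * L) := by gcongr
      _ = Real.exp L := by rw [← Real.exp_add]; congr 1; ring
  have hD7n : 32 * D ^ 7 ≤ z := by exact_mod_cast hD7
  have hD1 : 1 ≤ D := by rw [hD]; exact Nat.one_le_iff_ne_zero.mpr (by positivity)
  have hDz : D < z := by
    have : D ≤ D ^ 7 := Nat.le_self_pow (by norm_num) D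
    omega
  have hmain := hsA z D R0 ⌊3 * X⌋₊ p1 w (tw X) δ (Wt_tent X hX1 z hzX) hD hw1 hDz hD7n hR0n hδ0
    hp1 (by
      intro f hf2 hfR hfs' hfn χ hχ
      have : NeZero f := ⟨by omega⟩
      classical
      have hχp : χ.IsPrimitive := by
        rw [PC_eq] at hχ
        exact (mem_filter.mp hχ).2
      rw [S_eq X hXpos χ]
      have h1 := hsmall f hfs' (by omega) (by
        have : (f:ℝ) ≤ R0 := by exact_mod_cast hfR
        linarith) (hex f hfs' hfn (by omega)) χ hχp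
      rw [div_le_iff₀ (by positivity)]
      refine h1.trans ?_
      have h2 : 0 ≤ X * δ := by positivity
      calc X * Real.exp (-lam ^ 7) = X * δ := by rw [hδ]
        _ ≤ δ * (5 * X) := by nlinarith only [h2]) Q hQ c hc
  have hVge := hmert w hw1 Q (fun p hp => ⟨(hQ p hp).1, (hQ p hp).2.1, (hQ p hp).2.2.1⟩)
  set V := ∏ p ∈ Q, (1 - 1 / ((p:ℝ) - 1)) with hV
  have hVL : cM / L ≤ V := by
    refine le_trans ?_ hVge
    apply div_le_div_of_nonneg_left hcM.le (by linarith)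
    linarith
  have hV0 : 0 < V := lt_of_lt_of_le (by positivity) hVL
  have hH := hmass X hXm
  set H := ∑ n ∈ Icc 1 ⌊3 * X⌋₊, lw n * tw X n with hHdef
  have hlD : 7 * Real.log D ≤ L := by
    have h1 : (D:ℝ) ^ 7 ≤ z := by
      have : (0:ℝ) ≤ (D:ℝ) ^ 7 := by positivity
      linarith
    have hD0 : (0:ℝ) < D := by exact_mod_cast hD1
    have h2 := Real.log_le_log (by positivity) h1
    rw [Real.log_pow] at h2
    exact_mod_cast h2
  have hlD0 := Real.log_natCast_nonneg D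
  have hlY : 1 + Real.log ((⌊3 * X⌋₊ + 1 : ℕ) : ℝ) ≤ 3 * L := by
    have h1 : ((⌊3 * X⌋₊ + 1 : ℕ) : ℝ) ≤ 4 * X := by
      push_cast
      have := Nat.floor_le (show 0 ≤ 3 * X by positivity)
      linarith
    have h2 := Real.log_le_log (by exact_mod_cast Nat.succ_pos _) h1
    rw [Real.log_mul (by norm_num) hXpos.ne'] at h2
    have h3 : Real.log 4 ≤ 3 := by
      have := Real.log_le_sub_one_of_pos (show (0:ℝ) < 4 by norm_num)
      linarith
    linarith
  have herr := err_num L (Real.log w) (Real.log D) R0 δ (Real.log ((⌊3 * X⌋₊ + 1 : ℕ) : ℝ)) C D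
    (Real.sqrt z) g1 hC g5 hlw (by linarith) hlD hlD0 hR1 hR2 hδ0 hδL (Real.log_natCast_nonneg _) hlY
    (by
      have hD0 : (0:ℝ) < D := by exact_mod_cast hD1
      rw [← Real.exp_log hD0]
      apply Real.exp_le_exp.mpr
      linarith) (Nat.cast_nonneg _) (by rw [← hzexp, Real.exp_half])
  have hfin : 1 / L ^ 2 ≤ 1 / 300 * V := by
    have h1 : 300 / cM * (1 / L) ≤ 1 := by
      rw [mul_one_div, div_le_one hLpos]; exact g2
    have h2 : 1 / L ≤ cM / 300 := by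
      rw [div_mul_eq_mul_div, div_le_one hcM] at h1
      linarith
    calc 1 / L ^ 2 = 1 / L * (1 / L) := by field_simp
      _ ≤ cM / 300 * (1 / L) := by gcongr
      _ = 1 / 300 * (cM / L) := by ring
      _ ≤ _ := by gcongr
  have hHV : 1 / 30 * V ≤ H * V := by gcongr
  calc 1 / 200 * V ≤ 1 / 4 * (H * V) - 1 / L ^ 2 := by linarith only [hHV, hfin, hV0]
    _ ≤ _ := by linarith only [herr]
    _ ≤ _ := hmain

end Pool.Agent.H316R2
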