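import Mathlib
import Pool.Agent.H316R2.G4
import Pool.Agent.H316R2.Wd
import Pool.Agent.H316R2.Rx

set_option autoImplicit false

open Finset

namespace Pool.Agent.H316R2

open Pool.Agent.H378R2

theorem block_final2 (C Cp : ℝ) (hC : 1 ≤ C)
    (l : ℕ) (hl : 0 < l) (L u X V P D2 M : ℝ) (hL : 0 < L) (hX : 0 < X)
    (hP : P ≤ Cp * (400 / u) * (400 * M) * V)
    (hD2 : D2 ≤ X / l * (V / u * M)) (S : ℝ) (hS : S ≤ C * (X / l * P) + D2) :
    2 * L / X * S ≤ (2 * (C * Cp * 160000 + 1)) * (L / (l * u) * M * V) := by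
  have hl0 : (0:ℝ) < l := by exact_mod_cast hl
  have h1 : S ≤ C * (X / l * (Cp * (400 / u) * (400 * M) * V)) + X / l * (V / u * M) := by
    refine hS.trans ?_
    have hC0 : 0 ≤ C := by linarith
    gcongr
  calc 2 * L / X * S ≤ 2 * L / X * (C * (X / l * (Cp * (400 / u) * (400 * M) * V)) +
        X / l * (V / u * M)) := by
        have : 0 ≤ 2 * L / X := by positivity
        exact mul_le_mul_of_nonneg_left h1 this
    _ = _ := by field_simp; ring

theorem partB2 : ∃ C : ℝ, 1 ≤ C ∧ ∃ C0 : ℝ, 1200 ≤ C0 ∧ ∀ z : ℕ, 1 ≤ z →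
    ∀ t : ℝ, C0 ≤ t → t ≤ Real.log z → ∀ w : ℕ, 1 ≤ w → w ^ 200 ≤ z →
    ∀ Q : Finset ℕ, (∀ p ∈ Q, p.Prime ∧ 3 ≤ p ∧ p ≤ w) →
    ∀ c : ℕ → ℕ, (∀ p ∈ Q, (c p).Coprime p) →
    ∀ l : ℕ, l.Prime → l ≤ z → l ∉ Q → ∀ b : ℕ,
    ∑ n ∈ Icc 1 ⌊3 * (z * Real.exp (t / 2))⌋₊, lw n * tw (z * Real.exp (t / 2)) n *
        ((if n ≡ b [MOD l] then 1 else 0) *
          ∏ p ∈ Q, (1 - if n ≡ c p [MOD p] then (1:ℝ) else 0)) ≤
      C * (Real.log z / (l * (Real.log z + t - Real.log l)) *
        max 1 (Real.log w / (Real.log z + t - Real.log l)) * ∏ p ∈ Q, (1 - 1 / ((p:ℝ) - 1))) := by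
  obtain ⟨K, hK, C, hC, hblock⟩ := blockB
  obtain ⟨Cp, hCp, hprod⟩ := prodB
  obtain ⟨cM, hcM, hmert⟩ := mert_low
  set K2 : ℝ := (((K ^ (2 * K + 1) : ℕ) : ℝ)) ^ 2 with hK2
  have hK20 : 0 < K2 := by
    have : 0 < K ^ (2 * K + 1) := by positivity
    have h2 : (0:ℝ) < ((K ^ (2 * K + 1) : ℕ) : ℝ) := by exact_mod_cast this
    positivity
  refine ⟨2 * (2 * (C * Cp * 160000 + 1)), ?_, ?_⟩
  · have : 0 ≤ C * Cp * 160000 := by positivity
    linarith
  have f1 : ∀ᶠ u : ℝ in Filter.atTop, K2 * (2 * u ^ 2) / cM ≤ Real.exp (1 / 5 * u) := by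
    have h1 := isLittleO_rpow_exp_pos_mul_atTop 2 (show (0:ℝ) < 1 / 5 by norm_num)
    have h2 := h1.bound (show (0:ℝ) < cM / (2 * K2) by positivity)
    filter_upwards [h2, Filter.eventually_ge_atTop (1:ℝ)] with u h3 h4
    rw [Real.norm_of_nonneg (by positivity), Real.norm_of_nonneg (by positivity)] at h3
    have h5 : u ^ (2:ℝ) = u ^ 2 := by exact_mod_cast Real.rpow_natCast u 2
    rw [h5] at h3
    rw [div_le_iff₀ hcM]
    calc K2 * (2 * u ^ 2) = (2 * K2) * u ^ 2 := by ring
      _ ≤ (2 * K2) * (cM / (2 * K2) * Real.exp (1 / 5 * u)) := by gcongr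
      _ = _ := by field_simp
  obtain ⟨U0, hU0⟩ := Filter.eventually_atTop.mp f1
  refine ⟨max 1200 U0, le_max_left _ _, ?_⟩
  intro z hz1 t ht1 ht2 w hw1 hwz Q hQ c hc l hl hlz hlQ b
  set L := Real.log z with hL
  have hzpos : (0:ℝ) < z := by exact_mod_cast hz1
  have hzexp : Real.exp L = z := Real.exp_log hzpos
  have ht0 : 1200 ≤ t := (le_max_left _ _).trans ht1
  have htU : U0 ≤ t := (le_max_right _ _).trans ht1
  have hLpos : 0 < L := by linarith
  have hl0 : (0:ℝ) < l := by exact_mod_cast hl.pos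
  have hlogl : Real.log l ≤ L := by
    rw [hL]; exact Real.log_le_log hl0 (by exact_mod_cast hlz)
  have hlogl0 := Real.log_natCast_nonneg l
  set u := L + t - Real.log l with hu
  have hut : t ≤ u := by rw [hu]; linarith
  have hu1200 : 1200 ≤ u := by linarith
  have hu2L : u ≤ 2 * L := by rw [hu]; linarith
  have hu0 : 0 < u := by linarith
  set V := ∏ p ∈ Q, (1 - 1 / ((p:ℝ) - 1)) with hV
  have hlw0 := Real.log_natCast_nonneg w
  set M := max 1 (Real.log w / u) with hM
  have hM1 : 1 ≤ M := le_max_left _ _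
  have hM2 : Real.log w / u ≤ M := le_max_right _ _
  have hVge := hmert w hw1 Q hQ
  have hV0 : 0 < V := lt_of_lt_of_le (by positivity) hVge
  have hVM : cM / (2 * u) ≤ V * M := by
    have h1 : cM / (2 * u) ≤ cM / (1 + Real.log w) * M := by
      rw [div_mul_eq_mul_div, div_le_div_iff₀ (by positivity) (by positivity)]
      have h2 : 1 + Real.log w ≤ M * (2 * u) := by
        have h3 : Real.log w ≤ M * u := by rwa [div_le_iff₀ hu0] at hM2
        have h4 : 1 ≤ M * u := by nlinarith only [hM1, hu1200]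
        linarith
      calc cM * (1 + Real.log w) ≤ cM * (M * (2 * u)) := by gcongr
        _ = _ := by ring
    calc _ ≤ _ := h1
      _ ≤ V * M := by gcongr
  -- the sifting limit
  set y := ⌊Real.exp (u / 300)⌋₊ with hy
  have hexpu : 5 ≤ Real.exp (u / 300) := by
    have := Real.add_one_le_exp (u / 300)
    linarith
  have hy2 : 2 ≤ y := by
    rw [hy, Nat.le_floor_iff (Real.exp_pos _).le]
    push_cast; linarith
  have hyle : (y:ℝ) ≤ Real.exp (u / 300) := Nat.floor_le (Real.exp_pos _).le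
  have hy0 : (0:ℝ) < y := by exact_mod_cast (by omega : 0 < y)
  have hylog : u / 400 ≤ Real.log y := by
    rw [Real.le_log_iff_exp_le hy0]
    have h1 : Real.exp (u / 400) * Real.exp 1 ≤ Real.exp (u / 300) := by
      rw [← Real.exp_add]
      apply Real.exp_le_exp.mpr
      linarith
    have h2 : Real.exp (u / 300) < y + 1 := Nat.lt_floor_add_one _
    have h3 := Real.exp_one_gt_d9
    have h4 : 1 ≤ Real.exp (u / 400) := Real.one_le_exp (by positivity)
    nlinarith only [h1, h2, h3, h4]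
  have hylog0 : 0 < Real.log y := by
    have : 0 < u / 400 := by positivity
    linarith
  have hP := hprod w Q hw1 hQ l hl hlQ y hy2
  have hP2 : ∏ p ∈ (Icc 1 y).filter (fun p => p.Prime ∧ p ≠ l), (1 - (if p ∈ Q then 2 else 1) / (p:ℝ)) ≤
      Cp * (400 / u) * (400 * M) * V := by
    refine hP.trans ?_
    have h1 : Cp / Real.log y ≤ Cp * (400 / u) := by
      have : 1 / Real.log y ≤ 400 / u := by
        rw [div_le_div_iff₀ hylog0 hu0]
        linarith
      calc Cp / Real.log y = Cp * (1 / Real.log y) := by ring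
        _ ≤ _ := by gcongr
    have h2 : max 1 (Real.log w / Real.log y) ≤ 400 * M := by
      apply max_le
      · linarith
      · have h3 : Real.log w / Real.log y ≤ Real.log w / (u / 400) := by
          apply div_le_div_of_nonneg_left hlw0 (by positivity) hylog
        have h4 : Real.log w / (u / 400) = 400 * (Real.log w / u) := by field_simp
        linarith
    gcongr
  set X := z * Real.exp (t / 2) with hX
  have hXpos : 0 < X := by rw [hX]; positivity
  have hXexp : X = Real.exp (L + t / 2) := by rw [hX, Real.exp_add, hzexp]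
  have hlogX : Real.log X = L + t / 2 := by rw [hXexp, Real.log_exp]
  have hzX : (z:ℝ) ≤ X := by
    rw [hXexp, ← hzexp]; exact Real.exp_le_exp.mpr (by linarith)
  have hX1 : 1 ≤ X := le_trans (by exact_mod_cast hz1) hzX
  set F : ℕ → ℝ := fun n => Real.log n / n * WB Q c l b n with hF
  have hF0 : ∀ n, 0 ≤ F n := fun n =>
    mul_nonneg (div_nonneg (Real.log_natCast_nonneg n) (Nat.cast_nonneg n)) (WB_nonneg _ _ _ _ _)
  set BD := (2 * (C * Cp * 160000 + 1)) * (L / (l * u) * M * V) with hBD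
  have hdy := window_dyadic F hF0 X (4 * X) hXpos 2 (by norm_num) BD (by
    intro j hj
    set Xj := 2 ^ j * X with hXj
    have h2j : (1:ℝ) ≤ 2 ^ j := one_le_pow₀ (by norm_num)
    have h2j' : (2:ℝ) ^ j ≤ 2 := by
      calc (2:ℝ) ^ j ≤ 2 ^ 1 := pow_le_pow_right₀ (by norm_num) (by omega)
        _ = 2 := pow_one 2
    have hXX0 : X ≤ Xj := by rw [hXj]; nlinarith only [h2j, hXpos]
    have hXj2 : Xj ≤ 2 * X := by rw [hXj]; gcongr
    have hXjpos : 0 < Xj := by linarith
    have hlX : (l:ℝ) ≤ Xj := by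
      have h1 : (l:ℝ) ≤ z := by exact_mod_cast hlz
      linarith
    have hyX : (y:ℝ) ≤ Xj := by
      have h2 : Real.exp (u / 300) ≤ Real.exp (L + t / 2) := Real.exp_le_exp.mpr (by linarith)
      rw [← hXexp] at h2
      linarith
    have hblk := hblock Q (fun p hp => ⟨(hQ p hp).1, (hQ p hp).2.1⟩) c hc l hl b y (by omega) Xj hlX hyX
    have hpt : ∑ n ∈ Ioc ⌊Xj⌋₊ ⌊2 * Xj⌋₊, F n ≤ 2 * L / Xj * ∑ n ∈ Ioc ⌊Xj⌋₊ ⌊2 * Xj⌋₊, WB Q c l b n := by
      rw [mul_sum]
      apply sum_le_sum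
      intro n hn
      rw [mem_Ioc] at hn
      have hn1 : Xj < n := (Nat.floor_lt hXjpos.le).mp hn.1
      have hn2 : (n:ℝ) ≤ 2 * Xj := (Nat.le_floor_iff (by positivity)).mp hn.2
      have hn0 : (0:ℝ) < n := by linarith
      rw [hF]
      simp only
      apply mul_le_mul_of_nonneg_right _ (WB_nonneg _ _ _ _ _)
      have h1 : Real.log n ≤ 2 * L := by
        have h2 := Real.log_le_log hn0 (show (n:ℝ) ≤ 4 * X by linarith)
        rw [Real.log_mul (by norm_num) hXpos.ne', hlogX] at h2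
        have h3 : Real.log 4 ≤ 3 := by
          have := Real.log_le_sub_one_of_pos (show (0:ℝ) < 4 by norm_num)
          linarith
        linarith
      calc Real.log n / n ≤ 2 * L / n := by gcongr
        _ ≤ 2 * L / Xj := by gcongr
    refine hpt.trans ?_
    rw [hBD]
    have hD2 : (((K ^ (2 * K + 1) * y ^ 20 : ℕ) : ℝ)) ^ 2 ≤ Xj / l * (V / u * M) := by
      have h1 : (((K ^ (2 * K + 1) * y ^ 20 : ℕ) : ℝ)) ^ 2 = K2 * (y:ℝ) ^ 40 := by
        rw [hK2]; push_cast; ring
      have h2 : (y:ℝ) ^ 40 ≤ Real.exp (2 / 15 * u) := by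
        calc (y:ℝ) ^ 40 ≤ (Real.exp (u / 300)) ^ 40 := by gcongr
          _ = Real.exp (2 / 15 * u) := by
              rw [← Real.exp_nat_mul]; congr 1; push_cast; ring
      have h3 : Real.exp (1 / 3 * u) ≤ Xj / l := by
        rw [le_div_iff₀ hl0]
        calc Real.exp (1 / 3 * u) * l = Real.exp (1 / 3 * u + Real.log l) := by
              rw [Real.exp_add, Real.exp_log hl0]
          _ ≤ Real.exp (L + t / 2) := by
              apply Real.exp_le_exp.mpr
              rw [hu]; linarith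
          _ ≤ Xj := by rw [← hXexp]; exact hXX0
      have h4 : K2 * (2 * u ^ 2) / cM ≤ Real.exp (1 / 5 * u) := hU0 u (by linarith)
      have h5 : K2 * Real.exp (2 / 15 * u) ≤ Real.exp (1 / 3 * u) * (V / u * M) := by
        have h6 : K2 * (2 * u ^ 2) / cM * (cM / (2 * u ^ 2)) = K2 := by field_simp
        have h7 : cM / (2 * u ^ 2) ≤ V / u * M := by
          have h8 : cM / (2 * u ^ 2) = (cM / (2 * u)) / u := by field_simp
          have h9 : V / u * M = (V * M) / u := by ring
          rw [h8, h9]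
          gcongr
        have h9 : K2 ≤ Real.exp (1 / 5 * u) * (V / u * M) := by
          calc K2 = K2 * (2 * u ^ 2) / cM * (cM / (2 * u ^ 2)) := h6.symm
            _ ≤ Real.exp (1 / 5 * u) * (V / u * M) := by gcongr
        calc K2 * Real.exp (2 / 15 * u) ≤ (Real.exp (1 / 5 * u) * (V / u * M)) * Real.exp (2 / 15 * u) := by
              gcongr
          _ = (Real.exp (1 / 5 * u) * Real.exp (2 / 15 * u)) * (V / u * M) := by ring
          _ = Real.exp (1 / 3 * u) * (V / u * M) := by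
              rw [← Real.exp_add]; congr 2; ring
      have hVuM : 0 ≤ V / u * M := by positivity
      rw [h1]
      calc K2 * (y:ℝ) ^ 40 ≤ K2 * Real.exp (2 / 15 * u) := by gcongr
        _ ≤ Real.exp (1 / 3 * u) * (V / u * M) := h5
        _ ≤ _ := by gcongr
    exact block_final2 C Cp hC l hl.pos L u Xj V _ _ M hLpos hXjpos hP2 hD2 _ hblk)
  have hsum : ∑ n ∈ Icc 1 ⌊3 * X⌋₊, lw n * tw X n *
        ((if n ≡ b [MOD l] then 1 else 0) *
          ∏ p ∈ Q, (1 - if n ≡ c p [MOD p] then (1:ℝ) else 0)) ≤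
      ∑ n ∈ Ioc ⌊X⌋₊ ⌊4 * X⌋₊, F n := by
    have hWt := Wt_tent X hX1 z hzX
    have h1 : ∀ n ∈ Icc 1 ⌊3 * X⌋₊, lw n * tw X n * ((if n ≡ b [MOD l] then 1 else 0) *
          ∏ p ∈ Q, (1 - if n ≡ c p [MOD p] then (1:ℝ) else 0)) ≤
        if n ∈ Ioc ⌊X⌋₊ ⌊4 * X⌋₊ then F n else 0 := by
      intro n hn
      rw [mem_Icc] at hn
      have e : lw n * tw X n * ((if n ≡ b [MOD l] then 1 else 0) *
          ∏ p ∈ Q, (1 - if n ≡ c p [MOD p] then (1:ℝ) else 0)) = tw X n * F n := by
        rw [hF]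
        simp only
        rw [← hw_split]
        ring
      rw [e]
      by_cases hnX : n ≤ ⌊X⌋₊
      · have h2 : tw X n = 0 := by
          unfold tw
          have h3 : (n:ℝ) ≤ X := (Nat.le_floor_iff hXpos.le).mp hnX
          rw [Phi_low (by positivity) ((div_le_one hXpos).mpr h3)]
          simp
        rw [h2, zero_mul]
        split_ifs
        · exact hF0 n
        · exact le_rfl
      · have h2 : n ∈ Ioc ⌊X⌋₊ ⌊4 * X⌋₊ := by
          rw [mem_Ioc]
          refine ⟨by omega, hn.2.trans (Nat.floor_le_floor (by linarith))⟩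
        rw [if_pos h2]
        have h3 := hWt.le_one n
        have h4 := hWt.nonneg n
        have h5 := hF0 n
        nlinarith only [h3, h4, h5]
    refine (sum_le_sum h1).trans ?_
    rw [← sum_filter]
    apply sum_le_sum_of_subset_of_nonneg
    · intro n hn
      exact (mem_filter.mp hn).2
    · intro n _ _; exact hF0 n
  calc _ ≤ _ := hsum
    _ ≤ _ := hdy
    _ = _ := by rw [hBD]; push_cast; ring

theorem barrier2 : ∃ c : ℝ, 0 < c ∧ ∃ C₀ : ℝ, 0 < C₀ ∧ ∃ z₀ : ℕ, ∀ z : ℕ, z₀ ≤ z →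
    ∀ w : ℕ, 1 ≤ w → w ^ 200 ≤ z → ∀ t : ℝ, C₀ ≤ t → t ≤ Real.log z →
    ∀ a : ℕ → ℤ, (∀ n : ℕ, 1 ≤ n → (n:ℝ) ≤ z * Real.exp t →
      ∃ p : ℕ, p.Prime ∧ p ≤ z ∧ (p:ℤ) ∣ (n:ℤ) - a p) →
    c ≤ ∑ p ∈ (Ioc w z).filter (fun p : ℕ => p.Prime ∧ ¬ (p:ℤ) ∣ a p),
      1 / (p:ℝ) * (Real.log z / (Real.log z + t - Real.log p)) *
        max 1 (Real.log w / (Real.log z + t - Real.log p)) := by
  classical
  obtain ⟨C, hC, C0, hC0, hB⟩ := partB2
  refine ⟨1 / (400 * C), by positivity, C0, by linarith, ?_⟩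
  set P := ⌈800 * C⌉₊ with hP
  obtain ⟨z1, hA⟩ := partA2 P
  refine ⟨max z1 3, ?_⟩
  intro z hz w hw1 hwz t ht1 ht2 a hcov
  have hz1 : z1 ≤ z := (le_max_left _ _).trans hz
  have hz3 : 3 ≤ z := (le_max_right _ _).trans hz
  set L := Real.log z with hL
  have hzpos : (0:ℝ) < z := by exact_mod_cast (by omega : 0 < z)
  have hzexp : Real.exp L = z := Real.exp_log hzpos
  have ht3 : 1200 ≤ t := hC0.trans ht1
  have hLpos : 0 < L := by linarith
  set X := z * Real.exp (t / 2) with hX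
  have hXpos : 0 < X := by rw [hX]; positivity
  have hXexp : X = Real.exp (L + t / 2) := by rw [hX, Real.exp_add, hzexp]
  have hzX : (z:ℝ) ≤ X := by
    rw [hXexp, ← hzexp]; exact Real.exp_le_exp.mpr (by linarith)
  have hXz2 : X ≤ (z:ℝ) ^ 2 := by
    rw [hXexp, ← hzexp, ← Real.exp_nat_mul]
    apply Real.exp_le_exp.mpr
    push_cast
    linarith
  have hX1 : 1 ≤ X := by
    have : (1:ℝ) ≤ z := by exact_mod_cast (by omega : 1 ≤ z)
    linarith
  obtain ⟨p1, hp1, hPp1, hA⟩ := hA z hz1 X hzX hXz2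
  have hlw : 200 * Real.log w ≤ L := by
    have h1 : ((w ^ 200 : ℕ) : ℝ) ≤ z := by exact_mod_cast hwz
    have h2 := Real.log_le_log (by have : 0 < w ^ 200 := by positivity
                                   exact_mod_cast this) h1
    push_cast at h2
    rw [Real.log_pow] at h2
    exact_mod_cast h2
  have hlw0 := Real.log_natCast_nonneg w
  have hWt := Wt_tent X hX1 z hzX
  -- the multiplier
  obtain ⟨s, hs, hs2⟩ : ∃ s : ℕ, (s = 1 ∨ s = 2) ∧ ∀ n : ℕ, ¬ 2 ∣ n → ¬ (2:ℤ) ∣ ((s * n : ℕ) : ℤ) - a 2 := by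
    by_cases h2 : (2:ℤ) ∣ a 2
    · refine ⟨1, Or.inl rfl, ?_⟩
      intro n hn h
      apply hn
      have h3 : (2:ℤ) ∣ ((1 * n : ℕ) : ℤ) := by
        have := dvd_add h h2
        rwa [sub_add_cancel] at this
      rw [one_mul] at h3
      exact_mod_cast h3
    · refine ⟨2, Or.inr rfl, ?_⟩
      intro n _ h
      apply h2
      have h3 : (2:ℤ) ∣ ((2 * n : ℕ) : ℤ) := by push_cast; exact Dvd.intro _ rfl
      have := dvd_sub h3 h
      rwa [sub_sub_cancel] at this
  -- residues
  have hres : ∀ p : ℕ, ∃ c : ℕ, p.Prime → 3 ≤ p → ¬ (p:ℤ) ∣ a p → c.Coprime p ∧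
      ∀ n : ℕ, ((p:ℤ) ∣ ((s * n : ℕ) : ℤ) - a p ↔ n ≡ c [MOD p]) := by
    intro p
    by_cases h : p.Prime ∧ 3 ≤ p ∧ ¬ (p:ℤ) ∣ a p
    · obtain ⟨c, hc⟩ := residue_exists s hs p h.1 h.2.1 (a p) h.2.2
      exact ⟨c, fun _ _ _ => hc⟩
    · exact ⟨0, fun h1 h2 h3 => absurd ⟨h1, h2, h3⟩ h⟩
  choose c hc using hres
  set Q := (Icc 3 w).filter (fun p : ℕ => p.Prime ∧ ¬ (p:ℤ) ∣ a p ∧ p ≠ p1) with hQdef
  have hQ : ∀ p ∈ Q, p.Prime ∧ 3 ≤ p ∧ p ≤ w ∧ p ≠ p1 ∧ ¬ (p:ℤ) ∣ a p := by
    intro p hp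
    rw [hQdef, mem_filter, mem_Icc] at hp
    exact ⟨hp.2.1, hp.1.1, hp.1.2, hp.2.2.2, hp.2.2.1⟩
  have hcQ : ∀ p ∈ Q, (c p).Coprime p := fun p hp => by
    obtain ⟨h1, h2, _, _, h5⟩ := hQ p hp
    exact (hc p h1 h2 h5).1
  have hA := hA w hw1 hwz Q (fun p hp => by
    obtain ⟨h1, h2, h3, h4, _⟩ := hQ p hp
    exact ⟨h1, h2, h3, h4⟩) c hcQ
  set Y := ⌊3 * X⌋₊ with hY
  set V := ∏ p ∈ Q, (1 - 1 / ((p:ℝ) - 1)) with hV
  have hV0 : 0 < V := by
    apply prod_pos
    intro p hp
    have h1 : (3:ℝ) ≤ p := by exact_mod_cast (hQ p hp).2.1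
    have : 1 / ((p:ℝ) - 1) < 1 := by rw [div_lt_one (by linarith)]; linarith
    linarith
  set EE' := (Ioc w z).filter (fun p : ℕ => p.Prime ∧ ¬ (p:ℤ) ∣ a p) with hEE
  set hh : ℕ → ℝ := fun n => lw n * tw X n with hhdef
  have hh0 : ∀ n, 0 ≤ hh n := fun n => mul_nonneg (lw_nonneg n) (hWt.nonneg n)
  set G : ℕ → ℝ := fun l => ∑ n ∈ Icc 1 Y, hh n *
        ((if n ≡ c l [MOD l] then 1 else 0) *
          ∏ p ∈ Q, (1 - if n ≡ c p [MOD p] then (1:ℝ) else 0)) with hG
  have hprod0 : ∀ n, 0 ≤ ∏ p ∈ Q, (1 - if n ≡ c p [MOD p] then (1:ℝ) else 0) := by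
    intro n
    apply prod_nonneg
    intro p _
    split_ifs <;> norm_num
  have hterm0 : ∀ l n, 0 ≤ hh n * ((if n ≡ c l [MOD l] then 1 else 0) *
          ∏ p ∈ Q, (1 - if n ≡ c p [MOD p] then (1:ℝ) else 0)) := by
    intro l n
    apply mul_nonneg (hh0 n)
    apply mul_nonneg _ (hprod0 n)
    split_ifs <;> norm_num
  -- union bound
  have hunion : ∑ n ∈ Icc 1 Y, hh n *
      ∏ p ∈ Q, (1 - if n ≡ c p [MOD p] then (1:ℝ) else 0) ≤
      ∑ l ∈ EE', G l + (if p1 ≤ w then G p1 else 0) := by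
    have hpt : ∀ n ∈ Icc 1 Y, hh n *
      ∏ p ∈ Q, (1 - if n ≡ c p [MOD p] then (1:ℝ) else 0) ≤
      ∑ l ∈ EE', hh n * ((if n ≡ c l [MOD l] then 1 else 0) *
          ∏ p ∈ Q, (1 - if n ≡ c p [MOD p] then (1:ℝ) else 0)) +
      (if p1 ≤ w then hh n * ((if n ≡ c p1 [MOD p1] then 1 else 0) *
          ∏ p ∈ Q, (1 - if n ≡ c p [MOD p] then (1:ℝ) else 0)) else 0) := by
      intro n _
      have hs1 : 0 ≤ ∑ l ∈ EE', hh n * ((if n ≡ c l [MOD l] then 1 else 0) *
          ∏ p ∈ Q, (1 - if n ≡ c p [MOD p] then (1:ℝ) else 0)) := sum_nonneg fun l _ => hterm0 l n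
      have hs2' : 0 ≤ (if p1 ≤ w then hh n * ((if n ≡ c p1 [MOD p1] then 1 else 0) *
          ∏ p ∈ Q, (1 - if n ≡ c p [MOD p] then (1:ℝ) else 0)) else 0) := by
        by_cases hpw : p1 ≤ w
        · rw [if_pos hpw]; exact hterm0 p1 n
        · rw [if_neg hpw]
      by_cases h0 : hh n = 0
      · rw [h0, zero_mul]
        rw [h0] at hs1 hs2'
        linarith
      · -- n is a prime of the right size
        have hnp : n.Prime := by
          by_contra h
          apply h0
          rw [hhdef]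
          show lw n * tw X n = 0
          unfold lw
          rw [if_neg h, zero_mul]
        have hn0 : (0:ℝ) < n := by exact_mod_cast hnp.pos
        have htw : tw X n ≠ 0 := by
          intro h
          apply h0
          show lw n * tw X n = 0
          rw [h, mul_zero]
        have hXn : X < n := by
          by_contra h
          push Not at h
          apply htw
          unfold tw
          rw [Phi_low (by positivity) ((div_le_one hXpos).mpr h)]
          simp
        have hnX : (n:ℝ) < Real.exp 1 * X := by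
          by_contra h
          push Not at h
          apply htw
          unfold tw
          rw [Phi_high ((le_div_iff₀ hXpos).mpr h)]
          simp
        have hzn : (z:ℝ) < n := by linarith
        have hznn : z < n := by exact_mod_cast hzn
        have hsn : ((s * n : ℕ) : ℝ) ≤ z * Real.exp t := by
          have h2 : ((s * n : ℕ) : ℝ) ≤ 2 * n := by
            push_cast
            have : (s:ℝ) ≤ 2 := by rcases hs with h | h <;> rw [h] <;> norm_num
            gcongr
          have h3 : 2 * (Real.exp 1 * X) ≤ z * Real.exp t := by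
            rw [← hzexp, ← Real.exp_add, hXexp]
            have h4 : (2:ℝ) ≤ Real.exp 1 := by have := Real.exp_one_gt_d9; linarith
            calc 2 * (Real.exp 1 * Real.exp (L + t / 2)) ≤ Real.exp 1 * (Real.exp 1 * Real.exp (L + t / 2)) := by
                  gcongr
              _ = Real.exp (1 + (1 + (L + t / 2))) := by rw [Real.exp_add 1, Real.exp_add 1]
              _ ≤ _ := Real.exp_le_exp.mpr (by linarith)
          linarith
        have hsn1 : 1 ≤ s * n := by
          have : 1 ≤ s := by rcases hs with h | h <;> omega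
          exact Nat.mul_pos this hnp.pos
        obtain ⟨p, hp, hpz, hdvd⟩ := hcov (s * n) hsn1 hsn
        have hp2 : p ≠ 2 := by
          intro h
          subst h
          refine hs2 n ?_ hdvd
          intro h2n
          have h3 := (Nat.prime_dvd_prime_iff_eq Nat.prime_two hnp).mp h2n
          omega
        have hp3 : 3 ≤ p := by
          have := hp.two_le
          omega
        have hpa : ¬ (p:ℤ) ∣ a p := by
          intro h
          have h1 : (p:ℤ) ∣ ((s * n : ℕ) : ℤ) := by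
            have := dvd_add hdvd h
            rwa [sub_add_cancel] at this
          have h2 : p ∣ s * n := by exact_mod_cast h1
          rcases (Nat.Prime.dvd_mul hp).mp h2 with h3 | h3
          · have h4 : 0 < s := by rcases hs with h | h <;> omega
            have := Nat.le_of_dvd h4 h3
            rcases hs with h | h <;> omega
          · have := (Nat.prime_dvd_prime_iff_eq hp hnp).mp h3
            omega
        have hmod : n ≡ c p [MOD p] := ((hc p hp hp3 hpa).2 n).mp hdvd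
        have hterm : hh n * ((if n ≡ c p [MOD p] then 1 else 0) *
          ∏ q ∈ Q, (1 - if n ≡ c q [MOD q] then (1:ℝ) else 0)) = hh n *
          ∏ q ∈ Q, (1 - if n ≡ c q [MOD q] then (1:ℝ) else 0) := by
          rw [if_pos hmod, one_mul]
        by_cases hpw : p ≤ w
        · by_cases hpp1 : p = p1
          · rw [hpp1] at hterm hpw
            rw [if_pos hpw, hterm]
            linarith
          · have hpQ : p ∈ Q := by
              rw [hQdef, mem_filter, mem_Icc]
              exact ⟨⟨hp3, hpw⟩, hp, hpa, hpp1⟩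
            rw [prod_eq_zero hpQ (by rw [if_pos hmod, sub_self]), mul_zero]
            simp only [mul_zero, sum_const_zero, ite_self, add_zero]
            exact le_rfl
        · have hpE : p ∈ EE' := by
            rw [hEE, mem_filter, mem_Ioc]
            exact ⟨⟨by omega, hpz⟩, hp, hpa⟩
          have h1 := single_le_sum (f := fun l => hh n * ((if n ≡ c l [MOD l] then 1 else 0) *
            ∏ q ∈ Q, (1 - if n ≡ c q [MOD q] then (1:ℝ) else 0))) (fun l _ => hterm0 l n) hpE
          rw [hterm] at h1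
          linarith
    refine (sum_le_sum hpt).trans ?_
    rw [sum_add_distrib, sum_comm]
    apply add_le_add le_rfl
    split_ifs
    · exact le_rfl
    · rw [sum_const_zero]
  -- bounds for the G
  have hGb : ∀ l, l.Prime → l ≤ z → l ∉ Q → G l ≤ C * (L / (l * (L + t - Real.log l)) *
      max 1 (Real.log w / (L + t - Real.log l)) * V) := by
    intro l hl hlz hlQ
    exact hB z (by omega) t ht1 ht2 w hw1 hwz Q (fun p hp => by
      obtain ⟨h1, h2, h3, _, _⟩ := hQ p hp
      exact ⟨h1, h2, h3⟩) c hcQ l hl hlz hlQ (c l)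
  have hGp1 : (if p1 ≤ w then G p1 else 0) ≤ 1 / 400 * V := by
    split_ifs with hpw
    · have hwz' : w ≤ z := (Nat.le_self_pow (by norm_num) w).trans hwz
      have hp1Q : p1 ∉ Q := fun h => (hQ p1 h).2.2.2.1 rfl
      refine (hGb p1 hp1 (hpw.trans hwz') hp1Q).trans ?_
      have hp10 : (0:ℝ) < p1 := by exact_mod_cast hp1.pos
      have hlp1 : Real.log p1 ≤ Real.log w := Real.log_le_log hp10 (by exact_mod_cast hpw)
      set u := L + t - Real.log p1 with hu
      have hu1 : L / 2 ≤ u := by rw [hu]; linarith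
      have hu0' : 0 < u := by linarith
      have hmax : max 1 (Real.log w / u) = 1 := by
        apply max_eq_left
        rw [div_le_one hu0']
        linarith
      rw [hmax]
      have h1 : L / (p1 * u) ≤ 2 / p1 := by
        rw [div_le_div_iff₀ (by positivity) hp10]
        nlinarith only [hu1, hp10]
      have h2 : (2:ℝ) / p1 ≤ 1 / (400 * C) := by
        rw [div_le_div_iff₀ hp10 (by positivity)]
        have h3 : 800 * C ≤ P := Nat.le_ceil _
        have h4 : (P:ℝ) ≤ p1 := by exact_mod_cast hPp1.le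
        linarith
      have h5 : L / (p1 * u) ≤ 1 / (400 * C) := h1.trans h2
      calc C * (L / (p1 * u) * 1 * V) ≤ C * (1 / (400 * C) * 1 * V) := by
            gcongr
        _ = _ := by field_simp
    · positivity
  have hGE : ∑ l ∈ EE', G l ≤ C * V * ∑ p ∈ EE', 1 / (p:ℝ) * (L / (L + t - Real.log p)) *
        max 1 (Real.log w / (L + t - Real.log p)) := by
    rw [mul_sum]
    apply sum_le_sum
    intro l hl
    rw [hEE, mem_filter, mem_Ioc] at hl
    have hlQ : l ∉ Q := fun h => by have := (hQ l h).2.2.1; omega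
    refine (hGb l hl.2.1 hl.1.2 hlQ).trans (le_of_eq ?_)
    have hl0 : (0:ℝ) < l := by exact_mod_cast hl.2.1.pos
    have hlz : Real.log l ≤ L := by
      rw [hL]; exact Real.log_le_log hl0 (by exact_mod_cast hl.1.2)
    have hu0' : L + t - Real.log l ≠ 0 := by
      have : 0 < L + t - Real.log l := by linarith
      exact this.ne'
    field_simp
  have hfinal : 1 / 200 * V ≤ C * V * (∑ p ∈ EE', 1 / (p:ℝ) * (L / (L + t - Real.log p)) *
        max 1 (Real.log w / (L + t - Real.log p))) + 1 / 400 * V := by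
    calc _ ≤ _ := hA
      _ ≤ _ := hunion
      _ ≤ _ := add_le_add hGE hGp1
  set Sg := ∑ p ∈ EE', 1 / (p:ℝ) * (L / (L + t - Real.log p)) *
        max 1 (Real.log w / (L + t - Real.log p)) with hSg
  have h1 : V * (1 / 400) ≤ V * (C * Sg) := by
    linarith
  have h2 := le_of_mul_le_mul_left h1 hV0
  rw [div_le_iff₀ (by positivity)]
  linarith

end Pool.Agent.H316R2
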